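import Pool.Agent.H999.Theta3.Base

set_option autoImplicit false

open Matrix

namespace Pool.Agent.H999.Theta3

open Pool.Agent.K1H99.FCC (N0 rv nsq qf af dt PD rad Fp Qm pp tot al be)

open Pool.Agent.K1H99.FCC (sd)

open Pool.Agent.K1H99.FCC (rm rm_mul rm_one rm_det Rep uact nsq_mul_rm rv_mulVec nsq_eq det_sq
  rad_cube rad_pos dt_pos theta_fe summable_gauss exists_reduced)

lemma fin_split {f : (Fin 3 → ℤ) → ℝ} (hf : Summable f) :
    ∑' z, f z = f 0 + ∑' n : N0, f n.1 := by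
  classical
  have h := hf.sum_add_tsum_subtype_compl ({0} : Finset (Fin 3 → ℤ))
  rw [Finset.sum_singleton] at h
  rw [← h]
  congr 1
  exact Equiv.tsum_eq (Equiv.subtypeEquivRight fun x : Fin 3 → ℤ => by simp)
    (fun n : N0 => f n.1)

lemma fin_nsq_smul (M : Matrix (Fin 3) (Fin 3) ℝ) (c : ℝ) (x : Fin 3 → ℝ) :
    nsq (c • M) x = c ^ 2 * nsq M x := by
  unfold nsq
  rw [Finset.mul_sum]
  refine Finset.sum_congr rfl fun i _ => ?_
  rw [Matrix.smul_mulVec, Pi.smul_apply, smul_eq_mul]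
  ring

/-- the theta series of `M` in terms of the dual -/
lemma fin_theta {M B : Matrix (Fin 3) (Fin 3) ℝ} (hBM : Bᵀ * M = 1) (hM : |M.det| = 1) {β : ℝ}
    (hβ : 0 < β) :
    ∑' z : Fin 3 → ℤ, Real.exp (-Real.pi * β * ∑ i, (M.mulVec (fun j => (z j : ℝ)) i) ^ 2) =
      β ^ (-(3 / 2) : ℝ) *
        (1 + ∑' n : N0, Real.exp (-(Real.pi * nsq (Real.sqrt (1 / β) • B) (rv n.1)))) := by
  have hMB : Mᵀ * B = 1 := by
    have := congrArg Matrix.transpose hBM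
    rwa [Matrix.transpose_mul, Matrix.transpose_transpose, Matrix.transpose_one] at this
  have h1 := theta_fe hBM hβ
  have h2 : ∑' z : Fin 3 → ℤ, Real.exp (-Real.pi * β *
      ∑ i, (M.mulVec (fun j => (z j : ℝ)) i) ^ 2) =
      ∑' n : Fin 3 → ℤ, Real.exp (-(Real.pi * β) * nsq M (rv n)) := by
    refine tsum_congr fun z => ?_
    have : nsq M (rv z) = ∑ i, (M.mulVec (fun j => (z j : ℝ)) i) ^ 2 := rfl
    rw [this]
    congr 1
    ring
  rw [h2, h1, hM, inv_one, one_mul]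
  congr 1
  rw [fin_split (summable_gauss hMB (c := Real.pi / β) (div_pos Real.pi_pos hβ))]
  congr 1
  · have h0 : rv (0 : Fin 3 → ℤ) = 0 := by
      funext i
      simp [rv]
    rw [h0]
    unfold nsq
    simp
  · refine tsum_congr fun n => ?_
    rw [fin_nsq_smul, Real.sq_sqrt (by positivity)]
    congr 1
    ring

/-- the sum does not depend on the basis -/
lemma fin_basis {C : Matrix (Fin 3) (Fin 3) ℝ} {p : Fin 6 → ℝ}
    {U : Matrix (Fin 3) (Fin 3) ℤ} (hU : IsUnit U.det) (e : (C * rm U)ᵀ * (C * rm U) = Qm p) :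
    ∑' n : N0, Real.exp (-(Real.pi * nsq C (rv n.1))) = Th p := by
  unfold Th
  rw [← (uact U hU).tsum_eq fun n : N0 => Real.exp (-(Real.pi * nsq C (rv n.1)))]
  refine tsum_congr fun n => ?_
  rw [← nsq_eq e, nsq_mul_rm]
  rfl

lemma fin_Qm_smul (k : ℝ) (p : Fin 6 → ℝ) : Qm (k • p) = k • Qm p := by
  unfold Qm
  ext i j
  fin_cases i <;> fin_cases j <;> simp <;> ring

/-- inverse transpose of the basis of the body-centred lattice, without the scalar -/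
def fin_N : Matrix (Fin 3) (Fin 3) ℝ := !![1, 0, 0; 0, 1, 0; -1, -1, 2]

def fin_U0 : Matrix (Fin 3) (Fin 3) ℤ := !![1, 1, -1; 0, 0, -1; 0, 1, -1]

def fin_U1 : Matrix (Fin 3) (Fin 3) ℤ := !![1, 0, -1; 0, -1, 1; 0, -1, 0]

lemma fin_U01 : fin_U0 * fin_U1 = 1 := by decide

lemma fin_U0_det : IsUnit fin_U0.det := by
  unfold fin_U0
  decide

lemma fin_U1_det : IsUnit fin_U1.det := by
  unfold fin_U1
  decide

lemma fin_rmU0 : rm fin_U0 = !![(1:ℝ), 1, -1; 0, 0, -1; 0, 1, -1] := by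
  unfold rm fin_U0
  ext i j
  fin_cases i <;> fin_cases j <;> simp

lemma fin_NU : fin_N * rm fin_U0 = !![(1:ℝ), 1, -1; 0, 0, -1; -1, 1, 0] := by
  rw [fin_rmU0]
  unfold fin_N
  ext i j
  fin_cases i <;> fin_cases j <;>
    simp [Matrix.mul_apply, Fin.sum_univ_three] <;> norm_num

lemma fin_gram : (fin_N * rm fin_U0)ᵀ * (fin_N * rm fin_U0) = Qm Fp := by
  rw [fin_NU]
  unfold Qm Fp
  ext i j
  fin_cases i <;> fin_cases j <;>
    simp [Matrix.mul_apply, Fin.sum_univ_three]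

lemma fin_dual0 : fin_Nᵀ * (!![(1:ℝ), 0, 1/2; 0, 1, 1/2; 0, 0, 1/2] : Matrix (Fin 3) (Fin 3) ℝ) = 1 := by
  unfold fin_N
  ext i j
  fin_cases i <;> fin_cases j <;>
    simp [Matrix.mul_apply, Fin.sum_univ_three]

lemma fin_detN0 : (!![(1:ℝ), 0, 1/2; 0, 1, 1/2; 0, 0, 1/2] : Matrix (Fin 3) (Fin 3) ℝ).det = 1 / 2 := by
  rw [Matrix.det_fin_three]
  simp

theorem final_of
    (H : ∀ s1 d1 s2 d2 s3 d3 : ℝ, s2 ≤ s1 → s3 ≤ s2 → 0 ≤ d1 → d1 ≤ s1 → 0 ≤ d2 → d2 ≤ s2 →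
      d3 ≤ s3 → -d3 ≤ s3 → PD (sd s1 d1 s2 d2 s3 d3) → 1 < rad (sd s1 d1 s2 d2 s3 d3) →
      RF (rad (sd s1 d1 s2 d2 s3 d3)) ≤ Th (sd s1 d1 s2 d2 s3 d3) ∧
      (RF (rad (sd s1 d1 s2 d2 s3 d3)) = Th (sd s1 d1 s2 d2 s3 d3) →
        sd s1 d1 s2 d2 s3 d3 = (rad (sd s1 d1 s2 d2 s3 d3) / rad Fp) • Fp)) :
    ∀ β : ℝ, 0 < β → β < 1 →
      ∀ A : Matrix (Fin 3) (Fin 3) ℝ, |A.det| = 1 →
        ((∑' z : Fin 3 → ℤ, Real.exp (-Real.pi * β *
            ∑ i, (((2:ℝ) ^ ((1:ℝ)/3) • !![(1:ℝ), 0, 1/2; 0, 1, 1/2; 0, 0, 1/2]).mulVec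
              (fun j => (z j : ℝ)) i) ^ 2))
          ≤ ∑' z : Fin 3 → ℤ, Real.exp (-Real.pi * β *
              ∑ i, (A.mulVec (fun j => (z j : ℝ)) i) ^ 2)) ∧
        ((∑' z : Fin 3 → ℤ, Real.exp (-Real.pi * β *
            ∑ i, (((2:ℝ) ^ ((1:ℝ)/3) • !![(1:ℝ), 0, 1/2; 0, 1, 1/2; 0, 0, 1/2]).mulVec
              (fun j => (z j : ℝ)) i) ^ 2))
          = ∑' z : Fin 3 → ℤ, Real.exp (-Real.pi * β *
              ∑ i, (A.mulVec (fun j => (z j : ℝ)) i) ^ 2) →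
          ∃ R ∈ Matrix.orthogonalGroup (Fin 3) ℝ,
            Set.range (fun z : Fin 3 → ℤ => A.mulVec (fun j => (z j : ℝ))) =
              Set.range (fun z : Fin 3 → ℤ =>
                (R * ((2:ℝ) ^ ((1:ℝ)/3) • !![(1:ℝ), 0, 1/2; 0, 1, 1/2; 0, 0, 1/2])).mulVec
                  (fun j => (z j : ℝ)))) := by
  intro β hβ hβ1 A hA
  set D : ℝ := 1 / β with hD
  have hD0 : 0 < D := by positivity
  have hD1 : 1 < D := by
    rw [hD, lt_div_iff₀ hβ, one_mul]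
    exact hβ1
  set s : ℝ := Real.sqrt D with hs
  have hs0 : 0 < s := Real.sqrt_pos.2 hD0
  have hs2 : s ^ 2 = D := Real.sq_sqrt hD0.le
  set c : ℝ := (2:ℝ) ^ ((1:ℝ)/3) with hc
  have hc0 : 0 < c := Real.rpow_pos_of_pos (by norm_num) _
  have hc3 : c ^ 3 = 2 := by
    rw [hc, ← Real.rpow_natCast, ← Real.rpow_mul (by norm_num)]
    norm_num
  set N : Matrix (Fin 3) (Fin 3) ℝ := !![(1:ℝ), 0, 1/2; 0, 1, 1/2; 0, 0, 1/2] with hN
  -- the lattice `A`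
  have hA0 : A.det ≠ 0 := by
    intro h
    rw [h, abs_zero] at hA
    norm_num at hA
  have hu : IsUnit A.det := isUnit_iff_ne_zero.2 hA0
  set B : Matrix (Fin 3) (Fin 3) ℝ := (A⁻¹)ᵀ with hB
  have hBA : Bᵀ * A = 1 := by
    rw [hB, Matrix.transpose_transpose, Matrix.nonsing_inv_mul _ hu]
  have hBd : |B.det| = 1 := by
    have h1 := congrArg Matrix.det hBA
    rw [Matrix.det_mul, Matrix.det_transpose, Matrix.det_one] at h1
    have h2 := congrArg abs h1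
    rw [abs_mul, hA, mul_one, abs_one] at h2
    exact h2
  have hTA := fin_theta hBA hA hβ
  -- the reduced basis
  have hCd : (s • B).det ^ 2 = D ^ 3 := by
    rw [Matrix.det_smul, Fintype.card_fin, mul_pow, ← sq_abs B.det, hBd, ← hs2]
    ring
  have hC0 : (s • B).det ≠ 0 := by
    intro h
    rw [h] at hCd
    have : 0 < D ^ 3 := by positivity
    rw [← hCd] at this
    norm_num at this
  obtain ⟨s1, d1, s2, d2, s3, d3, ⟨U, hU, e⟩, c1, c2, c3, c4, c5, c6, c7, c8⟩ :=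
    exists_reduced (s • B) hC0
  have hsum := fin_basis hU e
  have hdX : ((s • B) * rm U).det ^ 2 = D ^ 3 := by
    rw [Matrix.det_mul, rm_det, mul_pow, hCd]
    rcases Int.isUnit_iff.1 hU with h | h <;> rw [h] <;> norm_num
  have hX0 : ((s • B) * rm U).det ≠ 0 := by
    intro h
    rw [h] at hdX
    have : 0 < D ^ 3 := by positivity
    rw [← hdX] at this
    norm_num at this
  have hpd : PD (sd s1 d1 s2 d2 s3 d3) := ⟨_, e, hX0⟩
  have hdt : dt (sd s1 d1 s2 d2 s3 d3) = D ^ 3 := by rw [← det_sq e, hdX]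
  have hrad : rad (sd s1 d1 s2 d2 s3 d3) = D := by
    refine (pow_left_inj₀ (rad_pos (dt_pos hpd)).le hD0.le (three_ne_zero)).1 ?_
    rw [rad_cube (dt_pos hpd).le, hdt]
  obtain ⟨hle, heq⟩ := H s1 d1 s2 d2 s3 d3 c1 c2 c3 c4 c5 c6 c7 c8 hpd (by rw [hrad]; exact hD1)
  rw [hrad] at hle heq
  set p := sd s1 d1 s2 d2 s3 d3 with hp
  -- the lattice `A0`
  have hB0A0 : (c⁻¹ • fin_N)ᵀ * (c • N) = 1 := by
    rw [Matrix.transpose_smul, Matrix.smul_mul, Matrix.mul_smul, smul_smul, inv_mul_cancel₀ hc0.ne',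
      one_smul]
    exact fin_dual0
  have hA0d : |(c • N).det| = 1 := by
    rw [Matrix.det_smul, Fintype.card_fin, hc3, hN, fin_detN0]
    norm_num
  have hTA0 := fin_theta hB0A0 hA0d hβ
  have hFd : dt Fp = 4 := by
    unfold dt Fp
    simp
    norm_num
  have hrF : 0 < rad Fp := rad_pos (by rw [hFd]; norm_num)
  have hradF : rad Fp = c ^ 2 := by
    refine (pow_left_inj₀ hrF.le (by positivity) (three_ne_zero)).1 ?_
    rw [rad_cube (by rw [hFd]; norm_num), hFd]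
    have : (c ^ 2) ^ 3 = (c ^ 3) ^ 2 := by ring
    rw [this, hc3]
    norm_num
  have e0 : ((s • (c⁻¹ • fin_N)) * rm fin_U0)ᵀ * ((s • (c⁻¹ • fin_N)) * rm fin_U0) =
      (D / rad Fp) • Qm Fp := by
    rw [← fin_gram, smul_smul, Matrix.smul_mul, Matrix.transpose_smul, Matrix.smul_mul,
      Matrix.mul_smul, smul_smul, hradF, ← hs2]
    congr 1
    field_simp
  have hsum0 : ∑' n : N0, Real.exp (-(Real.pi * nsq (s • (c⁻¹ • fin_N)) (rv n.1))) = RF D := by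
    rw [fin_basis fin_U0_det (p := (D / rad Fp) • Fp) (by rw [e0, fin_Qm_smul])]
    unfold Th RF
    refine tsum_congr fun n => ?_
    congr 3
    unfold qf
    simp only [Pi.smul_apply, smul_eq_mul]
    field_simp
  rw [hTA, hTA0, ← hD, ← hs, hsum0, hsum]
  have hβp : 0 < β ^ (-(3 / 2) : ℝ) := Real.rpow_pos_of_pos hβ _
  refine ⟨by gcongr, fun h => ?_⟩
  have h1 : RF D = Th p := by
    have := mul_left_cancel₀ hβp.ne' h
    linarith
  have h2 := heq h1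
  -- the two Gram matrices agree
  rw [h2, fin_Qm_smul, ← e0] at e
  set X : Matrix (Fin 3) (Fin 3) ℝ := (s • B) * rm U with hX
  set Y : Matrix (Fin 3) (Fin 3) ℝ := (s • (c⁻¹ • fin_N)) * rm fin_U0 with hY
  have hYd : Y.det ≠ 0 := by
    intro h0
    have h3 := congrArg Matrix.det e
    rw [Matrix.det_mul Xᵀ X, Matrix.det_transpose X, Matrix.det_mul Yᵀ Y, Matrix.det_transpose Y,
      h0, mul_zero] at h3
    exact hX0 (mul_self_eq_zero.1 h3)
  have hYu : IsUnit Y.det := isUnit_iff_ne_zero.2 hYd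
  have hYY : Y * Y⁻¹ = 1 := Matrix.mul_nonsing_inv _ hYu
  have hYY' : Y⁻¹ * Y = 1 := Matrix.nonsing_inv_mul _ hYu
  set R : Matrix (Fin 3) (Fin 3) ℝ := X * Y⁻¹ with hR
  have hRX : R * Y = X := by rw [hR, Matrix.mul_assoc, hYY', Matrix.mul_one]
  have hRR : Rᵀ * R = 1 := by
    rw [hR, Matrix.transpose_mul]
    calc Y⁻¹ᵀ * Xᵀ * (X * Y⁻¹) = Y⁻¹ᵀ * (Xᵀ * X) * Y⁻¹ := by simp only [Matrix.mul_assoc]
      _ = (Y * Y⁻¹)ᵀ * (Y * Y⁻¹) := by
        rw [e, Matrix.transpose_mul Y Y⁻¹]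
        simp only [Matrix.mul_assoc]
      _ = 1 := by rw [hYY, Matrix.transpose_one, Matrix.one_mul]
  have hRR' : R * Rᵀ = 1 := mul_eq_one_comm.1 hRR
  -- the relation of the bases
  have h3 : B * rm U = R * ((c⁻¹ • fin_N) * rm fin_U0) := by
    have h4 : s • (B * rm U) = s • (R * ((c⁻¹ • fin_N) * rm fin_U0)) := by
      rw [← Matrix.smul_mul, ← Matrix.mul_smul, ← Matrix.smul_mul]
      exact hRX.symm
    exact smul_right_injective _ hs0.ne' h4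
  have h5 : (rm U)ᵀ = (rm fin_U0)ᵀ * ((c⁻¹ • fin_N)ᵀ * (Rᵀ * A)) := by
    have h6 := congrArg (fun M => Mᵀ * A) h3
    simp only [Matrix.transpose_mul] at h6
    rw [Matrix.mul_assoc, hBA, Matrix.mul_one] at h6
    rw [h6]
    simp only [Matrix.mul_assoc]
  set V : Matrix (Fin 3) (Fin 3) ℤ := fin_U1ᵀ * Uᵀ with hV
  have hrmT : ∀ M : Matrix (Fin 3) (Fin 3) ℤ, rm Mᵀ = (rm M)ᵀ := fun M => by
    unfold rm
    exact Matrix.transpose_map
  have hU1 : (rm fin_U1)ᵀ * (rm fin_U0)ᵀ = 1 := by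
    rw [← Matrix.transpose_mul, ← rm_mul, fin_U01, rm_one, Matrix.transpose_one]
  have h7 : (c⁻¹ • fin_N)ᵀ * (Rᵀ * A) = rm V := by
    rw [hV, rm_mul, hrmT, hrmT, h5, ← Matrix.mul_assoc (rm fin_U1)ᵀ (rm fin_U0)ᵀ, hU1,
      Matrix.one_mul]
  have h8 : Rᵀ * A = (c • N) * rm V := by
    rw [← h7, ← Matrix.mul_assoc (c • N) (c⁻¹ • fin_N)ᵀ, mul_eq_one_comm.1 hB0A0, Matrix.one_mul]
  have h9 : A = R * (c • N) * rm V := by
    rw [Matrix.mul_assoc R (c • N), ← h8, ← Matrix.mul_assoc R Rᵀ, hRR', Matrix.one_mul]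
  have hVd : IsUnit V.det := by
    rw [hV, Matrix.det_mul, Matrix.det_transpose, Matrix.det_transpose]
    refine IsUnit.mul ?_ hU
    exact fin_U1_det
  refine ⟨R, ?_, ?_⟩
  · rw [Matrix.mem_orthogonalGroup_iff]
    exact hRR'
  · ext v
    constructor
    · rintro ⟨z, rfl⟩
      refine ⟨V.mulVec z, ?_⟩
      show (R * (c • N)).mulVec (rv (V.mulVec z)) = A.mulVec (rv z)
      rw [rv_mulVec, Matrix.mulVec_mulVec, ← h9]
    · rintro ⟨z, rfl⟩
      refine ⟨V⁻¹.mulVec z, ?_⟩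
      show A.mulVec (rv (V⁻¹.mulVec z)) = (R * (c • N)).mulVec (rv z)
      have h11 : A.mulVec (rv (V⁻¹.mulVec z)) = (R * (c • N)).mulVec (rv (V.mulVec (V⁻¹.mulVec z)))
        := by
        rw [rv_mulVec V, Matrix.mulVec_mulVec, ← h9]
      rw [h11, Matrix.mulVec_mulVec, Matrix.mul_nonsing_inv _ hVd, Matrix.one_mulVec]

end Pool.Agent.H999.Theta3
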