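import Pool.Agent.H999.Theta3.Base

set_option autoImplicit false

open Matrix

namespace Pool.Agent.H999.Theta3

open Pool.Agent.K1H99.FCC (N0 rv nsq qf af dt PD rad Fp Qm pp tot al be)
open Pool.Agent.K1H99.FCC (rad_sum rad_cube rad_nonneg dt_nonneg nsq_eq summable_gauss two_sum_le
  sgv qf_neg)

theorem cl_sum_first {ι V : Type*} [AddCommMonoid V] [Module ℝ V] (f : V → ℝ)
    (hadd : ∀ x y, f (x + y) = f x + f y) (hsm : ∀ (c : ℝ) x, f (c • x) = c * f x)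
    (s : Finset ι) (l : ι → ℝ) (v : ι → V) :
    f (∑ i ∈ s, l i • v i) = ∑ i ∈ s, l i * f (v i) := by
  let F : V →ₗ[ℝ] ℝ :=
    { toFun := f, map_add' := hadd, map_smul' := fun c x => by rw [hsm]; rfl }
  have h : F (∑ i ∈ s, l i • v i) = ∑ i ∈ s, l i * F (v i) := by
    rw [map_sum]
    refine Finset.sum_congr rfl fun i _ => ?_
    rw [map_smul, smul_eq_mul]
  exact h

theorem cl_qf_sum (l : Fin 6 → ℝ) (w : Fin 6 → Fin 6 → ℝ) (x : Fin 3 → ℝ) :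
    qf (∑ i, l i • w i) x = ∑ i, l i * qf (w i) x :=
  cl_sum_first (fun p => qf p x) (fun p q => by simp only [qf, Pi.add_apply]; ring)
    (fun c p => by simp only [qf, Pi.smul_apply, smul_eq_mul]; ring) _ l w

theorem cl_summable {p : Fin 6 → ℝ} (h : PD p) :
    Summable fun n : N0 => Real.exp (-(Real.pi * qf p (rv n.1))) := by
  obtain ⟨A, hA, hd⟩ := h
  have hu : IsUnit A.det := isUnit_iff_ne_zero.2 hd
  have hBA : ((A⁻¹)ᵀ)ᵀ * A = 1 := by
    rw [Matrix.transpose_transpose, Matrix.nonsing_inv_mul _ hu]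
  refine ((summable_gauss hBA (c := Real.pi) Real.pi_pos).subtype {n : Fin 3 → ℤ | n ≠ 0}).congr
    fun k => ?_
  show Real.exp (-Real.pi * nsq A (rv k.1)) = _
  rw [nsq_eq hA]
  congr 1
  ring

theorem cl_ZZ0 : ∀ s, sgv ZZ s ≠ 0 := by decide +kernel

theorem cl_ZZi : Function.Injective (sgv ZZ) := by decide +kernel

theorem cl_Th {p : Fin 6 → ℝ} (h : PD p) :
    2 * ∑ z, Real.exp (-(Real.pi * qf p (rv (ZZ z)))) ≤ Th p :=
  two_sum_le ZZ cl_ZZ0 cl_ZZi (fun n => Real.exp (-(Real.pi * qf p (rv n))))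
    (fun n => by simp only [qf_neg]) (fun n => (Real.exp_pos _).le) (cl_summable h)

theorem cl_wv_nonneg (w : W) (k : Fin 6) : 0 ≤ wv w k := by
  unfold wv
  fin_cases k <;> exact Nat.cast_nonneg _

theorem cl_rad_wv {w : W} (h : Val w) : (w.g : ℝ) ≤ rad (wv w) := by
  refine le_of_pow_le_pow_left₀ (three_ne_zero) (rad_nonneg (cl_wv_nonneg w)) ?_
  have h0 : dt (wv w) = detN w.a w.b w.c w.d w.e w.f := by
    unfold dt wv detN
    simp [Nat.add_eq, Nat.mul_eq]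
    ring
  rw [rad_cube (dt_nonneg (cl_wv_nonneg w)), h0]
  have h1 : ((w.g * w.g * w.g : ℕ) : ℝ) ≤ (detN w.a w.b w.c w.d w.e w.f : ℕ) := by
    exact_mod_cast h.1
  push_cast at h1
  calc (w.g : ℝ) ^ 3 = w.g * w.g * w.g := by ring
    _ ≤ _ := h1

/-- the main estimate -/
theorem cl_core (a b : Fin 25 → ℝ) (v : Fin 6 → W) (τ : ℝ)
    (hl : ∀ z, Line (a z) (b z)) (hv : ∀ i, Val (v i))
    (hvert : ∀ i, ∑ z, b z * qf (wv (v i)) (rv (ZZ z)) ≤ τ * ((v i).g : ℝ))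
    (l : Fin 6 → ℝ) (h0 : ∀ i, 0 ≤ l i) (hp : PD (∑ i, l i • wv (v i))) :
    ∃ s : ℝ, s ≤ rad (∑ i, l i • wv (v i)) ∧ ∀ c : ℝ,
      2 * ∑ z, a z - 2 * Real.pi * τ * s + 2 * c * ∑ z, b z ≤
        2 ^ 40 * Real.exp c * Th (∑ i, l i • wv (v i)) := by
  refine ⟨∑ i, l i * ((v i).g : ℝ), ?_, fun c => ?_⟩
  · refine le_trans ?_ (rad_sum Finset.univ l (fun i => wv (v i)) h0 fun i => cl_wv_nonneg _)
    exact Finset.sum_le_sum fun i _ => mul_le_mul_of_nonneg_left (cl_rad_wv (hv i)) (h0 i)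
  · set p := ∑ i, l i • wv (v i) with hpd
    have h1 := cl_Th hp
    have hH : ∑ z, b z * qf p (rv (ZZ z)) ≤ τ * ∑ i, l i * ((v i).g : ℝ) := by
      have e1 : ∑ z, b z * qf p (rv (ZZ z)) =
          ∑ i, l i * ∑ z, b z * qf (wv (v i)) (rv (ZZ z)) := by
        simp_rw [hpd, cl_qf_sum, Finset.mul_sum]
        rw [Finset.sum_comm]
        refine Finset.sum_congr rfl fun i _ => Finset.sum_congr rfl fun z _ => by ring
      rw [e1, Finset.mul_sum]
      refine Finset.sum_le_sum fun i _ => ?_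
      have := mul_le_mul_of_nonneg_left (hvert i) (h0 i)
      linarith
    have h2 : ∑ z, (a z - b z * (Real.pi * qf p (rv (ZZ z)) - c)) ≤
        ∑ z, 2 ^ 40 * Real.exp (-(Real.pi * qf p (rv (ZZ z)) - c)) :=
      Finset.sum_le_sum fun z _ => hl z _
    have h3 : ∑ z, 2 ^ 40 * Real.exp (-(Real.pi * qf p (rv (ZZ z)) - c)) =
        2 ^ 40 * Real.exp c * ∑ z, Real.exp (-(Real.pi * qf p (rv (ZZ z)))) := by
      rw [Finset.mul_sum]
      refine Finset.sum_congr rfl fun z _ => ?_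
      rw [mul_assoc, ← Real.exp_add]
      congr 2
      ring
    have h4 : ∑ z, (a z - b z * (Real.pi * qf p (rv (ZZ z)) - c)) =
        ∑ z, a z - Real.pi * ∑ z, b z * qf p (rv (ZZ z)) + c * ∑ z, b z := by
      rw [Finset.mul_sum, Finset.mul_sum, ← Finset.sum_sub_distrib, ← Finset.sum_add_distrib]
      refine Finset.sum_congr rfl fun z _ => ?_
      ring
    rw [h3, h4] at h2
    have h5 : 0 ≤ 2 ^ 40 * Real.exp c := by positivity
    have h6 := mul_le_mul_of_nonneg_left h1 h5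
    have h7 := mul_le_mul_of_nonneg_left hH Real.pi_pos.le
    linarith

/-- the analytic lemma for a cell: `s1 ≤ s2` are the two ends of the interval of scales -/
theorem cell_fin (hanti : ∀ s t : ℝ, 1 ≤ s → s ≤ t → RF t ≤ RF s)
    (hchord : ∀ s1 s2 s : ℝ, 1 ≤ s1 → s1 < s2 → s1 ≤ s → s ≤ s2 →
      RF s * Real.exp (Real.pi * (12599 / 10000) * (s - s1)) ≤ ((s2 - s) * RF s1 + (s - s1) *
        (RF s2 * Real.exp (Real.pi * (12599 / 10000) * (s2 - s1)))) / (s2 - s1))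
    (a b : Fin 25 → ℝ) (v : Fin 6 → W) (s1 s2 τ R1 R2 : ℝ)
    (hl : ∀ z, Line (a z) (b z)) (hb : ∀ z, 0 ≤ b z) (hv : ∀ i, Val (v i)) (h1 : 1 ≤ s1) (h12 : s1 < s2)
    (hτ : 0 ≤ τ) (hvert : ∀ i, ∑ z, b z * qf (wv (v i)) (rv (ZZ z)) ≤ τ * ((v i).g : ℝ))
    (hR1 : 2 ^ 40 * RF s1 ≤ R1) (hL1 : R1 < 2 * ∑ z, a z - 2 * Real.pi * τ * s1)
    (hR2 : 2 ^ 40 * (RF s2 * Real.exp (Real.pi * (12599 / 10000) * (s2 - s1))) ≤ R2)
    (hL2 : R2 < 2 * ∑ z, a z - 2 * Real.pi * τ * s2 + 2 * Real.pi * (12599 / 10000) * (s2 - s1) * ∑ z, b z)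
    (l : Fin 6 → ℝ) (h0 : ∀ i, 0 ≤ l i) (hp : PD (∑ i, l i • wv (v i)))
    (hr : s1 ≤ rad (∑ i, l i • wv (v i))) :
    RF (rad (∑ i, l i • wv (v i))) < Th (∑ i, l i • wv (v i)) ∨ s2 ≤ rad (∑ i, l i • wv (v i)) := by
  obtain ⟨s, hs, hc⟩ := cl_core a b v τ hl hv hvert l h0 hp
  set p := ∑ i, l i • wv (v i) with hpd
  have hpi := Real.pi_pos
  have hpt : 0 ≤ Real.pi * τ := mul_nonneg hpi.le hτ
  rcases le_or_gt s s1 with h3 | h3
  · left
    have h4 := hc 0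
    have h5 := hanti s1 (rad p) h1 hr
    have h6 := mul_le_mul_of_nonneg_left h3 hpt
    rw [Real.exp_zero] at h4
    linarith
  rcases le_or_gt s2 s with h4 | h4
  · right
    linarith
  left
  have h5 := hc (Real.pi * (12599 / 10000) * (s - s1))
  set E := Real.exp (Real.pi * (12599 / 10000) * (s - s1)) with hE
  have hE0 : 0 < E := Real.exp_pos _
  have h6 := hchord s1 s2 s h1 h12 h3.le h4.le
  rw [le_div_iff₀ (by linarith)] at h6
  have h7 := hanti s (rad p) (by linarith) hs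
  have e1 := mul_lt_mul_of_pos_left (lt_of_le_of_lt hR1 hL1) (sub_pos.2 h4)
  have e2 := mul_lt_mul_of_pos_left (lt_of_le_of_lt hR2 hL2) (sub_pos.2 h3)
  have e3 := mul_le_mul_of_nonneg_left h5 (sub_pos.2 h12).le
  have e4 : (s2 - s1) * (2 ^ 40 * E * RF s) < (s2 - s1) * (2 ^ 40 * E * Th p) := by
    nlinarith
  have e5 : RF s < Th p := by
    have e6 := lt_of_mul_lt_mul_left e4 (sub_pos.2 h12).le
    exact lt_of_mul_lt_mul_left e6 (by positivity)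
  linarith

/-- the analytic lemma for a cell and an infinite interval of scales -/
theorem cell_inf (hanti : ∀ s t : ℝ, 1 ≤ s → s ≤ t → RF t ≤ RF s)
    (hdec : ∀ s1 s : ℝ, 1 ≤ s1 → s1 ≤ s →
      RF s * Real.exp (Real.pi * (12599 / 10000) * (s - s1)) ≤ RF s1)
    (a b : Fin 25 → ℝ) (v : Fin 6 → W) (s1 τ R1 : ℝ)
    (hl : ∀ z, Line (a z) (b z)) (hb : ∀ z, 0 ≤ b z) (hv : ∀ i, Val (v i)) (h1 : 1 ≤ s1)
    (hτ : 0 ≤ τ) (hvert : ∀ i, ∑ z, b z * qf (wv (v i)) (rv (ZZ z)) ≤ τ * ((v i).g : ℝ))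
    (hR1 : 2 ^ 40 * RF s1 ≤ R1) (hL1 : R1 < 2 * ∑ z, a z - 2 * Real.pi * τ * s1)
    (hL2 : τ ≤ 12599 / 10000 * ∑ z, b z)
    (l : Fin 6 → ℝ) (h0 : ∀ i, 0 ≤ l i) (hp : PD (∑ i, l i • wv (v i)))
    (hr : s1 ≤ rad (∑ i, l i • wv (v i))) :
    RF (rad (∑ i, l i • wv (v i))) < Th (∑ i, l i • wv (v i)) := by
  obtain ⟨s, hs, hc⟩ := cl_core a b v τ hl hv hvert l h0 hp
  set p := ∑ i, l i • wv (v i) with hpd
  have hpi := Real.pi_pos
  have hpt : 0 ≤ Real.pi * τ := mul_nonneg hpi.le hτ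
  rcases le_or_gt s s1 with h3 | h3
  · have h4 := hc 0
    have h5 := hanti s1 (rad p) h1 hr
    have h6 := mul_le_mul_of_nonneg_left h3 hpt
    rw [Real.exp_zero] at h4
    linarith
  have h5 := hc (Real.pi * (12599 / 10000) * (s - s1))
  have h6 := hdec s1 s h1 h3.le
  set E := Real.exp (Real.pi * (12599 / 10000) * (s - s1)) with hE
  have hE0 : 0 < E := Real.exp_pos _
  have h7 := hanti s (rad p) (by linarith) hs
  have e1 := mul_le_mul_of_nonneg_left hL2 (mul_nonneg hpi.le (sub_pos.2 h3).le)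
  have e4 : 2 ^ 40 * E * RF s < 2 ^ 40 * E * Th p := by
    nlinarith
  have e5 : RF s < Th p := lt_of_mul_lt_mul_left e4 (by positivity)
  linarith

end Pool.Agent.H999.Theta3
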