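import Pool.Agent.H999.Theta3.Base

set_option autoImplicit false

open Matrix

namespace Pool.Agent.H999.Theta3

open Pool.Agent.K1H99.FCC (N0 rv nsq qf af dt PD rad Fp Qm pp tot al be)

lemma ra_PD_Fp : PD Fp := Pool.Agent.K1H99.FCC.PD_Fp

lemma ra_PD_Bp : PD Bp := by
  refine Pool.Agent.K1H99.FCC.pd_of_dt (fun i => ?_) ?_
  · unfold Bp; norm_num
  · unfold dt Bp; norm_num

lemma ra_summable {p : Fin 6 → ℝ} (h : PD p) {s : ℝ} (hs : 0 < s) :
    Summable fun n : N0 => Real.exp (-(Real.pi * (s * (qf p (rv n.1) / rad p)))) := by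
  obtain ⟨A, hA, hd⟩ := h
  obtain ⟨A', B', h1, h2, h3, h4⟩ := Pool.Agent.K1H99.FCC.normalise hA hd
  have h5 := Pool.Agent.K1H99.FCC.summable_gauss h1 (c := Real.pi * s)
    (mul_pos Real.pi_pos hs)
  have h6 := h5.comp_injective (i := fun n : N0 => n.1) Subtype.val_injective
  refine h6.congr fun n => ?_
  simp only [Function.comp_apply]
  rw [h3]
  congr 1
  ring

lemma ra_pos {p : Fin 6 → ℝ} (h : PD p) (n : N0) : 0 < qf p (rv n.1) / rad p := by
  have h1 := (Pool.Agent.K1H99.FCC.lam_pos h n).1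
  exact (mul_pos_iff_of_pos_left Real.pi_pos).1 h1

lemma ra_q_ge (n : N0) : 12599 / 10000 ≤ qf Fp (rv n.1) / rad Fp := by
  have h0 := Pool.Agent.K1H99.FCC.rad_Fp_pos
  obtain ⟨-, h1⟩ := Pool.Agent.K1H99.FCC.rF_bounds
  have hq : (2 : ℝ) ≤ qf Fp (rv n.1) := by
    rw [Pool.Agent.K1H99.FCC.qf_Fp, ← Pool.Agent.K1H99.FCC.nz_JG]
    have h2 := Pool.Agent.K1H99.FCC.nz_JG_ne n
    have h3 : Pool.Agent.K1H99.FCC.nz (Pool.Agent.K1H99.FCC.JG n) ≠ 1 := by
      intro hc
      have hc' : (Pool.Agent.K1H99.FCC.nz (Pool.Agent.K1H99.FCC.JG n) : ℤ) = 1 := by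
        exact_mod_cast hc
      unfold Pool.Agent.K1H99.FCC.nz Pool.Agent.K1H99.FCC.JG at hc'
      rw [Int.toNat_of_nonneg (by positivity)] at hc'
      simp only at hc'
      have h4 : (2 : ℤ) ∣ 1 := by
        rw [← hc']
        refine ⟨n.1 0 ^ 2 + n.1 1 ^ 2 + n.1 2 ^ 2 - n.1 0 * n.1 2 - n.1 1 * n.1 2, ?_⟩
        ring
      omega
    have h5 : 2 ≤ Pool.Agent.K1H99.FCC.nz (Pool.Agent.K1H99.FCC.JG n) := by omega
    exact_mod_cast h5
  rw [le_div_iff₀ h0]
  nlinarith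

lemma ra_anti {p : Fin 6 → ℝ} (h : PD p) {s t : ℝ} (hs : 0 < s) (hst : s ≤ t) :
    ∑' n : N0, Real.exp (-(Real.pi * (t * (qf p (rv n.1) / rad p)))) ≤
      ∑' n : N0, Real.exp (-(Real.pi * (s * (qf p (rv n.1) / rad p)))) := by
  refine Summable.tsum_le_tsum (fun n => ?_) (ra_summable h (hs.trans_le hst)) (ra_summable h hs)
  rw [Real.exp_le_exp, neg_le_neg_iff]
  exact mul_le_mul_of_nonneg_left (mul_le_mul_of_nonneg_right hst (ra_pos h n).le) Real.pi_pos.le

theorem RF_anti (s t : ℝ) (hs : 0 < s) (hst : s ≤ t) : RF t ≤ RF s := by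
  unfold RF
  exact ra_anti ra_PD_Fp hs hst

lemma ra_conv {a b x y z : ℝ} (hxy : x < y) (h1 : x ≤ z) (h2 : z ≤ y) :
    Real.exp (a + b * z) ≤
      ((y - z) * Real.exp (a + b * x) + (z - x) * Real.exp (a + b * y)) / (y - x) := by
  have hd : 0 < y - x := by linarith
  have c1 : 0 ≤ (y - z) / (y - x) := div_nonneg (by linarith) hd.le
  have c2 : 0 ≤ (z - x) / (y - x) := div_nonneg (by linarith) hd.le
  have c3 : (y - z) / (y - x) + (z - x) / (y - x) = 1 := by
    rw [← add_div, div_eq_one_iff_eq hd.ne']; ring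
  have h := convexOn_exp.2 (Set.mem_univ (a + b * x)) (Set.mem_univ (a + b * y)) c1 c2 c3
  simp only [smul_eq_mul] at h
  have e : (y - z) / (y - x) * (a + b * x) + (z - x) / (y - x) * (a + b * y) = a + b * z := by
    field_simp
    ring
  rw [e] at h
  refine h.trans (le_of_eq ?_)
  ring

theorem RF_chord (s1 s2 s : ℝ) (h1 : 0 < s1) (h12 : s1 < s2) (h : s1 ≤ s) (h' : s ≤ s2) :
    RF s * Real.exp (Real.pi * (12599 / 10000) * (s - s1)) ≤ ((s2 - s) * RF s1 + (s - s1) *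
        (RF s2 * Real.exp (Real.pi * (12599 / 10000) * (s2 - s1)))) / (s2 - s1) := by
  have hs0 : 0 < s := h1.trans_le h
  have hs2 : 0 < s2 := h1.trans h12
  have e0 := (ra_summable ra_PD_Fp hs0).mul_right
    (Real.exp (Real.pi * (12599 / 10000) * (s - s1)))
  have e1 := (ra_summable ra_PD_Fp h1).mul_left (s2 - s)
  have e2 := ((ra_summable ra_PD_Fp hs2).mul_right
    (Real.exp (Real.pi * (12599 / 10000) * (s2 - s1)))).mul_left (s - s1)
  have e3 := (e1.add e2).div_const (s2 - s1)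
  unfold RF
  rw [← tsum_mul_right, ← tsum_mul_right, ← tsum_mul_left, ← tsum_mul_left,
    ← e1.tsum_add e2, ← tsum_div_const]
  refine Summable.tsum_le_tsum (fun n => ?_) e0 e3
  have hc := ra_conv (a := -(Real.pi * (s1 * (12599 / 10000))))
    (b := Real.pi * (12599 / 10000) - Real.pi * (qf Fp (rv n.1) / rad Fp)) h12 h h'
  set q : ℝ := qf Fp (rv n.1) / rad Fp with hq
  have key : ∀ z : ℝ, Real.exp (-(Real.pi * (z * q))) *
      Real.exp (Real.pi * (12599 / 10000) * (z - s1)) =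
      Real.exp (-(Real.pi * (s1 * (12599 / 10000))) +
        (Real.pi * (12599 / 10000) - Real.pi * q) * z) := by
    intro z
    rw [← Real.exp_add]
    congr 1
    ring
  rw [key s, key s2]
  have k1 : Real.exp (-(Real.pi * (s1 * q))) =
      Real.exp (-(Real.pi * (s1 * (12599 / 10000))) +
        (Real.pi * (12599 / 10000) - Real.pi * q) * s1) := by
    congr 1
    ring
  rw [k1]
  exact hc

theorem RF_dec (s1 s : ℝ) (h1 : 0 < s1) (h : s1 ≤ s) :
    RF s * Real.exp (Real.pi * (12599 / 10000) * (s - s1)) ≤ RF s1 := by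
  have hs0 : 0 < s := h1.trans_le h
  have e0 := (ra_summable ra_PD_Fp hs0).mul_right
    (Real.exp (Real.pi * (12599 / 10000) * (s - s1)))
  unfold RF
  rw [← tsum_mul_right]
  refine Summable.tsum_le_tsum (fun n => ?_) e0 (ra_summable ra_PD_Fp h1)
  have hq := ra_q_ge n
  set q : ℝ := qf Fp (rv n.1) / rad Fp with hq'
  rw [← Real.exp_add, Real.exp_le_exp]
  have h2 : 0 ≤ Real.pi * ((s - s1) * (q - 12599 / 10000)) :=
    mul_nonneg Real.pi_pos.le (mul_nonneg (by linarith) (by linarith))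
  nlinarith

theorem RB_anti (s t : ℝ) (hs : 0 < s) (hst : s ≤ t) : RB t ≤ RB s := by
  unfold RB
  exact ra_anti ra_PD_Bp hs hst


end Pool.Agent.H999.Theta3
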