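import Pool.Agent.H999.Theta3.Base

set_option autoImplicit false

open Matrix

namespace Pool.Agent.H999.Theta3

open Pool.Agent.K1H99.FCC (N0 rv nsq qf af dt PD rad Fp Qm pp tot al be)

lemma go_frc_eq {α : Type} (n : Nat) (k : Nat → α) : frc n k = k n := by
  cases n <;> rfl

lemma go_frz_ne {n : Nat} {k : Nat → Nat} (h : frz n k ≠ 0) : n ≠ 0 ∧ k n ≠ 0 := by
  cases n with
  | zero => exact absurd rfl h
  | succ m => exact ⟨Nat.succ_ne_zero m, h⟩

lemma go_bif {b : Bool} {x : Nat} (h : (bif b then x else 0) ≠ 0) : b = true ∧ x ≠ 0 := by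
  cases b with
  | false => exact absurd rfl h
  | true => exact ⟨rfl, h⟩

lemma go_par {a b c d e f a' b' c' d' e' f' : ℕ}
    (hv : a + b + c + d + e + f = 12884901888) (hw : a' + b' + c' + d' + e' + f' = 12884901888)
    (hs : (a + a') / 2 + ((b + b') / 2 + ((c + c') / 2 + ((d + d') / 2 +
      ((e + e') / 2 + (f + f') / 2)))) = 12884901888) :
    (2 * ((a + a') / 2) = a + a' ∧ 2 * ((b + b') / 2) = b + b' ∧ 2 * ((c + c') / 2) = c + c' ∧
      2 * ((d + d') / 2) = d + d' ∧ 2 * ((e + e') / 2) = e + e' ∧ 2 * ((f + f') / 2) = f + f') ∧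
    (a + a') / 2 + (b + b') / 2 + (c + c') / 2 + (d + d') / 2 + (e + e') / 2 + (f + f') / 2 =
      12884901888 := by
  have h1 := Nat.div_add_mod (a + a') 2
  have h2 := Nat.div_add_mod (b + b') 2
  have h3 := Nat.div_add_mod (c + c') 2
  have h4 := Nat.div_add_mod (d + d') 2
  have h5 := Nat.div_add_mod (e + e') 2
  have h6 := Nat.div_add_mod (f + f') 2
  generalize (a + a') / 2 = A at *
  generalize (b + b') / 2 = B at *
  generalize (c + c') / 2 = C at *
  generalize (d + d') / 2 = D at *
  generalize (e + e') / 2 = E at *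
  generalize (f + f') / 2 = F at *
  generalize (a + a') % 2 = A' at *
  generalize (b + b') % 2 = B' at *
  generalize (c + c') % 2 = C' at *
  generalize (d + d') % 2 = D' at *
  generalize (e + e') % 2 = E' at *
  generalize (f + f') % 2 = F' at *
  have h7 : A' + B' + C' + D' + E' + F' = 0 := by linarith
  have hA : A' = 0 := by omega
  have hB : B' = 0 := by omega
  have hC : C' = 0 := by omega
  have hD : D' = 0 := by omega
  have hE : E' = 0 := by omega
  have hF : F' = 0 := by omega
  subst hA hB hC hD hE hF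
  clear h7 hv hw
  refine ⟨⟨h1, h2, h3, h4, h5, h6⟩, ?_⟩
  rw [← hs]
  ring

lemma go_mid_spec (v w : W) (g : Nat) (k : W → Nat) (hv : Val v) (hw : Val w)
    (h : mid v w g k ≠ 0) : ∃ m, Val m ∧ (2:ℝ) • wv m = wv v + wv w ∧ mid v w g k = k m := by
  unfold mid at h ⊢
  simp only [go_frc_eq] at h ⊢
  obtain ⟨hc, -⟩ := go_bif h
  rw [hc]
  clear h
  rw [Bool.and_eq_true] at hc
  obtain ⟨hs, hd⟩ := hc
  have es := Nat.eq_of_beq_eq_true hs
  have ed := Nat.le_of_ble_eq_true hd
  clear hs hd
  have hdiv : ∀ x : ℕ, Nat.div x 2 = x / 2 := fun _ => rfl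
  simp only [Nat.add_eq, hdiv] at es
  obtain ⟨⟨fa, fb, fc, fd, fe, ff⟩, hsum⟩ := go_par hv.2 hw.2 es
  refine ⟨_, ⟨?_, ?_⟩, ?_, rfl⟩
  · exact ed
  · exact hsum
  · funext i
    have ra : (2:ℝ) * (((v.a + w.a) / 2 : ℕ) : ℝ) = v.a + w.a := by exact_mod_cast fa
    have rb : (2:ℝ) * (((v.b + w.b) / 2 : ℕ) : ℝ) = v.b + w.b := by exact_mod_cast fb
    have rc : (2:ℝ) * (((v.c + w.c) / 2 : ℕ) : ℝ) = v.c + w.c := by exact_mod_cast fc
    have rd : (2:ℝ) * (((v.d + w.d) / 2 : ℕ) : ℝ) = v.d + w.d := by exact_mod_cast fd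
    have re : (2:ℝ) * (((v.e + w.e) / 2 : ℕ) : ℝ) = v.e + w.e := by exact_mod_cast fe
    have rf : (2:ℝ) * (((v.f + w.f) / 2 : ℕ) : ℝ) = v.f + w.f := by exact_mod_cast ff
    clear es ed hsum fa fb fc fd fe ff
    fin_cases i
    · exact ra
    · exact rb
    · exact rc
    · exact rd
    · exact re
    · exact rf

theorem good_split (j : ℕ) (v : Fin 6 → W) (i k : Fin 6) (hik : i ≠ k) (m : W)
    (hm : (2:ℝ) • wv m = wv (v i) + wv (v k)) (h1 : Good j (Function.update v i m))
    (h2 : Good j (Function.update v k m)) : Good j v := by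
  have key : ∀ (i j : Fin 6) (_ : i ≠ j) (_ : (2:ℝ) • wv m = wv (v i) + wv (v j))
      (l : Fin 6 → ℝ), (∀ k, 0 ≤ l k) → l i ≤ l j → ∃ l' : Fin 6 → ℝ, (∀ k, 0 ≤ l' k) ∧
      ∑ k, l' k • wv (Function.update v i m k) = ∑ k, l k • wv (v k) := by
    intro i j hij hm l hl hle
    refine ⟨Function.update (Function.update l i (2 * l i)) j (l j - l i), fun k => ?_, ?_⟩
    · by_cases hkj : k = j
      · subst hkj
        rw [Function.update_self]
        linarith
      · rw [Function.update_of_ne hkj]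
        by_cases hki : k = i
        · subst hki
          rw [Function.update_self]
          linarith [hl k]
        · rw [Function.update_of_ne hki]
          exact hl k
    · have hji : j ∈ Finset.univ.erase i := Finset.mem_erase.2 ⟨hij.symm, Finset.mem_univ j⟩
      rw [← Finset.add_sum_erase _ _ (Finset.mem_univ i), ← Finset.add_sum_erase _ _ hji,
        ← Finset.add_sum_erase (a := i) _ (fun k => l k • wv (v k)) (Finset.mem_univ i),
        ← Finset.add_sum_erase _ (fun k => l k • wv (v k)) hji]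
      rw [Function.update_self, Function.update_self, Function.update_of_ne hij.symm,
        Function.update_of_ne hij, Function.update_self]
      have e1 : ∑ x ∈ (Finset.univ.erase i).erase j,
          Function.update (Function.update l i (2 * l i)) j (l j - l i) x •
            wv (Function.update v i m x) = ∑ x ∈ (Finset.univ.erase i).erase j, l x • wv (v x) := by
        refine Finset.sum_congr rfl fun x hx => ?_
        have hxj : x ≠ j := (Finset.mem_erase.1 hx).1
        have hxi : x ≠ i := (Finset.mem_erase.1 (Finset.mem_erase.1 hx).2).1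
        rw [Function.update_of_ne hxj, Function.update_of_ne hxi, Function.update_of_ne hxi]
      rw [e1, ← add_assoc, ← add_assoc]
      congr 1
      rw [mul_comm 2 (l i), mul_smul, hm, smul_add, sub_smul]
      abel
  intro l hl hp hs
  rcases le_total (l i) (l k) with h | h
  · obtain ⟨l', hl', e⟩ := key i k hik hm l hl h
    rw [← e] at hp hs ⊢
    exact h1 l' hl' hp hs
  · obtain ⟨l', hl', e⟩ := key k i hik.symm (by rw [hm, add_comm]) l hl h
    rw [← e] at hp hs ⊢
    exact h2 l' hl' hp hs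

/-- soundness of the recursion, given soundness of the leaves -/
theorem go_sound (D : Tab)
    (hI : ∀ (z j : ℕ) (v0 v1 v2 v3 v4 v5 : W), Val v0 → Val v1 → Val v2 → Val v3 → Val v4 → Val v5 →
      tz D z j 0 0 v0 v1 v2 v3 v4 v5 = true → Good j ![v0, v1, v2, v3, v4, v5])
    (hA : ∀ (z j w c : ℕ) (v0 v1 v2 v3 v4 v5 : W), Val v0 → Val v1 → Val v2 → Val v3 → Val v4 →
      Val v5 → c ≤ 15 → w = D.Wd / 2 ^ (8 * c) % 256 → 1 ≤ w →
      tz D z j w c v0 v1 v2 v3 v4 v5 = true → Good (j + w) ![v0, v1, v2, v3, v4, v5] →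
      Good j ![v0, v1, v2, v3, v4, v5])
    (hB : ∀ (s j : ℕ) (v0 v1 v2 v3 v4 v5 : W), s ≤ 6 →
      leafB s v0 v1 v2 v3 v4 v5 = true → Good j ![v0, v1, v2, v3, v4, v5])
    (hF : ∀ (j : ℕ) (v0 v1 v2 v3 v4 v5 : W), inF v0 = true → inF v1 = true → inF v2 = true →
      inF v3 = true → inF v4 = true → inF v5 = true → Good j ![v0, v1, v2, v3, v4, v5])
    (hBB : ∀ (j : ℕ) (v0 v1 v2 v3 v4 v5 : W), Val v0 → Val v1 → Val v2 → Val v3 → Val v4 → Val v5 →
      inB v0 = true → inB v1 = true → inB v2 = true → inB v3 = true → inB v4 = true →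
      inB v5 = true → Good 13 ![v0, v1, v2, v3, v4, v5] → Good j ![v0, v1, v2, v3, v4, v5]) :
    ∀ (n j : ℕ) (v0 v1 v2 v3 v4 v5 : W) (code : ℕ), Val v0 → Val v1 → Val v2 → Val v3 → Val v4 →
      Val v5 → go D n j v0 v1 v2 v3 v4 v5 code ≠ 0 → Good j ![v0, v1, v2, v3, v4, v5] := by
  intro n
  induction n with
  | zero => intro j v0 v1 v2 v3 v4 v5 code _ _ _ _ _ _ h; exact absurd rfl h
  | succ n ih =>
    intro j v0 v1 v2 v3 v4 v5 code h0 h1 h2 h3 h4 h5 h
    unfold go at h
    simp only [go_frc_eq] at h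
    split at h
    · split at h
      · obtain ⟨m, hm, e1, e2⟩ := go_mid_spec _ _ _ _ h0 h1 h
        rw [e2] at h
        obtain ⟨g1, h⟩ := go_frz_ne h
        refine good_split j _ 0 1 (by decide) m e1 ?_ ?_
        · have e3 : Function.update ![v0, v1, v2, v3, v4, v5] 0 m = ![m, v1, v2, v3, v4, v5] := by
            funext t
            fin_cases t <;> rfl
          rw [e3]
          exact ih _ _ _ _ _ _ _ _ hm h1 h2 h3 h4 h5 g1
        · have e3 : Function.update ![v0, v1, v2, v3, v4, v5] 1 m = ![v0, m, v2, v3, v4, v5] := by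
            funext t
            fin_cases t <;> rfl
          rw [e3]
          exact ih _ _ _ _ _ _ _ _ h0 hm h2 h3 h4 h5 h
      · obtain ⟨m, hm, e1, e2⟩ := go_mid_spec _ _ _ _ h0 h2 h
        rw [e2] at h
        obtain ⟨g1, h⟩ := go_frz_ne h
        refine good_split j _ 0 2 (by decide) m e1 ?_ ?_
        · have e3 : Function.update ![v0, v1, v2, v3, v4, v5] 0 m = ![m, v1, v2, v3, v4, v5] := by
            funext t
            fin_cases t <;> rfl
          rw [e3]
          exact ih _ _ _ _ _ _ _ _ hm h1 h2 h3 h4 h5 g1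
        · have e3 : Function.update ![v0, v1, v2, v3, v4, v5] 2 m = ![v0, v1, m, v3, v4, v5] := by
            funext t
            fin_cases t <;> rfl
          rw [e3]
          exact ih _ _ _ _ _ _ _ _ h0 h1 hm h3 h4 h5 h
      · obtain ⟨m, hm, e1, e2⟩ := go_mid_spec _ _ _ _ h0 h3 h
        rw [e2] at h
        obtain ⟨g1, h⟩ := go_frz_ne h
        refine good_split j _ 0 3 (by decide) m e1 ?_ ?_
        · have e3 : Function.update ![v0, v1, v2, v3, v4, v5] 0 m = ![m, v1, v2, v3, v4, v5] := by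
            funext t
            fin_cases t <;> rfl
          rw [e3]
          exact ih _ _ _ _ _ _ _ _ hm h1 h2 h3 h4 h5 g1
        · have e3 : Function.update ![v0, v1, v2, v3, v4, v5] 3 m = ![v0, v1, v2, m, v4, v5] := by
            funext t
            fin_cases t <;> rfl
          rw [e3]
          exact ih _ _ _ _ _ _ _ _ h0 h1 h2 hm h4 h5 h
      · obtain ⟨m, hm, e1, e2⟩ := go_mid_spec _ _ _ _ h0 h4 h
        rw [e2] at h
        obtain ⟨g1, h⟩ := go_frz_ne h
        refine good_split j _ 0 4 (by decide) m e1 ?_ ?_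
        · have e3 : Function.update ![v0, v1, v2, v3, v4, v5] 0 m = ![m, v1, v2, v3, v4, v5] := by
            funext t
            fin_cases t <;> rfl
          rw [e3]
          exact ih _ _ _ _ _ _ _ _ hm h1 h2 h3 h4 h5 g1
        · have e3 : Function.update ![v0, v1, v2, v3, v4, v5] 4 m = ![v0, v1, v2, v3, m, v5] := by
            funext t
            fin_cases t <;> rfl
          rw [e3]
          exact ih _ _ _ _ _ _ _ _ h0 h1 h2 h3 hm h5 h
      · obtain ⟨m, hm, e1, e2⟩ := go_mid_spec _ _ _ _ h0 h5 h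
        rw [e2] at h
        obtain ⟨g1, h⟩ := go_frz_ne h
        refine good_split j _ 0 5 (by decide) m e1 ?_ ?_
        · have e3 : Function.update ![v0, v1, v2, v3, v4, v5] 0 m = ![m, v1, v2, v3, v4, v5] := by
            funext t
            fin_cases t <;> rfl
          rw [e3]
          exact ih _ _ _ _ _ _ _ _ hm h1 h2 h3 h4 h5 g1
        · have e3 : Function.update ![v0, v1, v2, v3, v4, v5] 5 m = ![v0, v1, v2, v3, v4, m] := by
            funext t
            fin_cases t <;> rfl
          rw [e3]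
          exact ih _ _ _ _ _ _ _ _ h0 h1 h2 h3 h4 hm h
      · obtain ⟨m, hm, e1, e2⟩ := go_mid_spec _ _ _ _ h1 h2 h
        rw [e2] at h
        obtain ⟨g1, h⟩ := go_frz_ne h
        refine good_split j _ 1 2 (by decide) m e1 ?_ ?_
        · have e3 : Function.update ![v0, v1, v2, v3, v4, v5] 1 m = ![v0, m, v2, v3, v4, v5] := by
            funext t
            fin_cases t <;> rfl
          rw [e3]
          exact ih _ _ _ _ _ _ _ _ h0 hm h2 h3 h4 h5 g1
        · have e3 : Function.update ![v0, v1, v2, v3, v4, v5] 2 m = ![v0, v1, m, v3, v4, v5] := by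
            funext t
            fin_cases t <;> rfl
          rw [e3]
          exact ih _ _ _ _ _ _ _ _ h0 h1 hm h3 h4 h5 h
      · obtain ⟨m, hm, e1, e2⟩ := go_mid_spec _ _ _ _ h1 h3 h
        rw [e2] at h
        obtain ⟨g1, h⟩ := go_frz_ne h
        refine good_split j _ 1 3 (by decide) m e1 ?_ ?_
        · have e3 : Function.update ![v0, v1, v2, v3, v4, v5] 1 m = ![v0, m, v2, v3, v4, v5] := by
            funext t
            fin_cases t <;> rfl
          rw [e3]
          exact ih _ _ _ _ _ _ _ _ h0 hm h2 h3 h4 h5 g1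
        · have e3 : Function.update ![v0, v1, v2, v3, v4, v5] 3 m = ![v0, v1, v2, m, v4, v5] := by
            funext t
            fin_cases t <;> rfl
          rw [e3]
          exact ih _ _ _ _ _ _ _ _ h0 h1 h2 hm h4 h5 h
      · obtain ⟨m, hm, e1, e2⟩ := go_mid_spec _ _ _ _ h1 h4 h
        rw [e2] at h
        obtain ⟨g1, h⟩ := go_frz_ne h
        refine good_split j _ 1 4 (by decide) m e1 ?_ ?_
        · have e3 : Function.update ![v0, v1, v2, v3, v4, v5] 1 m = ![v0, m, v2, v3, v4, v5] := by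
            funext t
            fin_cases t <;> rfl
          rw [e3]
          exact ih _ _ _ _ _ _ _ _ h0 hm h2 h3 h4 h5 g1
        · have e3 : Function.update ![v0, v1, v2, v3, v4, v5] 4 m = ![v0, v1, v2, v3, m, v5] := by
            funext t
            fin_cases t <;> rfl
          rw [e3]
          exact ih _ _ _ _ _ _ _ _ h0 h1 h2 h3 hm h5 h
      · obtain ⟨m, hm, e1, e2⟩ := go_mid_spec _ _ _ _ h1 h5 h
        rw [e2] at h
        obtain ⟨g1, h⟩ := go_frz_ne h
        refine good_split j _ 1 5 (by decide) m e1 ?_ ?_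
        · have e3 : Function.update ![v0, v1, v2, v3, v4, v5] 1 m = ![v0, m, v2, v3, v4, v5] := by
            funext t
            fin_cases t <;> rfl
          rw [e3]
          exact ih _ _ _ _ _ _ _ _ h0 hm h2 h3 h4 h5 g1
        · have e3 : Function.update ![v0, v1, v2, v3, v4, v5] 5 m = ![v0, v1, v2, v3, v4, m] := by
            funext t
            fin_cases t <;> rfl
          rw [e3]
          exact ih _ _ _ _ _ _ _ _ h0 h1 h2 h3 h4 hm h
      · obtain ⟨m, hm, e1, e2⟩ := go_mid_spec _ _ _ _ h2 h3 h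
        rw [e2] at h
        obtain ⟨g1, h⟩ := go_frz_ne h
        refine good_split j _ 2 3 (by decide) m e1 ?_ ?_
        · have e3 : Function.update ![v0, v1, v2, v3, v4, v5] 2 m = ![v0, v1, m, v3, v4, v5] := by
            funext t
            fin_cases t <;> rfl
          rw [e3]
          exact ih _ _ _ _ _ _ _ _ h0 h1 hm h3 h4 h5 g1
        · have e3 : Function.update ![v0, v1, v2, v3, v4, v5] 3 m = ![v0, v1, v2, m, v4, v5] := by
            funext t
            fin_cases t <;> rfl
          rw [e3]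
          exact ih _ _ _ _ _ _ _ _ h0 h1 h2 hm h4 h5 h
      · obtain ⟨m, hm, e1, e2⟩ := go_mid_spec _ _ _ _ h2 h4 h
        rw [e2] at h
        obtain ⟨g1, h⟩ := go_frz_ne h
        refine good_split j _ 2 4 (by decide) m e1 ?_ ?_
        · have e3 : Function.update ![v0, v1, v2, v3, v4, v5] 2 m = ![v0, v1, m, v3, v4, v5] := by
            funext t
            fin_cases t <;> rfl
          rw [e3]
          exact ih _ _ _ _ _ _ _ _ h0 h1 hm h3 h4 h5 g1
        · have e3 : Function.update ![v0, v1, v2, v3, v4, v5] 4 m = ![v0, v1, v2, v3, m, v5] := by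
            funext t
            fin_cases t <;> rfl
          rw [e3]
          exact ih _ _ _ _ _ _ _ _ h0 h1 h2 h3 hm h5 h
      · obtain ⟨m, hm, e1, e2⟩ := go_mid_spec _ _ _ _ h2 h5 h
        rw [e2] at h
        obtain ⟨g1, h⟩ := go_frz_ne h
        refine good_split j _ 2 5 (by decide) m e1 ?_ ?_
        · have e3 : Function.update ![v0, v1, v2, v3, v4, v5] 2 m = ![v0, v1, m, v3, v4, v5] := by
            funext t
            fin_cases t <;> rfl
          rw [e3]
          exact ih _ _ _ _ _ _ _ _ h0 h1 hm h3 h4 h5 g1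
        · have e3 : Function.update ![v0, v1, v2, v3, v4, v5] 5 m = ![v0, v1, v2, v3, v4, m] := by
            funext t
            fin_cases t <;> rfl
          rw [e3]
          exact ih _ _ _ _ _ _ _ _ h0 h1 h2 h3 h4 hm h
      · obtain ⟨m, hm, e1, e2⟩ := go_mid_spec _ _ _ _ h3 h4 h
        rw [e2] at h
        obtain ⟨g1, h⟩ := go_frz_ne h
        refine good_split j _ 3 4 (by decide) m e1 ?_ ?_
        · have e3 : Function.update ![v0, v1, v2, v3, v4, v5] 3 m = ![v0, v1, v2, m, v4, v5] := by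
            funext t
            fin_cases t <;> rfl
          rw [e3]
          exact ih _ _ _ _ _ _ _ _ h0 h1 h2 hm h4 h5 g1
        · have e3 : Function.update ![v0, v1, v2, v3, v4, v5] 4 m = ![v0, v1, v2, v3, m, v5] := by
            funext t
            fin_cases t <;> rfl
          rw [e3]
          exact ih _ _ _ _ _ _ _ _ h0 h1 h2 h3 hm h5 h
      · obtain ⟨m, hm, e1, e2⟩ := go_mid_spec _ _ _ _ h3 h5 h
        rw [e2] at h
        obtain ⟨g1, h⟩ := go_frz_ne h
        refine good_split j _ 3 5 (by decide) m e1 ?_ ?_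
        · have e3 : Function.update ![v0, v1, v2, v3, v4, v5] 3 m = ![v0, v1, v2, m, v4, v5] := by
            funext t
            fin_cases t <;> rfl
          rw [e3]
          exact ih _ _ _ _ _ _ _ _ h0 h1 h2 hm h4 h5 g1
        · have e3 : Function.update ![v0, v1, v2, v3, v4, v5] 5 m = ![v0, v1, v2, v3, v4, m] := by
            funext t
            fin_cases t <;> rfl
          rw [e3]
          exact ih _ _ _ _ _ _ _ _ h0 h1 h2 h3 h4 hm h
      · obtain ⟨m, hm, e1, e2⟩ := go_mid_spec _ _ _ _ h4 h5 h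
        rw [e2] at h
        obtain ⟨g1, h⟩ := go_frz_ne h
        refine good_split j _ 4 5 (by decide) m e1 ?_ ?_
        · have e3 : Function.update ![v0, v1, v2, v3, v4, v5] 4 m = ![v0, v1, v2, v3, m, v5] := by
            funext t
            fin_cases t <;> rfl
          rw [e3]
          exact ih _ _ _ _ _ _ _ _ h0 h1 h2 h3 hm h5 g1
        · have e3 : Function.update ![v0, v1, v2, v3, v4, v5] 5 m = ![v0, v1, v2, v3, v4, m] := by
            funext t
            fin_cases t <;> rfl
          rw [e3]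
          exact ih _ _ _ _ _ _ _ _ h0 h1 h2 h3 h4 hm h
    · exact hI _ _ _ _ _ _ _ _ h0 h1 h2 h3 h4 h5 (go_bif h).1
    · obtain ⟨hb, h⟩ := go_bif h
      rw [Bool.and_eq_true] at hb
      refine hA _ j _ _ _ _ _ _ _ _ h0 h1 h2 h3 h4 h5 ?_ ?_ (Nat.le_of_ble_eq_true hb.1) hb.2
        (ih _ _ _ _ _ _ _ _ h0 h1 h2 h3 h4 h5 h)
      · exact Nat.and_le_right
      · generalize Nat.land (Nat.shiftRight (Nat.shiftRight code 2) 2) 15 = c
        have e1 : Nat.land (Nat.shiftRight D.Wd (Nat.mul 8 c)) 255 =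
            (D.Wd >>> (8 * c)) % 256 := Nat.and_two_pow_sub_one_eq_mod _ 8
        rw [e1, Nat.shiftRight_eq_div_pow]
    · generalize Nat.land (Nat.shiftRight code 2) 15 = k at h
      cases hk : Nat.ble k 6 with
      | true =>
        rw [hk] at h
        exact hB k j _ _ _ _ _ _ (Nat.le_of_ble_eq_true hk) (go_bif h).1
      | false =>
        rw [hk] at h
        cases hk7 : Nat.beq k 7 with
        | true =>
          rw [hk7] at h
          have hb := (go_bif h).1
          simp only [Bool.and_eq_true] at hb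
          obtain ⟨⟨⟨⟨⟨b0, b1⟩, b2⟩, b3⟩, b4⟩, b5⟩ := hb
          exact hF j _ _ _ _ _ _ b0 b1 b2 b3 b4 b5
        | false =>
          rw [hk7] at h
          obtain ⟨hb, h⟩ := go_bif h
          simp only [Bool.and_eq_true] at hb
          obtain ⟨⟨⟨⟨⟨⟨_, b0⟩, b1⟩, b2⟩, b3⟩, b4⟩, b5⟩ := hb
          exact hBB j _ _ _ _ _ _ h0 h1 h2 h3 h4 h5 b0 b1 b2 b3 b4 b5
            (ih _ _ _ _ _ _ _ _ h0 h1 h2 h3 h4 h5 h)

end Pool.Agent.H999.Theta3
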