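import Pool.Agent.H999.Theta3.Base

set_option autoImplicit false

open Matrix

namespace Pool.Agent.H999.Theta3

open Pool.Agent.K1H99.FCC (N0 rv nsq qf af dt PD rad Fp Qm pp tot al be)

lemma ifb_frc_eq {α : Type} (n : Nat) (k : Nat → α) : frc n k = k n := by
  cases n <;> rfl

lemma ifb_F_zero : InF 0 := by
  unfold InF tF
  simp

lemma ifb_F_add {p q : Fin 6 → ℝ} (hp : InF p) (hq : InF q) : InF (p + q) := by
  unfold InF tF at *
  simp only [Pi.add_apply]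
  obtain ⟨a0, a1, a2, a3, a4, a5, a6, a7, a8, a9, a10⟩ := hp
  obtain ⟨b0, b1, b2, b3, b4, b5, b6, b7, b8, b9, b10⟩ := hq
  refine ⟨?_, ?_, ?_, ?_, ?_, ?_, ?_, ?_, ?_, ?_, ?_⟩ <;> linarith

lemma ifb_F_smul {c : ℝ} (hc : 0 ≤ c) {p : Fin 6 → ℝ} (hp : InF p) : InF (c • p) := by
  unfold InF tF at *
  simp only [Pi.smul_apply, smul_eq_mul]
  obtain ⟨a0, a1, a2, a3, a4, a5, a6, a7, a8, a9, a10⟩ := hp
  have a0 := mul_le_mul_of_nonneg_left a0 hc
  have a1 := mul_le_mul_of_nonneg_left a1 hc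
  have a2 := mul_le_mul_of_nonneg_left a2 hc
  have a3 := mul_le_mul_of_nonneg_left a3 hc
  have a4 := mul_le_mul_of_nonneg_left a4 hc
  have a5 := mul_le_mul_of_nonneg_left a5 hc
  have a6 := mul_le_mul_of_nonneg_left a6 hc
  have a7 := mul_le_mul_of_nonneg_left a7 hc
  have a8 := mul_le_mul_of_nonneg_left a8 hc
  have a9 := mul_le_mul_of_nonneg_left a9 hc
  have a10 := mul_le_mul_of_nonneg_left a10 hc
  refine ⟨?_, ?_, ?_, ?_, ?_, ?_, ?_, ?_, ?_, ?_, ?_⟩ <;> linarith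

lemma ifb_F_sum (l : Fin 6 → ℝ) (v : Fin 6 → Fin 6 → ℝ) (hl : ∀ i, 0 ≤ l i)
    (hv : ∀ i, InF (v i)) : InF (∑ i, l i • v i) :=
  Finset.sum_induction _ InF (fun _ _ => ifb_F_add) ifb_F_zero
    (fun i _ => ifb_F_smul (hl i) (hv i))

lemma ifb_tot_add (p q : Fin 6 → ℝ) : tot (p + q) = tot p + tot q := by
  unfold tot
  simp only [Pi.add_apply]
  ring

lemma ifb_tot_smul (c : ℝ) (p : Fin 6 → ℝ) : tot (c • p) = c * tot p := by
  unfold tot
  simp only [Pi.smul_apply, smul_eq_mul]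
  ring

lemma ifb_tot_zero : tot 0 = 0 := by
  unfold tot
  simp

lemma ifb_B2_add {S T x y z w : ℝ} (h : InB2 S x y) (k : InB2 T z w) :
    InB2 (S + T) (x + z) (y + w) := by
  unfold InB2 at *
  obtain ⟨a0, a1, a2, a3⟩ := h
  obtain ⟨b0, b1, b2, b3⟩ := k
  refine ⟨?_, ?_, ?_, ?_⟩ <;> linarith

lemma ifb_B2_smul {c S x y : ℝ} (hc : 0 ≤ c) (h : InB2 S x y) :
    InB2 (c * S) (c * x) (c * y) := by
  unfold InB2 at *
  obtain ⟨a0, a1, a2, a3⟩ := h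
  have a0 := mul_le_mul_of_nonneg_left a0 hc
  have a1 := mul_le_mul_of_nonneg_left a1 hc
  have a2 := mul_le_mul_of_nonneg_left a2 hc
  have a3 := mul_le_mul_of_nonneg_left a3 hc
  refine ⟨?_, ?_, ?_, ?_⟩ <;> linarith

lemma ifb_B_zero : InB 0 := by
  unfold InB InB2
  rw [ifb_tot_zero]
  simp

lemma ifb_B_add {p q : Fin 6 → ℝ} (hp : InB p) (hq : InB q) : InB (p + q) := by
  unfold InB at *
  rw [ifb_tot_add]
  simp only [Pi.add_apply]
  exact ⟨ifb_B2_add hp.1 hq.1, ifb_B2_add hp.2.1 hq.2.1, ifb_B2_add hp.2.2 hq.2.2⟩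

lemma ifb_B_smul {c : ℝ} (hc : 0 ≤ c) {p : Fin 6 → ℝ} (hp : InB p) : InB (c • p) := by
  unfold InB at *
  rw [ifb_tot_smul]
  simp only [Pi.smul_apply, smul_eq_mul]
  exact ⟨ifb_B2_smul hc hp.1, ifb_B2_smul hc hp.2.1, ifb_B2_smul hc hp.2.2⟩

lemma ifb_B_sum (l : Fin 6 → ℝ) (v : Fin 6 → Fin 6 → ℝ) (hl : ∀ i, 0 ≤ l i)
    (hv : ∀ i, InB (v i)) : InB (∑ i, l i • v i) :=
  Finset.sum_induction _ InB (fun _ _ => ifb_B_add) ifb_B_zero
    (fun i _ => ifb_B_smul (hl i) (hv i))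

lemma ifb_tot_sum (l : Fin 6 → ℝ) (v : Fin 6 → Fin 6 → ℝ) :
    tot (∑ i, l i • v i) = ∑ i, l i * tot (v i) := by
  simp only [Fin.sum_univ_six, ifb_tot_add, ifb_tot_smul]

lemma ifb_inF_spec {v : W} (h : inF v = true) : InF (wv v) := by
  unfold inF at h
  simp only [ifb_frc_eq, Bool.and_eq_true, Nat.add_eq, Nat.mul_eq] at h
  obtain ⟨⟨⟨⟨⟨⟨⟨⟨⟨⟨h0, h1⟩, h2⟩, h3⟩, h4⟩, h5⟩, h6⟩, h7⟩, h8⟩, h9⟩, h10⟩ := h
  have h0 := Nat.le_of_ble_eq_true h0
  have h1 := Nat.le_of_ble_eq_true h1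
  have h2 := Nat.le_of_ble_eq_true h2
  have h3 := Nat.le_of_ble_eq_true h3
  have h4 := Nat.le_of_ble_eq_true h4
  have h5 := Nat.le_of_ble_eq_true h5
  have h6 := Nat.le_of_ble_eq_true h6
  have h7 := Nat.le_of_ble_eq_true h7
  have h8 := Nat.le_of_ble_eq_true h8
  have h9 := Nat.le_of_ble_eq_true h9
  have h10 := Nat.le_of_ble_eq_true h10
  rify at h0 h1 h2 h3 h4 h5 h6 h7 h8 h9 h10
  unfold InF tF wv
  simp only [Fin.isValue, Matrix.cons_val_zero, Matrix.cons_val_one, Matrix.cons_val]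
  refine ⟨?_, ?_, ?_, ?_, ?_, ?_, ?_, ?_, ?_, ?_, ?_⟩ <;> linarith

lemma ifb_inB2_spec {S x y : Nat} (h : inB2 S x y = true) : InB2 (S : ℝ) (x : ℝ) (y : ℝ) := by
  unfold inB2 at h
  simp only [Bool.and_eq_true, Nat.add_eq, Nat.mul_eq] at h
  obtain ⟨⟨⟨h0, h1⟩, h2⟩, h3⟩ := h
  have h0 := Nat.le_of_ble_eq_true h0
  have h1 := Nat.le_of_ble_eq_true h1
  have h2 := Nat.le_of_ble_eq_true h2
  have h3 := Nat.le_of_ble_eq_true h3
  rify at h0 h1 h2 h3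
  unfold InB2
  refine ⟨?_, ?_, ?_, ?_⟩ <;> linarith

lemma ifb_tot_wv (v : W) : tot (wv v) = ((v.a + (v.b + (v.c + (v.d + (v.e + v.f)))) : ℕ) : ℝ) := by
  unfold tot wv
  simp only [Fin.isValue, Matrix.cons_val_zero, Matrix.cons_val_one, Matrix.cons_val]
  push_cast
  ring

lemma ifb_inB_spec {v : W} (h : inB v = true) :
    InB (wv v) ∧ 25198422 * tot (wv v) ≤ 60900000 * (v.g : ℝ) := by
  unfold inB at h
  simp only [ifb_frc_eq, Bool.and_eq_true, Nat.add_eq, Nat.mul_eq] at h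
  obtain ⟨⟨⟨h0, h1⟩, h2⟩, h3⟩ := h
  have h0 := ifb_inB2_spec h0
  have h1 := ifb_inB2_spec h1
  have h2 := ifb_inB2_spec h2
  have h3 := Nat.le_of_ble_eq_true h3
  rw [← ifb_tot_wv] at h0 h1 h2
  refine ⟨⟨?_, ?_, ?_⟩, ?_⟩
  · unfold wv at *
    simpa only [Fin.isValue, Matrix.cons_val_zero, Matrix.cons_val_one, Matrix.cons_val] using h0
  · unfold wv at *
    simpa only [Fin.isValue, Matrix.cons_val_zero, Matrix.cons_val_one, Matrix.cons_val] using h1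
  · unfold wv at *
    simpa only [Fin.isValue, Matrix.cons_val_zero, Matrix.cons_val_one, Matrix.cons_val] using h2
  · rw [ifb_tot_wv]
    exact_mod_cast h3

lemma ifb_wv_nonneg (v : W) (k : Fin 6) : 0 ≤ wv v k := by
  unfold wv
  fin_cases k <;> exact Nat.cast_nonneg _

lemma ifb_dt_wv (v : W) : dt (wv v) = ((detN v.a v.b v.c v.d v.e v.f : ℕ) : ℝ) := by
  unfold dt wv detN
  simp only [Fin.isValue, Matrix.cons_val_zero, Matrix.cons_val_one, Matrix.cons_val, Nat.add_eq,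
    Nat.mul_eq]
  push_cast
  ring

lemma ifb_rad_wv {v : W} (h : Val v) : (v.g : ℝ) ≤ rad (wv v) := by
  refine le_of_pow_le_pow_left₀ (three_ne_zero)
    (Pool.Agent.K1H99.FCC.rad_nonneg (ifb_wv_nonneg v)) ?_
  rw [Pool.Agent.K1H99.FCC.rad_cube (Pool.Agent.K1H99.FCC.dt_nonneg (ifb_wv_nonneg v)), ifb_dt_wv]
  have h1 : ((v.g * v.g * v.g : ℕ) : ℝ) ≤ ((detN v.a v.b v.c v.d v.e v.f : ℕ) : ℝ) := by
    exact_mod_cast h.1
  push_cast at h1
  calc (v.g : ℝ) ^ 3 = v.g * v.g * v.g := by ring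
    _ ≤ _ := h1

lemma ifb_six {P : W → Prop} {v0 v1 v2 v3 v4 v5 : W} (h0 : P v0) (h1 : P v1) (h2 : P v2)
    (h3 : P v3) (h4 : P v4) (h5 : P v5) (i : Fin 6) :
    P ((![v0, v1, v2, v3, v4, v5] : Fin 6 → W) i) := by
  fin_cases i
  · exact h0
  · exact h1
  · exact h2
  · exact h3
  · exact h4
  · exact h5

theorem leafF_sound (j : ℕ) (v0 v1 v2 v3 v4 v5 : W) (h0 : inF v0 = true) (h1 : inF v1 = true)
    (h2 : inF v2 = true) (h3 : inF v3 = true) (h4 : inF v4 = true) (h5 : inF v5 = true) :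
    Good j ![v0, v1, v2, v3, v4, v5] := by
  intro l hl _ _
  refine Or.inr (Or.inl (ifb_F_sum l _ hl fun i => ifb_inF_spec ?_))
  exact ifb_six (P := fun v => inF v = true) h0 h1 h2 h3 h4 h5 i

theorem leafBB_sound (j : ℕ) (v0 v1 v2 v3 v4 v5 : W) (c0 : Val v0) (c1 : Val v1) (c2 : Val v2)
    (c3 : Val v3) (c4 : Val v4) (c5 : Val v5) (h0 : inB v0 = true) (h1 : inB v1 = true)
    (h2 : inB v2 = true) (h3 : inB v3 = true) (h4 : inB v4 = true) (h5 : inB v5 = true)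
    (hg : Good 13 ![v0, v1, v2, v3, v4, v5]) : Good j ![v0, v1, v2, v3, v4, v5] := by
  intro l hl hp _
  rcases le_or_gt (sc 13) (rad (∑ i, l i • wv ((![v0, v1, v2, v3, v4, v5] : Fin 6 → W) i)))
    with h | h
  · exact hg l hl hp h
  · have hB := ifb_six (P := fun v => inB v = true) h0 h1 h2 h3 h4 h5
    have hV := ifb_six (P := Val) c0 c1 c2 c3 c4 c5
    refine Or.inr (Or.inr ⟨ifb_B_sum l _ hl fun i => (ifb_inB_spec (hB i)).1, ?_⟩)
    have e1 := ifb_tot_sum l fun i => wv ((![v0, v1, v2, v3, v4, v5] : Fin 6 → W) i)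
    have e2 := Pool.Agent.K1H99.FCC.rad_sum Finset.univ l
      (fun i => wv ((![v0, v1, v2, v3, v4, v5] : Fin 6 → W) i)) hl fun i k => ifb_wv_nonneg _ k
    have e3 : 25198422 * ∑ i, l i * tot (wv ((![v0, v1, v2, v3, v4, v5] : Fin 6 → W) i)) ≤
        60900000 * ∑ i, l i * rad (wv ((![v0, v1, v2, v3, v4, v5] : Fin 6 → W) i)) := by
      rw [Finset.mul_sum, Finset.mul_sum]
      refine Finset.sum_le_sum fun i _ => ?_
      have a1 := (ifb_inB_spec (hB i)).2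
      have a2 := ifb_rad_wv (hV i)
      have a3 : 25198422 * tot (wv ((![v0, v1, v2, v3, v4, v5] : Fin 6 → W) i)) ≤
        60900000 * rad (wv ((![v0, v1, v2, v3, v4, v5] : Fin 6 → W) i)) := by linarith
      have a4 := mul_le_mul_of_nonneg_left a3 (hl i)
      linarith
    have e4 : sc 13 = 269 / 256 := by
      unfold sc
      norm_num
    rw [e4] at h
    rw [e1]
    linarith

end Pool.Agent.H999.Theta3
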