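import Pool.Agent.H999.Theta3.Base

set_option autoImplicit false

open Matrix

namespace Pool.Agent.H999.Theta3

open Pool.Agent.K1H99.FCC (N0 rv nsq qf af dt PD rad Fp Qm pp tot al be)
open Pool.Agent.K1H99.FCC (rad_cube rad_pos dt_pos nsq_eq summable_gauss two_sum_le
  sgv qf_neg al_bounds)

theorem th_summable {p : Fin 6 → ℝ} (h : PD p) :
    Summable fun n : N0 => Real.exp (-(Real.pi * qf p (rv n.1))) := by
  obtain ⟨A, hA, hd⟩ := h
  have hu : IsUnit A.det := isUnit_iff_ne_zero.2 hd
  have hBA : ((A⁻¹)ᵀ)ᵀ * A = 1 := by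
    rw [Matrix.transpose_transpose, Matrix.nonsing_inv_mul _ hu]
  refine ((summable_gauss hBA (c := Real.pi) Real.pi_pos).subtype {n : Fin 3 → ℤ | n ≠ 0}).congr
    fun k => ?_
  show Real.exp (-Real.pi * nsq A (rv k.1)) = _
  rw [nsq_eq hA]
  congr 1
  ring

theorem th_Th {p : Fin 6 → ℝ} (h : PD p) (z : Fin 3 → ℤ) (hz : z ≠ 0) :
    2 * Real.exp (-(Real.pi * qf p (rv z))) ≤ Th p := by
  have hz' : -z ≠ z := by
    intro h'
    apply hz
    funext i
    have := congrFun h' i
    simp only [Pi.neg_apply] at this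
    simp only [Pi.zero_apply]
    omega
  have h0 : ∀ s, sgv (fun _ : Fin 1 => z) s ≠ 0 := by
    rintro ⟨i, b⟩
    cases b
    · simpa [sgv] using hz
    · simpa [sgv] using hz
  have hi : Function.Injective (sgv (fun _ : Fin 1 => z)) := by
    rintro ⟨i, b⟩ ⟨j, c⟩ hbc
    have hij : i = j := Subsingleton.elim _ _
    subst hij
    cases b <;> cases c
    · rfl
    · exact absurd (by simpa [sgv] using hbc) hz'
    · exact absurd (by simpa [sgv] using hbc.symm) hz'
    · rfl
  have := two_sum_le (fun _ : Fin 1 => z) h0 hi (fun n => Real.exp (-(Real.pi * qf p (rv n))))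
    (fun n => by simp only [qf_neg]) (fun n => (Real.exp_pos _).le) (th_summable h)
  simpa [Th] using this

theorem th_exp1 : 6086 / 1000 ≤ Real.exp (1806 / 1000) := by
  refine le_trans ?_ (Real.sum_le_exp_of_nonneg (by norm_num) 14)
  norm_num [Finset.sum_range_succ, Nat.factorial]

theorem th_exp2 : Real.exp (-(3958 / 1000)) ≤ 1911 / 100000 := by
  have h1 : (100000 / 1911 : ℝ) ≤ Real.exp (3958 / 1000) := by
    refine le_trans ?_ (Real.sum_le_exp_of_nonneg (by norm_num) 20)
    norm_num [Finset.sum_range_succ, Nat.factorial]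
  rw [Real.exp_neg]
  have h2 : (Real.exp (3958 / 1000))⁻¹ ≤ (100000 / 1911 : ℝ)⁻¹ := inv_anti₀ (by norm_num) h1
  refine h2.trans ?_
  norm_num

theorem thin {p : Fin 6 → ℝ} (hp : PD p) (h1 : 1 ≤ rad p) (z : Fin 3 → ℤ) (hz : z ≠ 0)
    (hq : qf p (rv z) ≤ 685 / 1000 * rad p) (hRF : ∀ s : ℝ, 1 ≤ s → RF s ≤ RFb (Real.exp (-(2 * al * s)))) :
    RF (rad p) < Th p := by
  have hT := th_Th hp z hz
  have hR := hRF (rad p) h1
  have hal := al_bounds.1
  have hpi : Real.pi ≤ 3141593 / 1000000 := by
    have := Real.pi_lt_d6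
    linarith
  have hpp := Real.pi_pos
  have hu1 : Real.exp (-(2 * al * rad p)) ≤ 1911 / 100000 := by
    refine le_trans (Real.exp_le_exp.2 ?_) th_exp2
    nlinarith
  have hu0 := Real.exp_pos (-(2 * al * rad p))
  have hu2 : Real.exp (-(2 * al * rad p)) * (6086 / 1000) ≤
      Real.exp (-(Real.pi * qf p (rv z))) := by
    have e : Real.exp (-(Real.pi * qf p (rv z))) = Real.exp (-(2 * al * rad p)) *
        Real.exp (2 * al * rad p - Real.pi * qf p (rv z)) := by
      rw [← Real.exp_add]
      congr 1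
      ring
    rw [e]
    refine mul_le_mul_of_nonneg_left (th_exp1.trans (Real.exp_le_exp.2 ?_)) hu0.le
    have h2 : Real.pi * qf p (rv z) ≤ Real.pi * (685 / 1000 * rad p) :=
      mul_le_mul_of_nonneg_left hq hpp.le
    have h3 : Real.pi * (685 / 1000 * rad p) ≤ 3141593 / 1000000 * (685 / 1000 * rad p) :=
      mul_le_mul_of_nonneg_right hpi (by positivity)
    nlinarith
  refine lt_of_le_of_lt hR (lt_of_lt_of_le ?_ hT)
  refine lt_of_lt_of_le ?_ (mul_le_mul_of_nonneg_left hu2 (by norm_num))
  generalize Real.exp (-(2 * al * rad p)) = u at hu0 hu1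
  unfold RFb
  have h4 : u ^ 2 ≤ 1911 / 100000 * u := by nlinarith
  have h5 : u ^ 3 ≤ 1911 / 100000 * (1911 / 100000) * u := by nlinarith
  have h6 : u ^ 4 ≤ 1911 / 100000 * (1911 / 100000) * (1911 / 100000) * u := by nlinarith
  nlinarith

/-- the polarised determinant (times six) -/
def th_D6 (x y z : Fin 6 → ℝ) : ℝ :=
  (x 1 * y 2 + x 2 * y 1 + x 1 * y 5 + x 5 * y 1 + x 2 * y 5 + x 5 * y 2) * (z 0 + z 3 + z 4) +
    (x 0 * y 2 + x 2 * y 0 + x 0 * y 4 + x 4 * y 0 + x 2 * y 4 + x 4 * y 2) * (z 1 + z 3 + z 5) +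
    (x 0 * y 1 + x 1 * y 0 + x 0 * y 3 + x 3 * y 0 + x 1 * y 3 + x 3 * y 1) * (z 2 + z 4 + z 5) +
    (x 2 * y 3 + x 3 * y 2) * (z 0 + z 1 + z 4 + z 5) +
    (x 1 * y 4 + x 4 * y 1) * (z 0 + z 2 + z 3 + z 5) +
    (x 0 * y 5 + x 5 * y 0) * (z 1 + z 2 + z 3 + z 4) +
    (x 3 * y 4 + x 4 * y 3 + x 3 * y 5 + x 5 * y 3 + x 4 * y 5 + x 5 * y 4) * (z 0 + z 1 + z 2)

theorem th_D6_swap (x y z : Fin 6 → ℝ) : th_D6 x y z = th_D6 y x z := by
  unfold th_D6
  ring

theorem th_D6_rot (x y z : Fin 6 → ℝ) : th_D6 x y z = th_D6 x z y := by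
  unfold th_D6
  ring

theorem th_D6_self (x : Fin 6 → ℝ) : th_D6 x x x = 6 * dt x := by
  unfold th_D6 dt
  ring

theorem th_D6_add (x x' y z : Fin 6 → ℝ) : th_D6 (x + x') y z = th_D6 x y z + th_D6 x' y z := by
  unfold th_D6
  simp only [Pi.add_apply]
  ring

theorem th_D6_smul (c : ℝ) (x y z : Fin 6 → ℝ) : th_D6 (c • x) y z = c * th_D6 x y z := by
  unfold th_D6
  simp only [Pi.smul_apply, smul_eq_mul]
  ring

/-- the cut values -/
def th_cq (s : Nat) (x : Fin 6 → ℝ) : ℝ :=
  match s with

  | 0 => x 0 + x 3 + x 4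
  | 1 => x 1 + x 3 + x 5
  | 2 => x 2 + x 4 + x 5
  | 3 => x 0 + x 1 + x 4 + x 5
  | 4 => x 0 + x 2 + x 3 + x 5
  | 5 => x 1 + x 2 + x 3 + x 4
  | _ => x 0 + x 1 + x 2

theorem th_cq_add (s : Nat) (x x' : Fin 6 → ℝ) : th_cq s (x + x') = th_cq s x + th_cq s x' := by
  unfold th_cq
  split <;> simp only [Pi.add_apply] <;> ring

theorem th_cq_smul (s : Nat) (c : ℝ) (x : Fin 6 → ℝ) : th_cq s (c • x) = c * th_cq s x := by
  unfold th_cq
  split <;> simp only [Pi.smul_apply, smul_eq_mul] <;> ring

/-- the trilinear form tested by the leaves of type B -/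
def th_E3 (s : Nat) (x y z : Fin 6 → ℝ) : ℝ := 3214 * th_D6 x y z - 60000 * (th_cq s x * th_cq s y * th_cq s z)

theorem th_E3_swap (s : Nat) (x y z : Fin 6 → ℝ) : th_E3 s x y z = th_E3 s y x z := by
  unfold th_E3
  rw [th_D6_swap]
  ring

theorem th_E3_rot (s : Nat) (x y z : Fin 6 → ℝ) : th_E3 s x y z = th_E3 s x z y := by
  unfold th_E3
  rw [th_D6_rot]
  ring

/-- a form which is additive and homogeneous in its first argument, at a sum -/
theorem th_sum_first {ι V : Type*} [AddCommMonoid V] [Module ℝ V] (f : V → ℝ)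
    (hadd : ∀ x y, f (x + y) = f x + f y) (hsm : ∀ (c : ℝ) x, f (c • x) = c * f x)
    (s : Finset ι) (l : ι → ℝ) (v : ι → V) :
    f (∑ i ∈ s, l i • v i) = ∑ i ∈ s, l i * f (v i) := by
  let F : V →ₗ[ℝ] ℝ :=
    { toFun := f, map_add' := hadd, map_smul' := fun c x => by rw [hsm]; rfl }
  have h : F (∑ i ∈ s, l i • v i) = ∑ i ∈ s, l i * F (v i) := by
    rw [map_sum]
    refine Finset.sum_congr rfl fun i _ => ?_
    rw [map_smul, smul_eq_mul]
  exact h

theorem th_E3_sum (s : Nat) (l : Fin 6 → ℝ) (v : Fin 6 → Fin 6 → ℝ) (hl : ∀ i, 0 ≤ l i)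
    (h : ∀ i j k, 0 ≤ th_E3 s (v i) (v j) (v k)) :
    0 ≤ th_E3 s (∑ i, l i • v i) (∑ i, l i • v i) (∑ i, l i • v i) := by
  have f1 : ∀ y z, th_E3 s (∑ i, l i • v i) y z = ∑ i, l i * th_E3 s (v i) y z := fun y z =>
    th_sum_first (fun x => th_E3 s x y z) (fun a b => by
      simp only [th_E3, th_D6_add, th_cq_add]; ring) (fun c a => by
      simp only [th_E3, th_D6_smul, th_cq_smul]; ring) Finset.univ l v
  rw [f1]
  refine Finset.sum_nonneg fun i _ => mul_nonneg (hl i) ?_
  rw [th_E3_swap, f1]
  refine Finset.sum_nonneg fun j _ => mul_nonneg (hl j) ?_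
  rw [th_E3_rot, th_E3_swap, f1]
  refine Finset.sum_nonneg fun k _ => mul_nonneg (hl k) ?_
  exact h _ _ _

theorem th_frc_eq {α : Type} (n : Nat) (k : Nat → α) : frc n k = k n := by
  cases n <;> rfl

theorem th_cutv_cast (s : Nat) (v : W) : (cutv s v : ℝ) = th_cq s (wv v) := by
  unfold cutv th_cq
  split <;> simp only [Nat.add_eq, Nat.cast_add] <;> (unfold wv; simp; try ring)

theorem th_trip_spec (s n0 n1 n2 n3 n4 n5 n6 qq : Nat) (l : List W)
    (h : trip s n0 n1 n2 n3 n4 n5 n6 qq l = true) : ∀ x ∈ l,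
      60000 * qq * cutv s x ≤ 3214 * (n0 * cutv 0 x + (n1 * cutv 1 x + (n2 * cutv 2 x +
        (n3 * cutv 3 x + (n4 * cutv 4 x + (n5 * cutv 5 x + n6 * cutv 6 x)))))) := by
  induction l with
  | nil => intro x hx; simp at hx
  | cons a l ih =>
    unfold trip at h
    rw [Bool.and_eq_true] at h
    intro x hx
    rcases List.mem_cons.1 hx with rfl | hx
    · exact Nat.le_of_ble_eq_true h.1
    · exact ih h.2 x hx

theorem th_trow_spec (s : Nat) (v w : W) (l : List W) (h : trow s v w l = true) : ∀ x ∈ l,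
    0 ≤ th_E3 s (wv v) (wv w) (wv x) := by
  unfold trow at h
  simp only [th_frc_eq] at h
  intro x hx
  have h1 := th_trip_spec _ _ _ _ _ _ _ _ _ _ h x hx
  simp only [Nat.add_eq, Nat.mul_eq] at h1
  rify at h1
  simp only [th_cutv_cast] at h1
  unfold th_E3
  have e : th_D6 (wv v) (wv w) (wv x) = (v.b * w.c + (v.c * w.b + (v.b * w.f + (v.f * w.b +
      (v.c * w.f + v.f * w.c))))) * th_cq 0 (wv x) + ((v.a * w.c + (v.c * w.a + (v.a * w.e +
      (v.e * w.a + (v.c * w.e + v.e * w.c))))) * th_cq 1 (wv x) + ((v.a * w.b + (v.b * w.a +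
      (v.a * w.d + (v.d * w.a + (v.b * w.d + v.d * w.b))))) * th_cq 2 (wv x) +
      ((v.c * w.d + v.d * w.c) * th_cq 3 (wv x) + ((v.b * w.e + v.e * w.b) * th_cq 4 (wv x) +
      ((v.a * w.f + v.f * w.a) * th_cq 5 (wv x) + (v.d * w.e + (v.e * w.d + (v.d * w.f +
      (v.f * w.d + (v.e * w.f + v.f * w.e))))) * th_cq 6 (wv x)))))) := by
    unfold th_D6 th_cq wv
    simp
    ring
  rw [e]
  linarith

theorem th_leafB_spec (s : Nat) (v0 v1 v2 v3 v4 v5 : W) (h : leafB s v0 v1 v2 v3 v4 v5 = true) :
    ∀ i j k, 0 ≤ th_E3 s (wv (![v0, v1, v2, v3, v4, v5] i)) (wv (![v0, v1, v2, v3, v4, v5] j))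
      (wv (![v0, v1, v2, v3, v4, v5] k)) := by
  unfold leafB at h
  simp only [Bool.and_eq_true] at h
  obtain ⟨⟨⟨⟨⟨⟨⟨⟨⟨⟨⟨⟨⟨⟨⟨⟨⟨⟨⟨⟨h00, h01⟩, h02⟩, h03⟩, h04⟩, h05⟩, h11⟩, h12⟩, h13⟩, h14⟩, h15⟩, h22⟩, h23⟩, h24⟩, h25⟩, h33⟩, h34⟩, h35⟩, h44⟩, h45⟩, h55⟩ := h
  have h00 := th_trow_spec _ _ _ _ h00
  have h01 := th_trow_spec _ _ _ _ h01
  have h02 := th_trow_spec _ _ _ _ h02
  have h03 := th_trow_spec _ _ _ _ h03
  have h04 := th_trow_spec _ _ _ _ h04
  have h05 := th_trow_spec _ _ _ _ h05
  have h11 := th_trow_spec _ _ _ _ h11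
  have h12 := th_trow_spec _ _ _ _ h12
  have h13 := th_trow_spec _ _ _ _ h13
  have h14 := th_trow_spec _ _ _ _ h14
  have h15 := th_trow_spec _ _ _ _ h15
  have h22 := th_trow_spec _ _ _ _ h22
  have h23 := th_trow_spec _ _ _ _ h23
  have h24 := th_trow_spec _ _ _ _ h24
  have h25 := th_trow_spec _ _ _ _ h25
  have h33 := th_trow_spec _ _ _ _ h33
  have h34 := th_trow_spec _ _ _ _ h34
  have h35 := th_trow_spec _ _ _ _ h35
  have h44 := th_trow_spec _ _ _ _ h44
  have h45 := th_trow_spec _ _ _ _ h45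
  have h55 := th_trow_spec _ _ _ _ h55
  have srt : ∀ i j k : Fin 6, i ≤ j → j ≤ k → 0 ≤ th_E3 s (wv (![v0, v1, v2, v3, v4, v5] i))
      (wv (![v0, v1, v2, v3, v4, v5] j)) (wv (![v0, v1, v2, v3, v4, v5] k)) := by
    intro i j k hij hjk
    fin_cases i <;> fin_cases j
    · fin_cases k
      · exact h00 _ (by simp)
      · exact h00 _ (by simp)
      · exact h00 _ (by simp)
      · exact h00 _ (by simp)
      · exact h00 _ (by simp)
      · exact h00 _ (by simp)
    · fin_cases k
      · exact absurd hjk (by decide)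
      · exact h01 _ (by simp)
      · exact h01 _ (by simp)
      · exact h01 _ (by simp)
      · exact h01 _ (by simp)
      · exact h01 _ (by simp)
    · fin_cases k
      · exact absurd hjk (by decide)
      · exact absurd hjk (by decide)
      · exact h02 _ (by simp)
      · exact h02 _ (by simp)
      · exact h02 _ (by simp)
      · exact h02 _ (by simp)
    · fin_cases k
      · exact absurd hjk (by decide)
      · exact absurd hjk (by decide)
      · exact absurd hjk (by decide)
      · exact h03 _ (by simp)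
      · exact h03 _ (by simp)
      · exact h03 _ (by simp)
    · fin_cases k
      · exact absurd hjk (by decide)
      · exact absurd hjk (by decide)
      · exact absurd hjk (by decide)
      · exact absurd hjk (by decide)
      · exact h04 _ (by simp)
      · exact h04 _ (by simp)
    · fin_cases k
      · exact absurd hjk (by decide)
      · exact absurd hjk (by decide)
      · exact absurd hjk (by decide)
      · exact absurd hjk (by decide)
      · exact absurd hjk (by decide)
      · exact h05 _ (by simp)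
    · exact absurd hij (by decide)
    · fin_cases k
      · exact absurd hjk (by decide)
      · exact h11 _ (by simp)
      · exact h11 _ (by simp)
      · exact h11 _ (by simp)
      · exact h11 _ (by simp)
      · exact h11 _ (by simp)
    · fin_cases k
      · exact absurd hjk (by decide)
      · exact absurd hjk (by decide)
      · exact h12 _ (by simp)
      · exact h12 _ (by simp)
      · exact h12 _ (by simp)
      · exact h12 _ (by simp)
    · fin_cases k
      · exact absurd hjk (by decide)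
      · exact absurd hjk (by decide)
      · exact absurd hjk (by decide)
      · exact h13 _ (by simp)
      · exact h13 _ (by simp)
      · exact h13 _ (by simp)
    · fin_cases k
      · exact absurd hjk (by decide)
      · exact absurd hjk (by decide)
      · exact absurd hjk (by decide)
      · exact absurd hjk (by decide)
      · exact h14 _ (by simp)
      · exact h14 _ (by simp)
    · fin_cases k
      · exact absurd hjk (by decide)
      · exact absurd hjk (by decide)
      · exact absurd hjk (by decide)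
      · exact absurd hjk (by decide)
      · exact absurd hjk (by decide)
      · exact h15 _ (by simp)
    · exact absurd hij (by decide)
    · exact absurd hij (by decide)
    · fin_cases k
      · exact absurd hjk (by decide)
      · exact absurd hjk (by decide)
      · exact h22 _ (by simp)
      · exact h22 _ (by simp)
      · exact h22 _ (by simp)
      · exact h22 _ (by simp)
    · fin_cases k
      · exact absurd hjk (by decide)
      · exact absurd hjk (by decide)
      · exact absurd hjk (by decide)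
      · exact h23 _ (by simp)
      · exact h23 _ (by simp)
      · exact h23 _ (by simp)
    · fin_cases k
      · exact absurd hjk (by decide)
      · exact absurd hjk (by decide)
      · exact absurd hjk (by decide)
      · exact absurd hjk (by decide)
      · exact h24 _ (by simp)
      · exact h24 _ (by simp)
    · fin_cases k
      · exact absurd hjk (by decide)
      · exact absurd hjk (by decide)
      · exact absurd hjk (by decide)
      · exact absurd hjk (by decide)
      · exact absurd hjk (by decide)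
      · exact h25 _ (by simp)
    · exact absurd hij (by decide)
    · exact absurd hij (by decide)
    · exact absurd hij (by decide)
    · fin_cases k
      · exact absurd hjk (by decide)
      · exact absurd hjk (by decide)
      · exact absurd hjk (by decide)
      · exact h33 _ (by simp)
      · exact h33 _ (by simp)
      · exact h33 _ (by simp)
    · fin_cases k
      · exact absurd hjk (by decide)
      · exact absurd hjk (by decide)
      · exact absurd hjk (by decide)
      · exact absurd hjk (by decide)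
      · exact h34 _ (by simp)
      · exact h34 _ (by simp)
    · fin_cases k
      · exact absurd hjk (by decide)
      · exact absurd hjk (by decide)
      · exact absurd hjk (by decide)
      · exact absurd hjk (by decide)
      · exact absurd hjk (by decide)
      · exact h35 _ (by simp)
    · exact absurd hij (by decide)
    · exact absurd hij (by decide)
    · exact absurd hij (by decide)
    · exact absurd hij (by decide)
    · fin_cases k
      · exact absurd hjk (by decide)
      · exact absurd hjk (by decide)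
      · exact absurd hjk (by decide)
      · exact absurd hjk (by decide)
      · exact h44 _ (by simp)
      · exact h44 _ (by simp)
    · fin_cases k
      · exact absurd hjk (by decide)
      · exact absurd hjk (by decide)
      · exact absurd hjk (by decide)
      · exact absurd hjk (by decide)
      · exact absurd hjk (by decide)
      · exact h45 _ (by simp)
    · exact absurd hij (by decide)
    · exact absurd hij (by decide)
    · exact absurd hij (by decide)
    · exact absurd hij (by decide)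
    · exact absurd hij (by decide)
    · fin_cases k
      · exact absurd hjk (by decide)
      · exact absurd hjk (by decide)
      · exact absurd hjk (by decide)
      · exact absurd hjk (by decide)
      · exact absurd hjk (by decide)
      · exact h55 _ (by simp)
  intro i j k
  rcases le_total i j with a | a <;> rcases le_total j k with b | b <;>
    rcases le_total i k with c | c
  · exact srt i j k a b
  · exact srt i j k a b
  · rw [th_E3_rot]; exact srt i k j c b
  · rw [th_E3_rot, th_E3_swap]; exact srt k i j c a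
  · rw [th_E3_swap]; exact srt j i k a c
  · rw [th_E3_swap, th_E3_rot]; exact srt j k i b c
  · rw [th_E3_rot, th_E3_swap, th_E3_rot]; exact srt k j i b a
  · rw [th_E3_rot, th_E3_swap, th_E3_rot]; exact srt k j i b a

theorem th_cq_qf (s : Nat) (hs : s ≤ 6) : ∃ z : Fin 3 → ℤ, z ≠ 0 ∧ ∀ p, th_cq s p = qf p (rv z) := by
  interval_cases s
  · exact ⟨![1, 0, 0], by decide, fun p => by unfold th_cq qf rv; simp⟩
  · exact ⟨![0, 1, 0], by decide, fun p => by unfold th_cq qf rv; simp⟩
  · exact ⟨![0, 0, 1], by decide, fun p => by unfold th_cq qf rv; simp⟩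
  · exact ⟨![1, 1, 0], by decide, fun p => by unfold th_cq qf rv; simp⟩
  · exact ⟨![1, 0, 1], by decide, fun p => by unfold th_cq qf rv; simp⟩
  · exact ⟨![0, 1, 1], by decide, fun p => by unfold th_cq qf rv; simp⟩
  · exact ⟨![1, 1, 1], by decide, fun p => by unfold th_cq qf rv; simp⟩

theorem leafB_sound (hRF : ∀ s : ℝ, 1 ≤ s → RF s ≤ RFb (Real.exp (-(2 * al * s))))
    (s j : ℕ) (v0 v1 v2 v3 v4 v5 : W) (hs : s ≤ 6)
    (h : leafB s v0 v1 v2 v3 v4 v5 = true) : Good j ![v0, v1, v2, v3, v4, v5] := by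
  intro l hl hp hsc
  set p := ∑ i, l i • wv (![v0, v1, v2, v3, v4, v5] i) with hpdef
  have h1 : 0 ≤ th_E3 s p p p := th_E3_sum s l _ hl (th_leafB_spec s v0 v1 v2 v3 v4 v5 h)
  unfold th_E3 at h1
  rw [th_D6_self] at h1
  have hd := dt_pos hp
  have hr := rad_pos hd
  have hr3 := rad_cube hd.le
  obtain ⟨z, hz, hi⟩ := th_cq_qf s hs
  have hq : qf p (rv z) ≤ 685 / 1000 * rad p := by
    refine le_of_pow_le_pow_left₀ (three_ne_zero) (by positivity) ?_
    rw [mul_pow, hr3, ← hi]
    nlinarith
  have h2 : 1 ≤ rad p := by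
    refine le_trans ?_ hsc
    unfold sc
    rw [le_div_iff₀ (by norm_num)]
    have : (0 : ℝ) ≤ j := Nat.cast_nonneg j
    linarith
  exact Or.inl (thin hp h2 z hz hq hRF)

end Pool.Agent.H999.Theta3
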