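import Pool.Agent.H999.Theta3.Base

set_option autoImplicit false

open Matrix

namespace Pool.Agent.H999.Theta3

open Pool.Agent.K1H99.FCC (N0 rv nsq qf af dt PD rad Fp Qm pp tot al be)

lemma rl_e52 : Real.exp (5 / 2) ≤ 1219 / 100 := by
  have h1 := Real.exp_one_lt_d9
  have h2 : Real.exp (5 / 2) ^ 2 = Real.exp 1 ^ 5 := by
    rw [← Real.exp_nat_mul, ← Real.exp_nat_mul]
    congr 1
    norm_num
  have h3 : Real.exp 1 ^ 5 ≤ (2.7182818286 : ℝ) ^ 5 :=
    pow_le_pow_left₀ (Real.exp_pos 1).le h1.le 5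
  have h4 : Real.exp (5 / 2) ^ 2 ≤ (1219 / 100) ^ 2 := by
    rw [h2]
    exact h3.trans (by norm_num)
  exact le_of_sq_le_sq h4 (by norm_num)

lemma rl_term (s : ℝ) (n : N0) : Real.exp (-(Real.pi * (s * (qf Fp (rv n.1) / rad Fp)))) =
    (fun m : ℕ => Real.exp (-(al * s * m))) (Pool.Agent.K1H99.FCC.nz (Pool.Agent.K1H99.FCC.JG n)) := by
  have h := Pool.Agent.K1H99.FCC.a0_eq n
  simp only
  congr 1
  rw [Pool.Agent.K1H99.FCC.nz_JG]
  have e : Real.pi * (s * (qf Fp (rv n.1) / rad Fp)) =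
      s * (Real.pi * (qf Fp (rv n.1) / rad Fp)) := by ring
  rw [e, h]
  ring

theorem RF_le (s : ℝ) (hs : 1 ≤ s) : RF s ≤ RFb (Real.exp (-(2 * al * s))) := by
  obtain ⟨ha, -⟩ := Pool.Agent.K1H99.FCC.al_bounds
  have hal : (0 : ℝ) < al := by linarith
  have has : al ≤ al * s := by nlinarith
  set u := Real.exp (-(2 * al * s)) with hu
  have hu0 : 0 < u := Real.exp_pos _
  have hu1 : u ≤ 191 / 10000 := by
    refine le_trans (Real.exp_le_exp.2 ?_) (Pool.Agent.K1H99.FCC.E2.trans (by norm_num))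
    linarith
  have hpow : ∀ k : ℕ, Real.exp (-(al * s * ((2 * k : ℕ) : ℝ))) = u ^ k := by
    intro k
    rw [hu, ← Real.exp_nat_mul]
    congr 1
    push_cast
    ring
  have hsum : Summable fun n : N0 =>
      (fun m : ℕ => Real.exp (-(al * s * m))) (Pool.Agent.K1H99.FCC.nz (Pool.Agent.K1H99.FCC.JG n)) := by
    have h1 := (Pool.Agent.K1H99.FCC.theta_three (μ := 1 / 4) (by norm_num)).1.comp_injective
      Pool.Agent.K1H99.FCC.JG_inj
    refine Summable.of_nonneg_of_le (fun n => (Real.exp_pos _).le) (fun n => ?_) h1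
    simp only [Function.comp]
    apply Real.exp_le_exp.2
    have : (0 : ℝ) ≤ Pool.Agent.K1H99.FCC.nz (Pool.Agent.K1H99.FCC.JG n) := Nat.cast_nonneg _
    nlinarith
  have h := Pool.Agent.K1H99.FCC.shell Pool.Agent.K1H99.FCC.JG Pool.Agent.K1H99.FCC.JG_inj
    Pool.Agent.K1H99.FCC.SG 10 Pool.Agent.K1H99.FCC.JG_mem (fun m : ℕ => Real.exp (-(al * s * m)))
    (fun m => (Real.exp_pos _).le) hsum (K := u ^ 5 * Real.exp (5 / 2)) (μ := 1 / 4) (by norm_num)
    (by positivity) (by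
      intro m hm
      have hm' : (10 : ℝ) ≤ m := by exact_mod_cast hm
      rw [← hpow 5, ← Real.exp_add, ← Real.exp_add]
      apply Real.exp_le_exp.2
      push_cast
      nlinarith)
  have hsg := Pool.Agent.K1H99.FCC.sum_SG (fun m : ℕ => Real.exp (-(al * s * m)))
  rw [hsg] at h
  have p1 := hpow 1
  have p2 := hpow 2
  have p3 := hpow 3
  have p4 := hpow 4
  norm_num at p1 p2 p3 p4
  have h2 : RF s ≤ 12 * u + 6 * u ^ 2 + 24 * u ^ 3 + 12 * u ^ 4 + u ^ 5 * Real.exp (5 / 2) *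
      (1 + 2 * (Real.exp (-(1 / 4)) * (1 - Real.exp (-(1 / 4)) ^ 2)⁻¹)) ^ 3 := by
    unfold RF
    simp_rw [rl_term s]
    refine h.trans (le_of_eq ?_)
    push_cast
    rw [p1, p2, p3, p4]
  have t := Pool.Agent.K1H99.FCC.th2
  have h3 : u ^ 5 * Real.exp (5 / 2) *
      (1 + 2 * (Real.exp (-(1 / 4)) * (1 - Real.exp (-(1 / 4)) ^ 2)⁻¹)) ^ 3 ≤ 29 * u ^ 4 := by
    calc _ ≤ u ^ 5 * (1219 / 100) * 122 := by
          apply mul_le_mul _ t _ (by positivity)
          · exact mul_le_mul_of_nonneg_left rl_e52 (by positivity)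
          · have h4 : Real.exp (-(1 / 4)) ^ 2 < 1 := by
              rw [← Real.exp_nat_mul]
              have := Real.exp_lt_exp.2 (show ((2 : ℕ) : ℝ) * -(1 / 4) < 0 by norm_num)
              rwa [Real.exp_zero] at this
            have h5 : 0 < 1 - Real.exp (-(1 / 4)) ^ 2 := by linarith
            positivity
      _ = u ^ 4 * (u * (1219 / 100 * 122)) := by ring
      _ ≤ u ^ 4 * 29 := by
          apply mul_le_mul_of_nonneg_left _ (by positivity)
          linarith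
      _ = 29 * u ^ 4 := by ring
  unfold RFb
  linarith

end Pool.Agent.H999.Theta3
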