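import Pool.Agent.H999.Theta3.Base

set_option autoImplicit false

open Matrix

namespace Pool.Agent.H999.Theta3

open Pool.Agent.K1H99.FCC (N0 rv nsq qf af dt PD rad Fp Qm pp tot al be)

theorem ex_one (w e : ℕ) (q : ℝ) (h0 : 0 ≤ q) (hq : (3958092584258 : ℝ) / 10 ^ 12 * (w : ℝ) / 256 ≤ q)
    (h1 : q ≤ 1)
    (h : 2 ^ 24 * (1 + q + q ^ 2 / 2 + q ^ 3 / 6 + q ^ 4 / 24 + q ^ 5 / 120 + q ^ 6 / 720 +
      q ^ 7 / 5040 + q ^ 8 / 40320 + q ^ 9 / 362880 + q ^ 10 * 11 / 36288000) ≤ (e : ℝ)) :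
    2 ^ 24 * Real.exp (Real.pi * (12599 / 10000) * ((w : ℝ) / 256)) ≤ (e : ℝ) := by
  have hpi : Real.pi * (12599 / 10000) ≤ 3958092584258 / 10 ^ 12 := by
    have := Real.pi_lt_d20
    linarith
  have hx : Real.pi * (12599 / 10000) * ((w : ℝ) / 256) ≤ q := by
    refine le_trans ?_ hq
    rw [mul_div_assoc (3958092584258 / 10 ^ 12 : ℝ) (w : ℝ) 256]
    exact mul_le_mul_of_nonneg_right hpi (by positivity)
  have he : Real.exp (Real.pi * (12599 / 10000) * ((w : ℝ) / 256)) ≤ Real.exp q :=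
    Real.exp_le_exp.2 hx
  have hb := Real.exp_bound' h0 h1 (n := 10) (by norm_num)
  simp only [Finset.sum_range_succ, Finset.sum_range_zero, Nat.factorial] at hb
  norm_num at hb
  have hb' : Real.exp q ≤ 1 + q + q ^ 2 / 2 + q ^ 3 / 6 + q ^ 4 / 24 + q ^ 5 / 120 + q ^ 6 / 720 +
      q ^ 7 / 5040 + q ^ 8 / 40320 + q ^ 9 / 362880 + q ^ 10 * 11 / 36288000 := by
    linarith
  nlinarith [hb', he, h]

theorem ex_W : ∀ c < 16, tab.Wd / 2 ^ (8 * c) % 256 =
    (([1, 2, 3, 4, 6, 8, 11, 15, 20, 28, 38, 52, 0, 0, 0, 0] : List ℕ).getD c 0) := by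
  decide +kernel

theorem ex_E : ∀ c < 12, tab.E / 2 ^ (32 * c) % 2 ^ 32 =
    (([17038635, 17304122, 17573745, 17847569, 18408084, 18986202, 19887599, 21156381, 22856786,
      25866235, 30191228, 37487577] : List ℕ).getD c 0) := by
  decide +kernel

theorem expOK_tab : ∀ c ≤ 15, 1 ≤ tab.Wd / 2 ^ (8 * c) % 256 →
    2 ^ 24 * Real.exp (Real.pi * (12599 / 10000) * (((tab.Wd / 2 ^ (8 * c) % 256 : ℕ) : ℝ) / 256)) ≤
      ((tab.E / 2 ^ (32 * c) % 2 ^ 32 : ℕ) : ℝ) := by
  intro c hc hw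
  have hW := ex_W c (by omega)
  by_cases h12 : c < 12
  · have hE := ex_E c h12
    rw [hW, hE]
    clear hW hE hw
    interval_cases c <;> simp only [List.getD_cons_zero, List.getD_cons_succ]
    · exact ex_one 1 17038635 (154612992 / 10 ^ 10) (by norm_num) (by norm_num) (by norm_num) (by norm_num)
    · exact ex_one 2 17304122 (309225984 / 10 ^ 10) (by norm_num) (by norm_num) (by norm_num) (by norm_num)
    · exact ex_one 3 17573745 (463838975 / 10 ^ 10) (by norm_num) (by norm_num) (by norm_num) (by norm_num)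
    · exact ex_one 4 17847569 (618451967 / 10 ^ 10) (by norm_num) (by norm_num) (by norm_num) (by norm_num)
    · exact ex_one 6 18408084 (927677950 / 10 ^ 10) (by norm_num) (by norm_num) (by norm_num) (by norm_num)
    · exact ex_one 8 18986202 (1236903933 / 10 ^ 10) (by norm_num) (by norm_num) (by norm_num) (by norm_num)
    · exact ex_one 11 19887599 (1700742908 / 10 ^ 10) (by norm_num) (by norm_num) (by norm_num) (by norm_num)
    · exact ex_one 15 21156381 (2319194874 / 10 ^ 10) (by norm_num) (by norm_num) (by norm_num) (by norm_num)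
    · exact ex_one 20 22856786 (3092259832 / 10 ^ 10) (by norm_num) (by norm_num) (by norm_num) (by norm_num)
    · exact ex_one 28 25866235 (4329163765 / 10 ^ 10) (by norm_num) (by norm_num) (by norm_num) (by norm_num)
    · exact ex_one 38 30191228 (5875293680 / 10 ^ 10) (by norm_num) (by norm_num) (by norm_num) (by norm_num)
    · exact ex_one 52 37487577 (8039875562 / 10 ^ 10) (by norm_num) (by norm_num) (by norm_num) (by norm_num)
  · exfalso
    rw [hW] at hw
    have h12' : 12 ≤ c := by omega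
    clear hW h12
    interval_cases c <;> simp at hw

end Pool.Agent.H999.Theta3
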