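import Pool.Agent.H999.Theta3.Base

set_option autoImplicit false

open Matrix

namespace Pool.Agent.H999.Theta3

open Pool.Agent.K1H99.FCC (N0 rv nsq qf af dt PD rad Fp Qm pp tot al be)

/-- the inequality with `π` extracted from the natural number inequality -/
theorem le_pi (τ m S R : ℕ) (hτ : 1 ≤ τ) (hm : 1 ≤ m)
    (h : τ * (m * 314159266) ≤ (S - R) * 13421772800000000) :
    (R : ℝ) < S - 2 * Real.pi * ((τ : ℝ) / 2 ^ 20) * ((m : ℝ) / 256) := by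
  have hpos : 0 < τ * (m * 314159266) := by positivity
  have hRS : R < S := by
    by_contra hc
    have h0 : S - R = 0 := by omega
    rw [h0, zero_mul] at h
    omega
  have hpi : Real.pi < 3.14159266 := lt_trans Real.pi_lt_d20 (by norm_num)
  have h' : ((τ * (m * 314159266) : ℕ) : ℝ) ≤ (((S - R) * 13421772800000000 : ℕ) : ℝ) := by
    exact_mod_cast h
  rw [Nat.cast_mul, Nat.cast_mul, Nat.cast_mul, Nat.cast_sub hRS.le] at h'
  push_cast at h'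
  have ht : (0 : ℝ) < (τ : ℝ) * m := by
    have h1 : (1 : ℝ) ≤ τ := by exact_mod_cast hτ
    have h2 : (1 : ℝ) ≤ m := by exact_mod_cast hm
    positivity
  have h3 : (τ : ℝ) * m * Real.pi < (τ : ℝ) * m * 3.14159266 := mul_lt_mul_of_pos_left hpi ht
  have h4 : 2 * Real.pi * ((τ : ℝ) / 2 ^ 20) * ((m : ℝ) / 256) =
      (τ : ℝ) * m * Real.pi / 134217728 := by ring
  rw [h4]
  have h5 : (τ : ℝ) * m * Real.pi / 134217728 < (τ : ℝ) * m * 3.14159266 / 134217728 :=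
    div_lt_div_of_pos_right h3 (by norm_num)
  have h6 : (τ : ℝ) * m * 3.14159266 / 134217728 ≤ (S : ℝ) - R := by
    rw [div_le_iff₀ (by norm_num)]
    linarith
  linarith

theorem le_vert (τ : ℕ) (X g : ℝ) (h : 1048576 * X ≤ τ * g) : X ≤ (τ : ℝ) / 2 ^ 20 * g := by
  have : (τ : ℝ) / 2 ^ 20 * g = (τ * g) / 1048576 := by ring
  rw [this, le_div_iff₀ (by norm_num)]
  linarith

theorem le_sc (j : ℕ) : sc j = ((256 + j : ℕ) : ℝ) / 256 := by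
  unfold sc
  push_cast
  rfl

theorem le_sc1 (j : ℕ) : 1 ≤ sc j := by
  unfold sc
  have : (0 : ℝ) ≤ j := Nat.cast_nonneg j
  rw [le_div_iff₀ (by norm_num)]
  linarith

theorem le_val (v0 v1 v2 v3 v4 v5 : W) (c0 : Val v0) (c1 : Val v1) (c2 : Val v2)
    (c3 : Val v3) (c4 : Val v4) (c5 : Val v5) : ∀ i, Val ((![v0, v1, v2, v3, v4, v5] : Fin 6 → W) i) := by
  intro i
  fin_cases i <;> assumption

theorem le_div (n m : ℕ) (hm : 0 < m) : (n : ℝ) / m ≤ ((n / m + 1 : ℕ) : ℝ) := by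
  have h : n < m * (n / m + 1) := Nat.lt_mul_div_succ n hm
  have hm' : (0 : ℝ) < m := by exact_mod_cast hm
  rw [div_le_iff₀ hm']
  have h' : (n : ℝ) ≤ ((m * (n / m + 1) : ℕ) : ℝ) := by exact_mod_cast h.le
  push_cast at h' ⊢
  linarith

theorem leafI_sound
    (htz : ∀ (D : Tab) (_ : LinesOK D.T) (z j w c : ℕ) (v0 v1 v2 v3 v4 v5 : W),
      tz D z j w c v0 v1 v2 v3 v4 v5 = true →
      ∃ (a b : Fin 25 → ℕ) (τ : ℕ), TD D j w c ![v0, v1, v2, v3, v4, v5] a b τ)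
    (hcell : ∀ (a b : Fin 25 → ℝ) (v : Fin 6 → W) (s1 τ R1 : ℝ), (∀ z, Line (a z) (b z)) →
      (∀ z, 0 ≤ b z) → (∀ i, Val (v i)) → 1 ≤ s1 → 0 ≤ τ →
      (∀ i, ∑ z, b z * qf (wv (v i)) (rv (ZZ z)) ≤ τ * ((v i).g : ℝ)) →
      2 ^ 40 * RF s1 ≤ R1 → R1 < 2 * ∑ z, a z - 2 * Real.pi * τ * s1 →
      τ ≤ 12599 / 10000 * ∑ z, b z → ∀ l : Fin 6 → ℝ, (∀ i, 0 ≤ l i) → PD (∑ i, l i • wv (v i)) →
      s1 ≤ rad (∑ i, l i • wv (v i)) →
      RF (rad (∑ i, l i • wv (v i))) < Th (∑ i, l i • wv (v i)))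
    (hlines : LinesOK tab.T)
    (hrent : ∀ j ≤ 159, 2 ^ 40 * RFb (Real.exp (-(2 * al * sc j))) ≤ (rent tab.R j : ℝ))
    (hRF : ∀ s : ℝ, 1 ≤ s → RF s ≤ RFb (Real.exp (-(2 * al * s))))
    (z j : ℕ) (v0 v1 v2 v3 v4 v5 : W) (c0 : Val v0) (c1 : Val v1) (c2 : Val v2)
    (c3 : Val v3) (c4 : Val v4) (c5 : Val v5) (h : tz tab z j 0 0 v0 v1 v2 v3 v4 v5 = true) :
    Good j ![v0, v1, v2, v3, v4, v5] := by
  obtain ⟨a, b, τ, td⟩ := htz tab hlines z j 0 0 v0 v1 v2 v3 v4 v5 h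
  intro l hl hPD hrad
  left
  have hj : j ≤ 159 := by have := td.lt; omega
  refine hcell (fun z => (a z : ℝ)) (fun z => (b z : ℝ)) ![v0, v1, v2, v3, v4, v5] (sc j)
    ((τ : ℝ) / 2 ^ 20) (rent tab.R j : ℝ) td.line (fun z => Nat.cast_nonneg _)
    (le_val v0 v1 v2 v3 v4 v5 c0 c1 c2 c3 c4 c5) (le_sc1 j) (by positivity)
    (fun i => le_vert τ _ _ (td.vert i)) ?_ ?_ ?_ l hl hPD hrad
  · refine le_trans ?_ (hrent j hj)
    exact mul_le_mul_of_nonneg_left (hRF _ (le_sc1 j)) (by norm_num)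
  · have := le_pi τ (256 + j) (2 * ∑ z, a z) (rent tab.R j) td.pos (by omega) td.h1
    rw [le_sc]
    push_cast at this ⊢
    exact this
  · have h2 := td.h2 rfl
    have h2' : ((τ * 10000 : ℕ) : ℝ) ≤ (((∑ z, b z) * 13211009024 : ℕ) : ℝ) := by exact_mod_cast h2
    push_cast at h2'
    rw [div_le_iff₀ (by norm_num)]
    linarith

theorem leafA_sound
    (htz : ∀ (D : Tab) (_ : LinesOK D.T) (z j w c : ℕ) (v0 v1 v2 v3 v4 v5 : W),
      tz D z j w c v0 v1 v2 v3 v4 v5 = true →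
      ∃ (a b : Fin 25 → ℕ) (τ : ℕ), TD D j w c ![v0, v1, v2, v3, v4, v5] a b τ)
    (hcell : ∀ (a b : Fin 25 → ℝ) (v : Fin 6 → W) (s1 s2 τ R1 R2 : ℝ), (∀ z, Line (a z) (b z)) →
      (∀ z, 0 ≤ b z) → (∀ i, Val (v i)) → 1 ≤ s1 → s1 < s2 → 0 ≤ τ →
      (∀ i, ∑ z, b z * qf (wv (v i)) (rv (ZZ z)) ≤ τ * ((v i).g : ℝ)) →
      2 ^ 40 * RF s1 ≤ R1 → R1 < 2 * ∑ z, a z - 2 * Real.pi * τ * s1 →
      2 ^ 40 * (RF s2 * Real.exp (Real.pi * (12599 / 10000) * (s2 - s1))) ≤ R2 →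
      R2 < 2 * ∑ z, a z - 2 * Real.pi * τ * s2 +
        2 * Real.pi * (12599 / 10000) * (s2 - s1) * ∑ z, b z →
      ∀ l : Fin 6 → ℝ, (∀ i, 0 ≤ l i) → PD (∑ i, l i • wv (v i)) →
      s1 ≤ rad (∑ i, l i • wv (v i)) →
      RF (rad (∑ i, l i • wv (v i))) < Th (∑ i, l i • wv (v i)) ∨ s2 ≤ rad (∑ i, l i • wv (v i)))
    (hlines : LinesOK tab.T)
    (hrent : ∀ j ≤ 159, 2 ^ 40 * RFb (Real.exp (-(2 * al * sc j))) ≤ (rent tab.R j : ℝ))
    (hexp : ∀ c ≤ 15, 1 ≤ tab.Wd / 2 ^ (8 * c) % 256 →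
      2 ^ 24 * Real.exp (Real.pi * (12599 / 10000) * (((tab.Wd / 2 ^ (8 * c) % 256 : ℕ) : ℝ) / 256)) ≤
      ((tab.E / 2 ^ (32 * c) % 2 ^ 32 : ℕ) : ℝ))
    (hRF : ∀ s : ℝ, 1 ≤ s → RF s ≤ RFb (Real.exp (-(2 * al * s))))
    (z j w c : ℕ) (v0 v1 v2 v3 v4 v5 : W) (c0 : Val v0) (c1 : Val v1) (c2 : Val v2)
    (c3 : Val v3) (c4 : Val v4) (c5 : Val v5) (hc : c ≤ 15) (hw : w = tab.Wd / 2 ^ (8 * c) % 256)
    (hw1 : 1 ≤ w) (h : tz tab z j w c v0 v1 v2 v3 v4 v5 = true)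
    (hg : Good (j + w) ![v0, v1, v2, v3, v4, v5]) : Good j ![v0, v1, v2, v3, v4, v5] := by
  obtain ⟨a, b, τ, td⟩ := htz tab hlines z j w c v0 v1 v2 v3 v4 v5 h
  intro l hl hPD hrad
  have hjw : j + w ≤ 159 := td.lt
  have hw0 : w ≠ 0 := by omega
  have hs : sc (j + w) - sc j = (w : ℝ) / 256 := by
    unfold sc
    push_cast
    ring
  have hw' : (1 : ℝ) ≤ w := by exact_mod_cast hw1
  have hlt : sc j < sc (j + w) := by
    have : 0 < (w : ℝ) / 256 := by positivity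
    linarith
  obtain ⟨EU, hEU⟩ : ∃ EU : ℕ, EU = tab.E / 2 ^ (32 * c) % 2 ^ 32 := ⟨_, rfl⟩
  obtain ⟨r2, hr2⟩ : ∃ r2 : ℕ, r2 = rent tab.R (j + w) := ⟨_, rfl⟩
  have h3 := td.h3 hw0
  rw [← hEU, ← hr2] at h3
  have hE := hexp c hc (by rw [← hw]; exact hw1)
  rw [← hw, ← hEU] at hE
  have hR2 : 2 ^ 40 * RF (sc (j + w)) ≤ (r2 : ℝ) := by
    rw [hr2]
    refine le_trans ?_ (hrent (j + w) hjw)
    exact mul_le_mul_of_nonneg_left (hRF _ (le_sc1 _)) (by norm_num)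
  have hcase := hcell (fun z => (a z : ℝ)) (fun z => (b z : ℝ)) ![v0, v1, v2, v3, v4, v5] (sc j)
    (sc (j + w)) ((τ : ℝ) / 2 ^ 20) (rent tab.R j : ℝ) ((r2 * EU / 2 ^ 24 + 1 : ℕ) : ℝ) td.line
    (fun z => Nat.cast_nonneg _) (le_val v0 v1 v2 v3 v4 v5 c0 c1 c2 c3 c4 c5) (le_sc1 j) hlt
    (by positivity) (fun i => le_vert τ _ _ (td.vert i)) ?_ ?_ ?_ ?_ l hl hPD hrad
  · rcases hcase with h1 | h1
    · exact Or.inl h1
    · exact hg l hl hPD h1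
  · refine le_trans ?_ (hrent j (by omega))
    exact mul_le_mul_of_nonneg_left (hRF _ (le_sc1 j)) (by norm_num)
  · have := le_pi τ (256 + j) (2 * ∑ z, a z) (rent tab.R j) td.pos (by omega) td.h1
    rw [le_sc]
    push_cast at this ⊢
    exact this
  · rw [hs]
    refine le_trans ?_ (le_div (r2 * EU) (2 ^ 24) (by norm_num))
    rw [le_div_iff₀ (by norm_num)]
    push_cast
    have hexp0 : 0 ≤ Real.exp (Real.pi * (12599 / 10000) * ((w : ℝ) / 256)) := (Real.exp_pos _).le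
    rw [show (16777216 : ℝ) = 2 ^ 24 by norm_num]
    calc 2 ^ 40 * (RF (sc (j + w)) * Real.exp (Real.pi * (12599 / 10000) * ((w : ℝ) / 256))) *
          2 ^ 24 = (2 ^ 40 * RF (sc (j + w))) *
            (2 ^ 24 * Real.exp (Real.pi * (12599 / 10000) * ((w : ℝ) / 256))) := by ring
      _ ≤ (r2 : ℝ) * (2 ^ 24 * Real.exp (Real.pi * (12599 / 10000) * ((w : ℝ) / 256))) :=
          mul_le_mul_of_nonneg_right hR2 (by positivity)
      _ ≤ (r2 : ℝ) * EU := mul_le_mul_of_nonneg_left hE (Nat.cast_nonneg _)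
  · have := le_pi τ (256 + (j + w)) (2 * ∑ z, a z + w * (∑ z, b z) * 33999756369 / 2 ^ 40)
      (r2 * EU / 2 ^ 24 + 1) td.pos (by omega) h3
    rw [le_sc (j + w), ← le_sc (j + w), hs, le_sc (j + w)]
    have hb : ((w * (∑ z, b z) * 33999756369 / 2 ^ 40 : ℕ) : ℝ) ≤
        2 * Real.pi * (12599 / 10000) * ((w : ℝ) / 256) * ∑ z, (b z : ℝ) := by
      refine le_trans Nat.cast_div_le ?_
      push_cast
      have hpi : 3.14159265358979323846 < Real.pi := Real.pi_gt_d20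
      have hB : (0 : ℝ) ≤ (w : ℝ) * ∑ z, (b z : ℝ) :=
        mul_nonneg (by linarith) (Finset.sum_nonneg (fun _ _ => Nat.cast_nonneg _))
      have e1 : 2 * Real.pi * (12599 / 10000) * ((w : ℝ) / 256) * ∑ z, (b z : ℝ) =
          ((w : ℝ) * ∑ z, (b z : ℝ)) * (2 * Real.pi * (12599 / 10000) / 256) := by ring
      rw [e1, mul_div_assoc]
      apply mul_le_mul_of_nonneg_left _ hB
      norm_num
      linarith
    rw [Nat.cast_add (2 * ∑ z, a z)] at this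
    push_cast at this hb ⊢
    linarith

end Pool.Agent.H999.Theta3
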