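import Pool.Agent.H999.Theta3.Base

set_option autoImplicit false

open Matrix

namespace Pool.Agent.H999.Theta3

open Pool.Agent.K1H99.FCC (N0 rv nsq qf af dt PD rad Fp Qm pp tot al be)

theorem ln_frc {α : Type} (n : Nat) (k : Nat → α) : frc n k = k n := by
  cases n <;> rfl

/-- the check of one entry -/
def ln_cond (j L U a b : Nat) : Bool :=
  Nat.ble (128 * a * 2 ^ 50) ((129 + 2 * j) * L) && Nat.ble U (b * 2 ^ 50) &&
    Nat.ble a (2 ^ 40) && Nat.ble b (2 ^ 40)

/-- all conditions for `f` steps starting at `j` -/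
def ln_chk (T : Nat) : Nat → Nat → Nat → Nat → Bool
  | 0, _, _, _ => true
  | f + 1, j, L, U =>
      (frc (T / 2 ^ (96 * (1023 - j)) % 2 ^ 96 / 2 ^ 48) fun a =>
        frc (T / 2 ^ (96 * (1023 - j)) % 2 ^ 48) fun b => ln_cond j L U a b) &&
      frc (j + 1) fun j' => frc (L * 1218747557902792189148272567 / 2 ^ 90) fun L' =>
        frc (U * 1218747557902792189148272574 / 2 ^ 90 + 1) fun U' => ln_chk T f j' L' U'

set_option maxRecDepth 30000 in
theorem ln_chk_tab : ln_chk tab.T 1023 0 1228306313469544873506471459 1228306313469544873506471466 = true := by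
  decide +kernel

theorem ln_exp_bounds (x A B : ℝ) (hx : 0 ≤ x) (hx1 : x ≤ 1) (hA : 0 < A) (hB : 0 < B)
    (h1 : (∑ m ∈ Finset.range 14, x ^ m / (Nat.factorial m : ℝ)) + x ^ 14 * ((14 : ℕ) + 1) / ((Nat.factorial 14 : ℝ) * (14 : ℕ)) ≤ 2 ^ 90 / A)
    (h2 : 2 ^ 90 / B ≤ ∑ m ∈ Finset.range 14, x ^ m / (Nat.factorial m : ℝ)) :
    A ≤ 2 ^ 90 * Real.exp (-x) ∧ 2 ^ 90 * Real.exp (-x) ≤ B := by
  have e1 : Real.exp x ≤ 2 ^ 90 / A :=
    (Real.exp_bound' hx hx1 (n := 14) (by norm_num)).trans h1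
  have e2 : 2 ^ 90 / B ≤ Real.exp x := h2.trans (Real.sum_le_exp_of_nonneg hx 14)
  rw [Real.exp_neg, ← div_eq_mul_inv]
  constructor
  · rw [le_div_iff₀ (Real.exp_pos _), mul_comm]
    rwa [le_div_iff₀ hA] at e1
  · rw [div_le_iff₀ (Real.exp_pos _), mul_comm]
    rwa [div_le_iff₀ hB] at e2

theorem ln_step : (1218747557902792189148272567 : ℝ) ≤ 2 ^ 90 * Real.exp (-(1 / 64)) ∧
    2 ^ 90 * Real.exp (-(1 / 64)) ≤ 1218747557902792189148272574 := by
  apply ln_exp_bounds (1 / 64) _ _ (by norm_num) (by norm_num) (by norm_num) (by norm_num)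
  · norm_num [Finset.sum_range_succ, Nat.factorial]
  · norm_num [Finset.sum_range_succ, Nat.factorial]

theorem ln_init : (1228306313469544873506471459 : ℝ) ≤ 2 ^ 90 * Real.exp (-(1 / 128)) ∧
    2 ^ 90 * Real.exp (-(1 / 128)) ≤ 1228306313469544873506471466 := by
  apply ln_exp_bounds (1 / 128) _ _ (by norm_num) (by norm_num) (by norm_num) (by norm_num)
  · norm_num [Finset.sum_range_succ, Nat.factorial]
  · norm_num [Finset.sum_range_succ, Nat.factorial]

theorem ln_sound (T : Nat) : ∀ (f j L U : Nat), (L : ℝ) ≤ 2 ^ 90 * Real.exp (-((2 * j + 1) / 128)) →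
    2 ^ 90 * Real.exp (-((2 * j + 1) / 128)) ≤ (U : ℝ) → ln_chk T f j L U = true →
    ∀ m, j ≤ m → m < j + f → ∃ L' U' : Nat, (L' : ℝ) ≤ 2 ^ 90 * Real.exp (-((2 * m + 1) / 128)) ∧
      2 ^ 90 * Real.exp (-((2 * m + 1) / 128)) ≤ (U' : ℝ) ∧
      ln_cond m L' U' (T / 2 ^ (96 * (1023 - m)) % 2 ^ 96 / 2 ^ 48) (T / 2 ^ (96 * (1023 - m)) % 2 ^ 48) = true := by
  intro f
  induction f with
  | zero => intro j L U _ _ _ m h1 h2; omega
  | succ f ih =>
    intro j L U hL hU h m h1 h2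
    unfold ln_chk at h
    simp only [ln_frc, Bool.and_eq_true] at h
    obtain ⟨hc, h⟩ := h
    rcases Nat.eq_or_lt_of_le h1 with h4 | h4
    · subst h4
      exact ⟨L, U, hL, hU, hc⟩
    · obtain ⟨b1, b2⟩ := ln_step
      have e : Real.exp (-((2 * ((j + 1 : ℕ) : ℝ) + 1) / 128)) =
          Real.exp (-((2 * j + 1) / 128)) * Real.exp (-(1 / 64)) := by
        rw [← Real.exp_add]
        congr 1
        push_cast
        ring
      refine ih (j + 1) _ _ ?_ ?_ h m h4 (by omega)
      · have h5 : ((L * 1218747557902792189148272567 / 2 ^ 90 : ℕ) : ℝ) ≤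
            L * 1218747557902792189148272567 / 2 ^ 90 := by
          refine Nat.cast_div_le.trans (le_of_eq ?_)
          push_cast
          ring
        refine h5.trans ?_
        rw [e]
        calc (L : ℝ) * 1218747557902792189148272567 / 2 ^ 90
            ≤ (2 ^ 90 * Real.exp (-((2 * j + 1) / 128))) * (2 ^ 90 * Real.exp (-(1 / 64))) / 2 ^ 90 := by
              apply div_le_div_of_nonneg_right _ (by norm_num)
              exact mul_le_mul hL b1 (by norm_num) (by positivity)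
          _ = _ := by ring
      · have h5 : (U : ℝ) * 1218747557902792189148272574 / 2 ^ 90 ≤
            ((U * 1218747557902792189148272574 / 2 ^ 90 + 1 : ℕ) : ℝ) := by
          have h6 : U * 1218747557902792189148272574 <
              (U * 1218747557902792189148272574 / 2 ^ 90 + 1) * 2 ^ 90 :=
            Nat.lt_mul_of_div_lt (Nat.lt_succ_self _) (by norm_num)
          rw [div_le_iff₀ (by norm_num)]
          exact_mod_cast h6.le
        refine le_trans ?_ h5
        rw [e]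
        calc (2:ℝ) ^ 90 * (Real.exp (-((2 * j + 1) / 128)) * Real.exp (-(1 / 64)))
            = (2 ^ 90 * Real.exp (-((2 * j + 1) / 128))) * (2 ^ 90 * Real.exp (-(1 / 64))) / 2 ^ 90 := by ring
          _ ≤ (U : ℝ) * 1218747557902792189148272574 / 2 ^ 90 := by
              apply div_le_div_of_nonneg_right _ (by norm_num)
              exact mul_le_mul hU b2 (by positivity) (Nat.cast_nonneg _)

theorem ln_line {j L U a b : ℕ} (hL : (L : ℝ) ≤ 2 ^ 90 * Real.exp (-((2 * j + 1) / 128)))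
    (hU : 2 ^ 90 * Real.exp (-((2 * j + 1) / 128)) ≤ (U : ℝ)) (hc : ln_cond j L U a b = true) :
    Line (a : ℝ) (b : ℝ) ∧ a ≤ 2 ^ 41 ∧ b ≤ 2 ^ 41 := by
  unfold ln_cond at hc
  simp only [Bool.and_eq_true] at hc
  obtain ⟨⟨⟨c1, c2⟩, c3⟩, c4⟩ := hc
  have c1 := Nat.le_of_ble_eq_true c1
  have c2 := Nat.le_of_ble_eq_true c2
  have c3 := Nat.le_of_ble_eq_true c3
  have c4 := Nat.le_of_ble_eq_true c4
  refine ⟨?_, c3.trans (by norm_num), c4.trans (by norm_num)⟩
  set t : ℝ := (2 * j + 1) / 128 with ht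
  have d1 : (128 : ℝ) * a * 2 ^ 50 ≤ (129 + 2 * j) * L := by exact_mod_cast c1
  have d2 : (U : ℝ) ≤ b * 2 ^ 50 := by exact_mod_cast c2
  have d3 : (a : ℝ) ≤ 2 ^ 40 := by exact_mod_cast c3
  have d4 : (b : ℝ) ≤ 2 ^ 40 := by exact_mod_cast c4
  have hE : 0 < Real.exp (-t) := Real.exp_pos _
  have ha : (a : ℝ) ≤ 2 ^ 40 * Real.exp (-t) * (1 + t) := by
    have h1 : (129 + 2 * (j : ℝ)) * L ≤ (129 + 2 * j) * (2 ^ 90 * Real.exp (-t)) :=
      mul_le_mul_of_nonneg_left hL (by positivity)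
    have h2 : (129 + 2 * (j : ℝ)) = 128 * (1 + t) := by rw [ht]; ring
    rw [h2] at h1 d1
    have h3 := d1.trans h1
    nlinarith
  have hb : 2 ^ 40 * Real.exp (-t) ≤ b := by
    have h3 := hU.trans d2
    nlinarith
  intro x
  rcases le_or_gt 0 x with hx | hx
  · have h1 : Real.exp (-t) * (1 + t - x) ≤ Real.exp (-x) := by
      have h2 := Real.add_one_le_exp (t - x)
      calc Real.exp (-t) * (1 + t - x) ≤ Real.exp (-t) * Real.exp (t - x) :=
            mul_le_mul_of_nonneg_left (by linarith) hE.le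
        _ = Real.exp (-x) := by rw [← Real.exp_add]; congr 1; ring
    have h3 := mul_le_mul_of_nonneg_right hb hx
    nlinarith
  · have h1 := Real.add_one_le_exp (-x)
    have h2 : (b : ℝ) * (-x) ≤ 2 ^ 40 * (-x) := mul_le_mul_of_nonneg_right d4 (by linarith)
    nlinarith

theorem ln_zero : tab.T / 2 ^ (96 * 0) % 2 ^ 96 / 2 ^ 48 = 0 ∧ tab.T / 2 ^ (96 * 0) % 2 ^ 48 = 0 := by
  decide +kernel

theorem linesOK_tab : LinesOK tab.T := by
  intro k hk
  rcases Nat.eq_zero_or_pos k with h0 | h0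
  · subst h0
    rw [ln_zero.1, ln_zero.2]
    refine ⟨?_, by norm_num, by norm_num⟩
    intro x
    have := Real.exp_pos (-x)
    push_cast
    nlinarith
  · obtain ⟨L, U, hL, hU, hc⟩ := ln_sound tab.T 1023 0 1228306313469544873506471459
      1228306313469544873506471466 (by
        have := ln_init.1
        have e : -((2 * ((0 : ℕ) : ℝ) + 1) / 128) = -(1 / 128) := by norm_num
        rw [e]; exact_mod_cast this) (by
        have := ln_init.2
        have e : -((2 * ((0 : ℕ) : ℝ) + 1) / 128) = -(1 / 128) := by norm_num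
        rw [e]; exact_mod_cast this) ln_chk_tab (1023 - k) (by omega) (by omega)
    rw [show 1023 - (1023 - k) = k by omega] at hc
    exact ln_line hL hU hc

end Pool.Agent.H999.Theta3
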