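import Pool.Agent.H999.Theta3.Base

set_option autoImplicit false

open Matrix

namespace Pool.Agent.H999.Theta3

open Pool.Agent.K1H99.FCC (N0 rv nsq qf af dt PD rad Fp Qm pp tot al be)

/-- upper bounds of `2 ^ 80 * exp (-c * (256 + j) / 256)`, `c = 3.9581586` -/
def re_U (j : ℕ) : ℕ :=
  Nat.rec (motive := fun _ => ℕ) 23088366868745254223913
    (fun _ u => Nat.add (Nat.div (Nat.mul u 1190377704981708381208079)
      1208925819614629174706176) 1) j

lemma re_U_zero : re_U 0 = 23088366868745254223913 := rfl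

lemma re_U_succ (j : ℕ) : re_U (j + 1) =
    re_U j * 1190377704981708381208079 / 1208925819614629174706176 + 1 := rfl

/-- the polynomial, scaled by `2 ^ 280` -/
def re_P (u : ℕ) : ℕ :=
  Nat.add (Nat.mul (Nat.mul 12 u) (Nat.pow 2 240)) (Nat.add (Nat.mul (Nat.mul 6 (Nat.mul u u))
    (Nat.pow 2 160)) (Nat.add (Nat.mul (Nat.mul 24 (Nat.mul u (Nat.mul u u))) (Nat.pow 2 80))
    (Nat.mul 41 (Nat.mul (Nat.mul u u) (Nat.mul u u)))))

lemma re_chk : ∀ j < 160, Nat.ble (re_P (re_U j)) (Nat.mul (rent tabR j) (Nat.pow 2 280)) = true := by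
  decide +kernel

/-- the bound for the exponential at `j = 0` -/
lemma re_exp0 : Real.exp (-(39581586 / 10000000)) ≤
    (23088366868745254223913 : ℝ) / 1208925819614629174706176 :=
  Pool.Agent.K1H99.FCC.expneg_le
    (s := 1280671964567097375321399133061 / 1000000000000000000000000000000)
    (by norm_num) (by norm_num) (by norm_num) (by norm_num)

/-- the bound for the ratio -/
lemma re_exp1 : Real.exp (-(39581586 / 2560000000)) ≤
    (1190377704981708381208079 : ℝ) / 1208925819614629174706176 :=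
  Pool.Agent.K1H99.FCC.expneg_le
    (s := 1000966814378455765672870104651 / 1000000000000000000000000000000)
    (by norm_num) (by norm_num) (by norm_num) (by norm_num)

lemma re_U_le (j : ℕ) : 1208925819614629174706176 *
    Real.exp (-(39581586 / 10000000 * sc j)) ≤ (re_U j : ℝ) := by
  induction j with
  | zero =>
    have h : -(39581586 / 10000000 * sc 0) = (-(39581586 / 10000000) : ℝ) := by
      unfold sc
      norm_num
    rw [h, re_U_zero]
    have h0 := re_exp0
    rw [le_div_iff₀ (by norm_num)] at h0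
    push_cast
    linarith
  | succ j ih =>
    have h : -(39581586 / 10000000 * sc (j + 1)) =
        -(39581586 / 10000000 * sc j) + (-(39581586 / 2560000000) : ℝ) := by
      unfold sc
      push_cast
      ring
    rw [h, Real.exp_add, re_U_succ]
    have h1 := re_exp1
    rw [le_div_iff₀ (by norm_num)] at h1
    have hp := Real.exp_pos (-(39581586 / 2560000000) : ℝ)
    have hU : (0 : ℝ) ≤ re_U j := Nat.cast_nonneg _
    have hm : (re_U j * 1190377704981708381208079 : ℕ) <
        1208925819614629174706176 *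
          (re_U j * 1190377704981708381208079 / 1208925819614629174706176 + 1) :=
      Nat.lt_mul_div_succ _ (by norm_num)
    have hm' : ((re_U j : ℝ) * 1190377704981708381208079) <
        1208925819614629174706176 *
          ((re_U j * 1190377704981708381208079 / 1208925819614629174706176 + 1 : ℕ) : ℝ) := by
      exact_mod_cast hm
    have h2 : 1208925819614629174706176 * Real.exp (-(39581586 / 10000000 * sc j)) *
        (Real.exp (-(39581586 / 2560000000) : ℝ) * 1208925819614629174706176) ≤
        (re_U j : ℝ) * 1190377704981708381208079 :=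
      mul_le_mul ih h1 (by positivity) hU
    have h3 : 1208925819614629174706176 * (1208925819614629174706176 *
        (Real.exp (-(39581586 / 10000000 * sc j)) * Real.exp (-(39581586 / 2560000000) : ℝ))) ≤
        1208925819614629174706176 *
          ((re_U j * 1190377704981708381208079 / 1208925819614629174706176 + 1 : ℕ) : ℝ) := by
      refine le_trans (le_of_eq ?_) (h2.trans hm'.le)
      ring
    exact le_of_mul_le_mul_left h3 (by norm_num)

lemma re_P_cast (u : ℕ) : ((re_P u : ℕ) : ℝ) = 2 ^ 320 * RFb ((u : ℝ) / 2 ^ 80) := by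
  have h : re_P u = 12 * u * 2 ^ 240 + (6 * (u * u) * 2 ^ 160 + (24 * (u * (u * u)) * 2 ^ 80 +
      41 * ((u * u) * (u * u)))) := rfl
  rw [h]
  unfold RFb
  push_cast
  field_simp
  ring

lemma re_RFb_mono {x y : ℝ} (hx : 0 ≤ x) (h : x ≤ y) : RFb x ≤ RFb y := by
  unfold RFb
  have h2 := pow_le_pow_left₀ hx h 2
  have h3 := pow_le_pow_left₀ hx h 3
  have h4 := pow_le_pow_left₀ hx h 4
  linarith

theorem rentOK_tab : ∀ j ≤ 159, 2 ^ 40 * RFb (Real.exp (-(2 * al * sc j))) ≤ (rent tab.R j : ℝ) := by
  intro j hj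
  have hc := re_chk j (by omega)
  have hc1 : re_P (re_U j) ≤ rent tabR j * Nat.pow 2 280 := Nat.le_of_ble_eq_true hc
  have hc2 : ((re_P (re_U j) : ℕ) : ℝ) ≤ (rent tabR j : ℝ) * 2 ^ 280 := by
    have h1 : ((re_P (re_U j) : ℕ) : ℝ) ≤ ((rent tabR j * Nat.pow 2 280 : ℕ) : ℝ) :=
      Nat.cast_le.mpr hc1
    have h2 : ((rent tabR j * Nat.pow 2 280 : ℕ) : ℝ) = (rent tabR j : ℝ) * 2 ^ 280 := by
      rw [Nat.cast_mul]
      congr 1
      exact Nat.cast_pow 2 280
    rw [← h2]
    exact h1
  rw [re_P_cast] at hc2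
  have hal := Pool.Agent.K1H99.FCC.al_bounds.1
  have hs : 0 ≤ sc j := by
    unfold sc
    positivity
  have he : Real.exp (-(2 * al * sc j)) ≤ (re_U j : ℝ) / 2 ^ 80 := by
    rw [le_div_iff₀ (by positivity)]
    have h1 := re_U_le j
    have h2 : Real.exp (-(2 * al * sc j)) ≤ Real.exp (-(39581586 / 10000000 * sc j)) := by
      apply Real.exp_le_exp.mpr
      have : 39581586 / 10000000 * sc j ≤ 2 * al * sc j := by
        apply mul_le_mul_of_nonneg_right _ hs
        linarith
      linarith
    have h3 : (2 : ℝ) ^ 80 = 1208925819614629174706176 := by norm_num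
    rw [h3]
    linarith
  have hm := re_RFb_mono (Real.exp_pos _).le he
  have hR : (rent tab.R j : ℝ) = (rent tabR j : ℝ) := rfl
  rw [hR]
  have h5 : (2 : ℝ) ^ 320 * RFb ((re_U j : ℝ) / 2 ^ 80) =
      (2 ^ 40 * RFb ((re_U j : ℝ) / 2 ^ 80)) * 2 ^ 280 := by
    rw [show (320 : ℕ) = 40 + 280 from rfl, pow_add, mul_assoc, mul_assoc,
      mul_comm ((2 : ℝ) ^ 280)]
  rw [h5] at hc2
  have h6 := le_of_mul_le_mul_right hc2 (by positivity)
  have h7 : (2 : ℝ) ^ 40 * RFb (Real.exp (-(2 * al * sc j))) ≤
      2 ^ 40 * RFb ((re_U j : ℝ) / 2 ^ 80) := mul_le_mul_of_nonneg_left hm (by positivity)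
  exact h7.trans h6

end Pool.Agent.H999.Theta3
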