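import Pool.Agent.H999.Theta3.Tz
import Pool.Agent.H999.Theta3.Cell
import Pool.Agent.H999.Theta3.RFa
import Pool.Agent.H999.Theta3.RFle
import Pool.Agent.H999.Theta3.Lines
import Pool.Agent.H999.Theta3.Rent
import Pool.Agent.H999.Theta3.Expw
import Pool.Agent.H999.Theta3.Go
import Pool.Agent.H999.Theta3.Thin
import Pool.Agent.H999.Theta3.InFB
import Pool.Agent.H999.Theta3.Leaf

/-!
# The engine: soundness of the checker, and tools for assembling the certificate
-/

set_option autoImplicit false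

open Matrix

namespace Pool.Agent.H999.Theta3

open Pool.Agent.K1H99.FCC (N0 rv nsq qf af dt PD rad Fp Qm pp tot al be)

/-- soundness of the checker -/
theorem eng (n j : ℕ) (v0 v1 v2 v3 v4 v5 : W) (code : ℕ) (c0 : Val v0) (c1 : Val v1) (c2 : Val v2)
    (c3 : Val v3) (c4 : Val v4) (c5 : Val v5) (h : go tab n j v0 v1 v2 v3 v4 v5 code ≠ 0) :
    Good j ![v0, v1, v2, v3, v4, v5] := by
  have hanti : ∀ s t : ℝ, 1 ≤ s → s ≤ t → RF t ≤ RF s := fun s t hs => RF_anti s t (by linarith)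
  have hdec : ∀ s1 s : ℝ, 1 ≤ s1 → s1 ≤ s →
      RF s * Real.exp (Real.pi * (12599 / 10000) * (s - s1)) ≤ RF s1 :=
    fun s1 s hs => RF_dec s1 s (by linarith)
  have hchord : ∀ s1 s2 s : ℝ, 1 ≤ s1 → s1 < s2 → s1 ≤ s → s ≤ s2 →
      RF s * Real.exp (Real.pi * (12599 / 10000) * (s - s1)) ≤ ((s2 - s) * RF s1 + (s - s1) *
        (RF s2 * Real.exp (Real.pi * (12599 / 10000) * (s2 - s1)))) / (s2 - s1) :=
    fun s1 s2 s hs => RF_chord s1 s2 s (by linarith)
  have htz : ∀ (D : Tab) (_ : LinesOK D.T) (z j w c : ℕ) (v0 v1 v2 v3 v4 v5 : W),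
      tz D z j w c v0 v1 v2 v3 v4 v5 = true →
      ∃ (a b : Fin 25 → ℕ) (τ : ℕ), TD D j w c ![v0, v1, v2, v3, v4, v5] a b τ :=
    fun D hD z j w c v0 v1 v2 v3 v4 v5 h => tz_spec hD h
  refine go_sound tab ?_ ?_ (leafB_sound RF_le) leafF_sound leafBB_sound n j v0 v1 v2 v3 v4 v5 code
    c0 c1 c2 c3 c4 c5 h
  · exact leafI_sound htz (cell_inf hanti hdec) linesOK_tab rentOK_tab RF_le
  · exact leafA_sound htz (cell_fin hanti hchord) linesOK_tab rentOK_tab expOK_tab RF_le

/-- boolean test for `Val` -/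
def val (w : W) : Bool := Nat.ble (w.g * w.g * w.g) (detN w.a w.b w.c w.d w.e w.f) &&
  Nat.beq (w.a + w.b + w.c + w.d + w.e + w.f) 12884901888

lemma val_spec {w : W} (h : val w = true) : Val w := by
  unfold val at h
  rw [Bool.and_eq_true] at h
  exact ⟨Nat.le_of_ble_eq_true h.1, Nat.eq_of_beq_eq_true h.2⟩

lemma good_of (v0 v1 v2 v3 v4 v5 : W) (code : ℕ) (h0 : val v0 = true)
    (h1 : val v1 = true) (h2 : val v2 = true) (h3 : val v3 = true) (h4 : val v4 = true)
    (h5 : val v5 = true) (h : go tab 200 0 v0 v1 v2 v3 v4 v5 code = 1) :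
    Good 0 ![v0, v1, v2, v3, v4, v5] :=
  eng 200 0 _ _ _ _ _ _ code (val_spec h0) (val_spec h1) (val_spec h2) (val_spec h3) (val_spec h4)
    (val_spec h5) (by rw [h]; norm_num)

/-- `m` is the midpoint -/
def isMid (v w m : W) : Bool := Nat.beq (2 * m.a) (v.a + w.a) && Nat.beq (2 * m.b) (v.b + w.b) &&
  Nat.beq (2 * m.c) (v.c + w.c) && Nat.beq (2 * m.d) (v.d + w.d) && Nat.beq (2 * m.e) (v.e + w.e) &&
  Nat.beq (2 * m.f) (v.f + w.f)

lemma isMid_spec {v w m : W} (h : isMid v w m = true) : (2:ℝ) • wv m = wv v + wv w := by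
  unfold isMid at h
  simp only [Bool.and_eq_true] at h
  obtain ⟨⟨⟨⟨⟨ha, hb⟩, hc⟩, hd⟩, he⟩, hf⟩ := h
  have ra : (2:ℝ) * m.a = v.a + w.a := by exact_mod_cast Nat.eq_of_beq_eq_true ha
  have rb : (2:ℝ) * m.b = v.b + w.b := by exact_mod_cast Nat.eq_of_beq_eq_true hb
  have rc : (2:ℝ) * m.c = v.c + w.c := by exact_mod_cast Nat.eq_of_beq_eq_true hc
  have rd : (2:ℝ) * m.d = v.d + w.d := by exact_mod_cast Nat.eq_of_beq_eq_true hd
  have re : (2:ℝ) * m.e = v.e + w.e := by exact_mod_cast Nat.eq_of_beq_eq_true he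
  have rf : (2:ℝ) * m.f = v.f + w.f := by exact_mod_cast Nat.eq_of_beq_eq_true hf
  funext i
  fin_cases i
  · exact ra
  · exact rb
  · exact rc
  · exact rd
  · exact re
  · exact rf

lemma split01 {v0 v1 v2 v3 v4 v5 m : W} (hm : isMid v0 v1 m = true)
    (h1 : Good 0 ![m, v1, v2, v3, v4, v5]) (h2 : Good 0 ![v0, m, v2, v3, v4, v5]) :
    Good 0 ![v0, v1, v2, v3, v4, v5] := by
  refine good_split 0 _ 0 1 (by decide) m (isMid_spec hm) ?_ ?_
  · have e3 : Function.update ![v0, v1, v2, v3, v4, v5] 0 m = ![m, v1, v2, v3, v4, v5] := by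
      funext t
      fin_cases t <;> rfl
    rw [e3]
    exact h1
  · have e3 : Function.update ![v0, v1, v2, v3, v4, v5] 1 m = ![v0, m, v2, v3, v4, v5] := by
      funext t
      fin_cases t <;> rfl
    rw [e3]
    exact h2

lemma split02 {v0 v1 v2 v3 v4 v5 m : W} (hm : isMid v0 v2 m = true)
    (h1 : Good 0 ![m, v1, v2, v3, v4, v5]) (h2 : Good 0 ![v0, v1, m, v3, v4, v5]) :
    Good 0 ![v0, v1, v2, v3, v4, v5] := by
  refine good_split 0 _ 0 2 (by decide) m (isMid_spec hm) ?_ ?_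
  · have e3 : Function.update ![v0, v1, v2, v3, v4, v5] 0 m = ![m, v1, v2, v3, v4, v5] := by
      funext t
      fin_cases t <;> rfl
    rw [e3]
    exact h1
  · have e3 : Function.update ![v0, v1, v2, v3, v4, v5] 2 m = ![v0, v1, m, v3, v4, v5] := by
      funext t
      fin_cases t <;> rfl
    rw [e3]
    exact h2

lemma split03 {v0 v1 v2 v3 v4 v5 m : W} (hm : isMid v0 v3 m = true)
    (h1 : Good 0 ![m, v1, v2, v3, v4, v5]) (h2 : Good 0 ![v0, v1, v2, m, v4, v5]) :
    Good 0 ![v0, v1, v2, v3, v4, v5] := by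
  refine good_split 0 _ 0 3 (by decide) m (isMid_spec hm) ?_ ?_
  · have e3 : Function.update ![v0, v1, v2, v3, v4, v5] 0 m = ![m, v1, v2, v3, v4, v5] := by
      funext t
      fin_cases t <;> rfl
    rw [e3]
    exact h1
  · have e3 : Function.update ![v0, v1, v2, v3, v4, v5] 3 m = ![v0, v1, v2, m, v4, v5] := by
      funext t
      fin_cases t <;> rfl
    rw [e3]
    exact h2

lemma split04 {v0 v1 v2 v3 v4 v5 m : W} (hm : isMid v0 v4 m = true)
    (h1 : Good 0 ![m, v1, v2, v3, v4, v5]) (h2 : Good 0 ![v0, v1, v2, v3, m, v5]) :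
    Good 0 ![v0, v1, v2, v3, v4, v5] := by
  refine good_split 0 _ 0 4 (by decide) m (isMid_spec hm) ?_ ?_
  · have e3 : Function.update ![v0, v1, v2, v3, v4, v5] 0 m = ![m, v1, v2, v3, v4, v5] := by
      funext t
      fin_cases t <;> rfl
    rw [e3]
    exact h1
  · have e3 : Function.update ![v0, v1, v2, v3, v4, v5] 4 m = ![v0, v1, v2, v3, m, v5] := by
      funext t
      fin_cases t <;> rfl
    rw [e3]
    exact h2

lemma split05 {v0 v1 v2 v3 v4 v5 m : W} (hm : isMid v0 v5 m = true)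
    (h1 : Good 0 ![m, v1, v2, v3, v4, v5]) (h2 : Good 0 ![v0, v1, v2, v3, v4, m]) :
    Good 0 ![v0, v1, v2, v3, v4, v5] := by
  refine good_split 0 _ 0 5 (by decide) m (isMid_spec hm) ?_ ?_
  · have e3 : Function.update ![v0, v1, v2, v3, v4, v5] 0 m = ![m, v1, v2, v3, v4, v5] := by
      funext t
      fin_cases t <;> rfl
    rw [e3]
    exact h1
  · have e3 : Function.update ![v0, v1, v2, v3, v4, v5] 5 m = ![v0, v1, v2, v3, v4, m] := by
      funext t
      fin_cases t <;> rfl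
    rw [e3]
    exact h2

lemma split12 {v0 v1 v2 v3 v4 v5 m : W} (hm : isMid v1 v2 m = true)
    (h1 : Good 0 ![v0, m, v2, v3, v4, v5]) (h2 : Good 0 ![v0, v1, m, v3, v4, v5]) :
    Good 0 ![v0, v1, v2, v3, v4, v5] := by
  refine good_split 0 _ 1 2 (by decide) m (isMid_spec hm) ?_ ?_
  · have e3 : Function.update ![v0, v1, v2, v3, v4, v5] 1 m = ![v0, m, v2, v3, v4, v5] := by
      funext t
      fin_cases t <;> rfl
    rw [e3]
    exact h1
  · have e3 : Function.update ![v0, v1, v2, v3, v4, v5] 2 m = ![v0, v1, m, v3, v4, v5] := by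
      funext t
      fin_cases t <;> rfl
    rw [e3]
    exact h2

lemma split13 {v0 v1 v2 v3 v4 v5 m : W} (hm : isMid v1 v3 m = true)
    (h1 : Good 0 ![v0, m, v2, v3, v4, v5]) (h2 : Good 0 ![v0, v1, v2, m, v4, v5]) :
    Good 0 ![v0, v1, v2, v3, v4, v5] := by
  refine good_split 0 _ 1 3 (by decide) m (isMid_spec hm) ?_ ?_
  · have e3 : Function.update ![v0, v1, v2, v3, v4, v5] 1 m = ![v0, m, v2, v3, v4, v5] := by
      funext t
      fin_cases t <;> rfl
    rw [e3]
    exact h1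
  · have e3 : Function.update ![v0, v1, v2, v3, v4, v5] 3 m = ![v0, v1, v2, m, v4, v5] := by
      funext t
      fin_cases t <;> rfl
    rw [e3]
    exact h2

lemma split14 {v0 v1 v2 v3 v4 v5 m : W} (hm : isMid v1 v4 m = true)
    (h1 : Good 0 ![v0, m, v2, v3, v4, v5]) (h2 : Good 0 ![v0, v1, v2, v3, m, v5]) :
    Good 0 ![v0, v1, v2, v3, v4, v5] := by
  refine good_split 0 _ 1 4 (by decide) m (isMid_spec hm) ?_ ?_
  · have e3 : Function.update ![v0, v1, v2, v3, v4, v5] 1 m = ![v0, m, v2, v3, v4, v5] := by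
      funext t
      fin_cases t <;> rfl
    rw [e3]
    exact h1
  · have e3 : Function.update ![v0, v1, v2, v3, v4, v5] 4 m = ![v0, v1, v2, v3, m, v5] := by
      funext t
      fin_cases t <;> rfl
    rw [e3]
    exact h2

lemma split15 {v0 v1 v2 v3 v4 v5 m : W} (hm : isMid v1 v5 m = true)
    (h1 : Good 0 ![v0, m, v2, v3, v4, v5]) (h2 : Good 0 ![v0, v1, v2, v3, v4, m]) :
    Good 0 ![v0, v1, v2, v3, v4, v5] := by
  refine good_split 0 _ 1 5 (by decide) m (isMid_spec hm) ?_ ?_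
  · have e3 : Function.update ![v0, v1, v2, v3, v4, v5] 1 m = ![v0, m, v2, v3, v4, v5] := by
      funext t
      fin_cases t <;> rfl
    rw [e3]
    exact h1
  · have e3 : Function.update ![v0, v1, v2, v3, v4, v5] 5 m = ![v0, v1, v2, v3, v4, m] := by
      funext t
      fin_cases t <;> rfl
    rw [e3]
    exact h2

lemma split23 {v0 v1 v2 v3 v4 v5 m : W} (hm : isMid v2 v3 m = true)
    (h1 : Good 0 ![v0, v1, m, v3, v4, v5]) (h2 : Good 0 ![v0, v1, v2, m, v4, v5]) :
    Good 0 ![v0, v1, v2, v3, v4, v5] := by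
  refine good_split 0 _ 2 3 (by decide) m (isMid_spec hm) ?_ ?_
  · have e3 : Function.update ![v0, v1, v2, v3, v4, v5] 2 m = ![v0, v1, m, v3, v4, v5] := by
      funext t
      fin_cases t <;> rfl
    rw [e3]
    exact h1
  · have e3 : Function.update ![v0, v1, v2, v3, v4, v5] 3 m = ![v0, v1, v2, m, v4, v5] := by
      funext t
      fin_cases t <;> rfl
    rw [e3]
    exact h2

lemma split24 {v0 v1 v2 v3 v4 v5 m : W} (hm : isMid v2 v4 m = true)
    (h1 : Good 0 ![v0, v1, m, v3, v4, v5]) (h2 : Good 0 ![v0, v1, v2, v3, m, v5]) :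
    Good 0 ![v0, v1, v2, v3, v4, v5] := by
  refine good_split 0 _ 2 4 (by decide) m (isMid_spec hm) ?_ ?_
  · have e3 : Function.update ![v0, v1, v2, v3, v4, v5] 2 m = ![v0, v1, m, v3, v4, v5] := by
      funext t
      fin_cases t <;> rfl
    rw [e3]
    exact h1
  · have e3 : Function.update ![v0, v1, v2, v3, v4, v5] 4 m = ![v0, v1, v2, v3, m, v5] := by
      funext t
      fin_cases t <;> rfl
    rw [e3]
    exact h2

lemma split25 {v0 v1 v2 v3 v4 v5 m : W} (hm : isMid v2 v5 m = true)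
    (h1 : Good 0 ![v0, v1, m, v3, v4, v5]) (h2 : Good 0 ![v0, v1, v2, v3, v4, m]) :
    Good 0 ![v0, v1, v2, v3, v4, v5] := by
  refine good_split 0 _ 2 5 (by decide) m (isMid_spec hm) ?_ ?_
  · have e3 : Function.update ![v0, v1, v2, v3, v4, v5] 2 m = ![v0, v1, m, v3, v4, v5] := by
      funext t
      fin_cases t <;> rfl
    rw [e3]
    exact h1
  · have e3 : Function.update ![v0, v1, v2, v3, v4, v5] 5 m = ![v0, v1, v2, v3, v4, m] := by
      funext t
      fin_cases t <;> rfl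
    rw [e3]
    exact h2

lemma split34 {v0 v1 v2 v3 v4 v5 m : W} (hm : isMid v3 v4 m = true)
    (h1 : Good 0 ![v0, v1, v2, m, v4, v5]) (h2 : Good 0 ![v0, v1, v2, v3, m, v5]) :
    Good 0 ![v0, v1, v2, v3, v4, v5] := by
  refine good_split 0 _ 3 4 (by decide) m (isMid_spec hm) ?_ ?_
  · have e3 : Function.update ![v0, v1, v2, v3, v4, v5] 3 m = ![v0, v1, v2, m, v4, v5] := by
      funext t
      fin_cases t <;> rfl
    rw [e3]
    exact h1
  · have e3 : Function.update ![v0, v1, v2, v3, v4, v5] 4 m = ![v0, v1, v2, v3, m, v5] := by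
      funext t
      fin_cases t <;> rfl
    rw [e3]
    exact h2

lemma split35 {v0 v1 v2 v3 v4 v5 m : W} (hm : isMid v3 v5 m = true)
    (h1 : Good 0 ![v0, v1, v2, m, v4, v5]) (h2 : Good 0 ![v0, v1, v2, v3, v4, m]) :
    Good 0 ![v0, v1, v2, v3, v4, v5] := by
  refine good_split 0 _ 3 5 (by decide) m (isMid_spec hm) ?_ ?_
  · have e3 : Function.update ![v0, v1, v2, v3, v4, v5] 3 m = ![v0, v1, v2, m, v4, v5] := by
      funext t
      fin_cases t <;> rfl
    rw [e3]
    exact h1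
  · have e3 : Function.update ![v0, v1, v2, v3, v4, v5] 5 m = ![v0, v1, v2, v3, v4, m] := by
      funext t
      fin_cases t <;> rfl
    rw [e3]
    exact h2

lemma split45 {v0 v1 v2 v3 v4 v5 m : W} (hm : isMid v4 v5 m = true)
    (h1 : Good 0 ![v0, v1, v2, v3, m, v5]) (h2 : Good 0 ![v0, v1, v2, v3, v4, m]) :
    Good 0 ![v0, v1, v2, v3, v4, v5] := by
  refine good_split 0 _ 4 5 (by decide) m (isMid_spec hm) ?_ ?_
  · have e3 : Function.update ![v0, v1, v2, v3, v4, v5] 4 m = ![v0, v1, v2, v3, m, v5] := by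
      funext t
      fin_cases t <;> rfl
    rw [e3]
    exact h1
  · have e3 : Function.update ![v0, v1, v2, v3, v4, v5] 5 m = ![v0, v1, v2, v3, v4, m] := by
      funext t
      fin_cases t <;> rfl
    rw [e3]
    exact h2

end Pool.Agent.H999.Theta3
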