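import Pool.Agent.H999.Theta3.Base

set_option autoImplicit false

open Matrix

namespace Pool.Agent.H999.Theta3

open Pool.Agent.K1H99.FCC (N0 rv nsq qf af dt PD rad Fp Qm pp tot al be)

lemma co_abs_div {x T c : ℝ} (hT : 0 < T) (h1 : x ≤ c * T) (h2 : -x ≤ c * T) : |x / T| ≤ c := by
  rw [abs_le]
  constructor
  · rw [le_div_iff₀ hT]
    linarith
  · rw [div_le_iff₀ hT]
    exact h1

lemma co_pos {p : Fin 6 → ℝ} (h0 : ∀ i, 0 ≤ p i) (hp : PD p) : 0 < tot p := by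
  have h1 := Pool.Agent.K1H99.FCC.dt_pos hp
  by_contra h
  have h2 : tot p ≤ 0 := not_lt.mp h
  unfold tot at h2
  have a0 := h0 0
  have a1 := h0 1
  have a2 := h0 2
  have a3 := h0 3
  have a4 := h0 4
  have a5 := h0 5
  have b0 : p 0 = 0 := by linarith
  have b1 : p 1 = 0 := by linarith
  have b2 : p 2 = 0 := by linarith
  have b3 : p 3 = 0 := by linarith
  have b4 : p 4 = 0 := by linarith
  have b5 : p 5 = 0 := by linarith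
  unfold dt at h1
  rw [b0, b1, b2, b3, b4, b5] at h1
  norm_num at h1

theorem InF_coord {p : Fin 6 → ℝ} (h0 : ∀ i, 0 ≤ p i) (hp : PD p) (h : InF p) :
    ∃ T d1 d2 d3 w1 w2 w3 : ℝ, 0 < T ∧ d1 + d2 + d3 = 0 ∧ |d1| ≤ 12 / 100 ∧ |d2| ≤ 12 / 100 ∧
      |d3| ≤ 12 / 100 ∧ |w1| ≤ 12 / 100 ∧ |w2| ≤ 12 / 100 ∧ |w3| ≤ 12 / 100 ∧
      p = T • pp d1 d2 d3 w1 w2 w3 := by
  have ht := co_pos h0 hp
  have a0 := h0 0
  have a1 := h0 1
  have a2 := h0 2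
  have a3 := h0 3
  have a4 := h0 4
  have a5 := h0 5
  obtain ⟨e1, e2, e3, e4, e5, e6, e7, e8, e9, e10, e11⟩ := h
  obtain ⟨T, hTT⟩ : ∃ T, T = tF p / 12 := ⟨_, rfl⟩
  have hT12 : tF p = 12 * T := by rw [hTT]; ring
  rw [hT12] at e1 e2 e3 e4 e5 e6 e7 e8 e9 e10 e11
  unfold tF at hT12
  unfold tot at ht
  have hT : 0 < T := by linarith
  have hT0 : T ≠ 0 := hT.ne'
  refine ⟨T, (-(p 2 + p 3) / 3) / T, ((2 * p 3 - p 2) / 3) / T, ((2 * p 2 - p 3) / 3) / T,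
    ((p 0 + p 5 - p 1 - p 4) / 4) / T, ((p 0 + p 1 - p 4 - p 5) / 4) / T,
    ((p 0 + p 4 - p 1 - p 5) / 4) / T, hT, ?_, ?_, ?_, ?_, ?_, ?_, ?_, ?_⟩
  · field_simp
    ring
  · exact co_abs_div hT (by linarith) (by linarith)
  · exact co_abs_div hT (by linarith) (by linarith)
  · exact co_abs_div hT (by linarith) (by linarith)
  · exact co_abs_div hT (by linarith) (by linarith)
  · exact co_abs_div hT (by linarith) (by linarith)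
  · exact co_abs_div hT (by linarith) (by linarith)
  · have hx : ∀ x : ℝ, T * (x / T) = x := fun x => mul_div_cancel₀ x hT0
    funext i
    unfold pp
    fin_cases i
    · simp [mul_add, mul_sub, hx]
      linarith
    · simp [mul_add, mul_sub, hx]
      linarith
    · simp [mul_add, mul_sub, hx]
      linarith
    · simp [mul_add, mul_sub, hx]
      linarith
    · simp [mul_add, mul_sub, hx]
      linarith
    · simp [mul_add, mul_sub, hx]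
      linarith

theorem InB_coord {p : Fin 6 → ℝ} (h0 : ∀ i, 0 ≤ p i) (hp : PD p) (h : InB p) :
    ∃ T d1 d2 d3 w1 w2 w3 : ℝ, 0 < T ∧ T = tot p / 6 ∧ d1 + d2 + d3 = 0 ∧ |d1| ≤ 1 / 10 ∧
      |d2| ≤ 1 / 10 ∧ |d3| ≤ 1 / 10 ∧ |w1| ≤ 6 / 100 ∧ |w2| ≤ 6 / 100 ∧ |w3| ≤ 6 / 100 ∧
      p = T • bb d1 d2 d3 w1 w2 w3 := by
  have ht := co_pos h0 hp
  obtain ⟨⟨e1, e2, e3, e4⟩, ⟨e5, e6, e7, e8⟩, ⟨e9, e10, e11, e12⟩⟩ := h
  obtain ⟨T, hTT⟩ : ∃ T, T = tot p / 6 := ⟨_, rfl⟩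
  have hT6 : tot p = 6 * T := by rw [hTT]; ring
  rw [hT6] at e1 e2 e3 e4 e5 e6 e7 e8 e9 e10 e11 e12
  have hT : 0 < T := by linarith
  have hT0 : T ≠ 0 := hT.ne'
  unfold tot at hT6
  refine ⟨T, ((2 * T - (p 0 + p 5)) / 4) / T, ((2 * T - (p 1 + p 4)) / 4) / T,
    ((2 * T - (p 2 + p 3)) / 4) / T, ((p 0 - p 5) / 4) / T, ((p 1 - p 4) / 4) / T,
    ((p 2 - p 3) / 4) / T, hT, hTT, ?_, ?_, ?_, ?_, ?_, ?_, ?_, ?_⟩
  · rw [← add_div, ← add_div]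
    rw [div_eq_zero_iff]
    left
    linarith
  · exact co_abs_div hT (by linarith) (by linarith)
  · exact co_abs_div hT (by linarith) (by linarith)
  · exact co_abs_div hT (by linarith) (by linarith)
  · exact co_abs_div hT (by linarith) (by linarith)
  · exact co_abs_div hT (by linarith) (by linarith)
  · exact co_abs_div hT (by linarith) (by linarith)
  · have hx : ∀ x : ℝ, T * (2 * (x / T)) = 2 * x := fun x => by
      field_simp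
    funext i
    unfold bb
    fin_cases i
    · simp [mul_add, mul_sub, hx]
      linarith
    · simp [mul_add, mul_sub, hx]
      linarith
    · simp [mul_add, mul_sub, hx]
      linarith
    · simp [mul_add, mul_sub, hx]
      linarith
    · simp [mul_add, mul_sub, hx]
      linarith
    · simp [mul_add, mul_sub, hx]
      linarith

lemma co_rad {q : Fin 6 → ℝ} {x : ℝ} (hx : 0 ≤ x) (h : x ^ 3 = dt q) : rad q = x := by
  have h1 : 0 ≤ dt q := by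
    rw [← h]
    positivity
  have h2 := Pool.Agent.K1H99.FCC.rad_cube h1
  have h3 : 0 ≤ rad q := Real.rpow_nonneg h1 _
  exact (pow_left_inj₀ h3 hx three_ne_zero).1 (h2.trans h.symm)

lemma co_dx {d1 d2 d3 w1 w2 w3 : ℝ}
    (b1 : |d1| ≤ 12 / 100) (b2 : |d2| ≤ 12 / 100) (b3 : |d3| ≤ 12 / 100)
    (c1 : |w1| ≤ 12 / 100) (c2 : |w2| ≤ 12 / 100) (c3 : |w3| ≤ 12 / 100) :
    0 ≤ dx d1 d2 d3 w1 w2 w3 ∧ dx d1 d2 d3 w1 w2 w3 ≤ 1 / 2 := by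
  have key : ∀ a b c : ℝ, |c| ≤ 12 / 100 → |a * b * c| ≤ 6 / 100 * (a ^ 2 + b ^ 2) := by
    intro a b c hc
    have h1 : |a * b| ≤ (a ^ 2 + b ^ 2) / 2 := by
      rw [abs_le]
      constructor
      · nlinarith [sq_nonneg (a + b)]
      · nlinarith [sq_nonneg (a - b)]
    rw [abs_mul]
    calc |a * b| * |c| ≤ ((a ^ 2 + b ^ 2) / 2) * (12 / 100) :=
          mul_le_mul h1 hc (abs_nonneg _) (by positivity)
      _ = 6 / 100 * (a ^ 2 + b ^ 2) := by ring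
  have key2 : ∀ d w : ℝ, |d| ≤ 12 / 100 → |d * w ^ 2| ≤ 12 / 100 * w ^ 2 := by
    intro d w hd
    rw [abs_mul, abs_of_nonneg (sq_nonneg w)]
    exact mul_le_mul_of_nonneg_right hd (sq_nonneg w)
  have sq : ∀ x : ℝ, |x| ≤ 12 / 100 → x ^ 2 ≤ 144 / 10000 := by
    intro x hx
    rw [← sq_abs]
    nlinarith [abs_nonneg x]
  have k1 := abs_le.mp (key d1 d2 d3 b3)
  have k2 := abs_le.mp (key w1 w2 w3 c3)
  have k3 := abs_le.mp (key2 d1 w1 b1)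
  have k4 := abs_le.mp (key2 d2 w2 b2)
  have k5 := abs_le.mp (key2 d3 w3 b3)
  have s1 := sq d1 b1
  have s2 := sq d2 b2
  have s3 := sq d3 b3
  have s4 := sq w1 c1
  have s5 := sq w2 c2
  have s6 := sq w3 c3
  have t1 := sq_nonneg d1
  have t2 := sq_nonneg d2
  have t3 := sq_nonneg d3
  have t4 := sq_nonneg w1
  have t5 := sq_nonneg w2
  have t6 := sq_nonneg w3
  unfold dx
  constructor
  · linarith [k1.1, k1.2, k2.1, k2.2, k3.1, k3.2, k4.1, k4.2, k5.1, k5.2]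
  · linarith [k1.1, k1.2, k2.1, k2.2, k3.1, k3.2, k4.1, k4.2, k5.1, k5.2]

lemma co_root {x : ℝ} (h0 : 0 ≤ x) (h1 : x ≤ 1 / 2) :
    ∃ Δ : ℝ, 0 ≤ Δ ∧ Δ < 1 ∧ (1 - Δ) ^ 3 = 1 - x := by
  have hx : 0 < 1 - x := by linarith
  refine ⟨1 - (1 - x) ^ (1 / 3 : ℝ), ?_, ?_, ?_⟩
  · have := Real.rpow_le_one hx.le (by linarith : 1 - x ≤ 1) (by norm_num : (0 : ℝ) ≤ 1 / 3)
    linarith
  · have := Real.rpow_pos_of_pos hx (1 / 3 : ℝ)
    linarith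
  · rw [sub_sub_cancel, ← Real.rpow_natCast, ← Real.rpow_mul hx.le]
    norm_num

theorem rad_pp {T d1 d2 d3 w1 w2 w3 : ℝ} (hT : 0 < T) (hd : d1 + d2 + d3 = 0)
    (b1 : |d1| ≤ 12 / 100) (b2 : |d2| ≤ 12 / 100) (b3 : |d3| ≤ 12 / 100)
    (c1 : |w1| ≤ 12 / 100) (c2 : |w2| ≤ 12 / 100) (c3 : |w3| ≤ 12 / 100) :
    ∃ Δ : ℝ, 0 ≤ Δ ∧ Δ < 1 ∧ (1 - Δ) ^ 3 = 1 - dx d1 d2 d3 w1 w2 w3 ∧
      rad (T • pp d1 d2 d3 w1 w2 w3) = T * rad Fp * (1 - Δ) := by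
  obtain ⟨k1, k2⟩ := co_dx b1 b2 b3 c1 c2 c3
  obtain ⟨Δ, h1, h2, h3⟩ := co_root k1 k2
  refine ⟨Δ, h1, h2, h3, co_rad ?_ ?_⟩
  · have := Pool.Agent.K1H99.FCC.rad_Fp_pos
    have h4 : 0 < 1 - Δ := by linarith
    positivity
  · rw [mul_pow, mul_pow, h3, Pool.Agent.K1H99.FCC.rad_Fp, Pool.Agent.K1H99.FCC.dt_smul,
      Pool.Agent.K1H99.FCC.dt_pp]
    have hd3 : d3 = -d1 - d2 := by linarith
    unfold dx
    rw [hd3]
    ring

theorem rad_bb {T d1 d2 d3 w1 w2 w3 : ℝ} (hT : 0 < T) (hd : d1 + d2 + d3 = 0)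
    (b1 : |d1| ≤ 12 / 100) (b2 : |d2| ≤ 12 / 100) (b3 : |d3| ≤ 12 / 100)
    (c1 : |w1| ≤ 12 / 100) (c2 : |w2| ≤ 12 / 100) (c3 : |w3| ≤ 12 / 100) :
    ∃ Δ : ℝ, 0 ≤ Δ ∧ Δ < 1 ∧ (1 - Δ) ^ 3 = 1 - dx d1 d2 d3 w1 w2 w3 ∧
      rad (T • bb d1 d2 d3 w1 w2 w3) = T * rad Bp * (1 - Δ) := by
  obtain ⟨k1, k2⟩ := co_dx b1 b2 b3 c1 c2 c3
  obtain ⟨Δ, h1, h2, h3⟩ := co_root k1 k2
  have hB : dt Bp = 16 := by
    unfold dt Bp
    norm_num
  have hr : rad Bp ^ 3 = 16 := by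
    rw [Pool.Agent.K1H99.FCC.rad_cube (by rw [hB]; norm_num), hB]
  refine ⟨Δ, h1, h2, h3, co_rad ?_ ?_⟩
  · have : 0 < rad Bp := Pool.Agent.K1H99.FCC.rad_pos (by rw [hB]; norm_num)
    have h4 : 0 < 1 - Δ := by linarith
    positivity
  · rw [mul_pow, mul_pow, h3, hr, Pool.Agent.K1H99.FCC.dt_smul]
    have hd3 : d3 = -d1 - d2 := by linarith
    unfold dx dt bb
    simp
    rw [hd3]
    ring

theorem rad_Bp : rad Bp = rad Fp ^ 2 := by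
  refine co_rad (sq_nonneg _) ?_
  have h1 : (rad Fp ^ 2) ^ 3 = (rad Fp ^ 3) ^ 2 := by ring
  rw [h1, Pool.Agent.K1H99.FCC.rad_Fp]
  unfold dt Bp
  norm_num

end Pool.Agent.H999.Theta3
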