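import Pool.Agent.H999.Theta3.Base

set_option autoImplicit false

open Matrix

namespace Pool.Agent.H999.Theta3

open Pool.Agent.K1H99.FCC (N0 rv nsq qf af dt PD rad Fp Qm pp tot al be)
open Pool.Agent.K1H99.FCC (nz nz_cast theta_three shell SH mem_box sum_SH th2 expneg_le be_bounds rad_Fp
  rad_Fp_pos rad_cube rad_pos)

/-- integral cubic coordinates for the body-centred form -/
def lb_J (n : N0) : ℤ × ℤ × ℤ :=
  (n.1 0 - n.1 1 - n.1 2, -n.1 0 + n.1 1 - n.1 2, -n.1 0 - n.1 1 + n.1 2)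

lemma lb_J_inj : Function.Injective lb_J := by
  intro a b h
  unfold lb_J at h
  simp only [Prod.mk.injEq] at h
  obtain ⟨h1, h2, h3⟩ := h
  apply Subtype.ext
  funext i
  fin_cases i
  · show a.1 0 = b.1 0
    omega
  · show a.1 1 = b.1 1
    omega
  · show a.1 2 = b.1 2
    omega

lemma lb_nz (n : N0) : (nz (lb_J n) : ℝ) = qf Bp (rv n.1) := by
  rw [nz_cast]
  unfold lb_J qf Bp rv
  push_cast
  ring

lemma lb_nz_ne (n : N0) : nz (lb_J n) ≠ 0 := by
  intro h
  have h1 : (nz (lb_J n) : ℝ) = 0 := by exact_mod_cast h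
  rw [lb_nz] at h1
  unfold qf Bp rv at h1
  have h2 : ∀ i, n.1 i = 0 := by
    intro i
    have h3 : ((n.1 0 : ℤ) : ℝ) ^ 2 = 0 ∧ ((n.1 1 : ℤ) : ℝ) ^ 2 = 0 ∧ ((n.1 2 : ℤ) : ℝ) ^ 2 = 0 := by
      have a0 := sq_nonneg ((n.1 0 : ℤ) : ℝ)
      have a1 := sq_nonneg ((n.1 1 : ℤ) : ℝ)
      have a2 := sq_nonneg ((n.1 2 : ℤ) : ℝ)
      have a3 := sq_nonneg (((n.1 0 : ℤ) : ℝ) - (n.1 1 : ℤ))
      have a4 := sq_nonneg (((n.1 0 : ℤ) : ℝ) - (n.1 2 : ℤ))
      have a5 := sq_nonneg (((n.1 1 : ℤ) : ℝ) - (n.1 2 : ℤ))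
      refine ⟨?_, ?_, ?_⟩ <;> linarith
    obtain ⟨h3, h4, h5⟩ := h3
    have g : ∀ z : ℤ, (z : ℝ) ^ 2 = 0 → z = 0 := fun z hz => by
      have := pow_eq_zero_iff (two_ne_zero) |>.1 hz
      exact_mod_cast this
    fin_cases i
    · exact g _ h3
    · exact g _ h4
    · exact g _ h5
  exact n.2 (funext h2)

lemma lb_mem (n : N0) (h : nz (lb_J n) < 16) : lb_J n ∈ SH := by
  unfold SH
  rw [Finset.mem_filter]
  refine ⟨mem_box h, ?_, ?_, lb_nz_ne n, h⟩
  · unfold lb_J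
    simp only
    omega
  · unfold lb_J
    simp only
    omega

lemma lb_ge_three (n : N0) : 3 ≤ nz (lb_J n) := by
  by_contra hc
  push Not at hc
  have h1 := lb_mem n (by omega)
  have h2 := Pool.Agent.K1H99.FCC.SH_card (nz (lb_J n)) (by omega)
  have h3 : 0 < (SH.filter fun c => nz c = nz (lb_J n)).card :=
    Finset.card_pos.2 ⟨lb_J n, Finset.mem_filter.2 ⟨h1, rfl⟩⟩
  have h4 := lb_nz_ne n
  rw [h2] at h3
  interval_cases nz (lb_J n) <;> simp_all

lemma lb_dt : dt Bp = 16 := by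
  unfold dt Bp
  norm_num

lemma lb_rad : rad Bp = rad Fp ^ 2 := by
  have h1 : rad Bp ^ 3 = 16 := by
    rw [rad_cube (by rw [lb_dt]; norm_num), lb_dt]
  have h2 : (rad Fp ^ 2) ^ 3 = 16 := by
    rw [← pow_mul, mul_comm, pow_mul, rad_Fp]
    norm_num
  have h3 : 0 < rad Bp := rad_pos (by rw [lb_dt]; norm_num)
  exact (pow_left_inj₀ h3.le (by positivity) three_ne_zero).1 (h1.trans h2.symm)

lemma lb_rad_pos : 0 < rad Bp := rad_pos (by rw [lb_dt]; norm_num)

lemma lb_be : be = Real.pi / rad Bp := by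
  rw [lb_rad]
  rfl

lemma lb_e1 : Real.exp (-(12467418 / 10000000)) ≤ 28744 / 100000 + 2 / 1000000 :=
  expneg_le (s := 10810376 / 10000000) (by norm_num) (by norm_num) (by norm_num) (by norm_num)

/-- the weight -/
noncomputable def lb_f (m : ℕ) : ℝ := m * Real.exp (-(be * ((m : ℝ) - 3)))

lemma lb_f_nonneg (m : ℕ) : 0 ≤ lb_f m := mul_nonneg (Nat.cast_nonneg m) (Real.exp_pos _).le

lemma lb_f_le (m : ℕ) : lb_f m ≤ 16 * Real.exp (3 * be - 1) * Real.exp (-(be - 1 / 16) * m) := by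
  unfold lb_f
  have h1 : (m : ℝ) ≤ 16 * Real.exp ((m : ℝ) / 16 - 1) := by
    have := Real.add_one_le_exp ((m : ℝ) / 16 - 1)
    linarith
  calc (m : ℝ) * Real.exp (-(be * ((m : ℝ) - 3)))
      ≤ (16 * Real.exp ((m : ℝ) / 16 - 1)) * Real.exp (-(be * ((m : ℝ) - 3))) :=
        mul_le_mul_of_nonneg_right h1 (Real.exp_pos _).le
    _ = 16 * Real.exp (3 * be - 1) * Real.exp (-(be - 1 / 16) * m) := by
        rw [mul_assoc, mul_assoc, ← Real.exp_add, ← Real.exp_add]
        congr 2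
        ring

lemma lb_exp_summable {μ : ℝ} (hμ : 0 < μ) :
    Summable fun n : N0 => Real.exp (-μ * (nz (lb_J n) : ℝ)) :=
  (theta_three hμ).1.comp_injective lb_J_inj

lemma lb_f_summable : Summable fun n : N0 => lb_f (nz (lb_J n)) := by
  have h1 := be_bounds.1
  refine Summable.of_nonneg_of_le (fun n => lb_f_nonneg _) (fun n => lb_f_le _) ?_
  exact (lb_exp_summable (μ := be - 1 / 16) (by linarith)).mul_left _

lemma lb_tail (m : ℕ) (hm : 16 ≤ m) : lb_f m ≤ 1 / 10000 * Real.exp (-(1 / 4) * m) := by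
  have hm' : (16 : ℝ) ≤ m := by exact_mod_cast hm
  have h1 := be_bounds.1
  refine (lb_f_le m).trans ?_
  have e : 16 * Real.exp (3 * be - 1) * Real.exp (-(be - 1 / 16) * m) =
      16 * Real.exp (3 * be - 1 - (be - 1 / 16 - 1 / 4) * m) * Real.exp (-(1 / 4) * m) := by
    rw [mul_assoc, mul_assoc, ← Real.exp_add, ← Real.exp_add]
    congr 2
    ring
  rw [e]
  refine mul_le_mul_of_nonneg_right ?_ (Real.exp_pos _).le
  have h2 : 3 * be - 1 - (be - 1 / 16 - 1 / 4) * m ≤ -(122 / 10) := by nlinarith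
  have h3 : Real.exp (-(122 / 10)) ≤ 6 / 1000000 :=
    expneg_le (s := 2143 / 1000) (by norm_num) (by norm_num) (by norm_num) (by norm_num)
  have h4 := (Real.exp_le_exp.2 h2).trans h3
  linarith

lemma lb_fsum : ∑' n : N0, lb_f (nz (lb_J n)) ≤ 3114 / 100 := by
  have h := shell lb_J lb_J_inj SH 16 lb_mem lb_f lb_f_nonneg lb_f_summable
    (K := 1 / 10000) (μ := 1 / 4) (by norm_num) (by norm_num) lb_tail
  refine h.trans ?_
  rw [sum_SH lb_f]
  have h1 := be_bounds.1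
  have hx : Real.exp (-be) ≤ 28744 / 100000 + 2 / 1000000 :=
    (Real.exp_le_exp.2 (by linarith)).trans lb_e1
  set r := Real.exp (-be) with hr
  have hr0 : 0 < r := Real.exp_pos _
  have ek : ∀ k : ℕ, Real.exp (-(be * (((k + 3 : ℕ) : ℝ) - 3))) = r ^ k := by
    intro k
    rw [hr, ← Real.exp_nat_mul]
    congr 1
    push_cast
    ring
  have f3 : lb_f 3 = 3 := by
    unfold lb_f
    have := ek 0
    norm_num at this ⊢
  have f4 : lb_f 4 = 4 * r ^ 1 := by
    unfold lb_f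
    rw [show ((4 : ℕ)) = 1 + 3 from rfl, ek 1]
    norm_num
  have f8 : lb_f 8 = 8 * r ^ 5 := by
    unfold lb_f
    rw [show ((8 : ℕ)) = 5 + 3 from rfl, ek 5]
    norm_num
  have f11 : lb_f 11 = 11 * r ^ 8 := by
    unfold lb_f
    rw [show ((11 : ℕ)) = 8 + 3 from rfl, ek 8]
    norm_num
  have f12 : lb_f 12 = 12 * r ^ 9 := by
    unfold lb_f
    rw [show ((12 : ℕ)) = 9 + 3 from rfl, ek 9]
    norm_num
  rw [f3, f4, f8, f11, f12]
  have r5 := pow_le_pow_left₀ hr0.le hx 5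
  have r8 := pow_le_pow_left₀ hr0.le hx 8
  have r9 := pow_le_pow_left₀ hr0.le hx 9
  have t := th2
  norm_num at r5 r8 r9 hx t ⊢
  linarith

/-- the function `(1 - exp (-N y)) / N` decreases -/
lemma lb_dec {y N : ℝ} (hN : 3 ≤ N) :
    1 - Real.exp (-(N * y)) ≤ N / 3 * (1 - Real.exp (-(3 * y))) := by
  -- convexity of `exp`: with `a = 3 / N`, `exp (-3y) = exp (a (-N y) + (1-a) 0)`
  have hN0 : 0 < N := by linarith
  have h1 := convexOn_exp.2 (Set.mem_univ (-(N * y))) (Set.mem_univ (0 : ℝ))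
    (show 0 ≤ 3 / N by positivity) (show 0 ≤ 1 - 3 / N by
      rw [sub_nonneg, div_le_one hN0]; exact hN) (by ring)
  simp only [smul_eq_mul, mul_zero, add_zero, Real.exp_zero, mul_one] at h1
  have e : 3 / N * -(N * y) = -(3 * y) := by
    field_simp
  rw [e] at h1
  have h2 : N / 3 * (3 / N * Real.exp (-(N * y)) + (1 - 3 / N)) =
      Real.exp (-(N * y)) + (N / 3 - 1) := by
    field_simp
  have h3 := mul_le_mul_of_nonneg_left h1 (show 0 ≤ N / 3 by positivity)
  rw [h2] at h3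
  linarith

theorem RB_loss {T Δ : ℝ} (hT : 0 < T) (hΔ : 0 ≤ Δ) (hD : 1 ≤ T * rad Bp * (1 - Δ)) :
    RB (T * rad Bp * (1 - Δ)) ≤ RB (T * rad Bp) + 1038 / 100 * Real.exp (-(3 * Real.pi * T)) *
      (Real.exp (3 * Real.pi * T * Δ) - 1) := by
  have hr := lb_rad_pos
  have hp := Real.pi_pos
  have hb := be_bounds.1
  set c : ℝ := Real.pi * T * (1 - Δ) with hc
  have hcbe : be ≤ c := by
    rw [lb_be, div_le_iff₀ hr, hc]
    nlinarith
  have hc0 : 0 < c := by linarith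
  have hs0 : 0 < Real.pi * T := mul_pos hp hT
  have e1 : RB (T * rad Bp * (1 - Δ)) = ∑' n : N0, Real.exp (-c * (nz (lb_J n) : ℝ)) := by
    unfold RB
    refine tsum_congr fun n => ?_
    rw [lb_nz]
    congr 1
    rw [hc]
    field_simp
  have e2 : RB (T * rad Bp) = ∑' n : N0, Real.exp (-(Real.pi * T) * (nz (lb_J n) : ℝ)) := by
    unfold RB
    refine tsum_congr fun n => ?_
    rw [lb_nz]
    congr 1
    field_simp
  rw [e1, e2]
  set B : ℝ := Real.exp (-(3 * Real.pi * T)) * (Real.exp (3 * Real.pi * T * Δ) - 1) with hB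
  have hB0 : 0 ≤ B := by
    refine mul_nonneg (Real.exp_pos _).le ?_
    have : (1 : ℝ) ≤ Real.exp (3 * Real.pi * T * Δ) := Real.one_le_exp (by positivity)
    linarith
  have hBe : B = Real.exp (-(3 * c)) * (1 - Real.exp (-(3 * (Real.pi * T * Δ)))) := by
    rw [hB, mul_sub, mul_sub, mul_one, mul_one, ← Real.exp_add, ← Real.exp_add]
    congr 2
    · rw [hc]; ring
    · rw [hc]; ring
  have hterm : ∀ n : N0, Real.exp (-c * (nz (lb_J n) : ℝ)) ≤
      Real.exp (-(Real.pi * T) * (nz (lb_J n) : ℝ)) + B / 3 * lb_f (nz (lb_J n)) := by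
    intro n
    have h3 : (3 : ℝ) ≤ nz (lb_J n) := by exact_mod_cast lb_ge_three n
    set N : ℝ := (nz (lb_J n) : ℝ) with hN
    have h4 := lb_dec (y := Real.pi * T * Δ) h3
    have h5 : Real.exp (-(Real.pi * T) * N) = Real.exp (-c * N) * Real.exp (-(N * (Real.pi * T * Δ))) := by
      rw [← Real.exp_add]
      congr 1
      rw [hc]; ring
    have h6 : Real.exp (-c * N) = Real.exp (-(3 * c)) * Real.exp (-(c * (N - 3))) := by
      rw [← Real.exp_add]
      congr 1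
      ring
    have h7 : Real.exp (-(c * (N - 3))) ≤ Real.exp (-(be * (N - 3))) := by
      rw [Real.exp_le_exp]
      nlinarith
    have h8 : Real.exp (-c * N) * (1 - Real.exp (-(N * (Real.pi * T * Δ)))) ≤
        Real.exp (-c * N) * (N / 3 * (1 - Real.exp (-(3 * (Real.pi * T * Δ))))) :=
      mul_le_mul_of_nonneg_left h4 (Real.exp_pos _).le
    have h9 : Real.exp (-c * N) * (N / 3 * (1 - Real.exp (-(3 * (Real.pi * T * Δ))))) =
        B / 3 * (N * Real.exp (-(c * (N - 3)))) := by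
      rw [hBe, h6]
      ring
    have h10 : B / 3 * (N * Real.exp (-(c * (N - 3)))) ≤ B / 3 * lb_f (nz (lb_J n)) := by
      refine mul_le_mul_of_nonneg_left ?_ (by positivity)
      unfold lb_f
      rw [← hN]
      exact mul_le_mul_of_nonneg_left h7 (by linarith)
    rw [h5]
    linarith
  have s1 := lb_exp_summable hc0
  have s2 := lb_exp_summable hs0
  have s3 := lb_f_summable.mul_left (B / 3)
  have h := s1.tsum_le_tsum hterm (s2.add s3)
  rw [s2.tsum_add s3, tsum_mul_left] at h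
  refine h.trans ?_
  have hf := mul_le_mul_of_nonneg_left lb_fsum (show 0 ≤ B / 3 by positivity)
  have e3 : 1038 / 100 * Real.exp (-(3 * Real.pi * T)) * (Real.exp (3 * Real.pi * T * Δ) - 1) =
      1038 / 100 * B := by
    rw [hB]; ring
  rw [e3]
  linarith

end Pool.Agent.H999.Theta3
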