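import Pool.Agent.H999.Theta3.Base

set_option autoImplicit false

open Matrix

namespace Pool.Agent.H999.Theta3

open Pool.Agent.K1H99.FCC (N0 rv nsq qf af dt PD rad Fp Qm pp tot al be)

open Pool.Agent.K1H99.FCC in
/-- an inequality of Bernoulli type -/
lemma lf_bern {e : ℝ} (he : 1 ≤ e) (k : ℕ) : e ^ (k + 1) - 1 ≤ (e - 1) * (k + 1) * e ^ k := by
  induction k with
  | zero => simp
  | succ k ih =>
    have h1 : 1 ≤ e ^ (k + 1) := one_le_pow₀ he
    have h2 : e ^ (k + 1 + 1) - 1 = e * (e ^ (k + 1) - 1) + (e - 1) := by ring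
    have h3 := mul_le_mul_of_nonneg_left ih (by linarith : 0 ≤ e)
    have h4 : (e - 1) * 1 ≤ (e - 1) * e ^ (k + 1) := mul_le_mul_of_nonneg_left h1 (by linarith)
    push_cast
    rw [h2]
    calc e * (e ^ (k + 1) - 1) + (e - 1) ≤
        e * ((e - 1) * (k + 1) * e ^ k) + (e - 1) * e ^ (k + 1) := by linarith
      _ = (e - 1) * (k + 1 + 1) * e ^ (k + 1) := by ring

open Pool.Agent.K1H99.FCC in
/-- the lengths are even -/
lemma lf_even (n : N0) : ∃ k : ℕ, nz (JG n) = 2 * (k + 1) := by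
  have h0 := nz_JG_ne n
  have h1 : ((nz (JG n) : ℕ) : ℤ) = (JG n).1 ^ 2 + ((JG n).2.1 ^ 2 + (JG n).2.2 ^ 2) := by
    unfold nz
    exact Int.toNat_of_nonneg (by positivity)
  have h2 : (JG n).1 ^ 2 + ((JG n).2.1 ^ 2 + (JG n).2.2 ^ 2) =
      2 * (n.1 0 ^ 2 + n.1 1 ^ 2 + n.1 2 ^ 2 - n.1 0 * n.1 2 - n.1 1 * n.1 2) := by
    unfold JG
    simp only
    ring
  have h3 : 2 ∣ nz (JG n) := by
    have h4 : (2 : ℤ) ∣ ((nz (JG n) : ℕ) : ℤ) := by
      rw [h1, h2]
      exact Dvd.intro _ rfl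
    exact_mod_cast h4
  obtain ⟨j, hj⟩ := h3
  obtain ⟨k, rfl⟩ : ∃ k, j = k + 1 := Nat.exists_eq_succ_of_ne_zero (by
    rintro rfl
    omega)
  exact ⟨k, hj⟩

open Pool.Agent.K1H99.FCC in
/-- summability of the Gaussian series -/
lemma lf_gauss {c : ℝ} (hc : 0 < c) : Summable fun n : N0 => Real.exp (-(c * nz (JG n))) := by
  have h1 := (theta_three hc).1.comp_injective JG_inj
  refine h1.congr fun n => ?_
  show Real.exp (-c * (nz (JG n) : ℝ)) = _
  rw [neg_mul]

open Pool.Agent.K1H99.FCC in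
/-- the theta series in cubic coordinates -/
lemma lf_RF (c : ℝ) : RF (c * rad Fp) = ∑' n : N0, Real.exp (-(Real.pi * c * nz (JG n))) := by
  unfold RF
  refine tsum_congr fun n => ?_
  have h1 : rad Fp ≠ 0 := rad_Fp_pos.ne'
  rw [qf_Fp, ← nz_JG]
  congr 2
  field_simp

/-- the terms of the derivative series -/
noncomputable def lf_f (y : ℝ) (m : ℕ) : ℝ := (m : ℝ) / 2 * Real.exp (-(y * ((m : ℝ) / 2 - 1)))

lemma lf_f_nonneg (y : ℝ) (m : ℕ) : 0 ≤ lf_f y m :=
  mul_nonneg (by positivity) (Real.exp_pos _).le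

open Pool.Agent.K1H99.FCC in
lemma lf_summable {y : ℝ} (hy : 39581586 / 10000000 ≤ y) :
    Summable fun n : N0 => lf_f y (nz (JG n)) := by
  refine Summable.of_nonneg_of_le (fun n => lf_f_nonneg _ _) (fun n => ?_)
    ((lf_gauss (c := 1) one_pos).mul_left (Real.exp y))
  unfold lf_f
  set m : ℝ := (nz (JG n) : ℝ) with hm
  have hm0 : 0 ≤ m := Nat.cast_nonneg _
  have h1 : m / 2 ≤ Real.exp (m / 2) := by
    have := Real.add_one_le_exp (m / 2)
    linarith
  calc m / 2 * Real.exp (-(y * (m / 2 - 1))) ≤ Real.exp (m / 2) * Real.exp (-(y * (m / 2 - 1))) :=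
        mul_le_mul_of_nonneg_right h1 (Real.exp_pos _).le
    _ = Real.exp y * Real.exp (m / 2 - y * (m / 2)) := by
        rw [← Real.exp_add, ← Real.exp_add]
        congr 1
        ring
    _ ≤ Real.exp y * Real.exp (-(1 * m)) := by
        refine mul_le_mul_of_nonneg_left (Real.exp_le_exp.2 ?_) (Real.exp_pos _).le
        nlinarith

open Pool.Agent.K1H99.FCC in
lemma lf_T : Real.exp (-(133326344 / 10000000)) ≤ 165 / 100000000 :=
  expneg_le (s := 23 / 10) (by norm_num) (by norm_num) (by norm_num) (by norm_num)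

open Pool.Agent.K1H99.FCC in
lemma lf_sum {y : ℝ} (hy : 39581586 / 10000000 ≤ y) :
    ∑' n : N0, lf_f y (nz (JG n)) ≤ 12258 / 1000 := by
  have h := shell JG JG_inj SG 10 JG_mem (lf_f y) (lf_f_nonneg y) (lf_summable hy)
    (K := 825 / 100000000) (μ := 1 / 4) (by norm_num) (by norm_num) (by
      intro m hm
      have hm' : (10:ℝ) ≤ m := by exact_mod_cast hm
      unfold lf_f
      have h1 : (m : ℝ) / 2 ≤ 5 * Real.exp ((m : ℝ) / 10 - 1) := by
        have := Real.add_one_le_exp ((m : ℝ) / 10 - 1)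
        linarith
      calc (m : ℝ) / 2 * Real.exp (-(y * ((m : ℝ) / 2 - 1))) ≤
          (5 * Real.exp ((m : ℝ) / 10 - 1)) * Real.exp (-(y * ((m : ℝ) / 2 - 1))) :=
            mul_le_mul_of_nonneg_right h1 (Real.exp_pos _).le
        _ = 5 * Real.exp ((m : ℝ) / 10 - 1 + -(y * ((m : ℝ) / 2 - 1))) := by
            rw [Real.exp_add]
            ring
        _ ≤ 5 * Real.exp (-(133326344 / 10000000) + -(1 / 4) * m) := by
            refine mul_le_mul_of_nonneg_left (Real.exp_le_exp.2 ?_) (by norm_num)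
            nlinarith
        _ = 5 * Real.exp (-(133326344 / 10000000)) * Real.exp (-(1 / 4) * m) := by
            rw [Real.exp_add]
            ring
        _ ≤ 825 / 100000000 * Real.exp (-(1 / 4) * m) := by
            refine mul_le_mul_of_nonneg_right ?_ (Real.exp_pos _).le
            have := lf_T
            linarith)
  refine h.trans ?_
  rw [sum_SG (lf_f y)]
  have v2 : lf_f y 2 = 1 := by
    unfold lf_f
    norm_num
  have v4 : lf_f y 4 ≤ 2 * (1909826 / 100000000) := by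
    unfold lf_f
    have h1 : Real.exp (-(y * (((4 : ℕ) : ℝ) / 2 - 1))) ≤ 1909826 / 100000000 :=
      (Real.exp_le_exp.2 (by norm_num; linarith)).trans E2
    have h2 : ((4 : ℕ) : ℝ) / 2 = 2 := by norm_num
    rw [h2] at h1 ⊢
    linarith
  have v6 : lf_f y 6 ≤ 3 * (36475 / 100000000) := by
    unfold lf_f
    have h1 : Real.exp (-(y * (((6 : ℕ) : ℝ) / 2 - 1))) ≤ 36475 / 100000000 :=
      (Real.exp_le_exp.2 (by norm_num; linarith)).trans E4
    have h2 : ((6 : ℕ) : ℝ) / 2 = 3 := by norm_num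
    rw [h2] at h1 ⊢
    linarith
  have v8 : lf_f y 8 ≤ 4 * (697 / 100000000) := by
    unfold lf_f
    have h1 : Real.exp (-(y * (((8 : ℕ) : ℝ) / 2 - 1))) ≤ 697 / 100000000 :=
      (Real.exp_le_exp.2 (by norm_num; linarith)).trans E6
    have h2 : ((8 : ℕ) : ℝ) / 2 = 4 := by norm_num
    rw [h2] at h1 ⊢
    linarith
  have t := th2
  rw [v2]
  linarith

open Pool.Agent.K1H99.FCC in
/-- the difference of two terms -/
lemma lf_term {T Δ : ℝ} (hT : 0 < T) (hΔ : 0 ≤ Δ) (k : ℕ) :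
    Real.exp (-(Real.pi * (T * (1 - Δ)) * ((2 * (k + 1) : ℕ) : ℝ))) ≤
      Real.exp (-(Real.pi * T * ((2 * (k + 1) : ℕ) : ℝ))) +
        Real.exp (-(2 * Real.pi * T)) * (Real.exp (2 * Real.pi * T * Δ) - 1) *
          lf_f (2 * Real.pi * (T * (1 - Δ))) (2 * (k + 1)) := by
  have hy : 0 ≤ 2 * Real.pi * T * Δ := by
    have := Real.pi_pos
    positivity
  have he : 1 ≤ Real.exp (2 * Real.pi * T * Δ) := Real.one_le_exp hy
  have hb := lf_bern he k
  have e1 : Real.exp (-(Real.pi * (T * (1 - Δ)) * ((2 * (k + 1) : ℕ) : ℝ))) =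
      Real.exp (-(Real.pi * T * ((2 * (k + 1) : ℕ) : ℝ))) *
        Real.exp (2 * Real.pi * T * Δ) ^ (k + 1) := by
    rw [← Real.exp_nat_mul, ← Real.exp_add]
    congr 1
    push_cast
    ring
  have e2 : lf_f (2 * Real.pi * (T * (1 - Δ))) (2 * (k + 1)) = (k + 1) *
      Real.exp (-(2 * Real.pi * (T * (1 - Δ)) * k)) := by
    unfold lf_f
    have h1 : ((2 * (k + 1) : ℕ) : ℝ) / 2 = k + 1 := by
      push_cast
      ring
    rw [h1, add_sub_cancel_right]
  have e3 : Real.exp (-(2 * Real.pi * T)) * Real.exp (-(2 * Real.pi * (T * (1 - Δ)) * k)) =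
      Real.exp (-(Real.pi * T * ((2 * (k + 1) : ℕ) : ℝ))) *
        Real.exp (2 * Real.pi * T * Δ) ^ k := by
    rw [← Real.exp_nat_mul, ← Real.exp_add, ← Real.exp_add]
    congr 1
    push_cast
    ring
  have h2 := mul_le_mul_of_nonneg_left hb
    (Real.exp_pos (-(Real.pi * T * ((2 * (k + 1) : ℕ) : ℝ)))).le
  rw [e1, e2]
  have e4 : Real.exp (-(2 * Real.pi * T)) * (Real.exp (2 * Real.pi * T * Δ) - 1) *
      ((k + 1) * Real.exp (-(2 * Real.pi * (T * (1 - Δ)) * k))) =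
      (Real.exp (-(2 * Real.pi * T)) * Real.exp (-(2 * Real.pi * (T * (1 - Δ)) * k))) *
        ((Real.exp (2 * Real.pi * T * Δ) - 1) * (k + 1)) := by ring
  rw [e4, e3]
  linarith

theorem RF_loss {T Δ : ℝ} (hT : 0 < T) (hΔ : 0 ≤ Δ) (hD : 1 ≤ T * rad Fp * (1 - Δ)) :
    RF (T * rad Fp * (1 - Δ)) ≤ RF (T * rad Fp) + 12258 / 1000 * Real.exp (-(2 * Real.pi * T)) *
      (Real.exp (2 * Real.pi * T * Δ) - 1) := by
  have hr := Pool.Agent.K1H99.FCC.rad_Fp_pos
  have hpi := Real.pi_pos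
  have hc : 1 / rad Fp ≤ T * (1 - Δ) := by
    rw [div_le_iff₀ hr]
    linarith
  have hc0 : 0 < T * (1 - Δ) := lt_of_lt_of_le (by positivity) hc
  have hy : 39581586 / 10000000 ≤ 2 * Real.pi * (T * (1 - Δ)) := by
    have h1 := Pool.Agent.K1H99.FCC.al_bounds.1
    have h2 : Real.pi * (1 / rad Fp) ≤ Real.pi * (T * (1 - Δ)) :=
      mul_le_mul_of_nonneg_left hc hpi.le
    have h3 : al = Real.pi * (1 / rad Fp) := by
      unfold Pool.Agent.K1H99.FCC.al
      ring
    linarith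
  have e0 : T * rad Fp * (1 - Δ) = (T * (1 - Δ)) * rad Fp := by ring
  have hC : 0 ≤ Real.exp (-(2 * Real.pi * T)) * (Real.exp (2 * Real.pi * T * Δ) - 1) := by
    refine mul_nonneg (Real.exp_pos _).le ?_
    have h1 : 0 ≤ 2 * Real.pi * T * Δ := by positivity
    have := Real.one_le_exp h1
    linarith
  rw [e0, lf_RF, lf_RF]
  have s1 := lf_gauss (c := Real.pi * (T * (1 - Δ))) (by positivity)
  have s2 := lf_gauss (c := Real.pi * T) (by positivity)
  have s3 := (lf_summable hy).mul_left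
    (Real.exp (-(2 * Real.pi * T)) * (Real.exp (2 * Real.pi * T * Δ) - 1))
  have h1 := s1.tsum_le_tsum (fun n => by
    obtain ⟨k, hk⟩ := lf_even n
    have h2 := lf_term hT hΔ k
    rw [← hk] at h2
    exact h2) (s2.add s3)
  refine h1.trans ?_
  rw [s2.tsum_add s3, tsum_mul_left]
  have h3 := mul_le_mul_of_nonneg_left (lf_sum hy) hC
  linarith

end Pool.Agent.H999.Theta3
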