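import Pool.Agent.H999.Theta3.Base

set_option autoImplicit false

open Matrix

namespace Pool.Agent.H999.Theta3

open Pool.Agent.K1H99.FCC (N0 rv nsq qf af dt PD rad Fp Qm pp tot al be)

/-- cubic coordinates of the body-centred cubic lattice -/
def tb_h (n : N0) : Fin 3 → ℝ :=
  ![(n.1 0 : ℝ) - n.1 1 - n.1 2, -(n.1 0 : ℝ) + n.1 1 - n.1 2, -(n.1 0 : ℝ) - n.1 1 + n.1 2]

lemma tb_qf_Bp (n : N0) : qf Bp (rv n.1) = tb_h n 0 ^ 2 + tb_h n 1 ^ 2 + tb_h n 2 ^ 2 := by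
  unfold qf Bp rv tb_h
  simp
  ring

lemma tb_qf_bb {d1 d2 d3 : ℝ} (hd : d1 + d2 + d3 = 0) (w1 w2 w3 : ℝ) (n : N0) :
    qf (bb d1 d2 d3 w1 w2 w3) (rv n.1) =
    (1 + d1) * tb_h n 0 ^ 2 + (1 + d2) * tb_h n 1 ^ 2 + (1 + d3) * tb_h n 2 ^ 2 +
      2 * w3 * tb_h n 0 * tb_h n 1 + 2 * w2 * tb_h n 0 * tb_h n 2 +
      2 * w1 * tb_h n 1 * tb_h n 2 := by
  have h3 : d3 = -(d1 + d2) := by linarith
  subst h3
  unfold qf bb rv tb_h
  simp
  ring

/-- the Gram factor of the body-centred cubic form -/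
def tb_B : Matrix (Fin 3) (Fin 3) ℝ := !![1, -1, -1; -1, 1, -1; -1, -1, 1]

lemma tb_B_det : tb_B.det = -4 := by
  unfold tb_B
  rw [Matrix.det_fin_three]
  simp
  norm_num

lemma tb_PD_Bp : PD Bp := by
  refine ⟨tb_B, ?_, by rw [tb_B_det]; norm_num⟩
  unfold tb_B Qm Bp
  ext i j
  fin_cases i <;> fin_cases j <;> simp [Matrix.mul_apply, Fin.sum_univ_three]

lemma tb_summable {p : Fin 6 → ℝ} (hp : PD p) {c : ℝ} (hc : 0 < c) :
    Summable fun n : N0 => Real.exp (-(c * qf p (rv n.1))) := by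
  obtain ⟨A, hA, hd⟩ := hp
  have hu : IsUnit A.det := isUnit_iff_ne_zero.2 hd
  have hBA : (A⁻¹)ᵀᵀ * A = 1 := by
    rw [Matrix.transpose_transpose, Matrix.nonsing_inv_mul _ hu]
  refine ((Pool.Agent.K1H99.FCC.summable_gauss hBA hc).subtype {n : Fin 3 → ℤ | n ≠ 0}).congr
      fun k => ?_
  show Real.exp (-c * nsq A (rv k.1)) = _
  rw [Pool.Agent.K1H99.FCC.nsq_eq hA]
  congr 1
  ring

/-- symmetries of the body-centred cubic lattice -/
def tb_M1 : Matrix (Fin 3) (Fin 3) ℤ := !![0, -1, 1; -1, 0, 1; 0, 0, 1]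
/-- symmetries of the body-centred cubic lattice -/
def tb_M2 : Matrix (Fin 3) (Fin 3) ℤ := !![1, 0, 0; 1, 0, -1; 1, -1, 0]
/-- symmetries of the body-centred cubic lattice -/
def tb_M3 : Matrix (Fin 3) (Fin 3) ℤ := !![0, 1, 0; 0, 0, 1; 1, 0, 0]

lemma tb_M1u : IsUnit tb_M1.det := by decide
lemma tb_M2u : IsUnit tb_M2.det := by decide
lemma tb_M3u : IsUnit tb_M3.det := by decide

open Pool.Agent.K1H99.FCC (uact uact_val sym_sum two_sum_le sgv qf_neg)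

lemma tb_h1 (n : N0) : tb_h (uact tb_M1 tb_M1u n) = ![tb_h n 0, tb_h n 1, -tb_h n 2] := by
  unfold tb_h
  rw [uact_val]
  unfold tb_M1
  funext i
  fin_cases i <;> simp [Matrix.mulVec, dotProduct, Fin.sum_univ_three] <;> ring

lemma tb_h2 (n : N0) : tb_h (uact tb_M2 tb_M2u n) = ![-tb_h n 0, tb_h n 1, tb_h n 2] := by
  unfold tb_h
  rw [uact_val]
  unfold tb_M2
  funext i
  fin_cases i <;> simp [Matrix.mulVec, dotProduct, Fin.sum_univ_three] <;> ring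

lemma tb_h3 (n : N0) : tb_h (uact tb_M3 tb_M3u n) = ![tb_h n 1, tb_h n 2, tb_h n 0] := by
  unfold tb_h
  rw [uact_val]
  unfold tb_M3
  funext i
  fin_cases i <;> simp [Matrix.mulVec, dotProduct, Fin.sum_univ_three] <;> ring

/-- the vectors of the first two shells -/
def tb_X : Fin 7 → Fin 3 → ℤ :=
  ![![1, 1, 1], ![1, 0, 0], ![0, 1, 0], ![0, 0, 1], ![1, 1, 0], ![1, 0, 1], ![0, 1, 1]]

lemma tb_X0 : ∀ s, sgv tb_X s ≠ 0 := by decide
lemma tb_Xi : Function.Injective (sgv tb_X) := by decide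

lemma tb_psi_nonneg (x : ℝ) : 0 ≤ psi x := by
  unfold psi
  have := Real.add_one_le_exp (-x)
  linarith

lemma tb_mom_summable {c : ℝ} (hc : 0 < c) : Summable fun n : N0 =>
    (c * Real.exp (-(c * (tb_h n 0 ^ 2 + tb_h n 1 ^ 2 + tb_h n 2 ^ 2)))) *
    (tb_h n 0 ^ 2 + tb_h n 1 ^ 2 + tb_h n 2 ^ 2) := by
  have h := (tb_summable tb_PD_Bp (c := c / 2) (by positivity)).mul_left 2
  refine Summable.of_nonneg_of_le (fun n => by positivity) (fun n => ?_) h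
  rw [tb_qf_Bp]
  set x := tb_h n 0 ^ 2 + tb_h n 1 ^ 2 + tb_h n 2 ^ 2 with hx
  have h1 : c / 2 * x ≤ Real.exp (c / 2 * x) := by
    have := Real.add_one_le_exp (c / 2 * x)
    linarith
  have h2 : Real.exp (-(c * x)) = Real.exp (-(c / 2 * x)) * Real.exp (-(c / 2 * x)) := by
    rw [← Real.exp_add]
    congr 1
    ring
  have h3 : Real.exp (-(c / 2 * x)) * Real.exp (c / 2 * x) = 1 := by
    rw [← Real.exp_add]
    simp
  rw [h2]
  have h4 := mul_le_mul_of_nonneg_left h1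
    (mul_nonneg (Real.exp_pos (-(c / 2 * x))).le (Real.exp_pos (-(c / 2 * x))).le)
  have h5 : Real.exp (-(c / 2 * x)) * Real.exp (-(c / 2 * x)) * Real.exp (c / 2 * x) =
      Real.exp (-(c / 2 * x)) := by
    rw [mul_assoc, h3, mul_one]
  rw [h5] at h4
  nlinarith [h4]

theorem Th_bb_ge {T d1 d2 d3 w1 w2 w3 : ℝ} (hT : 0 < T) (hd : d1 + d2 + d3 = 0)
    (hp : PD (T • bb d1 d2 d3 w1 w2 w3)) :
    RB (T * rad Bp) +
      2 * Real.exp (-(3 * Real.pi * T)) *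
        (psi (2 * Real.pi * T * (w1 + w2 + w3)) + psi (2 * Real.pi * T * (w1 - w2 - w3)) +
        psi (2 * Real.pi * T * (-w1 + w2 - w3)) + psi (2 * Real.pi * T * (-w1 - w2 + w3))) +
      2 * Real.exp (-(4 * Real.pi * T)) *
        (psi (4 * Real.pi * T * d1) + psi (4 * Real.pi * T * d2) + psi (4 * Real.pi * T * d3)) ≤
    Th (T • bb d1 d2 d3 w1 w2 w3) := by
  have hrB : 0 < rad Bp := Pool.Agent.K1H99.FCC.rad_pos (Pool.Agent.K1H99.FCC.dt_pos tb_PD_Bp)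
  have hc : 0 < Real.pi * T := mul_pos Real.pi_pos hT
  have hqs : ∀ x : Fin 3 → ℝ, qf (T • bb d1 d2 d3 w1 w2 w3) x =
      T * qf (bb d1 d2 d3 w1 w2 w3) x := by
    intro x
    unfold qf
    simp only [Pi.smul_apply, smul_eq_mul]
    ring
  have hs1 : Summable fun n : N0 =>
      Real.exp (-(Real.pi * qf (T • bb d1 d2 d3 w1 w2 w3) (rv n.1))) :=
    tb_summable hp Real.pi_pos
  have hs2 : Summable fun n : N0 => Real.exp (-(Real.pi * T * qf Bp (rv n.1))) :=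
    tb_summable tb_PD_Bp hc
  have hRB : RB (T * rad Bp) = ∑' n : N0, Real.exp (-(Real.pi * T * qf Bp (rv n.1))) := by
    unfold RB
    refine tsum_congr fun n => ?_
    congr 2
    field_simp
  have hsym := sym_sum (c := tb_h) (φ := fun x => Real.pi * T * Real.exp (-(Real.pi * T * x)))
    (uact tb_M1 tb_M1u) (uact tb_M2 tb_M2u) (uact tb_M3 tb_M3u) tb_h1 tb_h2 tb_h3
    (fun n => by positivity) (tb_mom_summable hc) d1 d2 d3 w3 w2 w1
  have hterm : ∀ n : N0, (Real.pi * T * Real.exp (-(Real.pi * T *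
      (tb_h n 0 ^ 2 + tb_h n 1 ^ 2 + tb_h n 2 ^ 2)))) *
      (d1 * tb_h n 0 ^ 2 + d2 * tb_h n 1 ^ 2 + d3 * tb_h n 2 ^ 2 +
        2 * w3 * tb_h n 0 * tb_h n 1 + 2 * w2 * tb_h n 0 * tb_h n 2 +
        2 * w1 * tb_h n 1 * tb_h n 2) =
      (Real.pi * T * (qf (bb d1 d2 d3 w1 w2 w3) (rv n.1) - qf Bp (rv n.1))) *
        Real.exp (-(Real.pi * T * qf Bp (rv n.1))) := by
    intro n
    rw [tb_qf_bb hd, tb_qf_Bp]
    ring
  simp only [hterm] at hsym
  obtain ⟨hs3, he3⟩ := hsym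
  rw [hd, zero_div, zero_mul] at he3
  set f : (Fin 3 → ℤ) → ℝ := fun m =>
    Real.exp (-(Real.pi * qf (T • bb d1 d2 d3 w1 w2 w3) (rv m))) -
    Real.exp (-(Real.pi * T * qf Bp (rv m))) +
    (Real.pi * T * (qf (bb d1 d2 d3 w1 w2 w3) (rv m) - qf Bp (rv m))) *
        Real.exp (-(Real.pi * T * qf Bp (rv m))) with hf
  have hfs : HasSum (fun n : N0 => f n.1) (Th (T • bb d1 d2 d3 w1 w2 w3) -
      RB (T * rad Bp) + 0) := by
    rw [← he3, hRB]
    exact (hs1.hasSum.sub hs2.hasSum).add hs3.hasSum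
  have hfp : ∀ m, f m = Real.exp (-(Real.pi * T * qf Bp (rv m))) *
      psi (Real.pi * T * (qf (bb d1 d2 d3 w1 w2 w3) (rv m) - qf Bp (rv m))) := by
    intro m
    simp only [hf, hqs]
    unfold psi
    have : Real.exp (-(Real.pi * (T * qf (bb d1 d2 d3 w1 w2 w3) (rv m)))) =
        Real.exp (-(Real.pi * T * qf Bp (rv m))) *
        Real.exp (-(Real.pi * T * (qf (bb d1 d2 d3 w1 w2 w3) (rv m) - qf Bp (rv m)))) := by
      rw [← Real.exp_add]
      congr 1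
      ring
    rw [this]
    ring
  have hf0 : ∀ n : N0, 0 ≤ f n.1 := by
    intro n
    rw [hfp]
    exact mul_nonneg (Real.exp_pos _).le (tb_psi_nonneg _)
  have hfe : ∀ m, f (-m) = f m := by
    intro m
    simp only [hf, qf_neg]
  have h2 := two_sum_le tb_X tb_X0 tb_Xi f hfe hf0 hfs.summable
  rw [hfs.tsum_eq] at h2
  have key : ∀ (i : Fin 7) (a b : ℝ), qf Bp (rv (tb_X i)) = a →
      qf (bb d1 d2 d3 w1 w2 w3) (rv (tb_X i)) - qf Bp (rv (tb_X i)) = b →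
      f (tb_X i) = Real.exp (-(a * Real.pi * T)) * psi (Real.pi * T * b) := by
    intro i a b h h'
    rw [hfp, h', h]
    congr 2
    ring
  have hd3 : d3 = -(d1 + d2) := by linarith
  have k0 := key 0 3 (2 * (w1 + w2 + w3)) (by unfold qf Bp rv tb_X; simp; try norm_num)
    (by unfold qf Bp bb rv tb_X; rw [hd3]; simp; ring)
  have k1 := key 1 3 (2 * (w1 - w2 - w3)) (by unfold qf Bp rv tb_X; simp; try norm_num)
    (by unfold qf Bp bb rv tb_X; rw [hd3]; simp; ring)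
  have k2 := key 2 3 (2 * (-w1 + w2 - w3)) (by unfold qf Bp rv tb_X; simp; try norm_num)
    (by unfold qf Bp bb rv tb_X; rw [hd3]; simp; ring)
  have k3 := key 3 3 (2 * (-w1 - w2 + w3)) (by unfold qf Bp rv tb_X; simp; try norm_num)
    (by unfold qf Bp bb rv tb_X; rw [hd3]; simp; ring)
  have k4 := key 4 4 (4 * d3) (by unfold qf Bp rv tb_X; simp; try norm_num)
    (by unfold qf Bp bb rv tb_X; rw [hd3]; simp; ring)
  have k5 := key 5 4 (4 * d2) (by unfold qf Bp rv tb_X; simp; try norm_num)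
    (by unfold qf Bp bb rv tb_X; rw [hd3]; simp; ring)
  have k6 := key 6 4 (4 * d1) (by unfold qf Bp rv tb_X; simp; try norm_num)
    (by unfold qf Bp bb rv tb_X; rw [hd3]; simp; ring)
  rw [Fin.sum_univ_seven, k0, k1, k2, k3, k4, k5, k6] at h2
  have e1 : ∀ x : ℝ, Real.pi * T * (2 * x) = 2 * Real.pi * T * x := fun x => by ring
  have e2 : ∀ x : ℝ, Real.pi * T * (4 * x) = 4 * Real.pi * T * x := fun x => by ring
  simp only [e1, e2] at h2
  linarith

end Pool.Agent.H999.Theta3
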