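import Pool.Agent.H999.Theta3.Base

set_option autoImplicit false

open Matrix

namespace Pool.Agent.H999.Theta3

open Pool.Agent.K1H99.FCC (N0 rv nsq qf af dt PD rad Fp Qm pp tot al be)

open Pool.Agent.K1H99.FCC in
/-- summability of the theta series of a positive definite form -/
lemma tf_summable {p : Fin 6 → ℝ} (h : PD p) {c : ℝ} (hc : 0 < c) :
    Summable fun n : N0 => Real.exp (-(c * qf p (rv n.1))) := by
  have hr : 0 < rad p := rad_pos (dt_pos h)
  obtain ⟨A, hA, hd⟩ := h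
  obtain ⟨A', B', h1, h2, h3, h4⟩ := normalise hA hd
  refine ((summable_gauss h1 (c := c * rad p) (by positivity)).subtype
    {n : Fin 3 → ℤ | n ≠ 0}).congr fun k => ?_
  show Real.exp (-(c * rad p) * nsq A' (rv k.1)) = _
  rw [h3]
  congr 1
  field_simp

open Pool.Agent.K1H99.FCC in
/-- the weighted series of the face-centred cubic form -/
lemma tf_summable_w {c : ℝ} (hc : 0 < c) :
    Summable fun n : N0 => (c * Real.exp (-(c * (cc n 0 ^ 2 + cc n 1 ^ 2 + cc n 2 ^ 2)))) *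
      (cc n 0 ^ 2 + cc n 1 ^ 2 + cc n 2 ^ 2) := by
  refine Summable.of_nonneg_of_le (fun n => by positivity) (fun n => ?_)
    ((tf_summable PD_Fp (c := c / 2) (by positivity)).mul_left 2)
  rw [qf_Fp]
  set s := cc n 0 ^ 2 + cc n 1 ^ 2 + cc n 2 ^ 2 with hs
  have h1 := Real.add_one_le_exp (c / 2 * s)
  have h2 : Real.exp (-(c * s)) = Real.exp (-(c / 2 * s)) * Real.exp (-(c / 2 * s)) := by
    rw [← Real.exp_add]; congr 1; ring
  have h3 : Real.exp (c / 2 * s) * Real.exp (-(c / 2 * s)) = 1 := by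
    rw [← Real.exp_add]; simp
  have h4 : 0 < Real.exp (-(c / 2 * s)) := Real.exp_pos _
  have h5 : (c / 2 * s) * Real.exp (-(c / 2 * s)) ≤ 1 := by
    rw [← h3]
    exact mul_le_mul_of_nonneg_right (by linarith) h4.le
  rw [h2]
  nlinarith

/-- the nine vectors of the first two shells, up to sign -/
def tf_X9 : Fin 9 → Fin 3 → ℤ :=
  ![![1, 0, 1], ![0, -1, -1], ![1, 1, 1], ![0, 0, -1], ![1, 0, 0], ![0, 1, 0],
    ![1, 1, 0], ![1, -1, 0], ![1, 1, 2]]

open Pool.Agent.K1H99.FCC in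
lemma tf_X9_0 : ∀ s, sgv tf_X9 s ≠ 0 := by decide

open Pool.Agent.K1H99.FCC in
lemma tf_X9_i : Function.Injective (sgv tf_X9) := by decide

open Pool.Agent.K1H99.FCC in
theorem Th_pp_ge {T d1 d2 d3 w1 w2 w3 : ℝ} (hT : 0 < T) (hd : d1 + d2 + d3 = 0)
    (hp : PD (T • pp d1 d2 d3 w1 w2 w3)) :
    RF (T * rad Fp) +
      2 * Real.exp (-(2 * Real.pi * T)) *
        (psi (2 * Real.pi * T * (-d1 / 2 + w1)) + psi (2 * Real.pi * T * (-d1 / 2 - w1)) +
        psi (2 * Real.pi * T * (-d2 / 2 + w2)) + psi (2 * Real.pi * T * (-d2 / 2 - w2)) +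
        psi (2 * Real.pi * T * (-d3 / 2 + w3)) + psi (2 * Real.pi * T * (-d3 / 2 - w3))) +
      2 * Real.exp (-(4 * Real.pi * T)) *
        (psi (4 * Real.pi * T * d1) + psi (4 * Real.pi * T * d2) + psi (4 * Real.pi * T * d3)) ≤
    Th (T • pp d1 d2 d3 w1 w2 w3) := by
  set p := pp d1 d2 d3 w1 w2 w3 with hpdef
  have hF := rad_Fp_pos
  have hpi := Real.pi_pos
  have hsm : ∀ x, qf (T • p) x = T * qf p x := by
    intro x
    unfold qf
    simp only [Pi.smul_apply, smul_eq_mul]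
    ring
  have hpT : 0 < Real.pi * T := by positivity
  have hTh : Th (T • p) = ∑' n : N0, Real.exp (-(Real.pi * T * qf p (rv n.1))) := by
    unfold Th
    refine tsum_congr fun n => ?_
    rw [hsm]
    congr 1
    ring
  have hRF : RF (T * rad Fp) = ∑' n : N0, Real.exp (-(Real.pi * T * qf Fp (rv n.1))) := by
    unfold RF
    refine tsum_congr fun n => ?_
    congr 1
    field_simp
  have hs1 : Summable fun n : N0 => Real.exp (-(Real.pi * T * qf p (rv n.1))) := by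
    refine (tf_summable hp Real.pi_pos).congr fun n => ?_
    rw [hsm]
    congr 1
    ring
  have hs2 : Summable fun n : N0 => Real.exp (-(Real.pi * T * qf Fp (rv n.1))) :=
    tf_summable PD_Fp hpT
  have hsym := sym_sum (c := cc) (φ := fun x => Real.pi * T * Real.exp (-(Real.pi * T * x)))
    (uact M1 M1u) (uact M2 M2u) (uact M3 M3u) cc1 cc2 cc3
    (fun n => mul_nonneg hpT.le (Real.exp_pos _).le) (tf_summable_w hpT) d1 d2 d3 w3 w2 w1
  have hterm : ∀ n : N0, (Real.pi * T * Real.exp (-(Real.pi * T *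
      (cc n 0 ^ 2 + cc n 1 ^ 2 + cc n 2 ^ 2)))) *
      (d1 * cc n 0 ^ 2 + d2 * cc n 1 ^ 2 + d3 * cc n 2 ^ 2 + 2 * w3 * cc n 0 * cc n 1 +
      2 * w2 * cc n 0 * cc n 2 + 2 * w1 * cc n 1 * cc n 2) =
      (Real.pi * T * qf p (rv n.1) - Real.pi * T * qf Fp (rv n.1)) *
        Real.exp (-(Real.pi * T * qf Fp (rv n.1))) := by
    intro n
    rw [hpdef, qf_pp, qf_Fp]
    ring
  simp only [hterm] at hsym
  obtain ⟨hs3, he3⟩ := hsym
  have he3' : ∑' n : N0, (Real.pi * T * qf p (rv n.1) - Real.pi * T * qf Fp (rv n.1)) *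
        Real.exp (-(Real.pi * T * qf Fp (rv n.1))) = 0 := by
    rw [he3, hd]
    simp
  set f : (Fin 3 → ℤ) → ℝ := fun m => Real.exp (-(Real.pi * T * qf p (rv m))) -
    Real.exp (-(Real.pi * T * qf Fp (rv m))) +
    (Real.pi * T * qf p (rv m) - Real.pi * T * qf Fp (rv m)) *
      Real.exp (-(Real.pi * T * qf Fp (rv m))) with hf
  have hfs : HasSum (fun n : N0 => f n.1) (∑' n : N0, Real.exp (-(Real.pi * T * qf p (rv n.1))) -
      ∑' n : N0, Real.exp (-(Real.pi * T * qf Fp (rv n.1))) + 0) := by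
    rw [← he3']
    exact (hs1.hasSum.sub hs2.hasSum).add hs3.hasSum
  have hfpsi : ∀ m : Fin 3 → ℤ, f m = Real.exp (-(Real.pi * T * qf Fp (rv m))) *
      psi (Real.pi * T * qf p (rv m) - Real.pi * T * qf Fp (rv m)) := by
    intro m
    simp only [hf, psi]
    have : Real.exp (-(Real.pi * T * qf p (rv m))) = Real.exp (-(Real.pi * T * qf Fp (rv m))) *
        Real.exp (-(Real.pi * T * qf p (rv m) - Real.pi * T * qf Fp (rv m))) := by
      rw [← Real.exp_add]; congr 1; ring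
    rw [this]
    ring
  have hpsi : ∀ x, 0 ≤ psi x := by
    intro x
    have := Real.add_one_le_exp (-x)
    unfold psi
    linarith
  have hf0 : ∀ n : N0, 0 ≤ f n.1 := by
    intro n
    rw [hfpsi]
    exact mul_nonneg (Real.exp_pos _).le (hpsi _)
  have hfe : ∀ m, f (-m) = f m := by
    intro m
    simp only [hf, qf_neg]
  have h2 := two_sum_le tf_X9 tf_X9_0 tf_X9_i f hfe hf0 hfs.summable
  rw [hfs.tsum_eq] at h2
  have hd3 : d3 = -(d1 + d2) := by linarith
  have z : ∀ (i : Fin 9) (q : Fin 6 → ℝ), qf q (rv (tf_X9 i)) =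
      q 0 * rv (tf_X9 i) 0 ^ 2 + q 1 * rv (tf_X9 i) 1 ^ 2 + q 2 * rv (tf_X9 i) 2 ^ 2 +
      q 3 * (rv (tf_X9 i) 0 - rv (tf_X9 i) 1) ^ 2 + q 4 * (rv (tf_X9 i) 0 - rv (tf_X9 i) 2) ^ 2 +
      q 5 * (rv (tf_X9 i) 1 - rv (tf_X9 i) 2) ^ 2 := fun _ _ => rfl
  have key : ∀ (i : Fin 9) (q s : ℝ), qf p (rv (tf_X9 i)) - s = q → qf Fp (rv (tf_X9 i)) = s →
      f (tf_X9 i) = Real.exp (-(Real.pi * T * s)) * psi (Real.pi * T * q) := by
    intro i q s hq h0
    rw [hfpsi, h0, ← hq]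
    congr 2
    ring
  have k0 := key 0 (2 * (-d1 / 2 + w1)) 2
    (by rw [z 0, hpdef]; unfold pp rv tf_X9; rw [hd3]; simp; ring)
    (by rw [z 0]; unfold Fp rv tf_X9; simp; try norm_num)
  have k1 := key 1 (2 * (-d1 / 2 - w1)) 2
    (by rw [z 1, hpdef]; unfold pp rv tf_X9; rw [hd3]; simp; ring)
    (by rw [z 1]; unfold Fp rv tf_X9; simp; try norm_num)
  have k2 := key 2 (2 * (-d2 / 2 + w2)) 2
    (by rw [z 2, hpdef]; unfold pp rv tf_X9; rw [hd3]; simp; ring)
    (by rw [z 2]; unfold Fp rv tf_X9; simp; try norm_num)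
  have k3 := key 3 (2 * (-d2 / 2 - w2)) 2
    (by rw [z 3, hpdef]; unfold pp rv tf_X9; rw [hd3]; simp; ring)
    (by rw [z 3]; unfold Fp rv tf_X9; simp; try norm_num)
  have k4 := key 4 (2 * (-d3 / 2 + w3)) 2
    (by rw [z 4, hpdef]; unfold pp rv tf_X9; rw [hd3]; simp; ring)
    (by rw [z 4]; unfold Fp rv tf_X9; simp; try norm_num)
  have k5 := key 5 (2 * (-d3 / 2 - w3)) 2
    (by rw [z 5, hpdef]; unfold pp rv tf_X9; rw [hd3]; simp; ring)
    (by rw [z 5]; unfold Fp rv tf_X9; simp; try norm_num)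
  have k6 := key 6 (4 * d1) 4
    (by rw [z 6, hpdef]; unfold pp rv tf_X9; rw [hd3]; simp; ring)
    (by rw [z 6]; unfold Fp rv tf_X9; simp; try norm_num)
  have k7 := key 7 (4 * d2) 4
    (by rw [z 7, hpdef]; unfold pp rv tf_X9; rw [hd3]; simp; ring)
    (by rw [z 7]; unfold Fp rv tf_X9; simp; try norm_num)
  have k8 := key 8 (4 * d3) 4
    (by rw [z 8, hpdef]; unfold pp rv tf_X9; rw [hd3]; simp; ring)
    (by rw [z 8]; unfold Fp rv tf_X9; simp; try norm_num)
  have hsum9 : ∑ i, f (tf_X9 i) = f (tf_X9 0) + f (tf_X9 1) + f (tf_X9 2) + f (tf_X9 3) +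
      f (tf_X9 4) + f (tf_X9 5) + f (tf_X9 6) + f (tf_X9 7) + f (tf_X9 8) := by
    rw [Fin.sum_univ_succ, Fin.sum_univ_eight]
    simp only [Fin.succ_zero_eq_one]
    ring_nf
    rfl
  rw [hsum9, k0, k1, k2, k3, k4, k5, k6, k7, k8] at h2
  rw [hTh, hRF]
  have e2 : Real.pi * T * 2 = 2 * Real.pi * T := by ring
  have e4 : Real.pi * T * 4 = 4 * Real.pi * T := by ring
  have m2 : ∀ x, Real.pi * T * (2 * x) = 2 * Real.pi * T * x := fun x => by ring
  have m4 : ∀ x, Real.pi * T * (4 * x) = 4 * Real.pi * T * x := fun x => by ring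
  simp only [e2, e4, m2, m4] at h2
  linarith

end Pool.Agent.H999.Theta3
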