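import Pool.Agent.H999.Theta3.Cert.Top

/-!
# The certificate covers the reduced cone
-/

set_option autoImplicit false

namespace Pool.Agent.H999.Theta3

open Pool.Agent.K1H99.FCC (N0 rv nsq qf af dt PD rad Fp Qm pp tot al be sd)

lemma root0 {s1 s2 s3 e d1 d2 : ℝ}
    (h0 : d1 ≤ s1) (h1 : s2 ≤ d1) (h2 : d2 ≤ s2) (h3 : s3 ≤ d2) (h4 : e ≤ s3) (h5 : 0 ≤ e)
    (hp : PD ![s1 + d1, s2 + d2, s3 + e, s3 - e, s2 - d2, s1 - d1]) (hr : 1 ≤ rad ![s1 + d1, s2 + d2, s3 + e, s3 - e, s2 - d2, s1 - d1]) :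
    Con ![s1 + d1, s2 + d2, s3 + e, s3 - e, s2 - d2, s1 - d1] := by
  have hg := ch0
  have hl : ∀ i, 0 ≤ (![(s1 - d1) / 6442450944, (d1 - s2) / 6442450944, (s2 - d2) / 3221225472, (d2 - s3) / 3221225472, (s3 - e) / 2147483648, e / 2147483648] : Fin 6 → ℝ) i := by
    intro i
    fin_cases i <;> simp only [Fin.zero_eta, Fin.mk_one, Fin.reduceFinMk, Matrix.cons_val] <;>
      first | exact div_nonneg (sub_nonneg.2 ‹_›) (by norm_num) | exact div_nonneg ‹_› (by norm_num)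
  have he : ∑ i, (![(s1 - d1) / 6442450944, (d1 - s2) / 6442450944, (s2 - d2) / 3221225472, (d2 - s3) / 3221225472, (s3 - e) / 2147483648, e / 2147483648] : Fin 6 → ℝ) i • wv ((![w0, w1, w2, w3, w4, w5] : Fin 6 → W) i) =
      ![s1 + d1, s2 + d2, s3 + e, s3 - e, s2 - d2, s1 - d1] := by
    funext k
    fin_cases k <;> simp [Fin.sum_univ_six, wv, w0, w1, w2, w3, w4, w5] <;> ring
  have h := hg _ hl
  rw [he] at h
  exact h hp (by rw [sc]; norm_num; exact hr)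

lemma root1 {s1 s2 s3 e d1 d2 : ℝ}
    (h0 : d1 ≤ s1) (h1 : s2 ≤ d1) (h2 : d2 ≤ s2) (h3 : s3 ≤ d2) (h4 : e ≤ s3) (h5 : 0 ≤ e)
    (hp : PD ![s1 + d1, s2 + d2, s3 - e, s3 + e, s2 - d2, s1 - d1]) (hr : 1 ≤ rad ![s1 + d1, s2 + d2, s3 - e, s3 + e, s2 - d2, s1 - d1]) :
    Con ![s1 + d1, s2 + d2, s3 - e, s3 + e, s2 - d2, s1 - d1] := by
  have hg := tp1
  have hl : ∀ i, 0 ≤ (![(s1 - d1) / 6442450944, (d1 - s2) / 6442450944, (s2 - d2) / 3221225472, (d2 - s3) / 3221225472, (s3 - e) / 2147483648, e / 2147483648] : Fin 6 → ℝ) i := by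
    intro i
    fin_cases i <;> simp only [Fin.zero_eta, Fin.mk_one, Fin.reduceFinMk, Matrix.cons_val] <;>
      first | exact div_nonneg (sub_nonneg.2 ‹_›) (by norm_num) | exact div_nonneg ‹_› (by norm_num)
  have he : ∑ i, (![(s1 - d1) / 6442450944, (d1 - s2) / 6442450944, (s2 - d2) / 3221225472, (d2 - s3) / 3221225472, (s3 - e) / 2147483648, e / 2147483648] : Fin 6 → ℝ) i • wv ((![w0, w1, w2, w3, w4, w7] : Fin 6 → W) i) =
      ![s1 + d1, s2 + d2, s3 - e, s3 + e, s2 - d2, s1 - d1] := by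
    funext k
    fin_cases k <;> simp [Fin.sum_univ_six, wv, w0, w1, w2, w3, w4, w7] <;> ring
  have h := hg _ hl
  rw [he] at h
  exact h hp (by rw [sc]; norm_num; exact hr)

lemma root2 {s1 s2 s3 e d1 d2 : ℝ}
    (h0 : s2 ≤ s1) (h1 : d1 ≤ s2) (h2 : d2 ≤ d1) (h3 : s3 ≤ d2) (h4 : e ≤ s3) (h5 : 0 ≤ e)
    (hp : PD ![s1 + d1, s2 + d2, s3 + e, s3 - e, s2 - d2, s1 - d1]) (hr : 1 ≤ rad ![s1 + d1, s2 + d2, s3 + e, s3 - e, s2 - d2, s1 - d1]) :
    Con ![s1 + d1, s2 + d2, s3 + e, s3 - e, s2 - d2, s1 - d1] := by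
  have hg := tp2
  have hl : ∀ i, 0 ≤ (![(s1 - s2) / 6442450944, (s2 - d1) / 3221225472, (d1 - d2) / 3221225472, (d2 - s3) / 3221225472, (s3 - e) / 2147483648, e / 2147483648] : Fin 6 → ℝ) i := by
    intro i
    fin_cases i <;> simp only [Fin.zero_eta, Fin.mk_one, Fin.reduceFinMk, Matrix.cons_val] <;>
      first | exact div_nonneg (sub_nonneg.2 ‹_›) (by norm_num) | exact div_nonneg ‹_› (by norm_num)
  have he : ∑ i, (![(s1 - s2) / 6442450944, (s2 - d1) / 3221225472, (d1 - d2) / 3221225472, (d2 - s3) / 3221225472, (s3 - e) / 2147483648, e / 2147483648] : Fin 6 → ℝ) i • wv ((![w0, w10, w2, w3, w4, w5] : Fin 6 → W) i) =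
      ![s1 + d1, s2 + d2, s3 + e, s3 - e, s2 - d2, s1 - d1] := by
    funext k
    fin_cases k <;> simp [Fin.sum_univ_six, wv, w0, w10, w2, w3, w4, w5] <;> ring
  have h := hg _ hl
  rw [he] at h
  exact h hp (by rw [sc]; norm_num; exact hr)

lemma root3 {s1 s2 s3 e d1 d2 : ℝ}
    (h0 : s2 ≤ s1) (h1 : d1 ≤ s2) (h2 : d2 ≤ d1) (h3 : s3 ≤ d2) (h4 : e ≤ s3) (h5 : 0 ≤ e)
    (hp : PD ![s1 + d1, s2 + d2, s3 - e, s3 + e, s2 - d2, s1 - d1]) (hr : 1 ≤ rad ![s1 + d1, s2 + d2, s3 - e, s3 + e, s2 - d2, s1 - d1]) :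
    Con ![s1 + d1, s2 + d2, s3 - e, s3 + e, s2 - d2, s1 - d1] := by
  have hg := ch6
  have hl : ∀ i, 0 ≤ (![(s1 - s2) / 6442450944, (s2 - d1) / 3221225472, (d1 - d2) / 3221225472, (d2 - s3) / 3221225472, (s3 - e) / 2147483648, e / 2147483648] : Fin 6 → ℝ) i := by
    intro i
    fin_cases i <;> simp only [Fin.zero_eta, Fin.mk_one, Fin.reduceFinMk, Matrix.cons_val] <;>
      first | exact div_nonneg (sub_nonneg.2 ‹_›) (by norm_num) | exact div_nonneg ‹_› (by norm_num)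
  have he : ∑ i, (![(s1 - s2) / 6442450944, (s2 - d1) / 3221225472, (d1 - d2) / 3221225472, (d2 - s3) / 3221225472, (s3 - e) / 2147483648, e / 2147483648] : Fin 6 → ℝ) i • wv ((![w0, w10, w2, w3, w4, w7] : Fin 6 → W) i) =
      ![s1 + d1, s2 + d2, s3 - e, s3 + e, s2 - d2, s1 - d1] := by
    funext k
    fin_cases k <;> simp [Fin.sum_univ_six, wv, w0, w10, w2, w3, w4, w7] <;> ring
  have h := hg _ hl
  rw [he] at h
  exact h hp (by rw [sc]; norm_num; exact hr)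

lemma root4 {s1 s2 s3 e d1 d2 : ℝ}
    (h0 : s2 ≤ s1) (h1 : d2 ≤ s2) (h2 : d1 ≤ d2) (h3 : s3 ≤ d1) (h4 : e ≤ s3) (h5 : 0 ≤ e)
    (hp : PD ![s1 + d1, s2 + d2, s3 + e, s3 - e, s2 - d2, s1 - d1]) (hr : 1 ≤ rad ![s1 + d1, s2 + d2, s3 + e, s3 - e, s2 - d2, s1 - d1]) :
    Con ![s1 + d1, s2 + d2, s3 + e, s3 - e, s2 - d2, s1 - d1] := by
  have hg := tp3
  have hl : ∀ i, 0 ≤ (![(s1 - s2) / 6442450944, (s2 - d2) / 3221225472, (d2 - d1) / 3221225472, (d1 - s3) / 3221225472, (s3 - e) / 2147483648, e / 2147483648] : Fin 6 → ℝ) i := by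
    intro i
    fin_cases i <;> simp only [Fin.zero_eta, Fin.mk_one, Fin.reduceFinMk, Matrix.cons_val] <;>
      first | exact div_nonneg (sub_nonneg.2 ‹_›) (by norm_num) | exact div_nonneg ‹_› (by norm_num)
  have he : ∑ i, (![(s1 - s2) / 6442450944, (s2 - d2) / 3221225472, (d2 - d1) / 3221225472, (d1 - s3) / 3221225472, (s3 - e) / 2147483648, e / 2147483648] : Fin 6 → ℝ) i • wv ((![w0, w10, w11, w3, w4, w5] : Fin 6 → W) i) =
      ![s1 + d1, s2 + d2, s3 + e, s3 - e, s2 - d2, s1 - d1] := by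
    funext k
    fin_cases k <;> simp [Fin.sum_univ_six, wv, w0, w10, w11, w3, w4, w5] <;> ring
  have h := hg _ hl
  rw [he] at h
  exact h hp (by rw [sc]; norm_num; exact hr)

lemma root5 {s1 s2 s3 e d1 d2 : ℝ}
    (h0 : s2 ≤ s1) (h1 : d2 ≤ s2) (h2 : d1 ≤ d2) (h3 : s3 ≤ d1) (h4 : e ≤ s3) (h5 : 0 ≤ e)
    (hp : PD ![s1 + d1, s2 + d2, s3 - e, s3 + e, s2 - d2, s1 - d1]) (hr : 1 ≤ rad ![s1 + d1, s2 + d2, s3 - e, s3 + e, s2 - d2, s1 - d1]) :
    Con ![s1 + d1, s2 + d2, s3 - e, s3 + e, s2 - d2, s1 - d1] := by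
  have hg := ch9
  have hl : ∀ i, 0 ≤ (![(s1 - s2) / 6442450944, (s2 - d2) / 3221225472, (d2 - d1) / 3221225472, (d1 - s3) / 3221225472, (s3 - e) / 2147483648, e / 2147483648] : Fin 6 → ℝ) i := by
    intro i
    fin_cases i <;> simp only [Fin.zero_eta, Fin.mk_one, Fin.reduceFinMk, Matrix.cons_val] <;>
      first | exact div_nonneg (sub_nonneg.2 ‹_›) (by norm_num) | exact div_nonneg ‹_› (by norm_num)
  have he : ∑ i, (![(s1 - s2) / 6442450944, (s2 - d2) / 3221225472, (d2 - d1) / 3221225472, (d1 - s3) / 3221225472, (s3 - e) / 2147483648, e / 2147483648] : Fin 6 → ℝ) i • wv ((![w0, w10, w11, w3, w4, w7] : Fin 6 → W) i) =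
      ![s1 + d1, s2 + d2, s3 - e, s3 + e, s2 - d2, s1 - d1] := by
    funext k
    fin_cases k <;> simp [Fin.sum_univ_six, wv, w0, w10, w11, w3, w4, w7] <;> ring
  have h := hg _ hl
  rw [he] at h
  exact h hp (by rw [sc]; norm_num; exact hr)

lemma root6 {s1 s2 s3 e d1 d2 : ℝ}
    (h0 : s2 ≤ s1) (h1 : d2 ≤ s2) (h2 : s3 ≤ d2) (h3 : d1 ≤ s3) (h4 : e ≤ d1) (h5 : 0 ≤ e)
    (hp : PD ![s1 + d1, s2 + d2, s3 + e, s3 - e, s2 - d2, s1 - d1]) (hr : 1 ≤ rad ![s1 + d1, s2 + d2, s3 + e, s3 - e, s2 - d2, s1 - d1]) :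
    Con ![s1 + d1, s2 + d2, s3 + e, s3 - e, s2 - d2, s1 - d1] := by
  have hg := ch10
  have hl : ∀ i, 0 ≤ (![(s1 - s2) / 6442450944, (s2 - d2) / 3221225472, (d2 - s3) / 3221225472, (s3 - d1) / 2147483648, (d1 - e) / 2147483648, e / 2147483648] : Fin 6 → ℝ) i := by
    intro i
    fin_cases i <;> simp only [Fin.zero_eta, Fin.mk_one, Fin.reduceFinMk, Matrix.cons_val] <;>
      first | exact div_nonneg (sub_nonneg.2 ‹_›) (by norm_num) | exact div_nonneg ‹_› (by norm_num)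
  have he : ∑ i, (![(s1 - s2) / 6442450944, (s2 - d2) / 3221225472, (d2 - s3) / 3221225472, (s3 - d1) / 2147483648, (d1 - e) / 2147483648, e / 2147483648] : Fin 6 → ℝ) i • wv ((![w0, w10, w11, w12, w4, w5] : Fin 6 → W) i) =
      ![s1 + d1, s2 + d2, s3 + e, s3 - e, s2 - d2, s1 - d1] := by
    funext k
    fin_cases k <;> simp [Fin.sum_univ_six, wv, w0, w10, w11, w12, w4, w5] <;> ring
  have h := hg _ hl
  rw [he] at h
  exact h hp (by rw [sc]; norm_num; exact hr)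

lemma root7 {s1 s2 s3 e d1 d2 : ℝ}
    (h0 : s2 ≤ s1) (h1 : d2 ≤ s2) (h2 : s3 ≤ d2) (h3 : d1 ≤ s3) (h4 : e ≤ d1) (h5 : 0 ≤ e)
    (hp : PD ![s1 + d1, s2 + d2, s3 - e, s3 + e, s2 - d2, s1 - d1]) (hr : 1 ≤ rad ![s1 + d1, s2 + d2, s3 - e, s3 + e, s2 - d2, s1 - d1]) :
    Con ![s1 + d1, s2 + d2, s3 - e, s3 + e, s2 - d2, s1 - d1] := by
  have hg := ch11
  have hl : ∀ i, 0 ≤ (![(s1 - s2) / 6442450944, (s2 - d2) / 3221225472, (d2 - s3) / 3221225472, (s3 - d1) / 2147483648, (d1 - e) / 2147483648, e / 2147483648] : Fin 6 → ℝ) i := by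
    intro i
    fin_cases i <;> simp only [Fin.zero_eta, Fin.mk_one, Fin.reduceFinMk, Matrix.cons_val] <;>
      first | exact div_nonneg (sub_nonneg.2 ‹_›) (by norm_num) | exact div_nonneg ‹_› (by norm_num)
  have he : ∑ i, (![(s1 - s2) / 6442450944, (s2 - d2) / 3221225472, (d2 - s3) / 3221225472, (s3 - d1) / 2147483648, (d1 - e) / 2147483648, e / 2147483648] : Fin 6 → ℝ) i • wv ((![w0, w10, w11, w12, w4, w7] : Fin 6 → W) i) =
      ![s1 + d1, s2 + d2, s3 - e, s3 + e, s2 - d2, s1 - d1] := by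
    funext k
    fin_cases k <;> simp [Fin.sum_univ_six, wv, w0, w10, w11, w12, w4, w7] <;> ring
  have h := hg _ hl
  rw [he] at h
  exact h hp (by rw [sc]; norm_num; exact hr)

lemma root8 {s1 s2 s3 e d1 d2 : ℝ}
    (h0 : s2 ≤ s1) (h1 : d2 ≤ s2) (h2 : s3 ≤ d2) (h3 : e ≤ s3) (h4 : d1 ≤ e) (h5 : 0 ≤ d1)
    (hp : PD ![s1 + d1, s2 + d2, s3 + e, s3 - e, s2 - d2, s1 - d1]) (hr : 1 ≤ rad ![s1 + d1, s2 + d2, s3 + e, s3 - e, s2 - d2, s1 - d1]) :
    Con ![s1 + d1, s2 + d2, s3 + e, s3 - e, s2 - d2, s1 - d1] := by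
  have hg := tp4
  have hl : ∀ i, 0 ≤ (![(s1 - s2) / 6442450944, (s2 - d2) / 3221225472, (d2 - s3) / 3221225472, (s3 - e) / 2147483648, (e - d1) / 2147483648, d1 / 2147483648] : Fin 6 → ℝ) i := by
    intro i
    fin_cases i <;> simp only [Fin.zero_eta, Fin.mk_one, Fin.reduceFinMk, Matrix.cons_val] <;>
      first | exact div_nonneg (sub_nonneg.2 ‹_›) (by norm_num) | exact div_nonneg ‹_› (by norm_num)
  have he : ∑ i, (![(s1 - s2) / 6442450944, (s2 - d2) / 3221225472, (d2 - s3) / 3221225472, (s3 - e) / 2147483648, (e - d1) / 2147483648, d1 / 2147483648] : Fin 6 → ℝ) i • wv ((![w0, w10, w11, w12, w14, w5] : Fin 6 → W) i) =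
      ![s1 + d1, s2 + d2, s3 + e, s3 - e, s2 - d2, s1 - d1] := by
    funext k
    fin_cases k <;> simp [Fin.sum_univ_six, wv, w0, w10, w11, w12, w14, w5] <;> ring
  have h := hg _ hl
  rw [he] at h
  exact h hp (by rw [sc]; norm_num; exact hr)

lemma root9 {s1 s2 s3 e d1 d2 : ℝ}
    (h0 : s2 ≤ s1) (h1 : d2 ≤ s2) (h2 : s3 ≤ d2) (h3 : e ≤ s3) (h4 : d1 ≤ e) (h5 : 0 ≤ d1)
    (hp : PD ![s1 + d1, s2 + d2, s3 - e, s3 + e, s2 - d2, s1 - d1]) (hr : 1 ≤ rad ![s1 + d1, s2 + d2, s3 - e, s3 + e, s2 - d2, s1 - d1]) :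
    Con ![s1 + d1, s2 + d2, s3 - e, s3 + e, s2 - d2, s1 - d1] := by
  have hg := tp5
  have hl : ∀ i, 0 ≤ (![(s1 - s2) / 6442450944, (s2 - d2) / 3221225472, (d2 - s3) / 3221225472, (s3 - e) / 2147483648, (e - d1) / 2147483648, d1 / 2147483648] : Fin 6 → ℝ) i := by
    intro i
    fin_cases i <;> simp only [Fin.zero_eta, Fin.mk_one, Fin.reduceFinMk, Matrix.cons_val] <;>
      first | exact div_nonneg (sub_nonneg.2 ‹_›) (by norm_num) | exact div_nonneg ‹_› (by norm_num)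
  have he : ∑ i, (![(s1 - s2) / 6442450944, (s2 - d2) / 3221225472, (d2 - s3) / 3221225472, (s3 - e) / 2147483648, (e - d1) / 2147483648, d1 / 2147483648] : Fin 6 → ℝ) i • wv ((![w0, w10, w11, w12, w16, w7] : Fin 6 → W) i) =
      ![s1 + d1, s2 + d2, s3 - e, s3 + e, s2 - d2, s1 - d1] := by
    funext k
    fin_cases k <;> simp [Fin.sum_univ_six, wv, w0, w10, w11, w12, w16, w7] <;> ring
  have h := hg _ hl
  rw [he] at h
  exact h hp (by rw [sc]; norm_num; exact hr)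

lemma root10 {s1 s2 s3 e d1 d2 : ℝ}
    (h0 : d1 ≤ s1) (h1 : s2 ≤ d1) (h2 : s3 ≤ s2) (h3 : d2 ≤ s3) (h4 : e ≤ d2) (h5 : 0 ≤ e)
    (hp : PD ![s1 + d1, s2 + d2, s3 + e, s3 - e, s2 - d2, s1 - d1]) (hr : 1 ≤ rad ![s1 + d1, s2 + d2, s3 + e, s3 - e, s2 - d2, s1 - d1]) :
    Con ![s1 + d1, s2 + d2, s3 + e, s3 - e, s2 - d2, s1 - d1] := by
  have hg := ch16
  have hl : ∀ i, 0 ≤ (![(s1 - d1) / 6442450944, (d1 - s2) / 6442450944, (s2 - s3) / 3221225472, (s3 - d2) / 2147483648, (d2 - e) / 2147483648, e / 2147483648] : Fin 6 → ℝ) i := by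
    intro i
    fin_cases i <;> simp only [Fin.zero_eta, Fin.mk_one, Fin.reduceFinMk, Matrix.cons_val] <;>
      first | exact div_nonneg (sub_nonneg.2 ‹_›) (by norm_num) | exact div_nonneg ‹_› (by norm_num)
  have he : ∑ i, (![(s1 - d1) / 6442450944, (d1 - s2) / 6442450944, (s2 - s3) / 3221225472, (s3 - d2) / 2147483648, (d2 - e) / 2147483648, e / 2147483648] : Fin 6 → ℝ) i • wv ((![w0, w1, w2, w17, w4, w5] : Fin 6 → W) i) =
      ![s1 + d1, s2 + d2, s3 + e, s3 - e, s2 - d2, s1 - d1] := by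
    funext k
    fin_cases k <;> simp [Fin.sum_univ_six, wv, w0, w1, w17, w2, w4, w5] <;> ring
  have h := hg _ hl
  rw [he] at h
  exact h hp (by rw [sc]; norm_num; exact hr)

lemma root11 {s1 s2 s3 e d1 d2 : ℝ}
    (h0 : d1 ≤ s1) (h1 : s2 ≤ d1) (h2 : s3 ≤ s2) (h3 : d2 ≤ s3) (h4 : e ≤ d2) (h5 : 0 ≤ e)
    (hp : PD ![s1 + d1, s2 + d2, s3 - e, s3 + e, s2 - d2, s1 - d1]) (hr : 1 ≤ rad ![s1 + d1, s2 + d2, s3 - e, s3 + e, s2 - d2, s1 - d1]) :
    Con ![s1 + d1, s2 + d2, s3 - e, s3 + e, s2 - d2, s1 - d1] := by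
  have hg := ch17
  have hl : ∀ i, 0 ≤ (![(s1 - d1) / 6442450944, (d1 - s2) / 6442450944, (s2 - s3) / 3221225472, (s3 - d2) / 2147483648, (d2 - e) / 2147483648, e / 2147483648] : Fin 6 → ℝ) i := by
    intro i
    fin_cases i <;> simp only [Fin.zero_eta, Fin.mk_one, Fin.reduceFinMk, Matrix.cons_val] <;>
      first | exact div_nonneg (sub_nonneg.2 ‹_›) (by norm_num) | exact div_nonneg ‹_› (by norm_num)
  have he : ∑ i, (![(s1 - d1) / 6442450944, (d1 - s2) / 6442450944, (s2 - s3) / 3221225472, (s3 - d2) / 2147483648, (d2 - e) / 2147483648, e / 2147483648] : Fin 6 → ℝ) i • wv ((![w0, w1, w2, w17, w4, w7] : Fin 6 → W) i) =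
      ![s1 + d1, s2 + d2, s3 - e, s3 + e, s2 - d2, s1 - d1] := by
    funext k
    fin_cases k <;> simp [Fin.sum_univ_six, wv, w0, w1, w17, w2, w4, w7] <;> ring
  have h := hg _ hl
  rw [he] at h
  exact h hp (by rw [sc]; norm_num; exact hr)

lemma root12 {s1 s2 s3 e d1 d2 : ℝ}
    (h0 : s2 ≤ s1) (h1 : d1 ≤ s2) (h2 : s3 ≤ d1) (h3 : d2 ≤ s3) (h4 : e ≤ d2) (h5 : 0 ≤ e)
    (hp : PD ![s1 + d1, s2 + d2, s3 + e, s3 - e, s2 - d2, s1 - d1]) (hr : 1 ≤ rad ![s1 + d1, s2 + d2, s3 + e, s3 - e, s2 - d2, s1 - d1]) :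
    Con ![s1 + d1, s2 + d2, s3 + e, s3 - e, s2 - d2, s1 - d1] := by
  have hg := ch18
  have hl : ∀ i, 0 ≤ (![(s1 - s2) / 6442450944, (s2 - d1) / 3221225472, (d1 - s3) / 3221225472, (s3 - d2) / 2147483648, (d2 - e) / 2147483648, e / 2147483648] : Fin 6 → ℝ) i := by
    intro i
    fin_cases i <;> simp only [Fin.zero_eta, Fin.mk_one, Fin.reduceFinMk, Matrix.cons_val] <;>
      first | exact div_nonneg (sub_nonneg.2 ‹_›) (by norm_num) | exact div_nonneg ‹_› (by norm_num)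
  have he : ∑ i, (![(s1 - s2) / 6442450944, (s2 - d1) / 3221225472, (d1 - s3) / 3221225472, (s3 - d2) / 2147483648, (d2 - e) / 2147483648, e / 2147483648] : Fin 6 → ℝ) i • wv ((![w0, w10, w2, w17, w4, w5] : Fin 6 → W) i) =
      ![s1 + d1, s2 + d2, s3 + e, s3 - e, s2 - d2, s1 - d1] := by
    funext k
    fin_cases k <;> simp [Fin.sum_univ_six, wv, w0, w10, w17, w2, w4, w5] <;> ring
  have h := hg _ hl
  rw [he] at h
  exact h hp (by rw [sc]; norm_num; exact hr)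

lemma root13 {s1 s2 s3 e d1 d2 : ℝ}
    (h0 : s2 ≤ s1) (h1 : d1 ≤ s2) (h2 : s3 ≤ d1) (h3 : d2 ≤ s3) (h4 : e ≤ d2) (h5 : 0 ≤ e)
    (hp : PD ![s1 + d1, s2 + d2, s3 - e, s3 + e, s2 - d2, s1 - d1]) (hr : 1 ≤ rad ![s1 + d1, s2 + d2, s3 - e, s3 + e, s2 - d2, s1 - d1]) :
    Con ![s1 + d1, s2 + d2, s3 - e, s3 + e, s2 - d2, s1 - d1] := by
  have hg := ch19
  have hl : ∀ i, 0 ≤ (![(s1 - s2) / 6442450944, (s2 - d1) / 3221225472, (d1 - s3) / 3221225472, (s3 - d2) / 2147483648, (d2 - e) / 2147483648, e / 2147483648] : Fin 6 → ℝ) i := by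
    intro i
    fin_cases i <;> simp only [Fin.zero_eta, Fin.mk_one, Fin.reduceFinMk, Matrix.cons_val] <;>
      first | exact div_nonneg (sub_nonneg.2 ‹_›) (by norm_num) | exact div_nonneg ‹_› (by norm_num)
  have he : ∑ i, (![(s1 - s2) / 6442450944, (s2 - d1) / 3221225472, (d1 - s3) / 3221225472, (s3 - d2) / 2147483648, (d2 - e) / 2147483648, e / 2147483648] : Fin 6 → ℝ) i • wv ((![w0, w10, w2, w17, w4, w7] : Fin 6 → W) i) =
      ![s1 + d1, s2 + d2, s3 - e, s3 + e, s2 - d2, s1 - d1] := by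
    funext k
    fin_cases k <;> simp [Fin.sum_univ_six, wv, w0, w10, w17, w2, w4, w7] <;> ring
  have h := hg _ hl
  rw [he] at h
  exact h hp (by rw [sc]; norm_num; exact hr)

lemma root14 {s1 s2 s3 e d1 d2 : ℝ}
    (h0 : s2 ≤ s1) (h1 : s3 ≤ s2) (h2 : d1 ≤ s3) (h3 : d2 ≤ d1) (h4 : e ≤ d2) (h5 : 0 ≤ e)
    (hp : PD ![s1 + d1, s2 + d2, s3 + e, s3 - e, s2 - d2, s1 - d1]) (hr : 1 ≤ rad ![s1 + d1, s2 + d2, s3 + e, s3 - e, s2 - d2, s1 - d1]) :
    Con ![s1 + d1, s2 + d2, s3 + e, s3 - e, s2 - d2, s1 - d1] := by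
  have hg := tp147
  have hl : ∀ i, 0 ≤ (![(s1 - s2) / 6442450944, (s2 - s3) / 3221225472, (s3 - d1) / 2147483648, (d1 - d2) / 2147483648, (d2 - e) / 2147483648, e / 2147483648] : Fin 6 → ℝ) i := by
    intro i
    fin_cases i <;> simp only [Fin.zero_eta, Fin.mk_one, Fin.reduceFinMk, Matrix.cons_val] <;>
      first | exact div_nonneg (sub_nonneg.2 ‹_›) (by norm_num) | exact div_nonneg ‹_› (by norm_num)
  have he : ∑ i, (![(s1 - s2) / 6442450944, (s2 - s3) / 3221225472, (s3 - d1) / 2147483648, (d1 - d2) / 2147483648, (d2 - e) / 2147483648, e / 2147483648] : Fin 6 → ℝ) i • wv ((![w0, w10, w19, w17, w4, w5] : Fin 6 → W) i) =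
      ![s1 + d1, s2 + d2, s3 + e, s3 - e, s2 - d2, s1 - d1] := by
    funext k
    fin_cases k <;> simp [Fin.sum_univ_six, wv, w0, w10, w17, w19, w4, w5] <;> ring
  have h := hg _ hl
  rw [he] at h
  exact h hp (by rw [sc]; norm_num; exact hr)

lemma root15 {s1 s2 s3 e d1 d2 : ℝ}
    (h0 : s2 ≤ s1) (h1 : s3 ≤ s2) (h2 : d1 ≤ s3) (h3 : d2 ≤ d1) (h4 : e ≤ d2) (h5 : 0 ≤ e)
    (hp : PD ![s1 + d1, s2 + d2, s3 - e, s3 + e, s2 - d2, s1 - d1]) (hr : 1 ≤ rad ![s1 + d1, s2 + d2, s3 - e, s3 + e, s2 - d2, s1 - d1]) :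
    Con ![s1 + d1, s2 + d2, s3 - e, s3 + e, s2 - d2, s1 - d1] := by
  have hg := tp242
  have hl : ∀ i, 0 ≤ (![(s1 - s2) / 6442450944, (s2 - s3) / 3221225472, (s3 - d1) / 2147483648, (d1 - d2) / 2147483648, (d2 - e) / 2147483648, e / 2147483648] : Fin 6 → ℝ) i := by
    intro i
    fin_cases i <;> simp only [Fin.zero_eta, Fin.mk_one, Fin.reduceFinMk, Matrix.cons_val] <;>
      first | exact div_nonneg (sub_nonneg.2 ‹_›) (by norm_num) | exact div_nonneg ‹_› (by norm_num)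
  have he : ∑ i, (![(s1 - s2) / 6442450944, (s2 - s3) / 3221225472, (s3 - d1) / 2147483648, (d1 - d2) / 2147483648, (d2 - e) / 2147483648, e / 2147483648] : Fin 6 → ℝ) i • wv ((![w0, w10, w19, w17, w4, w7] : Fin 6 → W) i) =
      ![s1 + d1, s2 + d2, s3 - e, s3 + e, s2 - d2, s1 - d1] := by
    funext k
    fin_cases k <;> simp [Fin.sum_univ_six, wv, w0, w10, w17, w19, w4, w7] <;> ring
  have h := hg _ hl
  rw [he] at h
  exact h hp (by rw [sc]; norm_num; exact hr)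

lemma root16 {s1 s2 s3 e d1 d2 : ℝ}
    (h0 : s2 ≤ s1) (h1 : s3 ≤ s2) (h2 : d2 ≤ s3) (h3 : d1 ≤ d2) (h4 : e ≤ d1) (h5 : 0 ≤ e)
    (hp : PD ![s1 + d1, s2 + d2, s3 + e, s3 - e, s2 - d2, s1 - d1]) (hr : 1 ≤ rad ![s1 + d1, s2 + d2, s3 + e, s3 - e, s2 - d2, s1 - d1]) :
    Con ![s1 + d1, s2 + d2, s3 + e, s3 - e, s2 - d2, s1 - d1] := by
  have hg := tp384
  have hl : ∀ i, 0 ≤ (![(s1 - s2) / 6442450944, (s2 - s3) / 3221225472, (s3 - d2) / 2147483648, (d2 - d1) / 2147483648, (d1 - e) / 2147483648, e / 2147483648] : Fin 6 → ℝ) i := by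
    intro i
    fin_cases i <;> simp only [Fin.zero_eta, Fin.mk_one, Fin.reduceFinMk, Matrix.cons_val] <;>
      first | exact div_nonneg (sub_nonneg.2 ‹_›) (by norm_num) | exact div_nonneg ‹_› (by norm_num)
  have he : ∑ i, (![(s1 - s2) / 6442450944, (s2 - s3) / 3221225472, (s3 - d2) / 2147483648, (d2 - d1) / 2147483648, (d1 - e) / 2147483648, e / 2147483648] : Fin 6 → ℝ) i • wv ((![w0, w10, w19, w12, w4, w5] : Fin 6 → W) i) =
      ![s1 + d1, s2 + d2, s3 + e, s3 - e, s2 - d2, s1 - d1] := by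
    funext k
    fin_cases k <;> simp [Fin.sum_univ_six, wv, w0, w10, w12, w19, w4, w5] <;> ring
  have h := hg _ hl
  rw [he] at h
  exact h hp (by rw [sc]; norm_num; exact hr)

lemma root17 {s1 s2 s3 e d1 d2 : ℝ}
    (h0 : s2 ≤ s1) (h1 : s3 ≤ s2) (h2 : d2 ≤ s3) (h3 : d1 ≤ d2) (h4 : e ≤ d1) (h5 : 0 ≤ e)
    (hp : PD ![s1 + d1, s2 + d2, s3 - e, s3 + e, s2 - d2, s1 - d1]) (hr : 1 ≤ rad ![s1 + d1, s2 + d2, s3 - e, s3 + e, s2 - d2, s1 - d1]) :
    Con ![s1 + d1, s2 + d2, s3 - e, s3 + e, s2 - d2, s1 - d1] := by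
  have hg := tp480
  have hl : ∀ i, 0 ≤ (![(s1 - s2) / 6442450944, (s2 - s3) / 3221225472, (s3 - d2) / 2147483648, (d2 - d1) / 2147483648, (d1 - e) / 2147483648, e / 2147483648] : Fin 6 → ℝ) i := by
    intro i
    fin_cases i <;> simp only [Fin.zero_eta, Fin.mk_one, Fin.reduceFinMk, Matrix.cons_val] <;>
      first | exact div_nonneg (sub_nonneg.2 ‹_›) (by norm_num) | exact div_nonneg ‹_› (by norm_num)
  have he : ∑ i, (![(s1 - s2) / 6442450944, (s2 - s3) / 3221225472, (s3 - d2) / 2147483648, (d2 - d1) / 2147483648, (d1 - e) / 2147483648, e / 2147483648] : Fin 6 → ℝ) i • wv ((![w0, w10, w19, w12, w4, w7] : Fin 6 → W) i) =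
      ![s1 + d1, s2 + d2, s3 - e, s3 + e, s2 - d2, s1 - d1] := by
    funext k
    fin_cases k <;> simp [Fin.sum_univ_six, wv, w0, w10, w12, w19, w4, w7] <;> ring
  have h := hg _ hl
  rw [he] at h
  exact h hp (by rw [sc]; norm_num; exact hr)

lemma root18 {s1 s2 s3 e d1 d2 : ℝ}
    (h0 : s2 ≤ s1) (h1 : s3 ≤ s2) (h2 : d2 ≤ s3) (h3 : e ≤ d2) (h4 : d1 ≤ e) (h5 : 0 ≤ d1)
    (hp : PD ![s1 + d1, s2 + d2, s3 + e, s3 - e, s2 - d2, s1 - d1]) (hr : 1 ≤ rad ![s1 + d1, s2 + d2, s3 + e, s3 - e, s2 - d2, s1 - d1]) :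
    Con ![s1 + d1, s2 + d2, s3 + e, s3 - e, s2 - d2, s1 - d1] := by
  have hg := tp626
  have hl : ∀ i, 0 ≤ (![(s1 - s2) / 6442450944, (s2 - s3) / 3221225472, (s3 - d2) / 2147483648, (d2 - e) / 2147483648, (e - d1) / 2147483648, d1 / 2147483648] : Fin 6 → ℝ) i := by
    intro i
    fin_cases i <;> simp only [Fin.zero_eta, Fin.mk_one, Fin.reduceFinMk, Matrix.cons_val] <;>
      first | exact div_nonneg (sub_nonneg.2 ‹_›) (by norm_num) | exact div_nonneg ‹_› (by norm_num)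
  have he : ∑ i, (![(s1 - s2) / 6442450944, (s2 - s3) / 3221225472, (s3 - d2) / 2147483648, (d2 - e) / 2147483648, (e - d1) / 2147483648, d1 / 2147483648] : Fin 6 → ℝ) i • wv ((![w0, w10, w19, w12, w14, w5] : Fin 6 → W) i) =
      ![s1 + d1, s2 + d2, s3 + e, s3 - e, s2 - d2, s1 - d1] := by
    funext k
    fin_cases k <;> simp [Fin.sum_univ_six, wv, w0, w10, w12, w14, w19, w5] <;> ring
  have h := hg _ hl
  rw [he] at h
  exact h hp (by rw [sc]; norm_num; exact hr)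

lemma root19 {s1 s2 s3 e d1 d2 : ℝ}
    (h0 : s2 ≤ s1) (h1 : s3 ≤ s2) (h2 : d2 ≤ s3) (h3 : e ≤ d2) (h4 : d1 ≤ e) (h5 : 0 ≤ d1)
    (hp : PD ![s1 + d1, s2 + d2, s3 - e, s3 + e, s2 - d2, s1 - d1]) (hr : 1 ≤ rad ![s1 + d1, s2 + d2, s3 - e, s3 + e, s2 - d2, s1 - d1]) :
    Con ![s1 + d1, s2 + d2, s3 - e, s3 + e, s2 - d2, s1 - d1] := by
  have hg := tp724
  have hl : ∀ i, 0 ≤ (![(s1 - s2) / 6442450944, (s2 - s3) / 3221225472, (s3 - d2) / 2147483648, (d2 - e) / 2147483648, (e - d1) / 2147483648, d1 / 2147483648] : Fin 6 → ℝ) i := by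
    intro i
    fin_cases i <;> simp only [Fin.zero_eta, Fin.mk_one, Fin.reduceFinMk, Matrix.cons_val] <;>
      first | exact div_nonneg (sub_nonneg.2 ‹_›) (by norm_num) | exact div_nonneg ‹_› (by norm_num)
  have he : ∑ i, (![(s1 - s2) / 6442450944, (s2 - s3) / 3221225472, (s3 - d2) / 2147483648, (d2 - e) / 2147483648, (e - d1) / 2147483648, d1 / 2147483648] : Fin 6 → ℝ) i • wv ((![w0, w10, w19, w12, w16, w7] : Fin 6 → W) i) =
      ![s1 + d1, s2 + d2, s3 - e, s3 + e, s2 - d2, s1 - d1] := by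
    funext k
    fin_cases k <;> simp [Fin.sum_univ_six, wv, w0, w10, w12, w16, w19, w7] <;> ring
  have h := hg _ hl
  rw [he] at h
  exact h hp (by rw [sc]; norm_num; exact hr)

lemma root20 {s1 s2 s3 e d1 d2 : ℝ}
    (h0 : d1 ≤ s1) (h1 : s2 ≤ d1) (h2 : s3 ≤ s2) (h3 : e ≤ s3) (h4 : d2 ≤ e) (h5 : 0 ≤ d2)
    (hp : PD ![s1 + d1, s2 + d2, s3 + e, s3 - e, s2 - d2, s1 - d1]) (hr : 1 ≤ rad ![s1 + d1, s2 + d2, s3 + e, s3 - e, s2 - d2, s1 - d1]) :
    Con ![s1 + d1, s2 + d2, s3 + e, s3 - e, s2 - d2, s1 - d1] := by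
  have hg := ch745
  have hl : ∀ i, 0 ≤ (![(s1 - d1) / 6442450944, (d1 - s2) / 6442450944, (s2 - s3) / 3221225472, (s3 - e) / 2147483648, (e - d2) / 2147483648, d2 / 2147483648] : Fin 6 → ℝ) i := by
    intro i
    fin_cases i <;> simp only [Fin.zero_eta, Fin.mk_one, Fin.reduceFinMk, Matrix.cons_val] <;>
      first | exact div_nonneg (sub_nonneg.2 ‹_›) (by norm_num) | exact div_nonneg ‹_› (by norm_num)
  have he : ∑ i, (![(s1 - d1) / 6442450944, (d1 - s2) / 6442450944, (s2 - s3) / 3221225472, (s3 - e) / 2147483648, (e - d2) / 2147483648, d2 / 2147483648] : Fin 6 → ℝ) i • wv ((![w0, w1, w2, w17, w132, w5] : Fin 6 → W) i) =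
      ![s1 + d1, s2 + d2, s3 + e, s3 - e, s2 - d2, s1 - d1] := by
    funext k
    fin_cases k <;> simp [Fin.sum_univ_six, wv, w0, w1, w132, w17, w2, w5] <;> ring
  have h := hg _ hl
  rw [he] at h
  exact h hp (by rw [sc]; norm_num; exact hr)

lemma root21 {s1 s2 s3 e d1 d2 : ℝ}
    (h0 : d1 ≤ s1) (h1 : s2 ≤ d1) (h2 : s3 ≤ s2) (h3 : e ≤ s3) (h4 : d2 ≤ e) (h5 : 0 ≤ d2)
    (hp : PD ![s1 + d1, s2 + d2, s3 - e, s3 + e, s2 - d2, s1 - d1]) (hr : 1 ≤ rad ![s1 + d1, s2 + d2, s3 - e, s3 + e, s2 - d2, s1 - d1]) :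
    Con ![s1 + d1, s2 + d2, s3 - e, s3 + e, s2 - d2, s1 - d1] := by
  have hg := ch746
  have hl : ∀ i, 0 ≤ (![(s1 - d1) / 6442450944, (d1 - s2) / 6442450944, (s2 - s3) / 3221225472, (s3 - e) / 2147483648, (e - d2) / 2147483648, d2 / 2147483648] : Fin 6 → ℝ) i := by
    intro i
    fin_cases i <;> simp only [Fin.zero_eta, Fin.mk_one, Fin.reduceFinMk, Matrix.cons_val] <;>
      first | exact div_nonneg (sub_nonneg.2 ‹_›) (by norm_num) | exact div_nonneg ‹_› (by norm_num)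
  have he : ∑ i, (![(s1 - d1) / 6442450944, (d1 - s2) / 6442450944, (s2 - s3) / 3221225472, (s3 - e) / 2147483648, (e - d2) / 2147483648, d2 / 2147483648] : Fin 6 → ℝ) i • wv ((![w0, w1, w2, w17, w133, w7] : Fin 6 → W) i) =
      ![s1 + d1, s2 + d2, s3 - e, s3 + e, s2 - d2, s1 - d1] := by
    funext k
    fin_cases k <;> simp [Fin.sum_univ_six, wv, w0, w1, w133, w17, w2, w7] <;> ring
  have h := hg _ hl
  rw [he] at h
  exact h hp (by rw [sc]; norm_num; exact hr)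

lemma root22 {s1 s2 s3 e d1 d2 : ℝ}
    (h0 : s2 ≤ s1) (h1 : d1 ≤ s2) (h2 : s3 ≤ d1) (h3 : e ≤ s3) (h4 : d2 ≤ e) (h5 : 0 ≤ d2)
    (hp : PD ![s1 + d1, s2 + d2, s3 + e, s3 - e, s2 - d2, s1 - d1]) (hr : 1 ≤ rad ![s1 + d1, s2 + d2, s3 + e, s3 - e, s2 - d2, s1 - d1]) :
    Con ![s1 + d1, s2 + d2, s3 + e, s3 - e, s2 - d2, s1 - d1] := by
  have hg := tp725
  have hl : ∀ i, 0 ≤ (![(s1 - s2) / 6442450944, (s2 - d1) / 3221225472, (d1 - s3) / 3221225472, (s3 - e) / 2147483648, (e - d2) / 2147483648, d2 / 2147483648] : Fin 6 → ℝ) i := by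
    intro i
    fin_cases i <;> simp only [Fin.zero_eta, Fin.mk_one, Fin.reduceFinMk, Matrix.cons_val] <;>
      first | exact div_nonneg (sub_nonneg.2 ‹_›) (by norm_num) | exact div_nonneg ‹_› (by norm_num)
  have he : ∑ i, (![(s1 - s2) / 6442450944, (s2 - d1) / 3221225472, (d1 - s3) / 3221225472, (s3 - e) / 2147483648, (e - d2) / 2147483648, d2 / 2147483648] : Fin 6 → ℝ) i • wv ((![w0, w10, w2, w17, w132, w5] : Fin 6 → W) i) =
      ![s1 + d1, s2 + d2, s3 + e, s3 - e, s2 - d2, s1 - d1] := by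
    funext k
    fin_cases k <;> simp [Fin.sum_univ_six, wv, w0, w10, w132, w17, w2, w5] <;> ring
  have h := hg _ hl
  rw [he] at h
  exact h hp (by rw [sc]; norm_num; exact hr)

lemma root23 {s1 s2 s3 e d1 d2 : ℝ}
    (h0 : s2 ≤ s1) (h1 : d1 ≤ s2) (h2 : s3 ≤ d1) (h3 : e ≤ s3) (h4 : d2 ≤ e) (h5 : 0 ≤ d2)
    (hp : PD ![s1 + d1, s2 + d2, s3 - e, s3 + e, s2 - d2, s1 - d1]) (hr : 1 ≤ rad ![s1 + d1, s2 + d2, s3 - e, s3 + e, s2 - d2, s1 - d1]) :
    Con ![s1 + d1, s2 + d2, s3 - e, s3 + e, s2 - d2, s1 - d1] := by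
  have hg := tp726
  have hl : ∀ i, 0 ≤ (![(s1 - s2) / 6442450944, (s2 - d1) / 3221225472, (d1 - s3) / 3221225472, (s3 - e) / 2147483648, (e - d2) / 2147483648, d2 / 2147483648] : Fin 6 → ℝ) i := by
    intro i
    fin_cases i <;> simp only [Fin.zero_eta, Fin.mk_one, Fin.reduceFinMk, Matrix.cons_val] <;>
      first | exact div_nonneg (sub_nonneg.2 ‹_›) (by norm_num) | exact div_nonneg ‹_› (by norm_num)
  have he : ∑ i, (![(s1 - s2) / 6442450944, (s2 - d1) / 3221225472, (d1 - s3) / 3221225472, (s3 - e) / 2147483648, (e - d2) / 2147483648, d2 / 2147483648] : Fin 6 → ℝ) i • wv ((![w0, w10, w2, w17, w133, w7] : Fin 6 → W) i) =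
      ![s1 + d1, s2 + d2, s3 - e, s3 + e, s2 - d2, s1 - d1] := by
    funext k
    fin_cases k <;> simp [Fin.sum_univ_six, wv, w0, w10, w133, w17, w2, w7] <;> ring
  have h := hg _ hl
  rw [he] at h
  exact h hp (by rw [sc]; norm_num; exact hr)

lemma root24 {s1 s2 s3 e d1 d2 : ℝ}
    (h0 : s2 ≤ s1) (h1 : s3 ≤ s2) (h2 : d1 ≤ s3) (h3 : e ≤ d1) (h4 : d2 ≤ e) (h5 : 0 ≤ d2)
    (hp : PD ![s1 + d1, s2 + d2, s3 + e, s3 - e, s2 - d2, s1 - d1]) (hr : 1 ≤ rad ![s1 + d1, s2 + d2, s3 + e, s3 - e, s2 - d2, s1 - d1]) :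
    Con ![s1 + d1, s2 + d2, s3 + e, s3 - e, s2 - d2, s1 - d1] := by
  have hg := tp869
  have hl : ∀ i, 0 ≤ (![(s1 - s2) / 6442450944, (s2 - s3) / 3221225472, (s3 - d1) / 2147483648, (d1 - e) / 2147483648, (e - d2) / 2147483648, d2 / 2147483648] : Fin 6 → ℝ) i := by
    intro i
    fin_cases i <;> simp only [Fin.zero_eta, Fin.mk_one, Fin.reduceFinMk, Matrix.cons_val] <;>
      first | exact div_nonneg (sub_nonneg.2 ‹_›) (by norm_num) | exact div_nonneg ‹_› (by norm_num)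
  have he : ∑ i, (![(s1 - s2) / 6442450944, (s2 - s3) / 3221225472, (s3 - d1) / 2147483648, (d1 - e) / 2147483648, (e - d2) / 2147483648, d2 / 2147483648] : Fin 6 → ℝ) i • wv ((![w0, w10, w19, w17, w132, w5] : Fin 6 → W) i) =
      ![s1 + d1, s2 + d2, s3 + e, s3 - e, s2 - d2, s1 - d1] := by
    funext k
    fin_cases k <;> simp [Fin.sum_univ_six, wv, w0, w10, w132, w17, w19, w5] <;> ring
  have h := hg _ hl
  rw [he] at h
  exact h hp (by rw [sc]; norm_num; exact hr)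

lemma root25 {s1 s2 s3 e d1 d2 : ℝ}
    (h0 : s2 ≤ s1) (h1 : s3 ≤ s2) (h2 : d1 ≤ s3) (h3 : e ≤ d1) (h4 : d2 ≤ e) (h5 : 0 ≤ d2)
    (hp : PD ![s1 + d1, s2 + d2, s3 - e, s3 + e, s2 - d2, s1 - d1]) (hr : 1 ≤ rad ![s1 + d1, s2 + d2, s3 - e, s3 + e, s2 - d2, s1 - d1]) :
    Con ![s1 + d1, s2 + d2, s3 - e, s3 + e, s2 - d2, s1 - d1] := by
  have hg := tp964
  have hl : ∀ i, 0 ≤ (![(s1 - s2) / 6442450944, (s2 - s3) / 3221225472, (s3 - d1) / 2147483648, (d1 - e) / 2147483648, (e - d2) / 2147483648, d2 / 2147483648] : Fin 6 → ℝ) i := by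
    intro i
    fin_cases i <;> simp only [Fin.zero_eta, Fin.mk_one, Fin.reduceFinMk, Matrix.cons_val] <;>
      first | exact div_nonneg (sub_nonneg.2 ‹_›) (by norm_num) | exact div_nonneg ‹_› (by norm_num)
  have he : ∑ i, (![(s1 - s2) / 6442450944, (s2 - s3) / 3221225472, (s3 - d1) / 2147483648, (d1 - e) / 2147483648, (e - d2) / 2147483648, d2 / 2147483648] : Fin 6 → ℝ) i • wv ((![w0, w10, w19, w17, w133, w7] : Fin 6 → W) i) =
      ![s1 + d1, s2 + d2, s3 - e, s3 + e, s2 - d2, s1 - d1] := by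
    funext k
    fin_cases k <;> simp [Fin.sum_univ_six, wv, w0, w10, w133, w17, w19, w7] <;> ring
  have h := hg _ hl
  rw [he] at h
  exact h hp (by rw [sc]; norm_num; exact hr)

lemma root26 {s1 s2 s3 e d1 d2 : ℝ}
    (h0 : s2 ≤ s1) (h1 : s3 ≤ s2) (h2 : e ≤ s3) (h3 : d1 ≤ e) (h4 : d2 ≤ d1) (h5 : 0 ≤ d2)
    (hp : PD ![s1 + d1, s2 + d2, s3 + e, s3 - e, s2 - d2, s1 - d1]) (hr : 1 ≤ rad ![s1 + d1, s2 + d2, s3 + e, s3 - e, s2 - d2, s1 - d1]) :
    Con ![s1 + d1, s2 + d2, s3 + e, s3 - e, s2 - d2, s1 - d1] := by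
  have hg := tp1158
  have hl : ∀ i, 0 ≤ (![(s1 - s2) / 6442450944, (s2 - s3) / 3221225472, (s3 - e) / 2147483648, (e - d1) / 2147483648, (d1 - d2) / 2147483648, d2 / 2147483648] : Fin 6 → ℝ) i := by
    intro i
    fin_cases i <;> simp only [Fin.zero_eta, Fin.mk_one, Fin.reduceFinMk, Matrix.cons_val] <;>
      first | exact div_nonneg (sub_nonneg.2 ‹_›) (by norm_num) | exact div_nonneg ‹_› (by norm_num)
  have he : ∑ i, (![(s1 - s2) / 6442450944, (s2 - s3) / 3221225472, (s3 - e) / 2147483648, (e - d1) / 2147483648, (d1 - d2) / 2147483648, d2 / 2147483648] : Fin 6 → ℝ) i • wv ((![w0, w10, w19, w163, w132, w5] : Fin 6 → W) i) =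
      ![s1 + d1, s2 + d2, s3 + e, s3 - e, s2 - d2, s1 - d1] := by
    funext k
    fin_cases k <;> simp [Fin.sum_univ_six, wv, w0, w10, w132, w163, w19, w5] <;> ring
  have h := hg _ hl
  rw [he] at h
  exact h hp (by rw [sc]; norm_num; exact hr)

lemma root27 {s1 s2 s3 e d1 d2 : ℝ}
    (h0 : s2 ≤ s1) (h1 : s3 ≤ s2) (h2 : e ≤ s3) (h3 : d1 ≤ e) (h4 : d2 ≤ d1) (h5 : 0 ≤ d2)
    (hp : PD ![s1 + d1, s2 + d2, s3 - e, s3 + e, s2 - d2, s1 - d1]) (hr : 1 ≤ rad ![s1 + d1, s2 + d2, s3 - e, s3 + e, s2 - d2, s1 - d1]) :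
    Con ![s1 + d1, s2 + d2, s3 - e, s3 + e, s2 - d2, s1 - d1] := by
  have hg := tp1266
  have hl : ∀ i, 0 ≤ (![(s1 - s2) / 6442450944, (s2 - s3) / 3221225472, (s3 - e) / 2147483648, (e - d1) / 2147483648, (d1 - d2) / 2147483648, d2 / 2147483648] : Fin 6 → ℝ) i := by
    intro i
    fin_cases i <;> simp only [Fin.zero_eta, Fin.mk_one, Fin.reduceFinMk, Matrix.cons_val] <;>
      first | exact div_nonneg (sub_nonneg.2 ‹_›) (by norm_num) | exact div_nonneg ‹_› (by norm_num)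
  have he : ∑ i, (![(s1 - s2) / 6442450944, (s2 - s3) / 3221225472, (s3 - e) / 2147483648, (e - d1) / 2147483648, (d1 - d2) / 2147483648, d2 / 2147483648] : Fin 6 → ℝ) i • wv ((![w0, w10, w19, w191, w133, w7] : Fin 6 → W) i) =
      ![s1 + d1, s2 + d2, s3 - e, s3 + e, s2 - d2, s1 - d1] := by
    funext k
    fin_cases k <;> simp [Fin.sum_univ_six, wv, w0, w10, w133, w19, w191, w7] <;> ring
  have h := hg _ hl
  rw [he] at h
  exact h hp (by rw [sc]; norm_num; exact hr)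

lemma root28 {s1 s2 s3 e d1 d2 : ℝ}
    (h0 : s2 ≤ s1) (h1 : s3 ≤ s2) (h2 : e ≤ s3) (h3 : d2 ≤ e) (h4 : d1 ≤ d2) (h5 : 0 ≤ d1)
    (hp : PD ![s1 + d1, s2 + d2, s3 + e, s3 - e, s2 - d2, s1 - d1]) (hr : 1 ≤ rad ![s1 + d1, s2 + d2, s3 + e, s3 - e, s2 - d2, s1 - d1]) :
    Con ![s1 + d1, s2 + d2, s3 + e, s3 - e, s2 - d2, s1 - d1] := by
  have hg := tp1463
  have hl : ∀ i, 0 ≤ (![(s1 - s2) / 6442450944, (s2 - s3) / 3221225472, (s3 - e) / 2147483648, (e - d2) / 2147483648, (d2 - d1) / 2147483648, d1 / 2147483648] : Fin 6 → ℝ) i := by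
    intro i
    fin_cases i <;> simp only [Fin.zero_eta, Fin.mk_one, Fin.reduceFinMk, Matrix.cons_val] <;>
      first | exact div_nonneg (sub_nonneg.2 ‹_›) (by norm_num) | exact div_nonneg ‹_› (by norm_num)
  have he : ∑ i, (![(s1 - s2) / 6442450944, (s2 - s3) / 3221225472, (s3 - e) / 2147483648, (e - d2) / 2147483648, (d2 - d1) / 2147483648, d1 / 2147483648] : Fin 6 → ℝ) i • wv ((![w0, w10, w19, w163, w14, w5] : Fin 6 → W) i) =
      ![s1 + d1, s2 + d2, s3 + e, s3 - e, s2 - d2, s1 - d1] := by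
    funext k
    fin_cases k <;> simp [Fin.sum_univ_six, wv, w0, w10, w14, w163, w19, w5] <;> ring
  have h := hg _ hl
  rw [he] at h
  exact h hp (by rw [sc]; norm_num; exact hr)

lemma root29 {s1 s2 s3 e d1 d2 : ℝ}
    (h0 : s2 ≤ s1) (h1 : s3 ≤ s2) (h2 : e ≤ s3) (h3 : d2 ≤ e) (h4 : d1 ≤ d2) (h5 : 0 ≤ d1)
    (hp : PD ![s1 + d1, s2 + d2, s3 - e, s3 + e, s2 - d2, s1 - d1]) (hr : 1 ≤ rad ![s1 + d1, s2 + d2, s3 - e, s3 + e, s2 - d2, s1 - d1]) :
    Con ![s1 + d1, s2 + d2, s3 - e, s3 + e, s2 - d2, s1 - d1] := by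
  have hg := tp1573
  have hl : ∀ i, 0 ≤ (![(s1 - s2) / 6442450944, (s2 - s3) / 3221225472, (s3 - e) / 2147483648, (e - d2) / 2147483648, (d2 - d1) / 2147483648, d1 / 2147483648] : Fin 6 → ℝ) i := by
    intro i
    fin_cases i <;> simp only [Fin.zero_eta, Fin.mk_one, Fin.reduceFinMk, Matrix.cons_val] <;>
      first | exact div_nonneg (sub_nonneg.2 ‹_›) (by norm_num) | exact div_nonneg ‹_› (by norm_num)
  have he : ∑ i, (![(s1 - s2) / 6442450944, (s2 - s3) / 3221225472, (s3 - e) / 2147483648, (e - d2) / 2147483648, (d2 - d1) / 2147483648, d1 / 2147483648] : Fin 6 → ℝ) i • wv ((![w0, w10, w19, w191, w16, w7] : Fin 6 → W) i) =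
      ![s1 + d1, s2 + d2, s3 - e, s3 + e, s2 - d2, s1 - d1] := by
    funext k
    fin_cases k <;> simp [Fin.sum_univ_six, wv, w0, w10, w16, w19, w191, w7] <;> ring
  have h := hg _ hl
  rw [he] at h
  exact h hp (by rw [sc]; norm_num; exact hr)

/-- the certificate covers the reduced cone -/
theorem cone_all {s1 s2 s3 d3 d1 d2 : ℝ} (h12 : s2 ≤ s1) (h23 : s3 ≤ s2)
    (h3 : d3 ≤ s3) (h3' : -d3 ≤ s3) (p1 : 0 ≤ d1) (h1 : d1 ≤ s1) (p2 : 0 ≤ d2) (h2 : d2 ≤ s2)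
    (hp : PD ![s1 + d1, s2 + d2, s3 + d3, s3 - d3, s2 - d2, s1 - d1])
    (hr : 1 ≤ rad ![s1 + d1, s2 + d2, s3 + d3, s3 - d3, s2 - d2, s1 - d1]) :
    Con ![s1 + d1, s2 + d2, s3 + d3, s3 - d3, s2 - d2, s1 - d1] := by
  rcases le_total 0 d3 with p3 | p3
  · have pe := p3
    have h3e := h3
    rcases le_total s3 d2 with t1 | t1
    · skip
      rcases le_total s2 d1 with q1 | q1
      · skip
        exact root0 h1 q1 h2 t1 h3e pe hp hr
      · skip
        rcases le_total d2 d1 with q2 | q2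
        · skip
          exact root2 h12 q1 q2 t1 h3e pe hp hr
        · skip
          rcases le_total s3 d1 with q3 | q3
          · skip
            exact root4 h12 h2 q2 q3 h3e pe hp hr
          · skip
            rcases le_total d3 d1 with q4 | q4
            · skip
              exact root6 h12 h2 t1 q3 q4 pe hp hr
            · skip
              exact root8 h12 h2 t1 h3e q4 p1 hp hr
    · rcases le_total d3 d2 with t2 | t2
      · skip
        rcases le_total s2 d1 with q1 | q1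
        · skip
          exact root10 h1 q1 h23 t1 t2 pe hp hr
        · skip
          rcases le_total s3 d1 with q2 | q2
          · skip
            exact root12 h12 q1 q2 t1 t2 pe hp hr
          · skip
            rcases le_total d2 d1 with q3 | q3
            · skip
              exact root14 h12 h23 q2 q3 t2 pe hp hr
            · skip
              rcases le_total d3 d1 with q4 | q4
              · skip
                exact root16 h12 h23 t1 q3 q4 pe hp hr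
              · skip
                exact root18 h12 h23 t1 t2 q4 p1 hp hr
      · skip
        rcases le_total s2 d1 with q1 | q1
        · skip
          exact root20 h1 q1 h23 h3e t2 p2 hp hr
        · skip
          rcases le_total s3 d1 with q2 | q2
          · skip
            exact root22 h12 q1 q2 h3e t2 p2 hp hr
          · skip
            rcases le_total d3 d1 with q3 | q3
            · skip
              exact root24 h12 h23 q2 q3 t2 p2 hp hr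
            · skip
              rcases le_total d2 d1 with q4 | q4
              · skip
                exact root26 h12 h23 h3e q3 q4 p2 hp hr
              · skip
                exact root28 h12 h23 h3e t2 q4 p1 hp hr
  · obtain ⟨e, he⟩ : ∃ e, e = -d3 := ⟨_, rfl⟩
    have hd : d3 = -e := by rw [he, neg_neg]
    rw [hd] at hp hr ⊢
    have pe : 0 ≤ e := by rw [he]; linarith
    have h3e : e ≤ s3 := by rw [he]; exact h3'
    rw [← sub_eq_add_neg, sub_neg_eq_add] at hp hr ⊢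
    rcases le_total s3 d2 with t1 | t1
    · skip
      rcases le_total s2 d1 with q1 | q1
      · skip
        exact root1 h1 q1 h2 t1 h3e pe hp hr
      · skip
        rcases le_total d2 d1 with q2 | q2
        · skip
          exact root3 h12 q1 q2 t1 h3e pe hp hr
        · skip
          rcases le_total s3 d1 with q3 | q3
          · skip
            exact root5 h12 h2 q2 q3 h3e pe hp hr
          · skip
            rcases le_total e d1 with q4 | q4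
            · skip
              exact root7 h12 h2 t1 q3 q4 pe hp hr
            · skip
              exact root9 h12 h2 t1 h3e q4 p1 hp hr
    · rcases le_total e d2 with t2 | t2
      · skip
        rcases le_total s2 d1 with q1 | q1
        · skip
          exact root11 h1 q1 h23 t1 t2 pe hp hr
        · skip
          rcases le_total s3 d1 with q2 | q2
          · skip
            exact root13 h12 q1 q2 t1 t2 pe hp hr
          · skip
            rcases le_total d2 d1 with q3 | q3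
            · skip
              exact root15 h12 h23 q2 q3 t2 pe hp hr
            · skip
              rcases le_total e d1 with q4 | q4
              · skip
                exact root17 h12 h23 t1 q3 q4 pe hp hr
              · skip
                exact root19 h12 h23 t1 t2 q4 p1 hp hr
      · skip
        rcases le_total s2 d1 with q1 | q1
        · skip
          exact root21 h1 q1 h23 h3e t2 p2 hp hr
        · skip
          rcases le_total s3 d1 with q2 | q2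
          · skip
            exact root23 h12 q1 q2 h3e t2 p2 hp hr
          · skip
            rcases le_total e d1 with q3 | q3
            · skip
              exact root25 h12 h23 q2 q3 t2 p2 hp hr
            · skip
              rcases le_total d2 d1 with q4 | q4
              · skip
                exact root27 h12 h23 h3e q3 q4 p2 hp hr
              · skip
                exact root29 h12 h23 h3e t2 q4 p1 hp hr

end Pool.Agent.H999.Theta3
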