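import Pool.Agent.H999.Theta3.Near
import Pool.Agent.H999.Theta3.Roots
import Pool.Agent.H999.Theta3.Final

/-!
# The theta function of three-dimensional lattices
-/

set_option autoImplicit false

open Matrix

namespace Pool.Agent.H999.Theta3

open Pool.Agent.K1H99.FCC (N0 rv nsq qf af dt PD rad Fp Qm pp tot al be sd)

/-- the inequality for reduced forms -/
theorem reduced {s1 d1 s2 d2 s3 d3 : ℝ} (h12 : s2 ≤ s1) (h23 : s3 ≤ s2) (p1 : 0 ≤ d1)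
    (h1 : d1 ≤ s1) (p2 : 0 ≤ d2) (h2 : d2 ≤ s2) (h3 : d3 ≤ s3) (h3' : -d3 ≤ s3)
    (hp : PD (sd s1 d1 s2 d2 s3 d3)) (hr : 1 < rad (sd s1 d1 s2 d2 s3 d3)) :
    RF (rad (sd s1 d1 s2 d2 s3 d3)) ≤ Th (sd s1 d1 s2 d2 s3 d3) ∧
      (RF (rad (sd s1 d1 s2 d2 s3 d3)) = Th (sd s1 d1 s2 d2 s3 d3) →
        sd s1 d1 s2 d2 s3 d3 = (rad (sd s1 d1 s2 d2 s3 d3) / rad Fp) • Fp) := by
  have h0 : ∀ i, 0 ≤ sd s1 d1 s2 d2 s3 d3 i := by
    intro i
    unfold sd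
    fin_cases i
    · show 0 ≤ s1 + d1
      linarith
    · show 0 ≤ s2 + d2
      linarith
    · show 0 ≤ s3 + d3
      linarith
    · show 0 ≤ s3 - d3
      linarith
    · show 0 ≤ s2 - d2
      linarith
    · show 0 ≤ s1 - d1
      linarith
  have hc : Con (sd s1 d1 s2 d2 s3 d3) := cone_all h12 h23 h3 h3' p1 h1 p2 h2 hp hr.le
  rcases hc with hc | hc | ⟨hc, ht⟩
  · exact ⟨hc.le, fun h => absurd h hc.ne⟩
  · rcases near_F h0 hp hc hr.le with h | h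
    · exact ⟨h.le, fun h' => absurd h' h.ne⟩
    · refine ⟨?_, fun _ => h⟩
      have hFp : 0 < rad Fp := Pool.Agent.K1H99.FCC.rad_Fp_pos
      have e : Th (sd s1 d1 s2 d2 s3 d3) = RF (rad (sd s1 d1 s2 d2 s3 d3)) := by
        unfold Th RF
        refine tsum_congr fun n => ?_
        congr 2
        have hq : qf (sd s1 d1 s2 d2 s3 d3) (rv n.1) =
            qf ((rad (sd s1 d1 s2 d2 s3 d3) / rad Fp) • Fp) (rv n.1) := congrArg (fun q => qf q (rv n.1)) h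
        rw [hq]
        unfold qf
        simp only [Pi.smul_apply, smul_eq_mul]
        ring
      exact e.ge
  · have h := near_B h0 hp hc ht hr
    exact ⟨h.le, fun h' => absurd h' h.ne⟩

/-- the theorem of the problem -/
theorem main :
    ∀ β : ℝ, 0 < β → β < 1 →
      ∀ A : Matrix (Fin 3) (Fin 3) ℝ, |A.det| = 1 →
        ((∑' z : Fin 3 → ℤ, Real.exp (-Real.pi * β *
            ∑ i, (((2:ℝ) ^ ((1:ℝ)/3) • !![(1:ℝ), 0, 1/2; 0, 1, 1/2; 0, 0, 1/2]).mulVec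
              (fun j => (z j : ℝ)) i) ^ 2))
          ≤ ∑' z : Fin 3 → ℤ, Real.exp (-Real.pi * β *
              ∑ i, (A.mulVec (fun j => (z j : ℝ)) i) ^ 2)) ∧
        ((∑' z : Fin 3 → ℤ, Real.exp (-Real.pi * β *
            ∑ i, (((2:ℝ) ^ ((1:ℝ)/3) • !![(1:ℝ), 0, 1/2; 0, 1, 1/2; 0, 0, 1/2]).mulVec
              (fun j => (z j : ℝ)) i) ^ 2))
          = ∑' z : Fin 3 → ℤ, Real.exp (-Real.pi * β *
              ∑ i, (A.mulVec (fun j => (z j : ℝ)) i) ^ 2) →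
          ∃ R ∈ Matrix.orthogonalGroup (Fin 3) ℝ,
            Set.range (fun z : Fin 3 → ℤ => A.mulVec (fun j => (z j : ℝ))) =
              Set.range (fun z : Fin 3 → ℤ =>
                (R * ((2:ℝ) ^ ((1:ℝ)/3) • !![(1:ℝ), 0, 1/2; 0, 1, 1/2; 0, 0, 1/2])).mulVec
                  (fun j => (z j : ℝ)))) :=
  final_of fun _ _ _ _ _ _ h12 h23 p1 h1 p2 h2 h3 h3' hp hr =>
    reduced h12 h23 p1 h1 p2 h2 h3 h3' hp hr

end Pool.Agent.H999.Theta3
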