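import Pool.Agent.H999.Theta3.Tab
import Pool.Graph.R_pool_sql_team_seeded_efc1946e.K1H99.FCC.Fsum

/-!
# Basic definitions for the theta function of ternary lattices
-/

set_option autoImplicit false

open Matrix

namespace Pool.Agent.H999.Theta3

open Pool.Agent.K1H99.FCC (N0 rv nsq qf af dt PD rad Fp Qm pp tot al be)

/-- the theta series of a form, without the constant term -/
noncomputable def Th (p : Fin 6 → ℝ) : ℝ := ∑' n : N0, Real.exp (-(Real.pi * qf p (rv n.1)))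

/-- the theta series of the face-centred cubic form with `rad = s`, without the constant term -/
noncomputable def RF (s : ℝ) : ℝ :=
  ∑' n : N0, Real.exp (-(Real.pi * (s * (qf Fp (rv n.1) / rad Fp))))

/-- the parameters of the body-centred cubic form -/
def Bp : Fin 6 → ℝ := fun _ => 1

/-- the theta series of the body-centred cubic form with `rad = s`, without the constant term -/
noncomputable def RB (s : ℝ) : ℝ :=
  ∑' n : N0, Real.exp (-(Real.pi * (s * (qf Bp (rv n.1) / rad Bp))))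

/-- the polynomial bounding the theta series of the face-centred cubic form -/
noncomputable def RFb (u : ℝ) : ℝ := 12 * u + 6 * u ^ 2 + 24 * u ^ 3 + 41 * u ^ 4

/-- the function measuring convexity of the exponential -/
noncomputable def psi (x : ℝ) : ℝ := Real.exp (-x) - 1 + x

/-- the body-centred cubic form and its neighbours -/
def bb (d1 d2 d3 w1 w2 w3 : ℝ) : Fin 6 → ℝ :=
  ![1 - 2 * d1 + 2 * w1, 1 - 2 * d2 + 2 * w2, 1 - 2 * d3 + 2 * w3, 1 - 2 * d3 - 2 * w3,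
    1 - 2 * d2 - 2 * w2, 1 - 2 * d1 - 2 * w1]

/-- `12` times the scale, in the local region at the face-centred cubic form -/
def tF (p : Fin 6 → ℝ) : ℝ := 3 * (p 0 + p 1 + p 4 + p 5) + 4 * (p 2 + p 3)

/-- the local region at the face-centred cubic form -/
def InF (p : Fin 6 → ℝ) : Prop :=
  100 * (p 2 + p 3) ≤ 3 * tF p ∧
  200 * p 3 ≤ 3 * tF p + 100 * p 2 ∧ 100 * p 2 ≤ 3 * tF p + 200 * p 3 ∧
  200 * p 2 ≤ 3 * tF p + 100 * p 3 ∧ 100 * p 3 ≤ 3 * tF p + 200 * p 2 ∧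
  25 * (p 0 + p 4) ≤ tF p + 25 * (p 1 + p 5) ∧ 25 * (p 1 + p 5) ≤ tF p + 25 * (p 0 + p 4) ∧
  25 * (p 0 + p 1) ≤ tF p + 25 * (p 4 + p 5) ∧ 25 * (p 4 + p 5) ≤ tF p + 25 * (p 0 + p 1) ∧
  25 * (p 0 + p 5) ≤ tF p + 25 * (p 1 + p 4) ∧ 25 * (p 1 + p 4) ≤ tF p + 25 * (p 0 + p 5)

/-- one pair of opposite parameters in the local region at the body-centred cubic form -/
def InB2 (S x y : ℝ) : Prop :=
  15 * (x + y) ≤ 6 * S ∧ 4 * S ≤ 15 * (x + y) ∧ 25 * x ≤ S + 25 * y ∧ 25 * y ≤ S + 25 * x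

/-- the local region at the body-centred cubic form -/
def InB (p : Fin 6 → ℝ) : Prop :=
  InB2 (tot p) (p 0) (p 5) ∧ InB2 (tot p) (p 1) (p 4) ∧ InB2 (tot p) (p 2) (p 3)

/-- the scale number `j` -/
noncomputable def sc (j : ℕ) : ℝ := (256 + j) / 256

/-- the conclusion of the certificate -/
def Con (p : Fin 6 → ℝ) : Prop := RF (rad p) < Th p ∨ InF p ∨ (InB p ∧ tot p ≤ 254 / 100)

/-- the vertex as a real vector -/
def wv (w : W) : Fin 6 → ℝ := ![w.a, w.b, w.c, w.d, w.e, w.f]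

/-- a valid vertex: `g` is a lower bound for the cube root of the determinant -/
def Val (w : W) : Prop := w.g * w.g * w.g ≤ detN w.a w.b w.c w.d w.e w.f ∧
  w.a + w.b + w.c + w.d + w.e + w.f = 12884901888

/-- the conclusion holds on the cone over the vertices, for forms with `rad` at least the scale `j` -/
def Good (j : ℕ) (v : Fin 6 → W) : Prop := ∀ l : Fin 6 → ℝ, (∀ i, 0 ≤ l i) →
  PD (∑ i, l i • wv (v i)) → sc j ≤ rad (∑ i, l i • wv (v i)) → Con (∑ i, l i • wv (v i))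

/-- the vectors used by the tests -/
def ZZ : Fin 25 → Fin 3 → ℤ :=
  ![![1, 0, 0], ![0, 1, 0], ![0, 0, 1], ![1, 1, 0], ![1, 0, 1], ![0, 1, 1], ![1, 1, 1],
    ![2, 1, 1], ![1, 2, 1], ![1, 1, 2], ![1, -1, 0], ![1, 0, -1], ![0, 1, -1],
    ![1, 2, 2], ![2, 1, 2], ![2, 2, 1], ![1, -1, -1], ![2, 1, 0], ![2, 0, 1], ![-1, 1, -1],
    ![1, 2, 0], ![0, 2, 1], ![-1, -1, 1], ![1, 0, 2], ![0, 1, 2]]

/-- a valid line (scaled by `2 ^ 40`) -/
def Line (a b : ℝ) : Prop := ∀ x : ℝ, a - b * x ≤ 2 ^ 40 * Real.exp (-x)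

/-- data extracted from a successful test: `a z - b z x` are the lines used for the vector `ZZ z`, `τ / 2 ^ 20` is
the threshold -/
structure TD (D : Tab) (j w c : ℕ) (v : Fin 6 → W) (a b : Fin 25 → ℕ) (τ : ℕ) : Prop where
  line : ∀ z, Line (a z) (b z)
  pos : 1 ≤ τ
  lt : j + w ≤ 159
  h1 : τ * ((256 + j) * 314159266) ≤ (2 * ∑ z, a z - rent D.R j) * 13421772800000000
  h2 : w = 0 → τ * 10000 ≤ (∑ z, b z) * 13211009024
  h3 : w ≠ 0 → τ * ((256 + (j + w)) * 314159266) ≤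
    ((2 * ∑ z, a z + (w * (∑ z, b z)) * 33999756369 / 2 ^ 40) -
      (rent D.R (j + w) * (D.E / 2 ^ (32 * c) % 2 ^ 32) / 2 ^ 24 + 1)) * 13421772800000000
  vert : ∀ i, 1048576 * ∑ z, (b z : ℝ) * qf (wv (v i)) (rv (ZZ z)) ≤ τ * ((v i).g : ℝ)

/-- all entries of the table are valid lines with small coefficients -/
def LinesOK (T : ℕ) : Prop := ∀ k ≤ 1023,
  Line ((T / 2 ^ (96 * k) % 2 ^ 96 / 2 ^ 48 : ℕ) : ℝ) ((T / 2 ^ (96 * k) % 2 ^ 48 : ℕ) : ℝ) ∧
  T / 2 ^ (96 * k) % 2 ^ 96 / 2 ^ 48 ≤ 2 ^ 41 ∧ T / 2 ^ (96 * k) % 2 ^ 48 ≤ 2 ^ 41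

/-- the deviation of the determinant -/
noncomputable def dx (d1 d2 d3 w1 w2 w3 : ℝ) : ℝ :=
  (d1 ^ 2 + d2 ^ 2 + d3 ^ 2) / 2 + (w1 ^ 2 + w2 ^ 2 + w3 ^ 2) -
  d1 * d2 * d3 - 2 * (w1 * w2 * w3) + (d1 * w1 ^ 2 + d2 * w2 ^ 2 + d3 * w3 ^ 2)

end Pool.Agent.H999.Theta3
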