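

/-!
# The certificate checker for the lattice theta function in dimension three

Cells are simplicial cones in the space of Selling parameters, spanned by six vertices; the second
variable is the scale `s = (256 + j) / 256`.
-/

set_option autoImplicit false

namespace Pool.Agent.H999.Theta3

/-- a vertex: Selling parameters and a lower bound for the cube root of the determinant -/
structure W where
  a : Nat
  b : Nat
  c : Nat
  d : Nat
  e : Nat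
  f : Nat
  g : Nat

/-- evaluates the argument first -/
def frc {α : Type} (n : Nat) (k : Nat → α) : α :=
  Nat.rec (motive := fun _ => α) (k 0) (fun m _ => k (Nat.succ m)) n

/-- evaluates the argument first, and returns `0` if it is `0` -/
def frz (n : Nat) (k : Nat → Nat) : Nat :=
  Nat.rec (motive := fun _ => Nat) 0 (fun m _ => k (Nat.succ m)) n

/-- the determinant -/
def detN (a b c d e f : Nat) : Nat :=
  (Nat.add (Nat.mul (Nat.mul a b) (Nat.add c (Nat.add e f))) (Nat.add (Nat.mul (Nat.mul a c) (Nat.add d f)) (Nat.add (Nat.mul (Nat.mul a d) (Nat.add e f)) (Nat.add (Nat.mul (Nat.mul a e) f) (Nat.add (Nat.mul (Nat.mul b c) (Nat.add d e)) (Nat.add (Nat.mul (Nat.mul b d) (Nat.add e f)) (Nat.add (Nat.mul (Nat.mul b e) f) (Nat.add (Nat.mul (Nat.mul c d) (Nat.add e f)) (Nat.mul (Nat.mul c e) f)))))))))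

/-- the midpoint of two vertices with given bound `g`, passed to a continuation; `0` if the midpoint
is not integral or the bound is wrong. All vertices have the sum `12 * 2 ^ 30`. -/
def mid (v w : W) (g : Nat) (k : W → Nat) : Nat :=
  frc (Nat.div (Nat.add v.a w.a) 2) fun a => frc (Nat.div (Nat.add v.b w.b) 2) fun b =>
  frc (Nat.div (Nat.add v.c w.c) 2) fun c => frc (Nat.div (Nat.add v.d w.d) 2) fun d =>
  frc (Nat.div (Nat.add v.e w.e) 2) fun e => frc (Nat.div (Nat.add v.f w.f) 2) fun f =>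
  bif Nat.beq (Nat.add a (Nat.add b (Nat.add c (Nat.add d (Nat.add e f))))) 12884901888 &&
      Nat.ble (Nat.mul (Nat.mul g g) g) (detN a b c d e f) then k ⟨a, b, c, d, e, f, g⟩
  else 0

/-- the tables: lines, bounds for the energy, widths, bounds for exponentials of the widths -/
structure Tab where
  T : Nat
  R : Nat
  Wd : Nat
  E : Nat

/-- entry of the table of lines: `a * 2 ^ 48 + b`; the entries are stored in reversed order and the
last one is `0` -/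
def ent (T q κ : Nat) : Nat :=
  Nat.land (Nat.shiftRight T (Nat.mul 96 (Nat.sub 1023 (Nat.shiftRight (Nat.mul q κ) 44)))) 79228162514264337593543950335

/-- entry of the table of energies -/
def rent (R j : Nat) : Nat := Nat.land (Nat.shiftRight R (Nat.mul 48 j)) 281474976710655

/-- low part -/
def lo (x : Nat) : Nat := Nat.land x 281474976710655

/-- the test of a vertex -/
def vt (B0 B1 B2 B3 B4 B5 τ : Nat) (v : W) : Bool :=
  Nat.ble (Nat.mul 1048576 (Nat.add (Nat.mul v.a B0) (Nat.add (Nat.mul v.b B1) (Nat.add (Nat.mul v.c B2)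
    (Nat.add (Nat.mul v.d B3) (Nat.add (Nat.mul v.e B4) (Nat.mul v.f B5))))))) (Nat.mul τ v.g)

/-- the threshold: `A` and `E` are the sums of the entries, `w = 0` stands for an infinite interval -/
def thr (D : Tab) (j w c A E : Nat) (k : Nat → Bool) : Bool :=
  frc (Nat.div (Nat.mul (Nat.sub (Nat.mul 2 A) (rent D.R j)) 13421772800000000)
    (Nat.mul (Nat.add 256 j) 314159266)) fun τ1 =>
  frc (bif Nat.beq w 0 then Nat.div (Nat.mul E 13211009024) 10000 else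
    Nat.div (Nat.mul (Nat.sub (Nat.add (Nat.mul 2 A) (Nat.shiftRight (Nat.mul (Nat.mul w E) 33999756369) 40))
      (Nat.add (Nat.shiftRight (Nat.mul (rent D.R (Nat.add j w)) (Nat.land (Nat.shiftRight D.E (Nat.mul 32 c)) 4294967295)) 24) 1))
      13421772800000000) (Nat.mul (Nat.add 256 (Nat.add j w)) 314159266)) fun τ2 =>
  k (bif Nat.ble τ1 τ2 then τ1 else τ2)

/-- the tests of the six vertices -/
def fin6 (D : Tab) (j w c S B0 B1 B2 B3 B4 B5 : Nat) (v0 v1 v2 v3 v4 v5 : W) : Bool :=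
  thr D j w c (Nat.shiftRight S 48) (lo S) fun τ => Nat.ble 1 τ && Nat.ble (Nat.add j w) 159 &&
    vt B0 B1 B2 B3 B4 B5 τ v0 && vt B0 B1 B2 B3 B4 B5 τ v1 && vt B0 B1 B2 B3 B4 B5 τ v2 &&
    vt B0 B1 B2 B3 B4 B5 τ v3 && vt B0 B1 B2 B3 B4 B5 τ v4 && vt B0 B1 B2 B3 B4 B5 τ v5

/-- the test with 7 pairs of vectors -/
def t7 (D : Tab) (j w cl : Nat) (v0 v1 v2 v3 v4 v5 : W) : Bool :=
  frc (Nat.add v0.a (Nat.add v1.a (Nat.add v2.a (Nat.add v3.a (Nat.add v4.a v5.a))))) fun a =>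
  frc (Nat.add v0.b (Nat.add v1.b (Nat.add v2.b (Nat.add v3.b (Nat.add v4.b v5.b))))) fun b =>
  frc (Nat.add v0.c (Nat.add v1.c (Nat.add v2.c (Nat.add v3.c (Nat.add v4.c v5.c))))) fun c =>
  frc (Nat.add v0.d (Nat.add v1.d (Nat.add v2.d (Nat.add v3.d (Nat.add v4.d v5.d))))) fun d =>
  frc (Nat.add v0.e (Nat.add v1.e (Nat.add v2.e (Nat.add v3.e (Nat.add v4.e v5.e))))) fun e =>
  frc (Nat.add v0.f (Nat.add v1.f (Nat.add v2.f (Nat.add v3.f (Nat.add v4.f v5.f))))) fun f =>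
  frc (Nat.div (Nat.mul (Nat.add (Nat.mul 2 (Nat.add 256 j)) w) 6908435304715) (Nat.add v0.g (Nat.add v1.g (Nat.add v2.g (Nat.add v3.g (Nat.add v4.g v5.g)))))) fun κ =>
  frc (ent D.T (Nat.add a (Nat.add d e)) κ) fun e0 =>
  frc (ent D.T (Nat.add b (Nat.add d f)) κ) fun e1 =>
  frc (ent D.T (Nat.add c (Nat.add e f)) κ) fun e2 =>
  frc (ent D.T (Nat.add a (Nat.add b (Nat.add e f))) κ) fun e3 =>
  frc (ent D.T (Nat.add a (Nat.add c (Nat.add d f))) κ) fun e4 =>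
  frc (ent D.T (Nat.add b (Nat.add c (Nat.add d e))) κ) fun e5 =>
  frc (ent D.T (Nat.add a (Nat.add b c)) κ) fun e6 =>
  frc (Nat.add e0 (Nat.add e1 (Nat.add e2 (Nat.add e3 (Nat.add e4 (Nat.add e5 e6)))))) fun S =>
  frc (lo (Nat.add e0 (Nat.add e3 (Nat.add e4 e6)))) fun B0 =>
  frc (lo (Nat.add e1 (Nat.add e3 (Nat.add e5 e6)))) fun B1 =>
  frc (lo (Nat.add e2 (Nat.add e4 (Nat.add e5 e6)))) fun B2 =>
  frc (lo (Nat.add e0 (Nat.add e1 (Nat.add e4 e5)))) fun B3 =>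
  frc (lo (Nat.add e0 (Nat.add e2 (Nat.add e3 e5)))) fun B4 =>
  frc (lo (Nat.add e1 (Nat.add e2 (Nat.add e3 e4)))) fun B5 =>
  fin6 D j w cl S B0 B1 B2 B3 B4 B5 v0 v1 v2 v3 v4 v5


/-- the test with 13 pairs of vectors -/
def t13 (D : Tab) (j w cl : Nat) (v0 v1 v2 v3 v4 v5 : W) : Bool :=
  frc (Nat.add v0.a (Nat.add v1.a (Nat.add v2.a (Nat.add v3.a (Nat.add v4.a v5.a))))) fun a =>
  frc (Nat.add v0.b (Nat.add v1.b (Nat.add v2.b (Nat.add v3.b (Nat.add v4.b v5.b))))) fun b =>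
  frc (Nat.add v0.c (Nat.add v1.c (Nat.add v2.c (Nat.add v3.c (Nat.add v4.c v5.c))))) fun c =>
  frc (Nat.add v0.d (Nat.add v1.d (Nat.add v2.d (Nat.add v3.d (Nat.add v4.d v5.d))))) fun d =>
  frc (Nat.add v0.e (Nat.add v1.e (Nat.add v2.e (Nat.add v3.e (Nat.add v4.e v5.e))))) fun e =>
  frc (Nat.add v0.f (Nat.add v1.f (Nat.add v2.f (Nat.add v3.f (Nat.add v4.f v5.f))))) fun f =>
  frc (Nat.div (Nat.mul (Nat.add (Nat.mul 2 (Nat.add 256 j)) w) 6908435304715) (Nat.add v0.g (Nat.add v1.g (Nat.add v2.g (Nat.add v3.g (Nat.add v4.g v5.g)))))) fun κ =>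
  frc (ent D.T (Nat.add a (Nat.add d e)) κ) fun e0 =>
  frc (ent D.T (Nat.add b (Nat.add d f)) κ) fun e1 =>
  frc (ent D.T (Nat.add c (Nat.add e f)) κ) fun e2 =>
  frc (ent D.T (Nat.add a (Nat.add b (Nat.add e f))) κ) fun e3 =>
  frc (ent D.T (Nat.add a (Nat.add c (Nat.add d f))) κ) fun e4 =>
  frc (ent D.T (Nat.add b (Nat.add c (Nat.add d e))) κ) fun e5 =>
  frc (ent D.T (Nat.add a (Nat.add b c)) κ) fun e6 =>
  frc (ent D.T (Nat.add (Nat.mul 4 a) (Nat.add b (Nat.add c (Nat.add d e)))) κ) fun e7 =>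
  frc (ent D.T (Nat.add a (Nat.add (Nat.mul 4 b) (Nat.add c (Nat.add d f)))) κ) fun e8 =>
  frc (ent D.T (Nat.add a (Nat.add b (Nat.add (Nat.mul 4 c) (Nat.add e f)))) κ) fun e9 =>
  frc (ent D.T (Nat.add a (Nat.add b (Nat.add (Nat.mul 4 d) (Nat.add e f)))) κ) fun e10 =>
  frc (ent D.T (Nat.add a (Nat.add c (Nat.add d (Nat.add (Nat.mul 4 e) f)))) κ) fun e11 =>
  frc (ent D.T (Nat.add b (Nat.add c (Nat.add d (Nat.add e (Nat.mul 4 f))))) κ) fun e12 =>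
  frc (Nat.add e0 (Nat.add e1 (Nat.add e2 (Nat.add e3 (Nat.add e4 (Nat.add e5 (Nat.add e6 (Nat.add e7 (Nat.add e8 (Nat.add e9 (Nat.add e10 (Nat.add e11 e12)))))))))))) fun S =>
  frc (lo (Nat.add e0 (Nat.add e3 (Nat.add e4 (Nat.add e6 (Nat.add (Nat.mul 4 e7) (Nat.add e8 (Nat.add e9 (Nat.add e10 e11))))))))) fun B0 =>
  frc (lo (Nat.add e1 (Nat.add e3 (Nat.add e5 (Nat.add e6 (Nat.add e7 (Nat.add (Nat.mul 4 e8) (Nat.add e9 (Nat.add e10 e12))))))))) fun B1 =>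
  frc (lo (Nat.add e2 (Nat.add e4 (Nat.add e5 (Nat.add e6 (Nat.add e7 (Nat.add e8 (Nat.add (Nat.mul 4 e9) (Nat.add e11 e12))))))))) fun B2 =>
  frc (lo (Nat.add e0 (Nat.add e1 (Nat.add e4 (Nat.add e5 (Nat.add e7 (Nat.add e8 (Nat.add (Nat.mul 4 e10) (Nat.add e11 e12))))))))) fun B3 =>
  frc (lo (Nat.add e0 (Nat.add e2 (Nat.add e3 (Nat.add e5 (Nat.add e7 (Nat.add e9 (Nat.add e10 (Nat.add (Nat.mul 4 e11) e12))))))))) fun B4 =>
  frc (lo (Nat.add e1 (Nat.add e2 (Nat.add e3 (Nat.add e4 (Nat.add e8 (Nat.add e9 (Nat.add e10 (Nat.add e11 (Nat.mul 4 e12)))))))))) fun B5 =>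
  fin6 D j w cl S B0 B1 B2 B3 B4 B5 v0 v1 v2 v3 v4 v5


/-- the test with 25 pairs of vectors -/
def t25 (D : Tab) (j w cl : Nat) (v0 v1 v2 v3 v4 v5 : W) : Bool :=
  frc (Nat.add v0.a (Nat.add v1.a (Nat.add v2.a (Nat.add v3.a (Nat.add v4.a v5.a))))) fun a =>
  frc (Nat.add v0.b (Nat.add v1.b (Nat.add v2.b (Nat.add v3.b (Nat.add v4.b v5.b))))) fun b =>
  frc (Nat.add v0.c (Nat.add v1.c (Nat.add v2.c (Nat.add v3.c (Nat.add v4.c v5.c))))) fun c =>
  frc (Nat.add v0.d (Nat.add v1.d (Nat.add v2.d (Nat.add v3.d (Nat.add v4.d v5.d))))) fun d =>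
  frc (Nat.add v0.e (Nat.add v1.e (Nat.add v2.e (Nat.add v3.e (Nat.add v4.e v5.e))))) fun e =>
  frc (Nat.add v0.f (Nat.add v1.f (Nat.add v2.f (Nat.add v3.f (Nat.add v4.f v5.f))))) fun f =>
  frc (Nat.div (Nat.mul (Nat.add (Nat.mul 2 (Nat.add 256 j)) w) 6908435304715) (Nat.add v0.g (Nat.add v1.g (Nat.add v2.g (Nat.add v3.g (Nat.add v4.g v5.g)))))) fun κ =>
  frc (ent D.T (Nat.add a (Nat.add d e)) κ) fun e0 =>
  frc (ent D.T (Nat.add b (Nat.add d f)) κ) fun e1 =>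
  frc (ent D.T (Nat.add c (Nat.add e f)) κ) fun e2 =>
  frc (ent D.T (Nat.add a (Nat.add b (Nat.add e f))) κ) fun e3 =>
  frc (ent D.T (Nat.add a (Nat.add c (Nat.add d f))) κ) fun e4 =>
  frc (ent D.T (Nat.add b (Nat.add c (Nat.add d e))) κ) fun e5 =>
  frc (ent D.T (Nat.add a (Nat.add b c)) κ) fun e6 =>
  frc (ent D.T (Nat.add (Nat.mul 4 a) (Nat.add b (Nat.add c (Nat.add d e)))) κ) fun e7 =>
  frc (ent D.T (Nat.add a (Nat.add (Nat.mul 4 b) (Nat.add c (Nat.add d f)))) κ) fun e8 =>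
  frc (ent D.T (Nat.add a (Nat.add b (Nat.add (Nat.mul 4 c) (Nat.add e f)))) κ) fun e9 =>
  frc (ent D.T (Nat.add a (Nat.add b (Nat.add (Nat.mul 4 d) (Nat.add e f)))) κ) fun e10 =>
  frc (ent D.T (Nat.add a (Nat.add c (Nat.add d (Nat.add (Nat.mul 4 e) f)))) κ) fun e11 =>
  frc (ent D.T (Nat.add b (Nat.add c (Nat.add d (Nat.add e (Nat.mul 4 f))))) κ) fun e12 =>
  frc (ent D.T (Nat.add a (Nat.add (Nat.mul 4 b) (Nat.add (Nat.mul 4 c) (Nat.add d e)))) κ) fun e13 =>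
  frc (ent D.T (Nat.add (Nat.mul 4 a) (Nat.add b (Nat.add (Nat.mul 4 c) (Nat.add d f)))) κ) fun e14 =>
  frc (ent D.T (Nat.add (Nat.mul 4 a) (Nat.add (Nat.mul 4 b) (Nat.add c (Nat.add e f)))) κ) fun e15 =>
  frc (ent D.T (Nat.add a (Nat.add b (Nat.add c (Nat.add (Nat.mul 4 d) (Nat.mul 4 e))))) κ) fun e16 =>
  frc (ent D.T (Nat.add (Nat.mul 4 a) (Nat.add b (Nat.add d (Nat.add (Nat.mul 4 e) f)))) κ) fun e17 =>
  frc (ent D.T (Nat.add (Nat.mul 4 a) (Nat.add c (Nat.add (Nat.mul 4 d) (Nat.add e f)))) κ) fun e18 =>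
  frc (ent D.T (Nat.add a (Nat.add b (Nat.add c (Nat.add (Nat.mul 4 d) (Nat.mul 4 f))))) κ) fun e19 =>
  frc (ent D.T (Nat.add a (Nat.add (Nat.mul 4 b) (Nat.add d (Nat.add e (Nat.mul 4 f))))) κ) fun e20 =>
  frc (ent D.T (Nat.add (Nat.mul 4 b) (Nat.add c (Nat.add (Nat.mul 4 d) (Nat.add e f)))) κ) fun e21 =>
  frc (ent D.T (Nat.add a (Nat.add b (Nat.add c (Nat.add (Nat.mul 4 e) (Nat.mul 4 f))))) κ) fun e22 =>
  frc (ent D.T (Nat.add a (Nat.add (Nat.mul 4 c) (Nat.add d (Nat.add e (Nat.mul 4 f))))) κ) fun e23 =>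
  frc (ent D.T (Nat.add b (Nat.add (Nat.mul 4 c) (Nat.add d (Nat.add (Nat.mul 4 e) f)))) κ) fun e24 =>
  frc (Nat.add e0 (Nat.add e1 (Nat.add e2 (Nat.add e3 (Nat.add e4 (Nat.add e5 (Nat.add e6 (Nat.add e7 (Nat.add e8 (Nat.add e9 (Nat.add e10 (Nat.add e11 (Nat.add e12 (Nat.add e13 (Nat.add e14 (Nat.add e15 (Nat.add e16 (Nat.add e17 (Nat.add e18 (Nat.add e19 (Nat.add e20 (Nat.add e21 (Nat.add e22 (Nat.add e23 e24)))))))))))))))))))))))) fun S =>
  frc (lo (Nat.add e0 (Nat.add e3 (Nat.add e4 (Nat.add e6 (Nat.add (Nat.mul 4 e7) (Nat.add e8 (Nat.add e9 (Nat.add e10 (Nat.add e11 (Nat.add e13 (Nat.add (Nat.mul 4 e14) (Nat.add (Nat.mul 4 e15) (Nat.add e16 (Nat.add (Nat.mul 4 e17) (Nat.add (Nat.mul 4 e18) (Nat.add e19 (Nat.add e20 (Nat.add e22 e23))))))))))))))))))) fun B0 =>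
  frc (lo (Nat.add e1 (Nat.add e3 (Nat.add e5 (Nat.add e6 (Nat.add e7 (Nat.add (Nat.mul 4 e8) (Nat.add e9 (Nat.add e10 (Nat.add e12 (Nat.add (Nat.mul 4 e13) (Nat.add e14 (Nat.add (Nat.mul 4 e15) (Nat.add e16 (Nat.add e17 (Nat.add e19 (Nat.add (Nat.mul 4 e20) (Nat.add (Nat.mul 4 e21) (Nat.add e22 e24))))))))))))))))))) fun B1 =>
  frc (lo (Nat.add e2 (Nat.add e4 (Nat.add e5 (Nat.add e6 (Nat.add e7 (Nat.add e8 (Nat.add (Nat.mul 4 e9) (Nat.add e11 (Nat.add e12 (Nat.add (Nat.mul 4 e13) (Nat.add (Nat.mul 4 e14) (Nat.add e15 (Nat.add e16 (Nat.add e18 (Nat.add e19 (Nat.add e21 (Nat.add e22 (Nat.add (Nat.mul 4 e23) (Nat.mul 4 e24)))))))))))))))))))) fun B2 =>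
  frc (lo (Nat.add e0 (Nat.add e1 (Nat.add e4 (Nat.add e5 (Nat.add e7 (Nat.add e8 (Nat.add (Nat.mul 4 e10) (Nat.add e11 (Nat.add e12 (Nat.add e13 (Nat.add e14 (Nat.add (Nat.mul 4 e16) (Nat.add e17 (Nat.add (Nat.mul 4 e18) (Nat.add (Nat.mul 4 e19) (Nat.add e20 (Nat.add (Nat.mul 4 e21) (Nat.add e23 e24))))))))))))))))))) fun B3 =>
  frc (lo (Nat.add e0 (Nat.add e2 (Nat.add e3 (Nat.add e5 (Nat.add e7 (Nat.add e9 (Nat.add e10 (Nat.add (Nat.mul 4 e11) (Nat.add e12 (Nat.add e13 (Nat.add e15 (Nat.add (Nat.mul 4 e16) (Nat.add (Nat.mul 4 e17) (Nat.add e18 (Nat.add e20 (Nat.add e21 (Nat.add (Nat.mul 4 e22) (Nat.add e23 (Nat.mul 4 e24)))))))))))))))))))) fun B4 =>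
  frc (lo (Nat.add e1 (Nat.add e2 (Nat.add e3 (Nat.add e4 (Nat.add e8 (Nat.add e9 (Nat.add e10 (Nat.add e11 (Nat.add (Nat.mul 4 e12) (Nat.add e14 (Nat.add e15 (Nat.add e17 (Nat.add e18 (Nat.add (Nat.mul 4 e19) (Nat.add (Nat.mul 4 e20) (Nat.add e21 (Nat.add (Nat.mul 4 e22) (Nat.add (Nat.mul 4 e23) e24))))))))))))))))))) fun B5 =>
  fin6 D j w cl S B0 B1 B2 B3 B4 B5 v0 v1 v2 v3 v4 v5

/-- the vertex lies in the local region at the face-centred cubic form -/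
def inF (v : W) : Bool :=
  frc (Nat.add (Nat.mul 3 (Nat.add v.a (Nat.add v.b (Nat.add v.e v.f)))) (Nat.mul 4 (Nat.add v.c v.d))) fun t =>
    Nat.ble (Nat.mul 100 (Nat.add v.c v.d)) (Nat.mul 3 t) &&
    Nat.ble (Nat.mul 200 v.d) (Nat.add (Nat.mul 3 t) (Nat.mul 100 v.c)) &&
    Nat.ble (Nat.mul 100 v.c) (Nat.add (Nat.mul 3 t) (Nat.mul 200 v.d)) &&
    Nat.ble (Nat.mul 200 v.c) (Nat.add (Nat.mul 3 t) (Nat.mul 100 v.d)) &&
    Nat.ble (Nat.mul 100 v.d) (Nat.add (Nat.mul 3 t) (Nat.mul 200 v.c)) &&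
    Nat.ble (Nat.mul 25 (Nat.add v.a v.e)) (Nat.add t (Nat.mul 25 (Nat.add v.b v.f))) &&
    Nat.ble (Nat.mul 25 (Nat.add v.b v.f)) (Nat.add t (Nat.mul 25 (Nat.add v.a v.e))) &&
    Nat.ble (Nat.mul 25 (Nat.add v.a v.b)) (Nat.add t (Nat.mul 25 (Nat.add v.e v.f))) &&
    Nat.ble (Nat.mul 25 (Nat.add v.e v.f)) (Nat.add t (Nat.mul 25 (Nat.add v.a v.b))) &&
    Nat.ble (Nat.mul 25 (Nat.add v.a v.f)) (Nat.add t (Nat.mul 25 (Nat.add v.b v.e))) &&
    Nat.ble (Nat.mul 25 (Nat.add v.b v.e)) (Nat.add t (Nat.mul 25 (Nat.add v.a v.f)))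

/-- one pair of opposite parameters of a vertex in the local region at the body-centred cubic form;
`S` is the sum of the parameters -/
def inB2 (S x y : Nat) : Bool :=
  Nat.ble (Nat.mul 15 (Nat.add x y)) (Nat.mul 6 S) && Nat.ble (Nat.mul 4 S) (Nat.mul 15 (Nat.add x y)) &&
  Nat.ble (Nat.mul 25 x) (Nat.add S (Nat.mul 25 y)) && Nat.ble (Nat.mul 25 y) (Nat.add S (Nat.mul 25 x))

/-- the vertex lies in the local region at the body-centred cubic form, and is normalised: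
`16 ^ (1 / 3) * S / 6 ≤ 1.015 * g` -/
def inB (v : W) : Bool :=
  frc (Nat.add v.a (Nat.add v.b (Nat.add v.c (Nat.add v.d (Nat.add v.e v.f))))) fun S =>
    inB2 S v.a v.f && inB2 S v.b v.e && inB2 S v.c v.d &&
    Nat.ble (Nat.mul 25198422 S) (Nat.mul 60900000 v.g)

/-- the value of the cut `s` -/
def cutv (s : Nat) (v : W) : Nat :=
  match s with
  | 0 => (Nat.add v.a (Nat.add v.d v.e))
  | 1 => (Nat.add v.b (Nat.add v.d v.f))
  | 2 => (Nat.add v.c (Nat.add v.e v.f))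
  | 3 => (Nat.add v.a (Nat.add v.b (Nat.add v.e v.f)))
  | 4 => (Nat.add v.a (Nat.add v.c (Nat.add v.d v.f)))
  | 5 => (Nat.add v.b (Nat.add v.c (Nat.add v.d v.e)))
  | _ => (Nat.add v.a (Nat.add v.b v.c))

/-- triple tests of two vertices against a list: `q_v q_w q_x ≤ κ ^ 3 D(v,w,x)`, `κ = 0.685` -/
def trip (s n0 n1 n2 n3 n4 n5 n6 qq : Nat) : List W → Bool
  | [] => true
  | x :: l => (Nat.ble (Nat.mul (Nat.mul 60000 qq) (cutv s x)) (Nat.mul 3214 (Nat.add (Nat.mul n0 (cutv 0 x)) (Nat.add (Nat.mul n1 (cutv 1 x)) (Nat.add (Nat.mul n2 (cutv 2 x)) (Nat.add (Nat.mul n3 (cutv 3 x)) (Nat.add (Nat.mul n4 (cutv 4 x)) (Nat.add (Nat.mul n5 (cutv 5 x)) (Nat.mul n6 (cutv 6 x)))))))))) &&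
      trip s n0 n1 n2 n3 n4 n5 n6 qq l

/-- triple tests of two vertices against a list -/
def trow (s : Nat) (v w : W) (l : List W) : Bool :=
  frc (Nat.add (Nat.mul v.b w.c) (Nat.add (Nat.mul v.c w.b) (Nat.add (Nat.mul v.b w.f) (Nat.add (Nat.mul v.f w.b) (Nat.add (Nat.mul v.c w.f) (Nat.mul v.f w.c)))))) fun n0 =>
  frc (Nat.add (Nat.mul v.a w.c) (Nat.add (Nat.mul v.c w.a) (Nat.add (Nat.mul v.a w.e) (Nat.add (Nat.mul v.e w.a) (Nat.add (Nat.mul v.c w.e) (Nat.mul v.e w.c)))))) fun n1 =>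
  frc (Nat.add (Nat.mul v.a w.b) (Nat.add (Nat.mul v.b w.a) (Nat.add (Nat.mul v.a w.d) (Nat.add (Nat.mul v.d w.a) (Nat.add (Nat.mul v.b w.d) (Nat.mul v.d w.b)))))) fun n2 =>
  frc (Nat.add (Nat.mul v.c w.d) (Nat.mul v.d w.c)) fun n3 =>
  frc (Nat.add (Nat.mul v.b w.e) (Nat.mul v.e w.b)) fun n4 =>
  frc (Nat.add (Nat.mul v.a w.f) (Nat.mul v.f w.a)) fun n5 =>
  frc (Nat.add (Nat.mul v.d w.e) (Nat.add (Nat.mul v.e w.d) (Nat.add (Nat.mul v.d w.f) (Nat.add (Nat.mul v.f w.d) (Nat.add (Nat.mul v.e w.f) (Nat.mul v.f w.e)))))) fun n6 =>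
  frc (Nat.mul (cutv s v) (cutv s w)) fun qq => trip s n0 n1 n2 n3 n4 n5 n6 qq l

/-- the test for degenerate cells -/
def leafB (s : Nat) (v0 v1 v2 v3 v4 v5 : W) : Bool :=
  trow s v0 v0 [v0, v1, v2, v3, v4, v5] &&
  trow s v0 v1 [v1, v2, v3, v4, v5] &&
  trow s v0 v2 [v2, v3, v4, v5] &&
  trow s v0 v3 [v3, v4, v5] &&
  trow s v0 v4 [v4, v5] &&
  trow s v0 v5 [v5] &&
  trow s v1 v1 [v1, v2, v3, v4, v5] &&
  trow s v1 v2 [v2, v3, v4, v5] &&
  trow s v1 v3 [v3, v4, v5] &&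
  trow s v1 v4 [v4, v5] &&
  trow s v1 v5 [v5] &&
  trow s v2 v2 [v2, v3, v4, v5] &&
  trow s v2 v3 [v3, v4, v5] &&
  trow s v2 v4 [v4, v5] &&
  trow s v2 v5 [v5] &&
  trow s v3 v3 [v3, v4, v5] &&
  trow s v3 v4 [v4, v5] &&
  trow s v3 v5 [v5] &&
  trow s v4 v4 [v4, v5] &&
  trow s v4 v5 [v5] &&
  trow s v5 v5 [v5]

/-- the test with set of vectors number `z` -/
def tz (D : Tab) (z j w c : Nat) (v0 v1 v2 v3 v4 v5 : W) : Bool :=
  match z with
  | 0 => t7 D j w c v0 v1 v2 v3 v4 v5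
  | 1 => t13 D j w c v0 v1 v2 v3 v4 v5
  | _ => t25 D j w c v0 v1 v2 v3 v4 v5

/-- the checker: reads the code, returns the remaining code or `0`. Tokens: the last two bits are the
kind; kind `0` (split): four bits for the pair, then 34 bits for `g`; kind `1` (infinite interval):
two bits for the set of vectors; kind `2` (finite interval): two bits for the set of vectors, four
bits for the class of the width; kind `3`: four bits: `0, ..., 6` degenerate cells, `7` local region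
at the face-centred cubic form, `8` local region at the body-centred cubic form -/
def go (D : Tab) : Nat → Nat → W → W → W → W → W → W → Nat → Nat
  | 0, _, _, _, _, _, _, _, _ => 0
  | n + 1, j, v0, v1, v2, v3, v4, v5, code =>
    frc (Nat.shiftRight code 2) fun c2 =>
    match Nat.land code 3 with
    | 0 =>
      frc (Nat.land (Nat.shiftRight c2 4) 17179869183) fun g => frc (Nat.shiftRight c2 38) fun rest =>
      match Nat.land c2 15 with
      | 0 => mid v0 v1 g fun m => frz (go D n j m v1 v2 v3 v4 v5 rest) fun r => go D n j v0 m v2 v3 v4 v5 r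
      | 1 => mid v0 v2 g fun m => frz (go D n j m v1 v2 v3 v4 v5 rest) fun r => go D n j v0 v1 m v3 v4 v5 r
      | 2 => mid v0 v3 g fun m => frz (go D n j m v1 v2 v3 v4 v5 rest) fun r => go D n j v0 v1 v2 m v4 v5 r
      | 3 => mid v0 v4 g fun m => frz (go D n j m v1 v2 v3 v4 v5 rest) fun r => go D n j v0 v1 v2 v3 m v5 r
      | 4 => mid v0 v5 g fun m => frz (go D n j m v1 v2 v3 v4 v5 rest) fun r => go D n j v0 v1 v2 v3 v4 m r
      | 5 => mid v1 v2 g fun m => frz (go D n j v0 m v2 v3 v4 v5 rest) fun r => go D n j v0 v1 m v3 v4 v5 r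
      | 6 => mid v1 v3 g fun m => frz (go D n j v0 m v2 v3 v4 v5 rest) fun r => go D n j v0 v1 v2 m v4 v5 r
      | 7 => mid v1 v4 g fun m => frz (go D n j v0 m v2 v3 v4 v5 rest) fun r => go D n j v0 v1 v2 v3 m v5 r
      | 8 => mid v1 v5 g fun m => frz (go D n j v0 m v2 v3 v4 v5 rest) fun r => go D n j v0 v1 v2 v3 v4 m r
      | 9 => mid v2 v3 g fun m => frz (go D n j v0 v1 m v3 v4 v5 rest) fun r => go D n j v0 v1 v2 m v4 v5 r
      | 10 => mid v2 v4 g fun m => frz (go D n j v0 v1 m v3 v4 v5 rest) fun r => go D n j v0 v1 v2 v3 m v5 r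
      | 11 => mid v2 v5 g fun m => frz (go D n j v0 v1 m v3 v4 v5 rest) fun r => go D n j v0 v1 v2 v3 v4 m r
      | 12 => mid v3 v4 g fun m => frz (go D n j v0 v1 v2 m v4 v5 rest) fun r => go D n j v0 v1 v2 v3 m v5 r
      | 13 => mid v3 v5 g fun m => frz (go D n j v0 v1 v2 m v4 v5 rest) fun r => go D n j v0 v1 v2 v3 v4 m r
      | _ => mid v4 v5 g fun m => frz (go D n j v0 v1 v2 v3 m v5 rest) fun r => go D n j v0 v1 v2 v3 v4 m r
    | 1 => bif tz D (Nat.land c2 3) j 0 0 v0 v1 v2 v3 v4 v5 then Nat.shiftRight c2 2 else 0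
    | 2 =>
      frc (Nat.land (Nat.shiftRight c2 2) 15) fun c => frc (Nat.land (Nat.shiftRight D.Wd (Nat.mul 8 c)) 255) fun w =>
      bif Nat.ble 1 w && tz D (Nat.land c2 3) j w c v0 v1 v2 v3 v4 v5 then
        frc (Nat.shiftRight c2 6) fun r => frc (Nat.add j w) fun j' => go D n j' v0 v1 v2 v3 v4 v5 r else 0
    | _ =>
      frc (Nat.land c2 15) fun k =>
      bif Nat.ble k 6 then (bif leafB k v0 v1 v2 v3 v4 v5 then Nat.shiftRight c2 4 else 0) else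
      bif Nat.beq k 7 then (bif inF v0 && inF v1 && inF v2 && inF v3 && inF v4 && inF v5 then Nat.shiftRight c2 4 else 0) else
      bif Nat.ble j 13 && inB v0 && inB v1 && inB v2 && inB v3 && inB v4 && inB v5 then
        frc (Nat.shiftRight c2 4) fun r => go D n 13 v0 v1 v2 v3 v4 v5 r else 0

end Pool.Agent.H999.Theta3
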