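import Pool.Agent.H999.Theta3.Base

set_option autoImplicit false

open Matrix

namespace Pool.Agent.H999.Theta3

open Pool.Agent.K1H99.FCC (N0 rv nsq qf af dt PD rad Fp Qm pp tot al be)

open Pool.Agent.K1H99.FCC in
/-- the determinant of the body-centred cubic form -/
lemma cm_dt : dt Bp = 16 := by
  unfold dt Bp
  norm_num

open Pool.Agent.K1H99.FCC in
/-- the body-centred cubic form is positive definite -/
lemma cm_PD : PD Bp := pd_of_dt (fun _ => zero_le_one) (by rw [cm_dt]; norm_num)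

open Pool.Agent.K1H99.FCC in
/-- the radius of the body-centred cubic form -/
lemma cm_rad : rad Bp = rad Fp ^ 2 := by
  have h1 : rad Bp ^ 3 = 16 := by
    rw [rad_cube (dt_pos cm_PD).le, cm_dt]
  have h2 : (rad Fp ^ 2) ^ 3 = 16 := by
    rw [← pow_mul, mul_comm, pow_mul, rad_Fp]
    norm_num
  have h3 : 0 < rad Bp := rad_pos (dt_pos cm_PD)
  exact (pow_left_inj₀ h3.le (by positivity) three_ne_zero).1 (h1.trans h2.symm)

/-- integral coordinates of the body-centred cubic lattice -/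
def cmJ (n : N0) : ℤ × ℤ × ℤ :=
  (n.1 0 - n.1 1 - n.1 2, -n.1 0 + n.1 1 - n.1 2, -n.1 0 - n.1 1 + n.1 2)

lemma cm_inj : Function.Injective cmJ := by
  intro a b h
  unfold cmJ at h
  simp only [Prod.mk.injEq] at h
  obtain ⟨h1, h2, h3⟩ := h
  apply Subtype.ext
  funext i
  fin_cases i
  · show a.1 0 = b.1 0
    omega
  · show a.1 1 = b.1 1
    omega
  · show a.1 2 = b.1 2
    omega

open Pool.Agent.K1H99.FCC in
lemma cm_nz (n : N0) : (nz (cmJ n) : ℝ) = qf Bp (rv n.1) := by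
  rw [nz_cast]
  unfold cmJ qf Bp rv
  push_cast
  ring

open Pool.Agent.K1H99.FCC in
lemma cm_ne (n : N0) : nz (cmJ n) ≠ 0 := by
  intro h
  have h1 := (lam_pos cm_PD n).1
  rw [← cm_nz, h] at h1
  simp at h1

open Pool.Agent.K1H99.FCC in
lemma cm_mem (n : N0) (h : nz (cmJ n) < 16) : cmJ n ∈ SH := by
  unfold SH
  rw [Finset.mem_filter]
  refine ⟨mem_box h, ?_, ?_, cm_ne n, h⟩
  · unfold cmJ
    simp only
    omega
  · unfold cmJ
    simp only
    omega

/-- the exponent of the body-centred cubic form -/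
lemma cm_expB (s : ℝ) (n : N0) : Real.pi * (s * (qf Bp (rv n.1) / rad Bp)) =
    be * s * (Pool.Agent.K1H99.FCC.nz (cmJ n) : ℝ) := by
  rw [cm_nz, cm_rad]
  unfold be
  ring

/-- summability -/
lemma cm_sum {p : Fin 6 → ℝ} (hp : PD p) {s : ℝ} (hs : 1 ≤ s) :
    Summable fun n : N0 => Real.exp (-(Real.pi * (s * (qf p (rv n.1) / rad p)))) := by
  refine Summable.of_nonneg_of_le (fun _ => (Real.exp_pos _).le) (fun n => ?_)
    (Pool.Agent.K1H99.FCC.exp_summable hp).2
  have h1 := (Pool.Agent.K1H99.FCC.lam_pos hp n).1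
  rw [Real.exp_le_exp]
  nlinarith

/-- lower bound for `1 - exp (-y)` -/
lemma cm_lo {x y : ℝ} (hx : 0 ≤ x) (hx1 : x ≤ 1) (h : x ≤ y) :
    x - x ^ 2 / 2 + x ^ 3 / 6 - x ^ 4 / 19 ≤ 1 - Real.exp (-y) := by
  have h1 : Real.exp (-y) ≤ Real.exp (-x) := Real.exp_le_exp.2 (by linarith)
  have h2 := Real.exp_bound (x := -x) (by rw [abs_neg, abs_of_nonneg hx]; exact hx1) (n := 5)
    (by norm_num)
  rw [abs_neg, abs_of_nonneg hx] at h2
  simp only [Finset.sum_range_succ, Finset.sum_range_zero, Nat.factorial] at h2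
  norm_num at h2
  have h3 := (abs_le.1 h2).2
  have h4 : x ^ 5 ≤ x ^ 4 := pow_le_pow_of_le_one hx hx1 (by norm_num)
  have h5 : 0 ≤ x ^ 4 := by positivity
  nlinarith

/-- lower bound for `1 - exp (-y)` -/
lemma cm_lo2 {x y : ℝ} (hx : 0 ≤ x) (hx1 : x ≤ 1) (h : x ≤ y) :
    x - x ^ 2 / 2 ≤ 1 - Real.exp (-y) := by
  refine le_trans ?_ (cm_lo hx hx1 h)
  have h4 : x ^ 4 ≤ x ^ 3 := pow_le_pow_of_le_one hx hx1 (by norm_num)
  have h5 : 0 ≤ x ^ 3 := by positivity
  nlinarith

/-- upper bound for `1 - exp (-y)` -/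
lemma cm_hi {x y : ℝ} (hx : 0 ≤ x) (hx1 : x ≤ 1) (h : y ≤ x) :
    1 - Real.exp (-y) ≤ x - x ^ 2 / 2 + x ^ 3 / 6 := by
  have h1 : Real.exp (-x) ≤ Real.exp (-y) := Real.exp_le_exp.2 (by linarith)
  have h2 := Real.exp_bound (x := -x) (by rw [abs_neg, abs_of_nonneg hx]; exact hx1) (n := 5)
    (by norm_num)
  rw [abs_neg, abs_of_nonneg hx] at h2
  simp only [Finset.sum_range_succ, Finset.sum_range_zero, Nat.factorial] at h2
  norm_num at h2
  have h3 := (abs_le.1 h2).1
  have h4 : x ^ 5 ≤ x ^ 4 := pow_le_pow_of_le_one hx hx1 (by norm_num)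
  have h5 : 0 ≤ x ^ 4 := by positivity
  nlinarith

/-- upper bound for `1 - exp (-y)` -/
lemma cm_hi1 {x y : ℝ} (h : y ≤ x) : 1 - Real.exp (-y) ≤ x := by
  have h1 := Real.add_one_le_exp (-y)
  linarith

/-- twenty-one vectors -/
def cmX : Fin 21 → Fin 3 → ℤ :=
  ![![1, 1, 1], ![1, 0, 1], ![1, 0, 0], ![0, 1, 1], ![0, 1, 0], ![0, 0, 1],
    ![1, 1, 2], ![1, 1, 0], ![1, -1, 0],
    ![2, 1, 2], ![2, 1, 1], ![2, 0, 1], ![1, 2, 2], ![1, 2, 1], ![1, 0, 2], ![1, 0, -1],
    ![1, -1, 1], ![1, -1, -1], ![0, 2, 1], ![0, 1, 2], ![0, 1, -1]]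

open Pool.Agent.K1H99.FCC in
lemma cmX0 : ∀ s, sgv cmX s ≠ 0 := by decide

open Pool.Agent.K1H99.FCC in
lemma cmXi : Function.Injective (sgv cmX) := by decide

/-- the difference of two theta series of the face-centred cubic form from below -/
lemma cm_F {s : ℝ} (hs : 1 ≤ s) :
    12 * (Real.exp (-(2 * al)) * (1 - Real.exp (-(2 * al * (s - 1))))) +
      6 * (Real.exp (-(4 * al)) * (1 - Real.exp (-(4 * al * (s - 1))))) +
      24 * (Real.exp (-(6 * al)) * (1 - Real.exp (-(6 * al * (s - 1))))) ≤ RF 1 - RF s := by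
  have hp := Pool.Agent.K1H99.FCC.PD_Fp
  have h1 := cm_sum hp (le_refl (1 : ℝ))
  have h2 := cm_sum hp hs
  have h3 : RF 1 - RF s = ∑' n : N0, ((fun v : Fin 3 → ℤ =>
      Real.exp (-(Real.pi * (1 * (qf Fp (rv v) / rad Fp)))) -
        Real.exp (-(Real.pi * (s * (qf Fp (rv v) / rad Fp))))) n.1) := by
    unfold RF
    rw [← h1.tsum_sub h2]
  rw [h3]
  refine le_trans (le_of_eq ?_) (Pool.Agent.K1H99.FCC.two_sum_le cmX cmX0 cmXi
    (fun v : Fin 3 → ℤ => Real.exp (-(Real.pi * (1 * (qf Fp (rv v) / rad Fp)))) -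
        Real.exp (-(Real.pi * (s * (qf Fp (rv v) / rad Fp)))))
    (fun n => by simp only [Pool.Agent.K1H99.FCC.qf_neg]) (fun n => ?_) (h1.sub h2))
  · have key : ∀ v : Fin 3 → ℤ, ∀ k : ℝ, qf Fp (rv v) = k →
        Real.exp (-(Real.pi * (1 * (qf Fp (rv v) / rad Fp)))) -
        Real.exp (-(Real.pi * (s * (qf Fp (rv v) / rad Fp)))) =
        Real.exp (-(k * al)) * (1 - Real.exp (-(k * al * (s - 1)))) := by
      intro v k hk
      rw [hk, mul_sub, mul_one, ← Real.exp_add]
      unfold al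
      congr 2
      · ring
      · ring
    have e : ∀ i : Fin 21, qf Fp (rv (cmX i)) = if i.1 < 6 then 2 else if i.1 < 9 then 4 else 6 := by
      intro i
      fin_cases i <;> simp [cmX, qf, Fp, rv] <;> norm_num
    simp only [key _ _ (e _)]
    simp [Fin.sum_univ_succ]
    ring
  · have h4 := (Pool.Agent.K1H99.FCC.lam_pos hp n).1
    have : Real.exp (-(Real.pi * (s * (qf Fp (rv n.1) / rad Fp)))) ≤
        Real.exp (-(Real.pi * (1 * (qf Fp (rv n.1) / rad Fp)))) := by
      rw [Real.exp_le_exp]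
      nlinarith
    linarith

/-- a factor bound for the tail -/
lemma cm_tail {m : ℕ} (hm : 16 ≤ m) :
    Real.exp (-(be * m)) * m ≤ 192 / 100000000 * Real.exp (-(1 / 4) * m) := by
  have hm' : (16:ℝ) ≤ m := by exact_mod_cast hm
  have h1 := Pool.Agent.K1H99.FCC.be_bounds.1
  have h2 : (m : ℝ) ≤ 16 * Real.exp ((m - 16) / 16) := by
    have := Real.add_one_le_exp (((m : ℝ) - 16) / 16)
    linarith
  have h3 : Real.exp (-(be * m)) * m ≤ Real.exp (-(be * m)) * (16 * Real.exp ((m - 16) / 16)) :=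
    mul_le_mul_of_nonneg_left h2 (Real.exp_pos _).le
  refine h3.trans ?_
  have e : Real.exp (-(be * m)) * (16 * Real.exp (((m : ℝ) - 16) / 16)) =
      16 * Real.exp (-((be - 5 / 16) * m + 1)) * Real.exp (-(1 / 4) * m) := by
    rw [mul_assoc 16, ← Real.exp_add, mul_left_comm, ← Real.exp_add]
    congr 2
    ring
  rw [e]
  refine mul_le_mul_of_nonneg_right ?_ (Real.exp_pos _).le
  have h4 : Real.exp (-((be - 5 / 16) * m + 1)) ≤ 12 / 100000000 := by
    refine le_trans (Real.exp_le_exp.2 ?_) Pool.Agent.K1H99.FCC.T2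
    nlinarith
  linarith

open Pool.Agent.K1H99.FCC in
/-- the difference of two theta series of the body-centred cubic form from above -/
lemma cm_B {s : ℝ} (hs : 1 ≤ s) : RB 1 - RB s ≤
    8 * (Real.exp (-(3 * be)) * (1 - Real.exp (-(3 * be * (s - 1))))) +
    6 * (Real.exp (-(4 * be)) * (1 - Real.exp (-(4 * be * (s - 1))))) +
    12 * (Real.exp (-(8 * be)) * (1 - Real.exp (-(8 * be * (s - 1))))) +
    24 * (Real.exp (-(11 * be)) * (1 - Real.exp (-(11 * be * (s - 1))))) +
    8 * (Real.exp (-(12 * be)) * (1 - Real.exp (-(12 * be * (s - 1))))) +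
    3 / 10000 * (s - 1) := by
  have h1 := cm_sum cm_PD (le_refl (1 : ℝ))
  have h2 := cm_sum cm_PD hs
  have hbe := be_pos
  have hbb := be_bounds.2
  set f : ℕ → ℝ := fun m => Real.exp (-(be * m)) * (1 - Real.exp (-(be * m * (s - 1)))) with hfd
  have hterm : ∀ n : N0, Real.exp (-(Real.pi * (1 * (qf Bp (rv n.1) / rad Bp)))) -
      Real.exp (-(Real.pi * (s * (qf Bp (rv n.1) / rad Bp)))) = f (nz (cmJ n)) := by
    intro n
    rw [cm_expB, cm_expB]
    simp only [hfd]
    rw [mul_sub, mul_one, ← Real.exp_add]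
    congr 2
    · ring
    · ring
  have h3 : RB 1 - RB s = ∑' n : N0, f (nz (cmJ n)) := by
    unfold RB
    rw [← h1.tsum_sub h2]
    exact tsum_congr hterm
  have hf : ∀ m, 0 ≤ f m := by
    intro m
    simp only [hfd]
    refine mul_nonneg (Real.exp_pos _).le ?_
    have : Real.exp (-(be * m * (s - 1))) ≤ Real.exp 0 := by
      rw [Real.exp_le_exp]
      have : 0 ≤ be * m * (s - 1) := mul_nonneg (by positivity) (by linarith)
      linarith
    rw [Real.exp_zero] at this
    linarith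
  have hsum : Summable fun n : N0 => f (nz (cmJ n)) := (h1.sub h2).congr hterm
  have ht : ∀ m : ℕ, 16 ≤ m → f m ≤ 192 / 100000000 * (be * (s - 1)) * Real.exp (-(1 / 4) * m) := by
    intro m hm
    have h4 := cm_tail hm
    have h5 : 1 - Real.exp (-(be * m * (s - 1))) ≤ be * m * (s - 1) := cm_hi1 le_rfl
    have h6 : f m ≤ Real.exp (-(be * m)) * (be * m * (s - 1)) :=
      mul_le_mul_of_nonneg_left h5 (Real.exp_pos _).le
    have h7 : 0 ≤ be * (s - 1) := mul_nonneg hbe.le (by linarith)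
    calc f m ≤ Real.exp (-(be * m)) * (be * m * (s - 1)) := h6
      _ = (Real.exp (-(be * m)) * m) * (be * (s - 1)) := by ring
      _ ≤ (192 / 100000000 * Real.exp (-(1 / 4) * m)) * (be * (s - 1)) :=
        mul_le_mul_of_nonneg_right h4 h7
      _ = _ := by ring
  have h8 := shell cmJ cm_inj SH 16 cm_mem f hf hsum (K := 192 / 100000000 * (be * (s - 1)))
    (μ := 1 / 4) (by norm_num) (mul_nonneg (by norm_num) (mul_nonneg hbe.le (by linarith))) ht
  rw [h3]
  refine h8.trans ?_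
  rw [sum_SH]
  have h9 : 192 / 100000000 * (be * (s - 1)) *
      (1 + 2 * (Real.exp (-(1 / 4)) * (1 - Real.exp (-(1 / 4)) ^ 2)⁻¹)) ^ 3 ≤
      3 / 10000 * (s - 1) := by
    have h10 : 0 ≤ 192 / 100000000 * (be * (s - 1)) :=
      mul_nonneg (by norm_num) (mul_nonneg hbe.le (by linarith))
    refine (mul_le_mul_of_nonneg_left th2 h10).trans ?_
    nlinarith
  have e3 : f 3 = Real.exp (-(3 * be)) * (1 - Real.exp (-(3 * be * (s - 1)))) := by
    simp only [hfd]
    push_cast
    rw [mul_comm be 3]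
  have e4 : f 4 = Real.exp (-(4 * be)) * (1 - Real.exp (-(4 * be * (s - 1)))) := by
    simp only [hfd]
    push_cast
    rw [mul_comm be 4]
  have e8 : f 8 = Real.exp (-(8 * be)) * (1 - Real.exp (-(8 * be * (s - 1)))) := by
    simp only [hfd]
    push_cast
    rw [mul_comm be 8]
  have e11 : f 11 = Real.exp (-(11 * be)) * (1 - Real.exp (-(11 * be * (s - 1)))) := by
    simp only [hfd]
    push_cast
    rw [mul_comm be 11]
  have e12 : f 12 = Real.exp (-(12 * be)) * (1 - Real.exp (-(12 * be * (s - 1)))) := by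
    simp only [hfd]
    push_cast
    rw [mul_comm be 12]
  rw [e3, e4, e8, e11, e12]
  linarith

/-- product bound from below -/
lemma cm_pl {u c x P : ℝ} (hu : c ≤ u) (hc : 0 ≤ c) (hP : P ≤ x) (hP0 : 0 ≤ P) : c * P ≤ u * x :=
  mul_le_mul hu hP hP0 (hc.trans hu)

/-- product bound from above -/
lemma cm_pu {u c y Q : ℝ} (hu : u ≤ c) (hc : 0 ≤ c) (hy : 0 ≤ y) (hQ : 1 - Real.exp (-y) ≤ Q) :
    u * (1 - Real.exp (-y)) ≤ c * Q := by
  have : Real.exp (-y) ≤ Real.exp 0 := Real.exp_le_exp.2 (by linarith)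
  rw [Real.exp_zero] at this
  exact mul_le_mul hu hQ (by linarith) hc

/-- the polynomial inequality -/
lemma cm_poly {h : ℝ} (h0 : 0 < h) (h7 : h ≤ 7 / 100) :
    8 * (2374875 / 100000000 * (37402257 / 10000000 * h - (37402257 / 10000000 * h) ^ 2 / 2 +
      (37402257 / 10000000 * h) ^ 3 / 6)) +
    6 * (682634 / 100000000 * (49869676 / 10000000 * h - (49869676 / 10000000 * h) ^ 2 / 2 +
      (49869676 / 10000000 * h) ^ 3 / 6)) +
    12 * (4660 / 100000000 * (99739352 / 10000000 * h)) +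
    24 * (111 / 100000000 * (137141609 / 10000000 * h)) +
    8 * (32 / 100000000 * (149609028 / 10000000 * h)) + 3 / 10000 * h <
    12 * (19098 / 1000000 * (39581586 / 10000000 * h - (39581586 / 10000000 * h) ^ 2 / 2 +
      (39581586 / 10000000 * h) ^ 3 / 6 - (39581586 / 10000000 * h) ^ 4 / 19)) +
    6 * ((19098 / 1000000) ^ 2 * (79163172 / 10000000 * h - (79163172 / 10000000 * h) ^ 2 / 2 +
      (79163172 / 10000000 * h) ^ 3 / 6 - (79163172 / 10000000 * h) ^ 4 / 19)) +
    24 * ((19098 / 1000000) ^ 3 * (118744758 / 10000000 * h -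
      (118744758 / 10000000 * h) ^ 2 / 2)) := by
  have hh2 : h ^ 2 ≤ 7 / 100 * h := by nlinarith
  have hh3 : h ^ 3 ≤ 7 / 100 * h ^ 2 := by nlinarith [sq_nonneg h]
  have hh4 : h ^ 4 ≤ 49 / 10000 * h ^ 2 := by nlinarith [sq_nonneg h, sq_nonneg (h ^ 2)]
  have hp2 : 0 ≤ h ^ 2 := sq_nonneg h
  have hp3 : 0 ≤ h ^ 3 := by positivity
  linarith

open Pool.Agent.K1H99.FCC in
/-- the lower bounds of the exponentials of the face-centred cubic form -/
lemma cm_u : 19098 / 1000000 ≤ Real.exp (-(2 * al)) ∧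
    (19098 / 1000000) ^ 2 ≤ Real.exp (-(4 * al)) ∧
    (19098 / 1000000) ^ 3 ≤ Real.exp (-(6 * al)) := by
  obtain ⟨a1, a2⟩ := al_bounds
  have u2 : 19098 / 1000000 ≤ Real.exp (-(2 * al)) := E2l.trans (Real.exp_le_exp.2 (by linarith))
  refine ⟨u2, ?_, ?_⟩
  · have : Real.exp (-(4 * al)) = Real.exp (-(2 * al)) ^ 2 := by
      rw [← Real.exp_nat_mul]
      congr 1
      push_cast
      ring
    rw [this]
    exact pow_le_pow_left₀ (by norm_num) u2 2
  · have : Real.exp (-(6 * al)) = Real.exp (-(2 * al)) ^ 3 := by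
      rw [← Real.exp_nat_mul]
      congr 1
      push_cast
      ring
    rw [this]
    exact pow_le_pow_left₀ (by norm_num) u2 3

/-- the polynomial is nonnegative -/
lemma cm_nn {x : ℝ} (hx : 0 ≤ x) (hx1 : x ≤ 1) : 0 ≤ x - x ^ 2 / 2 + x ^ 3 / 6 - x ^ 4 / 19 := by
  have h2 : x ^ 2 ≤ x := by nlinarith
  have h4 : x ^ 4 ≤ x ^ 3 := pow_le_pow_of_le_one hx hx1 (by norm_num)
  have h5 : 0 ≤ x ^ 3 := by positivity
  nlinarith

open Pool.Agent.K1H99.FCC in
/-- the lower bound of the face-centred cubic side -/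
lemma cm_low {h : ℝ} (h0 : 0 < h) (h7 : h ≤ 7 / 100) :
    12 * (19098 / 1000000 * (39581586 / 10000000 * h - (39581586 / 10000000 * h) ^ 2 / 2 +
      (39581586 / 10000000 * h) ^ 3 / 6 - (39581586 / 10000000 * h) ^ 4 / 19)) +
    6 * ((19098 / 1000000) ^ 2 * (79163172 / 10000000 * h - (79163172 / 10000000 * h) ^ 2 / 2 +
      (79163172 / 10000000 * h) ^ 3 / 6 - (79163172 / 10000000 * h) ^ 4 / 19)) +
    24 * ((19098 / 1000000) ^ 3 * (118744758 / 10000000 * h -
      (118744758 / 10000000 * h) ^ 2 / 2)) ≤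
    12 * (Real.exp (-(2 * al)) * (1 - Real.exp (-(2 * al * h)))) +
      6 * (Real.exp (-(4 * al)) * (1 - Real.exp (-(4 * al * h)))) +
      24 * (Real.exp (-(6 * al)) * (1 - Real.exp (-(6 * al * h)))) := by
  obtain ⟨a1, a2⟩ := al_bounds
  obtain ⟨u2, u4, u6⟩ := cm_u
  have k2 : 39581586 / 10000000 * h ≤ 2 * al * h :=
    mul_le_mul_of_nonneg_right (by linarith) h0.le
  have k4 : 79163172 / 10000000 * h ≤ 4 * al * h :=
    mul_le_mul_of_nonneg_right (by linarith) h0.le
  have k6 : 118744758 / 10000000 * h ≤ 6 * al * h :=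
    mul_le_mul_of_nonneg_right (by linarith) h0.le
  have p2 := cm_lo (x := 39581586 / 10000000 * h) (y := 2 * al * h) (by positivity)
    (by linarith) k2
  have p4 := cm_lo (x := 79163172 / 10000000 * h) (y := 4 * al * h) (by positivity)
    (by linarith) k4
  have p6 := cm_lo2 (x := 118744758 / 10000000 * h) (y := 6 * al * h) (by positivity)
    (by linarith) k6
  have n2 := cm_nn (x := 39581586 / 10000000 * h) (by positivity) (by linarith)
  have n4 := cm_nn (x := 79163172 / 10000000 * h) (by positivity) (by linarith)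
  have n6 : 0 ≤ 118744758 / 10000000 * h - (118744758 / 10000000 * h) ^ 2 / 2 := by
    have hx : 0 ≤ 118744758 / 10000000 * h := by positivity
    have hx1 : 118744758 / 10000000 * h ≤ 1 := by linarith
    nlinarith
  have m2 := cm_pl u2 (by norm_num) p2 n2
  have m4 := cm_pl u4 (by norm_num) p4 n4
  have m6 := cm_pl u6 (by norm_num) p6 n6
  linarith

open Pool.Agent.K1H99.FCC in
/-- the upper bound of the body-centred cubic side -/
lemma cm_upp {h : ℝ} (h0 : 0 < h) (h7 : h ≤ 7 / 100) :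
    8 * (Real.exp (-(3 * be)) * (1 - Real.exp (-(3 * be * h)))) +
    6 * (Real.exp (-(4 * be)) * (1 - Real.exp (-(4 * be * h)))) +
    12 * (Real.exp (-(8 * be)) * (1 - Real.exp (-(8 * be * h)))) +
    24 * (Real.exp (-(11 * be)) * (1 - Real.exp (-(11 * be * h)))) +
    8 * (Real.exp (-(12 * be)) * (1 - Real.exp (-(12 * be * h)))) ≤
    8 * (2374875 / 100000000 * (37402257 / 10000000 * h - (37402257 / 10000000 * h) ^ 2 / 2 +
      (37402257 / 10000000 * h) ^ 3 / 6)) +
    6 * (682634 / 100000000 * (49869676 / 10000000 * h - (49869676 / 10000000 * h) ^ 2 / 2 +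
      (49869676 / 10000000 * h) ^ 3 / 6)) +
    12 * (4660 / 100000000 * (99739352 / 10000000 * h)) +
    24 * (111 / 100000000 * (137141609 / 10000000 * h)) +
    8 * (32 / 100000000 * (149609028 / 10000000 * h)) := by
  obtain ⟨b1, b2⟩ := be_bounds
  have hb := be_pos
  have v3 : Real.exp (-(3 * be)) ≤ 2374875 / 100000000 :=
    (Real.exp_le_exp.2 (by linarith)).trans F3
  have v4 : Real.exp (-(4 * be)) ≤ 682634 / 100000000 :=
    (Real.exp_le_exp.2 (by linarith)).trans F4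
  have v8 : Real.exp (-(8 * be)) ≤ 4660 / 100000000 :=
    (Real.exp_le_exp.2 (by linarith)).trans F8
  have v11 : Real.exp (-(11 * be)) ≤ 111 / 100000000 :=
    (Real.exp_le_exp.2 (by linarith)).trans F11
  have v12 : Real.exp (-(12 * be)) ≤ 32 / 100000000 :=
    (Real.exp_le_exp.2 (by linarith)).trans F12
  have q3 := cm_hi (x := 37402257 / 10000000 * h) (y := 3 * be * h) (by positivity)
    (by linarith) (mul_le_mul_of_nonneg_right (by linarith) h0.le)
  have q4 := cm_hi (x := 49869676 / 10000000 * h) (y := 4 * be * h) (by positivity)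
    (by linarith) (mul_le_mul_of_nonneg_right (by linarith) h0.le)
  have q8 := cm_hi1 (x := 99739352 / 10000000 * h) (y := 8 * be * h)
    (mul_le_mul_of_nonneg_right (by linarith) h0.le)
  have q11 := cm_hi1 (x := 137141609 / 10000000 * h) (y := 11 * be * h)
    (mul_le_mul_of_nonneg_right (by linarith) h0.le)
  have q12 := cm_hi1 (x := 149609028 / 10000000 * h) (y := 12 * be * h)
    (mul_le_mul_of_nonneg_right (by linarith) h0.le)
  have m3 := cm_pu v3 (by norm_num) (by positivity) q3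
  have m4 := cm_pu v4 (by norm_num) (by positivity) q4
  have m8 := cm_pu v8 (by norm_num) (by positivity) q8
  have m11 := cm_pu v11 (by norm_num) (by positivity) q11
  have m12 := cm_pu v12 (by norm_num) (by positivity) q12
  linarith

theorem RF_lt_RB (h1 : RF 1 = RB 1) (s : ℝ) (hs : 1 < s) (hs' : s ≤ 107 / 100) : RF s < RB s := by
  have hF := cm_F hs.le
  have hB := cm_B hs.le
  obtain ⟨h, rfl⟩ : ∃ h : ℝ, s = 1 + h := ⟨s - 1, by ring⟩
  have h0 : 0 < h := by linarith
  have h7 : h ≤ 7 / 100 := by linarith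
  simp only [add_sub_cancel_left] at hF hB
  have k1 := cm_low h0 h7
  have k2 := cm_upp h0 h7
  have k3 := cm_poly h0 h7
  linarith

end Pool.Agent.H999.Theta3
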