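import Pool.Agent.H999.Theta3.Base

set_option autoImplicit false

open Matrix

namespace Pool.Agent.H999.Theta3

open Pool.Agent.K1H99.FCC (N0 rv nsq qf af dt PD rad Fp Qm pp tot al be)

theorem du_split {f : (Fin 3 → ℤ) → ℝ} (hf : Summable f) :
    ∑' n, f n = f 0 + ∑' n : N0, f n.1 := by
  rw [hf.tsum_eq_add_tsum_ite 0]
  congr 1
  have h : ∑' n : N0, f n.1 = ∑' n, Set.indicator {n : Fin 3 → ℤ | n ≠ 0} f n :=
    tsum_subtype {n : Fin 3 → ℤ | n ≠ 0} f
  rw [h]
  refine tsum_congr fun n => ?_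
  by_cases hn : n = 0
  · simp [hn]
  · rw [if_neg hn, Set.indicator_of_mem]
    exact hn

theorem du_radB : rad Bp = rad Fp ^ 2 := by
  have hd : dt Bp = 16 := by
    unfold dt Bp
    norm_num
  have h1 : rad Bp ^ 3 = 16 := by
    rw [Pool.Agent.K1H99.FCC.rad_cube (by rw [hd]; norm_num), hd]
  have h0 : 0 < rad Bp := Pool.Agent.K1H99.FCC.rad_pos (by rw [hd]; norm_num)
  have hF := Pool.Agent.K1H99.FCC.rad_Fp
  have hF0 := Pool.Agent.K1H99.FCC.rad_Fp_pos
  have h2 : rad Bp ^ 3 = (rad Fp ^ 2) ^ 3 := by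
    rw [h1, ← pow_mul, mul_comm 2 3, pow_mul, hF]
    norm_num
  exact (pow_left_inj₀ h0.le (by positivity) three_ne_zero).1 h2

/-- the change of basis -/
def duM : Matrix (Fin 3) (Fin 3) ℤ := !![1, 0, 0; 1, 0, 1; 1, 1, 1]

theorem duM_unit : IsUnit duM.det := by
  unfold duM
  rw [Matrix.det_fin_three]
  simp

theorem du_af (y : N0) :
    af Fp (rv y.1) = qf Bp (rv (Pool.Agent.K1H99.FCC.uact duM duM_unit y).1) := by
  have e : (Pool.Agent.K1H99.FCC.uact duM duM_unit y).1 = duM.mulVec y.1 := rfl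
  rw [e]
  unfold af qf rv Fp Bp duM
  simp [Matrix.mulVec, dotProduct, Fin.sum_univ_three]
  ring

/-- duality at the self-dual point -/
theorem RF_one_eq_RB_one : RF 1 = RB 1 := by
  obtain ⟨A, B, hBA, hdet, hA, hB⟩ := Pool.Agent.K1H99.FCC.normalise
    Pool.Agent.K1H99.FCC.Cm_gram (by rw [Pool.Agent.K1H99.FCC.Cm_det]; norm_num)
  have hAB : Aᵀ * B = 1 := by
    have := congrArg Matrix.transpose hBA
    rwa [Matrix.transpose_mul, Matrix.transpose_transpose, Matrix.transpose_one] at this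
  have h := Pool.Agent.K1H99.FCC.theta_fe hBA (t := 1) one_pos
  rw [hdet, inv_one, one_mul, Real.one_rpow, one_mul, mul_one, div_one] at h
  rw [du_split (Pool.Agent.K1H99.FCC.summable_gauss hBA Real.pi_pos),
    du_split (Pool.Agent.K1H99.FCC.summable_gauss hAB Real.pi_pos),
    Pool.Agent.K1H99.FCC.nsq_zero, Pool.Agent.K1H99.FCC.nsq_zero] at h
  have h' := add_left_cancel h
  have e1 : RF 1 = ∑' n : N0, Real.exp (-Real.pi * nsq A (rv n.1)) := by
    unfold RF
    refine tsum_congr fun n => ?_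
    rw [hA, one_mul, neg_mul]
  have e2 : RB 1 = ∑' n : N0, Real.exp (-Real.pi * nsq B (rv n.1)) := by
    unfold RB
    rw [← (Pool.Agent.K1H99.FCC.uact duM duM_unit).tsum_eq fun n : N0 =>
      Real.exp (-(Real.pi * (1 * (qf Bp (rv n.1) / rad Bp))))]
    refine tsum_congr fun n => ?_
    rw [hB, one_mul, neg_mul, du_radB, ← du_af]
  rw [e1, e2, h']

end Pool.Agent.H999.Theta3
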