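import Pool.Agent.H999.Theta3.IneqB0

set_option autoImplicit false

open Matrix

namespace Pool.Agent.H999.Theta3

open Pool.Agent.K1H99.FCC (N0 rv nsq qf af dt PD rad Fp Qm pp tot al be)

theorem LB_ineq {σ Δ d1 d2 d3 w1 w2 w3 : ℝ} (hσ : 12467 / 10000 ≤ σ) (hσ' : σ ≤ 133 / 100)
    (hd : d1 + d2 + d3 = 0)
    (b1 : |d1| ≤ 1 / 10) (b2 : |d2| ≤ 1 / 10) (b3 : |d3| ≤ 1 / 10)
    (c1 : |w1| ≤ 6 / 100) (c2 : |w2| ≤ 6 / 100) (c3 : |w3| ≤ 6 / 100)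
    (hΔ : 0 ≤ Δ) (hΔ3 : (1 - Δ) ^ 3 = 1 - dx d1 d2 d3 w1 w2 w3) :
    1038 / 100 * (Real.exp (3 * σ * Δ) - 1) ≤
      2 * (psi (2 * σ * (w1 + w2 + w3)) + psi (2 * σ * (w1 - w2 - w3)) +
        psi (2 * σ * (-w1 + w2 - w3)) + psi (2 * σ * (-w1 - w2 + w3))) +
      2 * Real.exp (-σ) * (psi (4 * σ * d1) + psi (4 * σ * d2) + psi (4 * σ * d3)) := by
  obtain ⟨he, hQ⟩ := ib_e' hd b1 b2 b3
  have hg := ib_g c1 c2 c3
  set x := dx d1 d2 d3 w1 w2 w3 with hx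
  set Q := d1 ^ 2 + d2 ^ 2 + d3 ^ 2 with hQd
  set W := w1 ^ 2 + w2 ^ 2 + w3 ^ 2 with hWd
  set e := d1 * d2 * d3 with hed
  set g := w1 * w2 * w3 with hgd
  set f := d1 * w1 ^ 2 + d2 * w2 ^ 2 + d3 * w3 ^ 2 with hfd
  have hxx : x = Q / 2 + W - e - 2 * g + f := by
    rw [hx, hQd, hWd, hed, hgd, hfd]; unfold dx; ring
  have hf : |f| ≤ 1 / 10 * W := by
    have q1 := abs_le.1 b1
    have q2 := abs_le.1 b2
    have q3 := abs_le.1 b3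
    rw [abs_le]
    constructor <;> nlinarith [sq_nonneg w1, sq_nonneg w2, sq_nonneg w3,
      mul_nonneg (sub_nonneg.2 q1.2) (sq_nonneg w1), mul_nonneg (sub_nonneg.2 q2.2) (sq_nonneg w2),
      mul_nonneg (sub_nonneg.2 q3.2) (sq_nonneg w3), mul_nonneg (sub_nonneg.2 q1.1) (sq_nonneg w1),
      mul_nonneg (sub_nonneg.2 q2.1) (sq_nonneg w2), mul_nonneg (sub_nonneg.2 q3.1) (sq_nonneg w3)]
  have hQ0 : 0 ≤ Q := by positivity
  have hW0 : 0 ≤ W := by positivity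
  have hW : W ≤ 108 / 10000 := by
    have s : ∀ w : ℝ, |w| ≤ 6 / 100 → w ^ 2 ≤ (6 / 100) ^ 2 := fun w hw => by
      rw [← sq_abs]; exact pow_le_pow_left₀ (abs_nonneg _) hw 2
    have := s w1 c1
    have := s w2 c2
    have := s w3 c3
    rw [hWd]
    linarith
  have hpoly := ib_poly hσ hσ' hQ0 hQ hW0 hW he hf hg hxx
  -- `Δ`
  have e1 := abs_le.1 he
  have f1 := abs_le.1 hf
  have g1 := abs_le.1 hg
  have x0 : 0 ≤ x := by rw [hxx]; linarith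
  have x1 : x ≤ 227 / 10000 := by rw [hxx]; linarith
  have hσ0 : 0 < σ := by linarith
  have hL2 := ib_delta hσ hσ' hΔ x0 x1 hΔ3
  -- the right side
  have hw : ∀ w : ℝ, |w| ≤ 18 / 100 → |2 * σ * w| ≤ 1 := fun w hw => by
    rw [abs_mul, abs_of_pos (by positivity : 0 < 2 * σ)]
    nlinarith [abs_nonneg w]
  have hdd : ∀ w : ℝ, |w| ≤ 1 / 10 → |4 * σ * w| ≤ 1 := fun w hw => by
    rw [abs_mul, abs_of_pos (by positivity : 0 < 4 * σ)]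
    nlinarith [abs_nonneg w]
  have u1 := abs_le.1 c1
  have u2 := abs_le.1 c2
  have u3 := abs_le.1 c3
  have r1 := ib_psi (hw (w1 + w2 + w3) (abs_le.2 ⟨by linarith, by linarith⟩))
  have r2 := ib_psi (hw (w1 - w2 - w3) (abs_le.2 ⟨by linarith, by linarith⟩))
  have r3 := ib_psi (hw (-w1 + w2 - w3) (abs_le.2 ⟨by linarith, by linarith⟩))
  have r4 := ib_psi (hw (-w1 - w2 + w3) (abs_le.2 ⟨by linarith, by linarith⟩))
  have v1 := ib_psi (hdd d1 b1)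
  have v2 := ib_psi (hdd d2 b2)
  have v3 := ib_psi (hdd d3 b3)
  have R1 : 8 * σ ^ 2 * W - 32 * σ ^ 3 * g ≤
      psi (2 * σ * (w1 + w2 + w3)) + psi (2 * σ * (w1 - w2 - w3)) +
        psi (2 * σ * (-w1 + w2 - w3)) + psi (2 * σ * (-w1 - w2 + w3)) := by
    have : 8 * σ ^ 2 * W - 32 * σ ^ 3 * g =
        ((2 * σ * (w1 + w2 + w3)) ^ 2 / 2 - (2 * σ * (w1 + w2 + w3)) ^ 3 / 6) +
        ((2 * σ * (w1 - w2 - w3)) ^ 2 / 2 - (2 * σ * (w1 - w2 - w3)) ^ 3 / 6) +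
        ((2 * σ * (-w1 + w2 - w3)) ^ 2 / 2 - (2 * σ * (-w1 + w2 - w3)) ^ 3 / 6) +
        ((2 * σ * (-w1 - w2 + w3)) ^ 2 / 2 - (2 * σ * (-w1 - w2 + w3)) ^ 3 / 6) := by
      rw [hWd, hgd]; ring
    rw [this]
    linarith
  have R2 : 8 * σ ^ 2 * Q - 32 * σ ^ 3 * e ≤
      psi (4 * σ * d1) + psi (4 * σ * d2) + psi (4 * σ * d3) := by
    have h3 : d3 = -(d1 + d2) := by linarith
    have : 8 * σ ^ 2 * Q - 32 * σ ^ 3 * e =
        ((4 * σ * d1) ^ 2 / 2 - (4 * σ * d1) ^ 3 / 6) +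
        ((4 * σ * d2) ^ 2 / 2 - (4 * σ * d2) ^ 3 / 6) +
        ((4 * σ * d3) ^ 2 / 2 - (4 * σ * d3) ^ 3 / 6) := by
      rw [hQd, hed, h3]; ring
    rw [this]
    linarith
  have R3 : 0 ≤ 8 * σ ^ 2 * Q - 32 * σ ^ 3 * e := by
    have h1 : 0 ≤ 8 * Q - 32 * σ * e := by nlinarith [e1.2]
    have h2 : 8 * σ ^ 2 * Q - 32 * σ ^ 3 * e = σ ^ 2 * (8 * Q - 32 * σ * e) := by ring
    rw [h2]
    positivity
  have hE := ib_E hσ'
  have hE0 : 0 ≤ 275 / 1000 * (229 / 100 - σ) := by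
    have : (0 : ℝ) ≤ 229 / 100 - σ := by linarith
    positivity
  have R4 : 275 / 1000 * (229 / 100 - σ) * (8 * σ ^ 2 * Q - 32 * σ ^ 3 * e) ≤
      Real.exp (-σ) * (psi (4 * σ * d1) + psi (4 * σ * d2) + psi (4 * σ * d3)) :=
    mul_le_mul hE R2 R3 (Real.exp_pos _).le
  have hfin := mul_le_mul_of_nonneg_left hpoly hσ0.le
  linarith [hL2, R1, R4, hfin]



end Pool.Agent.H999.Theta3
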