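import Pool.Agent.H999.Theta3.Base

set_option autoImplicit false

open Matrix

namespace Pool.Agent.H999.Theta3

open Pool.Agent.K1H99.FCC (N0 rv nsq qf af dt PD rad Fp Qm pp tot al be)

theorem ib_psi {y : ℝ} (hy : |y| ≤ 1) : y ^ 2 / 2 - y ^ 3 / 6 ≤ psi y := by
  have h := Real.exp_bound (x := -y) (n := 5) (by rwa [abs_neg]) (by norm_num)
  rw [abs_le] at h
  have h1 := h.1
  simp only [Finset.sum_range_succ, Finset.sum_range_zero, Nat.factorial, abs_neg] at h1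
  norm_num at h1
  unfold psi
  have h2 : |y| ^ 5 ≤ |y| ^ 4 := pow_le_pow_of_le_one (abs_nonneg y) hy (by norm_num)
  have h3 : |y| ^ 4 = y ^ 4 := by rw [← abs_pow, abs_of_nonneg (by positivity)]
  have h4 : 0 ≤ y ^ 4 := by positivity
  nlinarith [h1, h2, h3, h4]

theorem ib_e {d1 d2 d3 : ℝ} (hd : d1 + d2 + d3 = 0) (b3 : |d3| ≤ 1 / 10) (h : 0 ≤ d1 * d2) :
    |d1 * d2 * d3| ≤ (d1 ^ 2 + d2 ^ 2 + d3 ^ 2) / 60 ∧ d1 ^ 2 + d2 ^ 2 + d3 ^ 2 ≤ 2 / 100 := by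
  have h3 : d3 = -(d1 + d2) := by linarith
  have hs : d3 ^ 2 ≤ (1 / 10) ^ 2 := by
    rw [← sq_abs]; exact pow_le_pow_left₀ (abs_nonneg _) b3 2
  have e1 : d3 ^ 2 = d1 ^ 2 + d2 ^ 2 + 2 * (d1 * d2) := by rw [h3]; ring
  have e2 : 4 * (d1 * d2) ≤ d3 ^ 2 := by rw [h3]; nlinarith [sq_nonneg (d1 - d2)]
  refine ⟨?_, by nlinarith⟩
  rw [abs_mul, abs_of_nonneg h]
  have e3 : d1 * d2 * |d3| ≤ d1 * d2 * (1 / 10) := mul_le_mul_of_nonneg_left b3 h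
  nlinarith [sq_nonneg (d1 - d2)]

theorem ib_e' {d1 d2 d3 : ℝ} (hd : d1 + d2 + d3 = 0)
    (b1 : |d1| ≤ 1 / 10) (b2 : |d2| ≤ 1 / 10) (b3 : |d3| ≤ 1 / 10) :
    |d1 * d2 * d3| ≤ (d1 ^ 2 + d2 ^ 2 + d3 ^ 2) / 60 ∧ d1 ^ 2 + d2 ^ 2 + d3 ^ 2 ≤ 2 / 100 := by
  rcases le_total 0 d1 with h1 | h1 <;> rcases le_total 0 d2 with h2 | h2 <;>
    rcases le_total 0 d3 with h3 | h3
  · exact ib_e hd b3 (mul_nonneg h1 h2)
  · exact ib_e hd b3 (mul_nonneg h1 h2)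
  · obtain ⟨u, v⟩ := ib_e (d1 := d1) (d2 := d3) (d3 := d2) (by linarith) b2 (mul_nonneg h1 h3)
    refine ⟨?_, by linarith⟩
    rw [show d1 * d2 * d3 = d1 * d3 * d2 by ring]; linarith
  · obtain ⟨u, v⟩ := ib_e (d1 := d2) (d2 := d3) (d3 := d1) (by linarith) b1
      (mul_nonneg_of_nonpos_of_nonpos h2 h3)
    refine ⟨?_, by linarith⟩
    rw [show d1 * d2 * d3 = d2 * d3 * d1 by ring]; linarith
  · obtain ⟨u, v⟩ := ib_e (d1 := d2) (d2 := d3) (d3 := d1) (by linarith) b1 (mul_nonneg h2 h3)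
    refine ⟨?_, by linarith⟩
    rw [show d1 * d2 * d3 = d2 * d3 * d1 by ring]; linarith
  · obtain ⟨u, v⟩ := ib_e (d1 := d1) (d2 := d3) (d3 := d2) (by linarith) b2
      (mul_nonneg_of_nonpos_of_nonpos h1 h3)
    refine ⟨?_, by linarith⟩
    rw [show d1 * d2 * d3 = d1 * d3 * d2 by ring]; linarith
  · exact ib_e hd b3 (mul_nonneg_of_nonpos_of_nonpos h1 h2)
  · exact ib_e hd b3 (mul_nonneg_of_nonpos_of_nonpos h1 h2)

theorem ib_g {w1 w2 w3 : ℝ} (c1 : |w1| ≤ 6 / 100) (c2 : |w2| ≤ 6 / 100) (c3 : |w3| ≤ 6 / 100) :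
    |w1 * w2 * w3| ≤ 2 / 100 * (w1 ^ 2 + w2 ^ 2 + w3 ^ 2) := by
  have a1 := abs_nonneg w1
  have a2 := abs_nonneg w2
  have a3 := abs_nonneg w3
  have s1 := sq_abs w1
  have s2 := sq_abs w2
  have s3 := sq_abs w3
  rw [abs_mul, abs_mul, ← s1, ← s2, ← s3]
  have h12 : |w1| * |w2| * |w3| ≤ |w1| * |w2| * (6 / 100) :=
    mul_le_mul_of_nonneg_left c3 (by positivity)
  have h13 : |w1| * |w3| * |w2| ≤ |w1| * |w3| * (6 / 100) :=
    mul_le_mul_of_nonneg_left c2 (by positivity)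
  have h23 : |w2| * |w3| * |w1| ≤ |w2| * |w3| * (6 / 100) :=
    mul_le_mul_of_nonneg_left c1 (by positivity)
  nlinarith [sq_nonneg (|w1| - |w2|), sq_nonneg (|w1| - |w3|), sq_nonneg (|w2| - |w3|)]

theorem ib_exp129 : (275 / 1000 : ℝ) ≤ Real.exp (-(129 / 100)) := by
  have h := Real.exp_bound' (x := 43 / 100) (n := 6) (by norm_num) (by norm_num) (by norm_num)
  simp only [Finset.sum_range_succ, Finset.sum_range_zero, Nat.factorial] at h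
  norm_num at h
  have h1 : Real.exp (43 / 100) ≤ 15375 / 10000 := by linarith
  have h2 : Real.exp (129 / 100) = Real.exp (43 / 100) ^ 3 := by
    rw [← Real.exp_nat_mul]; norm_num
  have h3 : Real.exp (129 / 100) ≤ (15375 / 10000) ^ 3 := by
    rw [h2]; exact pow_le_pow_left₀ (Real.exp_pos _).le h1 3
  rw [Real.exp_neg, le_inv_comm₀ (by norm_num) (Real.exp_pos _)]
  refine h3.trans ?_
  norm_num

theorem ib_E {σ : ℝ} (hσ : σ ≤ 133 / 100) :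
    275 / 1000 * (229 / 100 - σ) ≤ Real.exp (-σ) := by
  have h1 : Real.exp (-σ) = Real.exp (-(129 / 100)) * Real.exp (129 / 100 - σ) := by
    rw [← Real.exp_add]; congr 1; ring
  have h2 := Real.add_one_le_exp (129 / 100 - σ)
  rw [h1]
  have h3 := ib_exp129
  have h4 : (0 : ℝ) ≤ 229 / 100 - σ := by linarith
  have h5 : 229 / 100 - σ ≤ Real.exp (129 / 100 - σ) := by linarith
  calc 275 / 1000 * (229 / 100 - σ) ≤ Real.exp (-(129 / 100)) * (229 / 100 - σ) :=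
        mul_le_mul_of_nonneg_right h3 h4
    _ ≤ _ := mul_le_mul_of_nonneg_left h5 (Real.exp_pos _).le

theorem ib_expy {y : ℝ} (h0 : 0 ≤ y) (h1 : y ≤ 31 / 1000) :
    Real.exp y - 1 ≤ y + 506 / 1000 * y ^ 2 := by
  have h := Real.exp_bound' (x := y) (n := 4) h0 (by linarith) (by norm_num)
  simp only [Finset.sum_range_succ, Finset.sum_range_zero, Nat.factorial] at h
  norm_num at h
  have h2 : y ^ 3 ≤ 31 / 1000 * y ^ 2 := by nlinarith [sq_nonneg y]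
  have h3 : y ^ 4 ≤ (31 / 1000) ^ 2 * y ^ 2 := by
    have : y ^ 4 = y ^ 2 * y ^ 2 := by ring
    have h4 : y ^ 2 ≤ (31 / 1000) ^ 2 := pow_le_pow_left₀ h0 h1 2
    nlinarith [sq_nonneg y]
  nlinarith

/-- the polynomial inequality -/
theorem ib_poly {σ Q W e f g x : ℝ} (hσ : 12467 / 10000 ≤ σ) (hσ' : σ ≤ 133 / 100)
    (hQ0 : 0 ≤ Q) (hQ : Q ≤ 2 / 100) (hW0 : 0 ≤ W) (hW : W ≤ 108 / 10000)
    (he : |e| ≤ Q / 60) (hf : |f| ≤ 1 / 10 * W) (hg : |g| ≤ 2 / 100 * W)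
    (hx : x = Q / 2 + W - e - 2 * g + f) :
    1038 / 100 * x + x ^ 2 * (38925 / 10000 + 5347 / 1000 * σ) ≤
      16 * σ * W - 64 * σ ^ 2 * g +
        2 * (275 / 1000 * (229 / 100 - σ)) * (8 * σ * Q - 32 * σ ^ 2 * e) := by
  have e1 := abs_le.1 he
  have f1 := abs_le.1 hf
  have g1 := abs_le.1 hg
  have x0 : 0 ≤ x := by rw [hx]; linarith
  have x1 : x ≤ 31 / 60 * Q + 114 / 100 * W := by rw [hx]; linarith
  have x2 : x ^ 2 ≤ 534 / 100000 * Q + 376 / 10000 * W := by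
    have h1 : x ^ 2 ≤ (31 / 60 * Q + 114 / 100 * W) ^ 2 := pow_le_pow_left₀ x0 x1 2
    have h2 : Q * Q ≤ 2 / 100 * Q := mul_le_mul_of_nonneg_right hQ hQ0
    have h3 : Q * W ≤ 2 / 100 * W := mul_le_mul_of_nonneg_right hQ hW0
    have h4 : W * W ≤ 108 / 10000 * W := mul_le_mul_of_nonneg_right hW hW0
    nlinarith
  have hK : 0 ≤ 38925 / 10000 + 5347 / 1000 * σ := by linarith
  have k1 := mul_le_mul_of_nonneg_right x2 hK
  -- the coefficient of `e`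
  have a1 : 0 ≤ σ - 12467 / 10000 := by linarith
  have a2 : 0 ≤ 133 / 100 - σ := by linarith
  have a3 : (15 / 10 : ℝ) ≤ σ ^ 2 := by nlinarith
  have hC : 0 ≤ 64 * (275 / 1000 * (229 / 100 - σ)) * σ ^ 2 - 1038 / 100 := by
    have : (96 / 100 : ℝ) * (15 / 10) ≤ (229 / 100 - σ) * σ ^ 2 :=
      mul_le_mul (by linarith) a3 (by norm_num) (by linarith)
    nlinarith
  have k2 := mul_le_mul_of_nonneg_right e1.2 hC
  have hD : 0 ≤ 64 * σ ^ 2 - 2076 / 100 := by linarith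
  have k3 := mul_le_mul_of_nonneg_right g1.2 hD
  have hPQ : 0 ≤ 16 * (275 / 1000 * (229 / 100 - σ)) * σ - 519 / 100 -
      (64 * (275 / 1000 * (229 / 100 - σ)) * σ ^ 2 - 1038 / 100) / 60 -
      534 / 100000 * (38925 / 10000 + 5347 / 1000 * σ) := by
    nlinarith [mul_nonneg a1 a2, mul_nonneg (mul_nonneg a1 a2) a1, mul_nonneg (mul_nonneg a1 a2) a2]
  have hPW : 0 ≤ 16 * σ - 1038 / 100 - 2 / 100 * (64 * σ ^ 2 - 2076 / 100) - 1038 / 1000 -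
      376 / 10000 * (38925 / 10000 + 5347 / 1000 * σ) := by
    nlinarith [mul_nonneg a1 a2]
  have k4 := mul_nonneg hQ0 hPQ
  have k5 := mul_nonneg hW0 hPW
  rw [hx] at k1 ⊢
  nlinarith [k1, k2, k3, k4, k5, f1.2]

theorem ib_delta {σ Δ x : ℝ} (hσ : 12467 / 10000 ≤ σ) (hσ' : σ ≤ 133 / 100) (hΔ : 0 ≤ Δ)
    (x0 : 0 ≤ x) (x1 : x ≤ 227 / 10000) (hΔ3 : (1 - Δ) ^ 3 = 1 - x) :
    1038 / 100 * (Real.exp (3 * σ * Δ) - 1) ≤
      σ * (1038 / 100 * x + x ^ 2 * (38925 / 10000 + 5347 / 1000 * σ)) := by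
  have hΔ1 : Δ ≤ x / 3 + x ^ 2 / 8 := by
    clear hσ hσ'
    by_contra hcon
    push Not at hcon
    have h1 : 1 - Δ < 1 - (x / 3 + x ^ 2 / 8) := by linarith
    have h2 : (1 - Δ) ^ 3 < (1 - (x / 3 + x ^ 2 / 8)) ^ 3 := by
      have ho : Odd 3 := by decide
      exact ho.strictMono_pow h1
    have h3 : (1 - (x / 3 + x ^ 2 / 8)) ^ 3 ≤ 1 - x := by
      clear h2 h1 hcon hΔ hΔ3
      have p2 : 0 ≤ x ^ 2 := by positivity
      have p3 : 0 ≤ x ^ 3 := by positivity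
      have p4 : x ^ 3 ≤ 227 / 10000 * x ^ 2 := by nlinarith
      have p5 : x ^ 4 ≤ 227 / 10000 * x ^ 3 := by nlinarith
      have p6 : 0 ≤ (x / 3 + x ^ 2 / 8) ^ 3 := by positivity
      nlinarith
    linarith
  have h1 : Δ ≤ x * (3363 / 10000) := by
    clear hσ hσ' hΔ3 hΔ
    nlinarith
  have hΔ2 : Δ ^ 2 ≤ 1131 / 10000 * x ^ 2 := by
    have h2 : Δ ^ 2 ≤ (x * (3363 / 10000)) ^ 2 := pow_le_pow_left₀ hΔ h1 2
    have h3 := sq_nonneg x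
    linarith
  have hσ0 : 0 < σ := by linarith
  have hy : 3 * σ * Δ ≤ 31 / 1000 := by
    have h2 : Δ ≤ 77 / 10000 := by linarith
    have h3 : σ * Δ ≤ 133 / 100 * (77 / 10000) := mul_le_mul hσ' h2 hΔ (by norm_num)
    linarith
  have hL := ib_expy (y := 3 * σ * Δ) (by positivity) hy
  have t1 : σ * Δ ≤ σ * (x / 3 + x ^ 2 / 8) := mul_le_mul_of_nonneg_left hΔ1 hσ0.le
  have t2 : σ ^ 2 * Δ ^ 2 ≤ σ ^ 2 * (1131 / 10000 * x ^ 2) :=
    mul_le_mul_of_nonneg_left hΔ2 (by positivity)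
  have t3 : 0 ≤ σ ^ 2 * x ^ 2 := by positivity
  linarith

end Pool.Agent.H999.Theta3
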