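import Pool.Agent.H999.Theta3.Base

set_option autoImplicit false

open Matrix

namespace Pool.Agent.H999.Theta3

open Pool.Agent.K1H99.FCC (N0 rv nsq qf af dt PD rad Fp Qm pp tot al be)

theorem i1_hasDeriv (y : ℝ) :
    HasDerivAt (fun y : ℝ => Real.exp y * (1 - y + y ^ 2 / 2 - y ^ 3 / 6))
      (-(y ^ 3 / 6) * Real.exp y) y := by
  have h1 := Real.hasDerivAt_exp y
  have h2 : HasDerivAt (fun y : ℝ => 1 - y + y ^ 2 / 2 - y ^ 3 / 6)
      (0 - 1 + (2 : ℕ) * y ^ (2 - 1) / 2 - (3 : ℕ) * y ^ (3 - 1) / 6) y :=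
    ((((hasDerivAt_const y (1 : ℝ)).sub (hasDerivAt_id y)).add ((hasDerivAt_pow 2 y).div_const 2)).sub
      ((hasDerivAt_pow 3 y).div_const 6))
  refine (h1.mul h2).congr_deriv ?_
  push_cast
  ring

theorem i1_exp_mul_le (y : ℝ) : Real.exp y * (1 - y + y ^ 2 / 2 - y ^ 3 / 6) ≤ 1 := by
  set G : ℝ → ℝ := fun y => Real.exp y * (1 - y + y ^ 2 / 2 - y ^ 3 / 6) with hG
  have h0 : G 0 = 1 := by simp [hG]
  have hd : Differentiable ℝ G := fun z => (i1_hasDeriv z).differentiableAt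
  have hc : Continuous G := hd.continuous
  rcases le_total 0 y with hy | hy
  · have ha : AntitoneOn G (Set.Ici 0) := by
      apply antitoneOn_of_deriv_nonpos (convex_Ici 0) hc.continuousOn hd.differentiableOn
      intro z hz
      rw [interior_Ici] at hz
      rw [(i1_hasDeriv z).deriv]
      have hz' : 0 < z := hz
      have : 0 ≤ z ^ 3 / 6 * Real.exp z := by positivity
      linarith
    have h := ha Set.self_mem_Ici (Set.mem_Ici.2 hy) hy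
    rw [h0] at h
    exact h
  · have ha : MonotoneOn G (Set.Iic 0) := by
      apply monotoneOn_of_deriv_nonneg (convex_Iic 0) hc.continuousOn hd.differentiableOn
      intro z hz
      rw [interior_Iic] at hz
      rw [(i1_hasDeriv z).deriv]
      have hz' : z < 0 := hz
      have h3 : z ^ 3 ≤ 0 := by
        have : z ^ 3 = z * z ^ 2 := by ring
        rw [this]
        exact mul_nonpos_of_nonpos_of_nonneg hz'.le (sq_nonneg z)
      have h4 : 0 ≤ -(z ^ 3 / 6) := by linarith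
      exact mul_nonneg h4 (Real.exp_pos z).le
    have h := ha (Set.mem_Iic.2 hy) Set.self_mem_Iic hy
    rw [h0] at h
    exact h

theorem i1_psi (y : ℝ) : y ^ 2 / 2 - y ^ 3 / 6 ≤ psi y := by
  have h1 := i1_exp_mul_le y
  have h2 : Real.exp (-y) * (Real.exp y * (1 - y + y ^ 2 / 2 - y ^ 3 / 6)) ≤ Real.exp (-y) * 1 :=
    mul_le_mul_of_nonneg_left h1 (Real.exp_pos _).le
  rw [← mul_assoc, ← Real.exp_add, neg_add_cancel, Real.exp_zero, one_mul, mul_one] at h2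
  unfold psi
  linarith

theorem i1_e {d1 d2 d3 : ℝ} (hd : d1 + d2 + d3 = 0) (b3 : |d3| ≤ 12 / 100) (h : 0 ≤ d1 * d2) :
    |d1 * d2 * d3| ≤ 1 / 50 * (d1 ^ 2 + d2 ^ 2 + d3 ^ 2) := by
  have h1 : d3 = -(d1 + d2) := by linarith
  rw [abs_mul, abs_of_nonneg h]
  have h2 : d1 * d2 * |d3| ≤ d1 * d2 * (12 / 100) := mul_le_mul_of_nonneg_left b3 h
  refine h2.trans ?_
  rw [h1]
  nlinarith [sq_nonneg (d1 - d2)]

theorem i1_e' {d1 d2 d3 : ℝ} (hd : d1 + d2 + d3 = 0) (b1 : |d1| ≤ 12 / 100) (b2 : |d2| ≤ 12 / 100)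
    (b3 : |d3| ≤ 12 / 100) : |d1 * d2 * d3| ≤ 1 / 50 * (d1 ^ 2 + d2 ^ 2 + d3 ^ 2) := by
  by_cases h1 : 0 ≤ d1 * d2
  · exact i1_e hd b3 h1
  by_cases h2 : 0 ≤ d2 * d3
  · have h := i1_e (d1 := d2) (d2 := d3) (d3 := d1) (by linarith) b1 h2
    rw [show d1 * d2 * d3 = d2 * d3 * d1 by ring]
    linarith
  have h3 : 0 ≤ d3 * d1 := by
    by_contra h3
    push Not at h1 h2 h3
    have h4 : 0 < (d1 * d2) * (d2 * d3) := mul_pos_of_neg_of_neg h1 h2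
    have h5 : (d1 * d2) * (d2 * d3) * (d3 * d1) < 0 := mul_neg_of_pos_of_neg h4 h3
    have h6 : (d1 * d2) * (d2 * d3) * (d3 * d1) = (d1 * d2 * d3) ^ 2 := by ring
    rw [h6] at h5
    linarith [sq_nonneg (d1 * d2 * d3)]
  have h := i1_e (d1 := d3) (d2 := d1) (d3 := d2) (by linarith) b2 h3
  rw [show d1 * d2 * d3 = d3 * d1 * d2 by ring]
  linarith

theorem i1_f {d w : ℝ} (b : |d| ≤ 12 / 100) : |d * w ^ 2| ≤ 12 / 100 * w ^ 2 := by
  rw [abs_mul, abs_of_nonneg (sq_nonneg w)]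
  exact mul_le_mul_of_nonneg_right b (sq_nonneg w)

theorem i1_g {w1 w2 w3 : ℝ} (c1 : |w1| ≤ 12 / 100) (c2 : |w2| ≤ 12 / 100) (c3 : |w3| ≤ 12 / 100) :
    |w1 * w2 * w3| ≤ 4 / 100 * (w1 ^ 2 + w2 ^ 2 + w3 ^ 2) := by
  have a1 := abs_nonneg w1
  have a2 := abs_nonneg w2
  have a3 := abs_nonneg w3
  rw [abs_mul, abs_mul, ← sq_abs w1, ← sq_abs w2, ← sq_abs w3]
  generalize |w1| = x at *
  generalize |w2| = y at *
  generalize |w3| = z at *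
  have e1 : x * y * z ≤ x * y * (12 / 100) := mul_le_mul_of_nonneg_left c3 (mul_nonneg a1 a2)
  have e2 : y * z * x ≤ y * z * (12 / 100) := mul_le_mul_of_nonneg_left c1 (mul_nonneg a2 a3)
  have e3 : z * x * y ≤ z * x * (12 / 100) := mul_le_mul_of_nonneg_left c2 (mul_nonneg a3 a1)
  nlinarith [sq_nonneg (x - y), sq_nonneg (y - z), sq_nonneg (z - x)]

theorem i1_Q {d1 d2 d3 : ℝ} (hd : d1 + d2 + d3 = 0) (b1 : |d1| ≤ 12 / 100) (b2 : |d2| ≤ 12 / 100)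
    (b3 : |d3| ≤ 12 / 100) : d1 ^ 2 + d2 ^ 2 + d3 ^ 2 ≤ 288 / 10000 := by
  rw [abs_le] at b1 b2 b3
  have h1 : d3 = -(d1 + d2) := by linarith
  subst h1
  by_cases h : 0 ≤ d1 * d2
  · nlinarith [mul_nonneg (show (0:ℝ) ≤ 12 / 100 - (d1 + d2) by linarith) (show (0:ℝ) ≤ 12 / 100 + (d1 + d2) by linarith)]
  · push Not at h
    rcases le_total 0 d1 with g | g
    · have g2 : d2 ≤ 0 := by
        by_contra g2
        push Not at g2
        nlinarith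
      rcases le_total 0 (d1 + d2) with k | k <;>
      nlinarith [mul_nonneg (show (0:ℝ) ≤ 12 / 100 - d1 by linarith) (show (0:ℝ) ≤ 12 / 100 + d1 by linarith),
        mul_nonneg (show (0:ℝ) ≤ 12 / 100 - d2 by linarith) (show (0:ℝ) ≤ 12 / 100 + d2 by linarith),
        mul_nonneg (show (0:ℝ) ≤ 12 / 100 + d2 by linarith) (show (0:ℝ) ≤ 12 / 100 - d1 by linarith)]
    · have g2 : 0 ≤ d2 := by
        by_contra g2
        push Not at g2
        nlinarith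
      rcases le_total 0 (d1 + d2) with k | k <;>
      nlinarith [mul_nonneg (show (0:ℝ) ≤ 12 / 100 - d1 by linarith) (show (0:ℝ) ≤ 12 / 100 + d1 by linarith),
        mul_nonneg (show (0:ℝ) ≤ 12 / 100 - d2 by linarith) (show (0:ℝ) ≤ 12 / 100 + d2 by linarith),
        mul_nonneg (show (0:ℝ) ≤ 12 / 100 - d2 by linarith) (show (0:ℝ) ≤ 12 / 100 + d1 by linarith)]

theorem i1_W {w : ℝ} (c : |w| ≤ 12 / 100) : w ^ 2 ≤ 144 / 10000 := by
  rw [← sq_abs]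
  nlinarith [abs_nonneg w]

/-- the bound for `Δ` -/
theorem i1_D {x Δ : ℝ} (hx0 : 0 ≤ x) (hx : x ≤ 67 / 1000) (h : (1 - Δ) ^ 3 = 1 - x) :
    Δ ≤ x / 3 + x ^ 2 / 8 := by
  by_contra hcon
  push Not at hcon
  set δ := x / 3 + x ^ 2 / 8 with hδ
  have hδ0 : 0 ≤ δ := by positivity
  have hδ1 : δ ≤ 3 / 100 := by rw [hδ]; nlinarith
  have h1 : (1 - Δ) ^ 3 < (1 - δ) ^ 3 := by
    have : StrictMono (fun t : ℝ => t ^ 3) := Odd.strictMono_pow (by decide)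
    exact this (by linarith)
  have h2 : (1 - δ) ^ 3 ≤ 1 - x := by
    have h3 : x ≤ 3 * δ - 3 * δ ^ 2 := by
      rw [hδ]
      have h4 : 3 * (x / 3 + x ^ 2 / 8) - 3 * (x / 3 + x ^ 2 / 8) ^ 2 - x =
        x ^ 2 * (1 / 24 - x / 4 - 3 * x ^ 2 / 64) := by ring
      have h5 : 0 ≤ x ^ 2 * (1 / 24 - x / 4 - 3 * x ^ 2 / 64) := by
        apply mul_nonneg (sq_nonneg x)
        nlinarith
      linarith
    have h4 : 0 ≤ δ ^ 3 := by positivity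
    nlinarith
  linarith

theorem i1_exp {y : ℝ} (h0 : 0 ≤ y) (h1 : y ≤ 19 / 100) : Real.exp y - 1 ≤ y + 54 / 100 * y ^ 2 := by
  have h := Real.exp_bound' h0 (by linarith : y ≤ 1) (n := 4) (by norm_num)
  simp only [Finset.sum_range_succ, Finset.sum_range_zero, Nat.factorial] at h
  norm_num at h
  have h2 : y ^ 3 ≤ 19 / 100 * y ^ 2 := by nlinarith [sq_nonneg y]
  have h3 : y ^ 4 ≤ 361 / 10000 * y ^ 2 := by nlinarith [sq_nonneg y]
  nlinarith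

theorem i1_sq {x : ℝ} (h0 : 0 ≤ x) (h1 : x ≤ 67 / 1000) : x ^ 2 ≤ 67 / 1000 * x := by
  rw [sq]
  exact mul_le_mul_of_nonneg_right h1 h0

/-- the elementary inequality -/
theorem i1_main {τ E Q W e f g : ℝ} (hτ : 3958 / 1000 ≤ τ) (hτ' : τ ≤ 8) (hE0 : 0 ≤ E) (hE1 : E ≤ 1 / 32)
    (hE : 1657 / 100000 * (51 / 10 - τ) ≤ E) (hQ0 : 0 ≤ Q) (hQ : Q ≤ 288 / 10000) (hW0 : 0 ≤ W)
    (hW : W ≤ 432 / 10000) (he : |e| ≤ 1 / 50 * Q) (hf : |f| ≤ 12 / 100 * W) (hg : |g| ≤ 4 / 100 * W)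
    (hne : 0 < Q + W) (x : ℝ) (hx : x = Q / 2 + W - e - 2 * g + f) :
    2043 / 1000 * x + (76613 / 100000 + 38723 / 100000 * τ) * x ^ 2 <
      Q * (τ / 4 + 2 * E * τ) + W * τ + e * (τ ^ 2 / 8 - 4 * E * τ ^ 2) + f * τ ^ 2 / 2 := by
  rw [abs_le] at he hf hg
  have hx2 : x ≤ 52 / 100 * Q + 12 / 10 * W := by rw [hx]; linarith
  have hx0 : 0 ≤ x := by rw [hx]; linarith
  have hxx : x ^ 2 ≤ 779 / 100000 * Q + 9816 / 100000 * W := by
    have h1 : x ^ 2 ≤ (52 / 100 * Q + 12 / 10 * W) ^ 2 := by nlinarith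
    nlinarith [mul_nonneg hQ0 hW0, mul_nonneg hQ0 (by linarith : 0 ≤ 288 / 10000 - Q),
      mul_nonneg hW0 (by linarith : 0 ≤ 288 / 10000 - Q), mul_nonneg hW0 (by linarith : 0 ≤ 432 / 10000 - W)]
  have hc : 0 ≤ 76613 / 100000 + 38723 / 100000 * τ := by linarith
  have h1 := mul_le_mul_of_nonneg_left hxx hc
  -- coefficient of e
  have hce : 0 ≤ τ ^ 2 / 8 - 4 * E * τ ^ 2 + 2043 / 1000 := by
    have : 0 ≤ (1 / 8 - 4 * E) * τ ^ 2 := mul_nonneg (by linarith) (sq_nonneg τ)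
    nlinarith
  have h2 : -(1 / 50 * Q) * (τ ^ 2 / 8 - 4 * E * τ ^ 2 + 2043 / 1000) ≤
      e * (τ ^ 2 / 8 - 4 * E * τ ^ 2 + 2043 / 1000) := mul_le_mul_of_nonneg_right he.1 hce
  have hcf : 0 ≤ τ ^ 2 / 2 - 2043 / 1000 := by nlinarith
  have h3 : -(12 / 100 * W) * (τ ^ 2 / 2 - 2043 / 1000) ≤ f * (τ ^ 2 / 2 - 2043 / 1000) :=
    mul_le_mul_of_nonneg_right hf.1 hcf
  have hcQ : 0 < τ / 4 + 2 * E * τ - 10215 / 10000 - 1 / 50 * (τ ^ 2 / 8 - 4 * E * τ ^ 2 + 2043 / 1000) -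
      779 / 100000 * (76613 / 100000 + 38723 / 100000 * τ) := by
    have hk : 0 ≤ 2 * τ + 8 / 100 * τ ^ 2 := by positivity
    rcases le_total τ (51 / 10) with h | h
    · have h4 := mul_le_mul_of_nonneg_left hE hk
      have h5 : 0 < 246983 / 1000000 * τ + (2 * τ + 8 / 100 * τ ^ 2) * (1657 / 100000 * (51 / 10 - τ)) -
        25 / 10000 * τ ^ 2 - 106833 / 100000 := by
        obtain ⟨s, hs⟩ : ∃ s, τ = 3958 / 1000 + s := ⟨τ - 3958 / 1000, by ring⟩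
        subst hs
        have hs0 : 0 ≤ s := by linarith
        have hs1 : s ≤ 1142 / 1000 := by linarith
        nlinarith [mul_nonneg hs0 (by linarith : 0 ≤ 1142 / 1000 - s), mul_nonneg (mul_nonneg hs0 hs0) (by linarith : 0 ≤ 1142 / 1000 - s)]
      linarith
    · have h4 : 0 ≤ (2 * τ + 8 / 100 * τ ^ 2) * E := mul_nonneg hk hE0
      have h5 : 0 ≤ (τ - 51 / 10) * (8 - τ) := mul_nonneg (by linarith) (by linarith)
      linarith
  have hcW : 0 < τ - 2043 / 1000 - 12 / 100 * (τ ^ 2 / 2 - 2043 / 1000) - 16344 / 100000 -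
      9816 / 100000 * (76613 / 100000 + 38723 / 100000 * τ) := by
    nlinarith [mul_nonneg (by linarith : 0 ≤ τ - 3958 / 1000) (by linarith : 0 ≤ 8 - τ)]
  have h6 : 0 < Q * (τ / 4 + 2 * E * τ - 10215 / 10000 - 1 / 50 * (τ ^ 2 / 8 - 4 * E * τ ^ 2 + 2043 / 1000) -
      779 / 100000 * (76613 / 100000 + 38723 / 100000 * τ)) + W * (τ - 2043 / 1000 -
      12 / 100 * (τ ^ 2 / 2 - 2043 / 1000) - 16344 / 100000 -
      9816 / 100000 * (76613 / 100000 + 38723 / 100000 * τ)) := by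
    rcases hQ0.eq_or_lt with h | h
    · have hWp : 0 < W := by rw [← h] at hne; linarith
      have := mul_pos hWp hcW
      rw [← h]
      linarith
    · have a1 := mul_pos h hcQ
      have a2 := mul_nonneg hW0 hcW.le
      linarith
  have h7 : -(4 / 100 * W) ≤ g := hg.1
  rw [hx] at h1 ⊢
  linarith [h1, h2, h3, h6, h7]

theorem i1_exp_neg41 : 1657 / 100000 ≤ Real.exp (-(41 / 10)) := by
  rw [Real.exp_neg, le_inv_comm₀ (by norm_num) (Real.exp_pos _)]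
  have h1 : Real.exp (41 / 10) = Real.exp 1 ^ 4 * Real.exp (1 / 10) := by
    rw [← Real.exp_nat_mul, ← Real.exp_add]
    norm_num
  have h2 : Real.exp 1 < 2.7182818286 := Real.exp_one_lt_d9
  have h3 : Real.exp (1 / 10) ≤ 1 + 1 / 10 + 54 / 100 * (1 / 10) ^ 2 := by
    have := i1_exp (y := 1 / 10) (by norm_num) (by norm_num)
    linarith
  have h4 : Real.exp (1 / 10) ≤ 110518 / 100000 := by
    have h := Real.exp_bound' (by norm_num : (0:ℝ) ≤ 1 / 10) (by norm_num : (1:ℝ) / 10 ≤ 1) (n := 5) (by norm_num)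
    simp only [Finset.sum_range_succ, Finset.sum_range_zero, Nat.factorial] at h
    norm_num at h
    linarith
  rw [h1]
  have h5 : Real.exp 1 ^ 4 ≤ 2.7182818286 ^ 4 := by gcongr
  calc Real.exp 1 ^ 4 * Real.exp (1 / 10) ≤ 2.7182818286 ^ 4 * (110518 / 100000) := by
        gcongr
    _ ≤ (1657 / 100000)⁻¹ := by norm_num

theorem i1_E {τ : ℝ} : 1657 / 100000 * (51 / 10 - τ) ≤ Real.exp (-τ) := by
  rcases le_total (51 / 10) τ with h | h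
  · have : 0 < Real.exp (-τ) := Real.exp_pos _
    have h2 : 1657 / 100000 * (51 / 10 - τ) ≤ 0 := by linarith
    linarith
  have h1 : Real.exp (-τ) = Real.exp (-(41 / 10)) * Real.exp (41 / 10 - τ) := by
    rw [← Real.exp_add]
    ring_nf
  have h2 : 41 / 10 - τ + 1 ≤ Real.exp (41 / 10 - τ) := Real.add_one_le_exp _
  rw [h1]
  calc 1657 / 100000 * (51 / 10 - τ) ≤ Real.exp (-(41 / 10)) * (51 / 10 - τ) :=
        mul_le_mul_of_nonneg_right i1_exp_neg41 (by linarith)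
    _ ≤ Real.exp (-(41 / 10)) * Real.exp (41 / 10 - τ) :=
        mul_le_mul_of_nonneg_left (by linarith) (Real.exp_pos _).le

theorem i1_E32 {τ : ℝ} (hτ : 3958 / 1000 ≤ τ) : Real.exp (-τ) ≤ 1 / 32 := by
  have h1 : Real.exp (-τ) ≤ Real.exp (-(7 / 2)) := Real.exp_le_exp.2 (by linarith)
  refine h1.trans ?_
  rw [Real.exp_neg, one_div]
  apply inv_anti₀ (by norm_num)
  have h2 : Real.exp (7 / 2) = Real.exp 1 ^ 3 * Real.exp (1 / 2) := by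
    rw [← Real.exp_nat_mul, ← Real.exp_add]
    norm_num
  have h3 : 2.7182818283 < Real.exp 1 := Real.exp_one_gt_d9
  have h4 : 1 / 2 + 1 + (1 / 2) ^ 2 / 2 ≤ Real.exp (1 / 2) := by
    have := Real.quadratic_le_exp_of_nonneg (by norm_num : (0:ℝ) ≤ 1 / 2)
    linarith
  rw [h2]
  calc (32 : ℝ) ≤ 2.7182818283 ^ 3 * (1 / 2 + 1 + (1 / 2) ^ 2 / 2) := by norm_num
    _ ≤ Real.exp 1 ^ 3 * Real.exp (1 / 2) := by gcongr

theorem LF_ineq1 {τ Δ d1 d2 d3 w1 w2 w3 : ℝ} (hτ : 3958 / 1000 ≤ τ) (hτ' : τ ≤ 8)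
    (hd : d1 + d2 + d3 = 0)
    (b1 : |d1| ≤ 12 / 100) (b2 : |d2| ≤ 12 / 100) (b3 : |d3| ≤ 12 / 100)
    (c1 : |w1| ≤ 12 / 100) (c2 : |w2| ≤ 12 / 100) (c3 : |w3| ≤ 12 / 100)
    (hΔ : 0 ≤ Δ) (hΔ3 : (1 - Δ) ^ 3 = 1 - dx d1 d2 d3 w1 w2 w3)
    (hne : ¬ (d1 = 0 ∧ d2 = 0 ∧ d3 = 0 ∧ w1 = 0 ∧ w2 = 0 ∧ w3 = 0)) :
    12258 / 1000 * (Real.exp (τ * Δ) - 1) <
      2 * (psi (τ * (-d1 / 2 + w1)) + psi (τ * (-d1 / 2 - w1)) +
        psi (τ * (-d2 / 2 + w2)) + psi (τ * (-d2 / 2 - w2)) +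
        psi (τ * (-d3 / 2 + w3)) + psi (τ * (-d3 / 2 - w3))) +
      2 * Real.exp (-τ) * (psi (2 * τ * d1) + psi (2 * τ * d2) + psi (2 * τ * d3)) := by
  set E := Real.exp (-τ) with hEdef
  set Q := d1 ^ 2 + d2 ^ 2 + d3 ^ 2 with hQdef
  set W := w1 ^ 2 + w2 ^ 2 + w3 ^ 2 with hWdef
  set e := d1 * d2 * d3 with hedef
  set f := d1 * w1 ^ 2 + d2 * w2 ^ 2 + d3 * w3 ^ 2 with hfdef
  set g := w1 * w2 * w3 with hgdef
  set x := dx d1 d2 d3 w1 w2 w3 with hxdef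
  have hE0 : 0 ≤ E := (Real.exp_pos _).le
  have hQ0 : 0 ≤ Q := by positivity
  have hW0 : 0 ≤ W := by positivity
  have hQ : Q ≤ 288 / 10000 := i1_Q hd b1 b2 b3
  have hW : W ≤ 432 / 10000 := by
    have := i1_W c1; have := i1_W c2; have := i1_W c3
    linarith
  have he : |e| ≤ 1 / 50 * Q := i1_e' hd b1 b2 b3
  have hf : |f| ≤ 12 / 100 * W := by
    have h1 := i1_f (w := w1) b1
    have h2 := i1_f (w := w2) b2
    have h3 := i1_f (w := w3) b3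
    rw [abs_le] at *
    constructor <;> linarith [h1.1, h1.2, h2.1, h2.2, h3.1, h3.2]
  have hg : |g| ≤ 4 / 100 * W := i1_g c1 c2 c3
  have hxe : x = Q / 2 + W - e - 2 * g + f := by rw [hxdef, dx]
  have hne' : 0 < Q + W := by
    by_contra hcon
    push Not at hcon
    apply hne
    have hQz : Q = 0 := by linarith
    have hWz : W = 0 := by linarith
    have z : ∀ a b c : ℝ, a ^ 2 + b ^ 2 + c ^ 2 = 0 → a = 0 ∧ b = 0 ∧ c = 0 := by
      intro a b c h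
      refine ⟨?_, ?_, ?_⟩ <;> apply pow_eq_zero_iff (two_ne_zero) |>.1 <;> nlinarith [sq_nonneg a, sq_nonneg b, sq_nonneg c]
    obtain ⟨z1, z2, z3⟩ := z _ _ _ hQz
    obtain ⟨z4, z5, z6⟩ := z _ _ _ hWz
    exact ⟨z1, z2, z3, z4, z5, z6⟩
  have hmain := i1_main hτ hτ' hE0 (i1_E32 hτ) i1_E hQ0 hQ hW0 hW he hf hg hne' x hxe
  have hτ0 : 0 < τ := by linarith
  -- bounds for x
  have he' := abs_le.1 he
  have hf' := abs_le.1 hf
  have hg' := abs_le.1 hg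
  have hx0 : 0 ≤ x := by rw [hxe]; linarith [he'.1, he'.2, hf'.1, hf'.2, hg'.1, hg'.2]
  have hx1 : x ≤ 67 / 1000 := by rw [hxe]; linarith [he'.1, he'.2, hf'.1, hf'.2, hg'.1, hg'.2]
  have hD := i1_D hx0 hx1 hΔ3
  have hxs : x ^ 2 ≤ 67 / 1000 * x := i1_sq hx0 hx1
  have hD1 : Δ ≤ 23 / 1000 := by linarith
  have hD2 : Δ ^ 2 ≤ 116964 / 1000000 * x ^ 2 := by
    have h1 : Δ ≤ x * (342 / 1000) := by linarith
    have h2 : Δ ^ 2 ≤ (x * (342 / 1000)) ^ 2 := by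
      apply pow_le_pow_left₀ hΔ h1
    have h3 : (x * (342 / 1000)) ^ 2 ≤ 116964 / 1000000 * x ^ 2 := by
      rw [mul_pow]
      have := sq_nonneg x
      linarith
    linarith
  have hy0 : 0 ≤ τ * Δ := mul_nonneg hτ0.le hΔ
  have hy1 : τ * Δ ≤ 19 / 100 := by
    have h1 : τ * Δ ≤ 8 * Δ := mul_le_mul_of_nonneg_right hτ' hΔ
    linarith
  have hexp := i1_exp hy0 hy1
  -- lower bounds for the psi
  have p1 := i1_psi (τ * (-d1 / 2 + w1))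
  have p2 := i1_psi (τ * (-d1 / 2 - w1))
  have p3 := i1_psi (τ * (-d2 / 2 + w2))
  have p4 := i1_psi (τ * (-d2 / 2 - w2))
  have p5 := i1_psi (τ * (-d3 / 2 + w3))
  have p6 := i1_psi (τ * (-d3 / 2 - w3))
  have q1 := i1_psi (2 * τ * d1)
  have q2 := i1_psi (2 * τ * d2)
  have q3 := i1_psi (2 * τ * d3)
  have hcube : d1 ^ 3 + d2 ^ 3 + d3 ^ 3 = 3 * e := by
    have : d3 = -(d1 + d2) := by linarith
    rw [hedef, this]; ring
  have s1 : τ ^ 2 * (Q / 4 + W) + τ ^ 3 * (e / 8 + f / 2) ≤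
      psi (τ * (-d1 / 2 + w1)) + psi (τ * (-d1 / 2 - w1)) +
        psi (τ * (-d2 / 2 + w2)) + psi (τ * (-d2 / 2 - w2)) +
        psi (τ * (-d3 / 2 + w3)) + psi (τ * (-d3 / 2 - w3)) := by
    have h8 : τ ^ 2 * (Q / 4 + W) + τ ^ 3 * (e / 8 + f / 2) =
      ((τ * (-d1 / 2 + w1)) ^ 2 / 2 - (τ * (-d1 / 2 + w1)) ^ 3 / 6) +
      ((τ * (-d1 / 2 - w1)) ^ 2 / 2 - (τ * (-d1 / 2 - w1)) ^ 3 / 6) +
      ((τ * (-d2 / 2 + w2)) ^ 2 / 2 - (τ * (-d2 / 2 + w2)) ^ 3 / 6) +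
      ((τ * (-d2 / 2 - w2)) ^ 2 / 2 - (τ * (-d2 / 2 - w2)) ^ 3 / 6) +
      ((τ * (-d3 / 2 + w3)) ^ 2 / 2 - (τ * (-d3 / 2 + w3)) ^ 3 / 6) +
      ((τ * (-d3 / 2 - w3)) ^ 2 / 2 - (τ * (-d3 / 2 - w3)) ^ 3 / 6) := by
      rw [hQdef, hWdef, hfdef]
      linear_combination (-(τ ^ 3) / 24) * hcube
    linarith
  have s2 : 2 * τ ^ 2 * Q - 4 * τ ^ 3 * e ≤ psi (2 * τ * d1) + psi (2 * τ * d2) + psi (2 * τ * d3) := by
    have h8 : 2 * τ ^ 2 * Q - 4 * τ ^ 3 * e = ((2 * τ * d1) ^ 2 / 2 - (2 * τ * d1) ^ 3 / 6) +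
      ((2 * τ * d2) ^ 2 / 2 - (2 * τ * d2) ^ 3 / 6) + ((2 * τ * d3) ^ 2 / 2 - (2 * τ * d3) ^ 3 / 6) := by
      rw [hQdef]
      linear_combination (4 * τ ^ 3 / 3) * hcube
    linarith
  have s3 : 2 * E * (2 * τ ^ 2 * Q - 4 * τ ^ 3 * e) ≤
      2 * E * (psi (2 * τ * d1) + psi (2 * τ * d2) + psi (2 * τ * d3)) :=
    mul_le_mul_of_nonneg_left s2 (by positivity)
  have l1 : 12258 / 1000 * (Real.exp (τ * Δ) - 1) ≤
      2 * τ * (2043 / 1000 * x + (76613 / 100000 + 38723 / 100000 * τ) * x ^ 2) := by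
    have h9 : 12258 / 1000 * (Real.exp (τ * Δ) - 1) ≤ 12258 / 1000 * (τ * Δ + 54 / 100 * (τ * Δ) ^ 2) := by
      linarith
    refine h9.trans ?_
    have h10 : τ * Δ ≤ τ * (x / 3 + x ^ 2 / 8) := mul_le_mul_of_nonneg_left hD hτ0.le
    have h11 : (τ * Δ) ^ 2 ≤ τ ^ 2 * (116964 / 1000000 * x ^ 2) := by
      rw [mul_pow]
      exact mul_le_mul_of_nonneg_left hD2 (sq_nonneg τ)
    have h12 : 0 ≤ τ * x ^ 2 := mul_nonneg hτ0.le (sq_nonneg x)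
    have h13 : 0 ≤ τ ^ 2 * x ^ 2 := mul_nonneg (sq_nonneg τ) (sq_nonneg x)
    linarith
  have l2 : 2 * τ * (2043 / 1000 * x + (76613 / 100000 + 38723 / 100000 * τ) * x ^ 2) <
      2 * τ * (Q * (τ / 4 + 2 * E * τ) + W * τ + e * (τ ^ 2 / 8 - 4 * E * τ ^ 2) + f * τ ^ 2 / 2) :=
    mul_lt_mul_of_pos_left hmain (by positivity)
  have l3 : 2 * τ * (Q * (τ / 4 + 2 * E * τ) + W * τ + e * (τ ^ 2 / 8 - 4 * E * τ ^ 2) + f * τ ^ 2 / 2) =
      2 * (τ ^ 2 * (Q / 4 + W) + τ ^ 3 * (e / 8 + f / 2)) + 2 * E * (2 * τ ^ 2 * Q - 4 * τ ^ 3 * e) := by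
    ring
  linarith

end Pool.Agent.H999.Theta3
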