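import Pool.Agent.H999.Theta3.Base

set_option autoImplicit false

open Matrix

namespace Pool.Agent.H999.Theta3

open Pool.Agent.K1H99.FCC (N0 rv nsq qf af dt PD rad Fp Qm pp tot al be)

theorem i2_sgn {a b c : ℝ} (hd : a + b + c = 0) (hc : |c| ≤ 12 / 100) (hab : 0 ≤ a * b) :
    |a * b * c| ≤ 2 / 100 * (a ^ 2 + b ^ 2 + c ^ 2) ∧ a ^ 2 + b ^ 2 + c ^ 2 ≤ 288 / 10000 := by
  have hc' : c = -(a + b) := by linarith
  have h2 : c ^ 2 ≤ 144 / 10000 := by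
    have := sq_abs c
    nlinarith [abs_nonneg c]
  constructor
  · rw [abs_mul, abs_of_nonneg hab]
    have h1 : a * b * |c| ≤ a * b * (12 / 100) := mul_le_mul_of_nonneg_left hc hab
    have h3 : 6 * (a * b) ≤ a ^ 2 + b ^ 2 + c ^ 2 := by
      rw [hc']; nlinarith [sq_nonneg (a - b)]
    linarith
  · have : a ^ 2 + b ^ 2 ≤ c ^ 2 := by rw [hc']; nlinarith
    linarith

theorem i2_d {a b c : ℝ} (hd : a + b + c = 0) (ha : |a| ≤ 12 / 100) (hb : |b| ≤ 12 / 100)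
    (hc : |c| ≤ 12 / 100) :
    |a * b * c| ≤ 2 / 100 * (a ^ 2 + b ^ 2 + c ^ 2) ∧ a ^ 2 + b ^ 2 + c ^ 2 ≤ 288 / 10000 := by
  rcases le_or_gt 0 (a * b) with h1 | h1
  · exact i2_sgn hd hc h1
  rcases le_or_gt 0 (b * c) with h2 | h2
  · have := i2_sgn (a := b) (b := c) (c := a) (by linarith) ha h2
    have e1 : b * c * a = a * b * c := by ring
    have e2 : b ^ 2 + c ^ 2 + a ^ 2 = a ^ 2 + b ^ 2 + c ^ 2 := by ring
    rw [e1, e2] at this
    exact this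
  rcases le_or_gt 0 (c * a) with h3 | h3
  · have := i2_sgn (a := c) (b := a) (c := b) (by linarith) hb h3
    have e1 : c * a * b = a * b * c := by ring
    have e2 : c ^ 2 + a ^ 2 + b ^ 2 = a ^ 2 + b ^ 2 + c ^ 2 := by ring
    rw [e1, e2] at this
    exact this
  · exfalso
    have h4 : 0 < (a * b) * (b * c) := mul_pos_of_neg_of_neg h1 h2
    have h5 : (a * b) * (b * c) * (c * a) < 0 := mul_neg_of_pos_of_neg h4 h3
    have h6 : (a * b) * (b * c) * (c * a) = (a * b * c) ^ 2 := by ring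
    rw [h6] at h5
    exact absurd h5 (not_lt.mpr (sq_nonneg _))

theorem i2_w {a b c : ℝ} (ha : |a| ≤ 12 / 100) (hb : |b| ≤ 12 / 100)
    (hc : |c| ≤ 12 / 100) :
    |a * b * c| ≤ 4 / 100 * (a ^ 2 + b ^ 2 + c ^ 2) ∧ a ^ 2 + b ^ 2 + c ^ 2 ≤ 432 / 10000 := by
  rw [abs_mul, abs_mul, ← sq_abs a, ← sq_abs b, ← sq_abs c]
  have h1 := abs_nonneg a
  have h2 := abs_nonneg b
  have h3 := abs_nonneg c
  generalize |a| = x at *
  generalize |b| = y at *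
  generalize |c| = z at *
  constructor
  · have k1 : x * y * z ≤ x * y * (12 / 100) := mul_le_mul_of_nonneg_left hc (by positivity)
    have k2 : x * y * z ≤ y * z * (12 / 100) := by nlinarith [mul_nonneg h2 h3]
    have k3 : x * y * z ≤ x * z * (12 / 100) := by nlinarith [mul_nonneg h1 h3]
    nlinarith [sq_nonneg (x - y), sq_nonneg (y - z), sq_nonneg (x - z)]
  · nlinarith

theorem i2_f {a b c x y z : ℝ} (ha : |a| ≤ 12 / 100) (hb : |b| ≤ 12 / 100)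
    (hc : |c| ≤ 12 / 100) :
    |a * x ^ 2 + b * y ^ 2 + c * z ^ 2| ≤ 12 / 100 * (x ^ 2 + y ^ 2 + z ^ 2) := by
  rw [abs_le] at *
  constructor <;> nlinarith [sq_nonneg x, sq_nonneg y, sq_nonneg z]

theorem i2_cube {x : ℝ} (h0 : 0 ≤ x) (h1 : x ≤ 67 / 1000) : (1 - 35 / 100 * x) ^ 3 ≤ 1 - x := by
  have h2 : 0 ≤ x * (67 / 1000 - x) := mul_nonneg h0 (by linarith)
  have h3 : 0 ≤ x ^ 3 := by positivity
  nlinarith

theorem i2_exp {z : ℝ} (h0 : 0 ≤ z) (h1 : z ≤ 1 / 4) : Real.exp z ≤ 1 + 12 / 10 * z := by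
  have := Real.exp_bound' h0 (by linarith) (n := 2) (by norm_num)
  norm_num [Finset.sum_range_succ] at this
  nlinarith

theorem i2_pm {τ : ℝ} (hτ : 8 ≤ τ) (e : Fin 6 → ℝ) :
    ((∑ i, Real.exp (-(8 * e i))) / 6) ^ (τ / 8) ≤ (∑ i, Real.exp (-(τ * e i))) / 6 := by
  have h := Real.rpow_arith_mean_le_arith_mean_rpow (Finset.univ : Finset (Fin 6))
    (fun _ => (1 / 6 : ℝ)) (fun i => Real.exp (-(8 * e i))) (by intros; norm_num)
    (by norm_num) (by intros; positivity) (p := τ / 8) (by linarith)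
  simp only [← Finset.mul_sum] at h
  rw [show (∑ i, Real.exp (-(8 * e i))) / 6 = 1 / 6 * ∑ i, Real.exp (-(8 * e i)) by ring]
  refine h.trans (le_of_eq ?_)
  rw [show (∑ i, Real.exp (-(τ * e i))) / 6 = 1 / 6 * ∑ i, Real.exp (-(τ * e i)) by ring]
  congr 1
  refine Finset.sum_congr rfl fun i _ => ?_
  rw [← Real.exp_mul]
  congr 1
  ring

theorem i2_psi_nonneg (x : ℝ) : 0 ≤ psi x := by
  unfold psi
  have := Real.add_one_le_exp (-x)
  linarith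

/-- the exponential inequality `6 (exp (1.1 y) - 1) ≥ 6.6 (exp y - 1)` -/
theorem i2_conv {y : ℝ} (hy : 0 ≤ y) :
    11 / 10 * (Real.exp y - 1) ≤ Real.exp (11 / 10 * y) - 1 := by
  have h1 : Real.exp (11 / 10 * y) = Real.exp y * Real.exp (y / 10) := by
    rw [← Real.exp_add]; congr 1; ring
  -- exp (y/10) ≥ 1 + y/10 is not enough; use convexity
  have h2 : (1 : ℝ) ≤ Real.exp y := Real.one_le_exp hy
  have h3 := one_add_mul_self_le_rpow_one_add (s := Real.exp y - 1) (by linarith) (p := 11 / 10)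
    (by norm_num)
  have h4 : (1 + (Real.exp y - 1)) ^ (11 / 10 : ℝ) = Real.exp (11 / 10 * y) := by
    rw [show 1 + (Real.exp y - 1) = Real.exp y by ring, ← Real.exp_mul]
    congr 1
    ring
  rw [h4] at h3
  linarith

theorem LF_ineq2 {τ Δ d1 d2 d3 w1 w2 w3 : ℝ} (hτ : 8 ≤ τ)
    (hd : d1 + d2 + d3 = 0)
    (b1 : |d1| ≤ 12 / 100) (b2 : |d2| ≤ 12 / 100) (b3 : |d3| ≤ 12 / 100)
    (c1 : |w1| ≤ 12 / 100) (c2 : |w2| ≤ 12 / 100) (c3 : |w3| ≤ 12 / 100)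
    (hΔ : 0 ≤ Δ) (hΔ3 : (1 - Δ) ^ 3 = 1 - dx d1 d2 d3 w1 w2 w3)
    (hne : ¬ (d1 = 0 ∧ d2 = 0 ∧ d3 = 0 ∧ w1 = 0 ∧ w2 = 0 ∧ w3 = 0)) :
    12258 / 1000 * (Real.exp (τ * Δ) - 1) <
      2 * (psi (τ * (-d1 / 2 + w1)) + psi (τ * (-d1 / 2 - w1)) +
        psi (τ * (-d2 / 2 + w2)) + psi (τ * (-d2 / 2 - w2)) +
        psi (τ * (-d3 / 2 + w3)) + psi (τ * (-d3 / 2 - w3))) +
      2 * Real.exp (-τ) * (psi (2 * τ * d1) + psi (2 * τ * d2) + psi (2 * τ * d3)) := by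
  obtain ⟨he, hQ⟩ := i2_d hd b1 b2 b3
  obtain ⟨hg, hW⟩ := i2_w c1 c2 c3
  have hf := i2_f (x := w1) (y := w2) (z := w3) b1 b2 b3
  set Q := d1 ^ 2 + d2 ^ 2 + d3 ^ 2 with hQd
  set W := w1 ^ 2 + w2 ^ 2 + w3 ^ 2 with hWd
  have hQ0 : 0 ≤ Q := by positivity
  have hW0 : 0 ≤ W := by positivity
  have hpos : 0 < Q + W := by
    rcases (add_nonneg hQ0 hW0).lt_or_eq with h | h
    · exact h
    · exfalso
      apply hne
      have q0 : Q = 0 := by linarith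
      have w0 : W = 0 := by linarith
      have a1 := sq_nonneg d1
      have a2 := sq_nonneg d2
      have a3 := sq_nonneg d3
      have a4 := sq_nonneg w1
      have a5 := sq_nonneg w2
      have a6 := sq_nonneg w3
      refine ⟨?_, ?_, ?_, ?_, ?_, ?_⟩ <;>
        exact pow_eq_zero_iff (two_ne_zero) |>.mp (by linarith)
  rw [abs_le] at he hg hf
  -- the value of `x`
  have hx : dx d1 d2 d3 w1 w2 w3 = Q / 2 + W - d1 * d2 * d3 - 2 * (w1 * w2 * w3) +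
      (d1 * w1 ^ 2 + d2 * w2 ^ 2 + d3 * w3 ^ 2) := by
    unfold dx; ring
  set x := dx d1 d2 d3 w1 w2 w3 with hxd
  have hx0 : 48 / 100 * Q + 80 / 100 * W ≤ x := by rw [hx]; linarith
  have hx1 : x ≤ 52 / 100 * Q + 120 / 100 * W := by rw [hx]; linarith
  have hx2 : x ≤ 67 / 1000 := by linarith
  have hxp : 0 < x := by nlinarith
  -- bounds for `Δ`
  have hΔp : 0 < Δ := by
    rcases hΔ.lt_or_eq with h | h
    · exact h
    · exfalso
      rw [← h] at hΔ3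
      norm_num at hΔ3
      linarith
  have hΔx : Δ ≤ 35 / 100 * x := by
    by_contra hcon
    push Not at hcon
    have hc : (1 - Δ) ^ 3 < (1 - 35 / 100 * x) ^ 3 := by
      have hodd : Odd 3 := by decide
      exact hodd.strictMono_pow (by linarith)
    exact absurd (i2_cube hxp.le hx2) (not_le.mpr (hΔ3 ▸ hc))
  -- the mean at `τ = 8`
  set e : Fin 6 → ℝ := ![-d1 / 2 + w1, -d1 / 2 - w1, -d2 / 2 + w2, -d2 / 2 - w2,
    -d3 / 2 + w3, -d3 / 2 - w3] with hed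
  have hpm := i2_pm hτ e
  have hS : ∀ t : ℝ, ∑ i, Real.exp (-(t * e i)) = Real.exp (-(t * (-d1 / 2 + w1))) +
      Real.exp (-(t * (-d1 / 2 - w1))) + Real.exp (-(t * (-d2 / 2 + w2))) +
      Real.exp (-(t * (-d2 / 2 - w2))) + Real.exp (-(t * (-d3 / 2 + w3))) +
      Real.exp (-(t * (-d3 / 2 - w3))) := by
    intro t
    simp [Fin.sum_univ_succ, hed]
    ring
  have hm8 : 6 + 14 * Q + 33 * W ≤ ∑ i, Real.exp (-(8 * e i)) := by
    rw [hS 8]
    have t1 := Pool.Agent.K1H99.FCC.exp_t3 (8 * (-d1 / 2 + w1))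
    have t2 := Pool.Agent.K1H99.FCC.exp_t3 (8 * (-d1 / 2 - w1))
    have t3 := Pool.Agent.K1H99.FCC.exp_t3 (8 * (-d2 / 2 + w2))
    have t4 := Pool.Agent.K1H99.FCC.exp_t3 (8 * (-d2 / 2 - w2))
    have t5 := Pool.Agent.K1H99.FCC.exp_t3 (8 * (-d3 / 2 + w3))
    have t6 := Pool.Agent.K1H99.FCC.exp_t3 (8 * (-d3 / 2 - w3))
    have h3 : d3 = -(d1 + d2) := by linarith
    have key : (1 - 8 * (-d1 / 2 + w1) + (8 * (-d1 / 2 + w1)) ^ 2 / 2 -
        (8 * (-d1 / 2 + w1)) ^ 3 / 6) +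
      (1 - 8 * (-d1 / 2 - w1) + (8 * (-d1 / 2 - w1)) ^ 2 / 2 -
        (8 * (-d1 / 2 - w1)) ^ 3 / 6) +
      (1 - 8 * (-d2 / 2 + w2) + (8 * (-d2 / 2 + w2)) ^ 2 / 2 -
        (8 * (-d2 / 2 + w2)) ^ 3 / 6) +
      (1 - 8 * (-d2 / 2 - w2) + (8 * (-d2 / 2 - w2)) ^ 2 / 2 -
        (8 * (-d2 / 2 - w2)) ^ 3 / 6) +
      (1 - 8 * (-d3 / 2 + w3) + (8 * (-d3 / 2 + w3)) ^ 2 / 2 -
        (8 * (-d3 / 2 + w3)) ^ 3 / 6) +
      (1 - 8 * (-d3 / 2 - w3) + (8 * (-d3 / 2 - w3)) ^ 2 / 2 -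
        (8 * (-d3 / 2 - w3)) ^ 3 / 6) = 6 + 16 * Q + 64 * W + 64 * (d1 * d2 * d3) +
        256 * (d1 * w1 ^ 2 + d2 * w2 ^ 2 + d3 * w3 ^ 2) := by
      rw [hQd, hWd, h3]; ring
    linarith
  -- comparison
  have hE : Real.exp (88 / 10 * Δ) ≤ (∑ i, Real.exp (-(8 * e i))) / 6 := by
    have h1 : 88 / 10 * Δ ≤ 1 / 4 := by linarith
    have h2 := i2_exp (z := 88 / 10 * Δ) (by positivity) h1
    refine h2.trans ?_
    linarith
  have hE2 : Real.exp (11 / 10 * (τ * Δ)) ≤ (∑ i, Real.exp (-(τ * e i))) / 6 := by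
    refine le_trans ?_ hpm
    have h1 : Real.exp (11 / 10 * (τ * Δ)) = Real.exp (88 / 10 * Δ) ^ (τ / 8) := by
      rw [← Real.exp_mul]; congr 1; ring
    rw [h1]
    exact Real.rpow_le_rpow (Real.exp_pos _).le hE (by linarith)
  have hy : 0 < τ * Δ := by positivity
  have hcv := i2_conv hy.le
  have hex : 0 < Real.exp (τ * Δ) - 1 := by
    have := Real.add_one_lt_exp hy.ne'
    linarith
  have hlast : 0 ≤ 2 * Real.exp (-τ) * (psi (2 * τ * d1) + psi (2 * τ * d2) +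
      psi (2 * τ * d3)) := by
    have p1 := i2_psi_nonneg (2 * τ * d1)
    have p2 := i2_psi_nonneg (2 * τ * d2)
    have p3 := i2_psi_nonneg (2 * τ * d3)
    positivity
  have hsum : psi (τ * (-d1 / 2 + w1)) + psi (τ * (-d1 / 2 - w1)) +
        psi (τ * (-d2 / 2 + w2)) + psi (τ * (-d2 / 2 - w2)) +
        psi (τ * (-d3 / 2 + w3)) + psi (τ * (-d3 / 2 - w3)) =
        (∑ i, Real.exp (-(τ * e i))) - 6 := by
    rw [hS τ]
    have h3 : d3 = -(d1 + d2) := by linarith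
    unfold psi
    rw [h3]; ring
  rw [hsum]
  linarith

end Pool.Agent.H999.Theta3
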