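import Pool.Agent.H999.Theta3.Coord
import Pool.Agent.H999.Theta3.ThF
import Pool.Agent.H999.Theta3.ThB
import Pool.Agent.H999.Theta3.LossF
import Pool.Agent.H999.Theta3.LossB
import Pool.Agent.H999.Theta3.IneqF1
import Pool.Agent.H999.Theta3.IneqF2
import Pool.Agent.H999.Theta3.IneqB
import Pool.Agent.H999.Theta3.Cmp
import Pool.Agent.H999.Theta3.Dual1

/-!
# The local regions
-/

set_option autoImplicit false

open Matrix

namespace Pool.Agent.H999.Theta3

open Pool.Agent.K1H99.FCC (N0 rv nsq qf af dt PD rad Fp Qm pp tot al be rad_Fp_pos rF_bounds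
  al_bounds be_bounds rad_smul Fp_eq)

lemma Fp_nonneg (i : Fin 6) : 0 ≤ Fp i := by
  unfold Fp
  fin_cases i <;> simp

/-- near the face-centred cubic form -/
theorem near_F {p : Fin 6 → ℝ} (h0 : ∀ i, 0 ≤ p i) (hp : PD p) (h : InF p) (h1 : 1 ≤ rad p) :
    RF (rad p) < Th p ∨ p = (rad p / rad Fp) • Fp := by
  obtain ⟨T, d1, d2, d3, w1, w2, w3, hT, hd, b1, b2, b3, c1, c2, c3, hpe⟩ := InF_coord h0 hp h
  have hF := rad_Fp_pos
  by_cases hz : d1 = 0 ∧ d2 = 0 ∧ d3 = 0 ∧ w1 = 0 ∧ w2 = 0 ∧ w3 = 0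
  · right
    obtain ⟨rfl, rfl, rfl, rfl, rfl, rfl⟩ := hz
    have e : p = T • Fp := by rw [hpe, Fp_eq]
    have e2 : rad p = T * rad Fp := by rw [e, rad_smul hT.le Fp_nonneg]
    rw [e2, mul_div_assoc, div_self hF.ne', mul_one]
    exact e
  · left
    obtain ⟨Δ, hΔ0, hΔ1, h3, hrad⟩ := rad_pp hT hd b1 b2 b3 c1 c2 c3
    rw [← hpe] at hrad
    have hD : 1 ≤ T * rad Fp * (1 - Δ) := by rw [← hrad]; exact h1
    have hTr : 1 ≤ T * rad Fp := by
      have : T * rad Fp * (1 - Δ) ≤ T * rad Fp * 1 :=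
        mul_le_mul_of_nonneg_left (by linarith) (by positivity)
      linarith
    have hτ : 3958 / 1000 ≤ 2 * Real.pi * T := by
      obtain ⟨a1, -⟩ := al_bounds
      have e : 2 * Real.pi * T = 2 * al * (T * rad Fp) := by
        unfold al
        field_simp
      rw [e]
      nlinarith
    have g1 := Th_pp_ge hT hd (by rw [← hpe]; exact hp)
    have g2 := RF_loss hT hΔ0 hD
    rw [← hpe] at g1
    rw [← hrad] at g2
    have key : 12258 / 1000 * (Real.exp (2 * Real.pi * T * Δ) - 1) <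
        2 * (psi (2 * Real.pi * T * (-d1 / 2 + w1)) + psi (2 * Real.pi * T * (-d1 / 2 - w1)) +
        psi (2 * Real.pi * T * (-d2 / 2 + w2)) + psi (2 * Real.pi * T * (-d2 / 2 - w2)) +
        psi (2 * Real.pi * T * (-d3 / 2 + w3)) + psi (2 * Real.pi * T * (-d3 / 2 - w3))) +
        2 * Real.exp (-(2 * Real.pi * T)) * (psi (2 * (2 * Real.pi * T) * d1) +
          psi (2 * (2 * Real.pi * T) * d2) + psi (2 * (2 * Real.pi * T) * d3)) := by
      rcases le_total (2 * Real.pi * T) 8 with h8 | h8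
      · exact LF_ineq1 hτ h8 hd b1 b2 b3 c1 c2 c3 hΔ0 h3 hz
      · exact LF_ineq2 h8 hd b1 b2 b3 c1 c2 c3 hΔ0 h3 hz
    have e4 : ∀ d : ℝ, 2 * (2 * Real.pi * T) * d = 4 * Real.pi * T * d := fun d => by ring
    have eE : Real.exp (-(4 * Real.pi * T)) =
        Real.exp (-(2 * Real.pi * T)) * Real.exp (-(2 * Real.pi * T)) := by
      rw [← Real.exp_add]
      congr 1
      ring
    rw [e4, e4, e4] at key
    rw [eE] at g1
    have hE := Real.exp_pos (-(2 * Real.pi * T))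
    have k2 := mul_lt_mul_of_pos_left key hE
    linarith

/-- near the body-centred cubic form -/
theorem near_B {p : Fin 6 → ℝ} (h0 : ∀ i, 0 ≤ p i) (hp : PD p) (h : InB p)
    (ht : tot p ≤ 254 / 100) (h1 : 1 < rad p) : RF (rad p) < Th p := by
  obtain ⟨T, d1, d2, d3, w1, w2, w3, hT, hTt, hd, b1, b2, b3, c1, c2, c3, hpe⟩ := InB_coord h0 hp h
  have hF := rad_Fp_pos
  have hB := rad_Bp
  have hBp : 0 < rad Bp := by rw [hB]; positivity
  obtain ⟨Δ, hΔ0, hΔ1, h3, hrad⟩ := rad_bb hT hd (b1.trans (by norm_num)) (b2.trans (by norm_num))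
    (b3.trans (by norm_num)) (c1.trans (by norm_num)) (c2.trans (by norm_num))
    (c3.trans (by norm_num))
  rw [← hpe] at hrad
  have hD : 1 ≤ T * rad Bp * (1 - Δ) := by rw [← hrad]; exact h1.le
  have hTr : T * rad Bp * (1 - Δ) ≤ T * rad Bp := by
    have : T * rad Bp * (1 - Δ) ≤ T * rad Bp * 1 :=
      mul_le_mul_of_nonneg_left (by linarith) (by positivity)
    linarith
  have hTr1 : 1 ≤ T * rad Bp := hD.trans hTr
  have hσ : 12467 / 10000 ≤ Real.pi * T := by
    obtain ⟨a1, -⟩ := be_bounds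
    have e : Real.pi * T = be * (T * rad Bp) := by
      unfold be
      rw [hB]
      field_simp
    rw [e]
    nlinarith
  have hT2 : T ≤ 254 / 600 := by linarith
  have hσ' : Real.pi * T ≤ 133 / 100 := by
    have hpi := Real.pi_lt_d6
    nlinarith [Real.pi_pos]
  have hup : rad p ≤ 107 / 100 := by
    rw [hrad]
    refine hTr.trans ?_
    rw [hB]
    have hb := rF_bounds.2
    have : rad Fp ^ 2 ≤ (15874010520 / 10000000000) ^ 2 := pow_le_pow_left₀ hF.le hb 2
    nlinarith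
  have g1 := Th_bb_ge hT hd (by rw [← hpe]; exact hp)
  have g2 := RB_loss hT hΔ0 hD
  have g3 := RF_lt_RB RF_one_eq_RB_one (rad p) h1 hup
  rw [← hpe] at g1
  rw [← hrad] at g2
  have key := LB_ineq hσ hσ' hd b1 b2 b3 c1 c2 c3 hΔ0 h3
  have e2 : ∀ d : ℝ, 2 * (Real.pi * T) * d = 2 * Real.pi * T * d := fun d => by ring
  have e4 : ∀ d : ℝ, 4 * (Real.pi * T) * d = 4 * Real.pi * T * d := fun d => by ring
  have e3 : 3 * (Real.pi * T) * Δ = 3 * Real.pi * T * Δ := by ring
  have eE : Real.exp (-(4 * Real.pi * T)) =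
      Real.exp (-(3 * Real.pi * T)) * Real.exp (-(Real.pi * T)) := by
    rw [← Real.exp_add]
    congr 1
    ring
  rw [e2, e2, e2, e2, e4, e4, e4, e3] at key
  rw [eE] at g1
  have hE := Real.exp_pos (-(3 * Real.pi * T))
  have k2 := mul_le_mul_of_nonneg_left key hE.le
  linarith

end Pool.Agent.H999.Theta3
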