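import Pool.Agent.H999.Theta3.Base

set_option autoImplicit false
set_option linter.unusedSimpArgs false
set_option linter.unusedVariables false

open Matrix

namespace Pool.Agent.H999.Theta3

open Pool.Agent.K1H99.FCC (N0 rv nsq qf af dt PD rad Fp Qm pp tot al be)

theorem tz_frc {α : Type} (n : ℕ) (k : ℕ → α) : frc n k = k n := by
  cases n <;> rfl

theorem tz_ex {n : ℕ} {k : ℕ → Bool} (h : frc n k = true) : ∃ m, m = n ∧ k m = true :=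
  ⟨n, rfl, by rwa [tz_frc] at h⟩

/-- an entry of the table -/
def tz_E (e : ℕ) : Prop := ∃ a b : ℕ, e = a * 281474976710656 + b ∧ a ≤ 2 ^ 41 ∧ b ≤ 2 ^ 41 ∧ Line a b

theorem tz_E0 : tz_E 0 := by
  refine ⟨0, 0, rfl, Nat.zero_le _, Nat.zero_le _, fun x => ?_⟩
  have := Real.exp_pos (-x)
  push_cast
  linarith [mul_pos (show (0 : ℝ) < 2 ^ 40 by norm_num) this]

theorem tz_land96 (x : ℕ) : Nat.land x 79228162514264337593543950335 = x % 2 ^ 96 := by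
  have h := Nat.and_two_pow_sub_one_eq_mod x 96
  have h2 : 2 ^ 96 - 1 = 79228162514264337593543950335 := by norm_num
  rw [h2] at h
  exact h

theorem tz_land48 (x : ℕ) : Nat.land x 281474976710655 = x % 2 ^ 48 := by
  have h := Nat.and_two_pow_sub_one_eq_mod x 48
  have h2 : 2 ^ 48 - 1 = 281474976710655 := by norm_num
  rw [h2] at h
  exact h

theorem tz_land32 (x : ℕ) : Nat.land x 4294967295 = x % 2 ^ 32 := by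
  have h := Nat.and_two_pow_sub_one_eq_mod x 32
  have h2 : 2 ^ 32 - 1 = 4294967295 := by norm_num
  rw [h2] at h
  exact h

theorem tz_shr (x n : ℕ) : Nat.shiftRight x n = x / 2 ^ n := Nat.shiftRight_eq_div_pow x n

theorem tz_ent {T : ℕ} (hT : LinesOK T) (q κ : ℕ) : tz_E (ent T q κ) := by
  unfold ent
  rw [tz_land96, tz_shr T]
  generalize hk : Nat.sub 1023 (Nat.shiftRight (Nat.mul q κ) 44) = k
  have hk' : k ≤ 1023 := by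
    rw [← hk]
    exact Nat.sub_le _ _
  obtain ⟨h1, h2, h3⟩ := hT k hk'
  refine ⟨_, _, ?_, h2, h3, h1⟩
  show T / 2 ^ (96 * k) % 2 ^ 96 = _
  generalize T / 2 ^ (96 * k) = x
  have e1 : x % 2 ^ 48 = x % 2 ^ 96 % 2 ^ 48 := by
    rw [Nat.mod_mod_of_dvd]
    exact pow_dvd_pow 2 (by norm_num)
  rw [e1]
  have e2 : (281474976710656 : ℕ) = 2 ^ 48 := by norm_num
  rw [e2, mul_comm]
  exact (Nat.div_add_mod _ _).symm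

theorem tz_ent' {T : ℕ} (hT : LinesOK T) {e q κ : ℕ} (h : e = ent T q κ) : tz_E e := by
  rw [h]
  exact tz_ent hT q κ

theorem tz_hi {S A B : ℕ} (h : S = A * 281474976710656 + B) (hB : B < 281474976710656) :
    Nat.shiftRight S 48 = A := by
  rw [tz_shr]
  omega

theorem tz_lo {S A B : ℕ} (h : S = A * 281474976710656 + B) (hB : B < 281474976710656) :
    lo S = B := by
  unfold lo
  rw [tz_land48]
  omega

theorem tz_cons {n : ℕ} {P : ℕ → Prop} {x : ℕ} {f : Fin n → ℕ} (h : P x) (h' : ∀ z, P (f z)) :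
    ∀ z, P (Matrix.vecCons x f z) := Fin.cases h h'

theorem tz_sum {n : ℕ} (x : ℕ) (f : Fin n → ℕ) :
    ∑ i, Matrix.vecCons x f i = x + ∑ i, f i := by
  rw [Fin.sum_univ_succ]
  rfl

theorem tz_sumw {n : ℕ} (x y : ℕ) (f g : Fin n → ℕ) :
    ∑ i, Matrix.vecCons x f i * Matrix.vecCons y g i = x * y + ∑ i, f i * g i := by
  rw [Fin.sum_univ_succ]
  rfl

/-- the coefficients of `qf` at the vectors `ZZ` -/
def tz_v0 : Fin 25 → ℕ :=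
  ![1, 0, 0, 1, 1, 0, 1, 4, 1, 1, 1, 1, 0, 1, 4, 4, 1, 4, 4, 1, 1, 0, 1, 1, 0]

/-- the coefficients of `qf` at the vectors `ZZ` -/
def tz_v1 : Fin 25 → ℕ :=
  ![0, 1, 0, 1, 0, 1, 1, 1, 4, 1, 1, 0, 1, 4, 1, 4, 1, 1, 0, 1, 4, 4, 1, 0, 1]

/-- the coefficients of `qf` at the vectors `ZZ` -/
def tz_v2 : Fin 25 → ℕ :=
  ![0, 0, 1, 0, 1, 1, 1, 1, 1, 4, 0, 1, 1, 4, 4, 1, 1, 0, 1, 1, 0, 1, 1, 4, 4]

/-- the coefficients of `qf` at the vectors `ZZ` -/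
def tz_v3 : Fin 25 → ℕ :=
  ![1, 1, 0, 0, 1, 1, 0, 1, 1, 0, 4, 1, 1, 1, 1, 0, 4, 1, 4, 4, 1, 4, 0, 1, 1]

/-- the coefficients of `qf` at the vectors `ZZ` -/
def tz_v4 : Fin 25 → ℕ :=
  ![1, 0, 1, 1, 0, 1, 0, 1, 0, 1, 1, 4, 1, 1, 0, 1, 4, 4, 1, 0, 1, 1, 4, 1, 4]

/-- the coefficients of `qf` at the vectors `ZZ` -/
def tz_v5 : Fin 25 → ℕ :=
  ![0, 1, 1, 1, 1, 0, 0, 0, 1, 1, 1, 1, 4, 0, 1, 1, 0, 1, 1, 4, 4, 1, 4, 4, 1]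

/-- the coefficients of `qf` at the vectors `ZZ` -/
def tz_cf : Fin 6 → Fin 25 → ℕ := ![tz_v0, tz_v1, tz_v2, tz_v3, tz_v4, tz_v5]

theorem tz_c0 : ∀ z, (ZZ z 0) ^ 2 = (tz_cf 0 z : ℤ) := by decide

theorem tz_c1 : ∀ z, (ZZ z 1) ^ 2 = (tz_cf 1 z : ℤ) := by decide

theorem tz_c2 : ∀ z, (ZZ z 2) ^ 2 = (tz_cf 2 z : ℤ) := by decide

theorem tz_c3 : ∀ z, (ZZ z 0 - ZZ z 1) ^ 2 = (tz_cf 3 z : ℤ) := by decide

theorem tz_c4 : ∀ z, (ZZ z 0 - ZZ z 2) ^ 2 = (tz_cf 4 z : ℤ) := by decide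

theorem tz_c5 : ∀ z, (ZZ z 1 - ZZ z 2) ^ 2 = (tz_cf 5 z : ℤ) := by decide

theorem tz_csum : ∀ k, ∑ z, tz_cf k z ≤ 64 := by decide

theorem tz_qf (v : W) (z : Fin 25) : qf (wv v) (rv (ZZ z)) =
    (v.a : ℝ) * (tz_cf 0 z : ℝ) + ((v.b : ℝ) * (tz_cf 1 z : ℝ) + ((v.c : ℝ) * (tz_cf 2 z : ℝ) +
      ((v.d : ℝ) * (tz_cf 3 z : ℝ) + ((v.e : ℝ) * (tz_cf 4 z : ℝ) + (v.f : ℝ) * (tz_cf 5 z : ℝ))))) := by
  have e0 : ((ZZ z 0 : ℤ) : ℝ) ^ 2 = (tz_cf 0 z : ℝ) := by exact_mod_cast tz_c0 z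
  have e1 : ((ZZ z 1 : ℤ) : ℝ) ^ 2 = (tz_cf 1 z : ℝ) := by exact_mod_cast tz_c1 z
  have e2 : ((ZZ z 2 : ℤ) : ℝ) ^ 2 = (tz_cf 2 z : ℝ) := by exact_mod_cast tz_c2 z
  have e3 : (((ZZ z 0 : ℤ) : ℝ) - ((ZZ z 1 : ℤ) : ℝ)) ^ 2 = (tz_cf 3 z : ℝ) := by
    exact_mod_cast tz_c3 z
  have e4 : (((ZZ z 0 : ℤ) : ℝ) - ((ZZ z 2 : ℤ) : ℝ)) ^ 2 = (tz_cf 4 z : ℝ) := by
    exact_mod_cast tz_c4 z
  have e5 : (((ZZ z 1 : ℤ) : ℝ) - ((ZZ z 2 : ℤ) : ℝ)) ^ 2 = (tz_cf 5 z : ℝ) := by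
    exact_mod_cast tz_c5 z
  unfold qf rv
  show (v.a : ℝ) * _ + (v.b : ℝ) * _ + (v.c : ℝ) * _ + (v.d : ℝ) * _ + (v.e : ℝ) * _ +
    (v.f : ℝ) * _ = _
  rw [e0, e1, e2, e3, e4, e5]
  ring

theorem tz_vt0 {B0 B1 B2 B3 B4 B5 τ : ℕ} {v : W} (h : vt B0 B1 B2 B3 B4 B5 τ v = true) :
    1048576 * (v.a * B0 + (v.b * B1 + (v.c * B2 + (v.d * B3 + (v.e * B4 + v.f * B5))))) ≤
      τ * v.g := by
  unfold vt at h
  exact Nat.le_of_ble_eq_true h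

theorem tz_vt {b : Fin 25 → ℕ} {B0 B1 B2 B3 B4 B5 τ : ℕ} {v : W}
    (h0 : B0 = ∑ z, tz_cf 0 z * b z) (h1 : B1 = ∑ z, tz_cf 1 z * b z)
    (h2 : B2 = ∑ z, tz_cf 2 z * b z) (h3 : B3 = ∑ z, tz_cf 3 z * b z)
    (h4 : B4 = ∑ z, tz_cf 4 z * b z) (h5 : B5 = ∑ z, tz_cf 5 z * b z)
    (h : vt B0 B1 B2 B3 B4 B5 τ v = true) :
    1048576 * ∑ z, (b z : ℝ) * qf (wv v) (rv (ZZ z)) ≤ τ * (v.g : ℝ) := by
  have h6 := tz_vt0 h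
  have h7 : (1048576 : ℝ) * ((v.a : ℝ) * (B0 : ℝ) + ((v.b : ℝ) * (B1 : ℝ) + ((v.c : ℝ) * (B2 : ℝ) +
      ((v.d : ℝ) * (B3 : ℝ) + ((v.e : ℝ) * (B4 : ℝ) + (v.f : ℝ) * (B5 : ℝ)))))) ≤
      (τ : ℝ) * (v.g : ℝ) := by
    exact_mod_cast h6
  have c : ∀ {B : ℕ} {k : Fin 6}, B = ∑ z, tz_cf k z * b z →
      (B : ℝ) = ∑ z, (tz_cf k z : ℝ) * (b z : ℝ) := by
    intro B k hB
    rw [hB, Nat.cast_sum]
    exact Finset.sum_congr rfl fun z _ => Nat.cast_mul _ _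
  have h8 : ∑ z, (b z : ℝ) * qf (wv v) (rv (ZZ z)) =
      (v.a : ℝ) * (B0 : ℝ) + ((v.b : ℝ) * (B1 : ℝ) + ((v.c : ℝ) * (B2 : ℝ) +
      ((v.d : ℝ) * (B3 : ℝ) + ((v.e : ℝ) * (B4 : ℝ) + (v.f : ℝ) * (B5 : ℝ))))) := by
    rw [c h0, c h1, c h2, c h3, c h4, c h5]
    simp only [Finset.mul_sum, ← Finset.sum_add_distrib]
    refine Finset.sum_congr rfl fun z _ => ?_
    rw [tz_qf]
    ring
  rw [h8]
  exact h7

theorem tz_div {a b : ℕ} (x : ℕ) (h : x = Nat.div a b) : x * b ≤ a := by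
  rw [h]
  exact Nat.div_mul_le_self _ _

theorem tz_ble {a b : ℕ} (h : Nat.ble a b = false) : b ≤ a := by
  by_contra hc
  have := Nat.ble_eq_true_of_le (show a ≤ b by omega)
  rw [h] at this
  exact absurd this (by decide)

theorem tz_beq {w : ℕ} (hw : w ≠ 0) : Nat.beq w 0 = false := by
  cases w with
  | zero => exact absurd rfl hw
  | succ n => rfl

theorem tz_thr {D : Tab} {j w c A E : ℕ} {k : ℕ → Bool} (h : thr D j w c A E k = true) :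
    ∃ τ, k τ = true ∧ τ * ((256 + j) * 314159266) ≤ (2 * A - rent D.R j) * 13421772800000000 ∧
      (w = 0 → τ * 10000 ≤ E * 13211009024) ∧
      (w ≠ 0 → τ * ((256 + (j + w)) * 314159266) ≤
        ((2 * A + (w * E) * 33999756369 / 2 ^ 40) -
          (rent D.R (j + w) * (D.E / 2 ^ (32 * c) % 2 ^ 32) / 2 ^ 24 + 1)) * 13421772800000000) := by
  unfold thr at h
  simp only [tz_land32, tz_shr, Nat.add_eq, Nat.mul_eq, Nat.sub_eq] at h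
  obtain ⟨τ1, h1, h⟩ := tz_ex h
  obtain ⟨τ2, h2, h⟩ := tz_ex h
  have g1 := tz_div τ1 h1
  have g2 : w = 0 → τ2 * 10000 ≤ E * 13211009024 := by
    intro hw
    have hb : Nat.beq w 0 = true := by rw [hw]; rfl
    rw [hb, cond_true] at h2
    exact tz_div τ2 h2
  have g3 : w ≠ 0 → τ2 * ((256 + (j + w)) * 314159266) ≤
        ((2 * A + (w * E) * 33999756369 / 2 ^ 40) -
          (rent D.R (j + w) * (D.E / 2 ^ (32 * c) % 2 ^ 32) / 2 ^ 24 + 1)) * 13421772800000000 := by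
    intro hw
    rw [tz_beq hw, cond_false] at h2
    exact tz_div τ2 h2
  cases hb : Nat.ble τ1 τ2
  · rw [hb, cond_false] at h
    exact ⟨τ2, h, (Nat.mul_le_mul_right _ (tz_ble hb)).trans g1, g2, g3⟩
  · rw [hb, cond_true] at h
    have hle := Nat.le_of_ble_eq_true hb
    exact ⟨τ1, h, g1, fun hw => (Nat.mul_le_mul_right _ hle).trans (g2 hw),
      fun hw => (Nat.mul_le_mul_right _ hle).trans (g3 hw)⟩


theorem tz_fin {D : Tab} {j w c S B0 B1 B2 B3 B4 B5 : ℕ} {v0 v1 v2 v3 v4 v5 : W}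
    (h : fin6 D j w c S B0 B1 B2 B3 B4 B5 v0 v1 v2 v3 v4 v5 = true) :
    ∃ τ, (1 ≤ τ ∧ j + w ≤ 159 ∧ vt B0 B1 B2 B3 B4 B5 τ v0 = true ∧
      vt B0 B1 B2 B3 B4 B5 τ v1 = true ∧ vt B0 B1 B2 B3 B4 B5 τ v2 = true ∧
      vt B0 B1 B2 B3 B4 B5 τ v3 = true ∧ vt B0 B1 B2 B3 B4 B5 τ v4 = true ∧
      vt B0 B1 B2 B3 B4 B5 τ v5 = true) ∧
      τ * ((256 + j) * 314159266) ≤
        (2 * Nat.shiftRight S 48 - rent D.R j) * 13421772800000000 ∧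
      (w = 0 → τ * 10000 ≤ lo S * 13211009024) ∧
      (w ≠ 0 → τ * ((256 + (j + w)) * 314159266) ≤
        ((2 * Nat.shiftRight S 48 + (w * lo S) * 33999756369 / 2 ^ 40) -
          (rent D.R (j + w) * (D.E / 2 ^ (32 * c) % 2 ^ 32) / 2 ^ 24 + 1)) * 13421772800000000) := by
  unfold fin6 at h
  obtain ⟨τ, hk, h1, h2, h3⟩ := tz_thr h
  simp only [Bool.and_eq_true] at hk
  obtain ⟨⟨⟨⟨⟨⟨⟨k1, k2⟩, k3⟩, k4⟩, k5⟩, k6⟩, k7⟩, k8⟩ := hk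
  exact ⟨τ, ⟨Nat.le_of_ble_eq_true k1, Nat.le_of_ble_eq_true k2, k3, k4, k5, k6, k7, k8⟩,
    h1, h2, h3⟩

theorem tz_core {D : Tab} {j w c : ℕ} {v0 v1 v2 v3 v4 v5 : W} (e : Fin 25 → ℕ)
    (he : ∀ z, tz_E (e z)) {S B0 B1 B2 B3 B4 B5 : ℕ} (hS : S = ∑ z, e z)
    (hB0 : B0 = lo (∑ z, tz_cf 0 z * e z)) (hB1 : B1 = lo (∑ z, tz_cf 1 z * e z))
    (hB2 : B2 = lo (∑ z, tz_cf 2 z * e z)) (hB3 : B3 = lo (∑ z, tz_cf 3 z * e z))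
    (hB4 : B4 = lo (∑ z, tz_cf 4 z * e z)) (hB5 : B5 = lo (∑ z, tz_cf 5 z * e z))
    (h : fin6 D j w c S B0 B1 B2 B3 B4 B5 v0 v1 v2 v3 v4 v5 = true) :
    ∃ (a b : Fin 25 → ℕ) (τ : ℕ), TD D j w c ![v0, v1, v2, v3, v4, v5] a b τ := by
  choose a b hab ha hb hl using he
  have hS' : S = (∑ z, a z) * 281474976710656 + ∑ z, b z := by
    rw [hS, Finset.sum_mul, ← Finset.sum_add_distrib]
    exact Finset.sum_congr rfl fun z _ => hab z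
  have hbs : ∑ z, b z < 281474976710656 := by
    have h1 : ∑ z, b z ≤ ∑ z : Fin 25, 2 ^ 41 := Finset.sum_le_sum fun z _ => hb z
    rw [Finset.sum_const, Finset.card_univ, Fintype.card_fin] at h1
    exact lt_of_le_of_lt h1 (by norm_num)
  have hB : ∀ k, lo (∑ z, tz_cf k z * e z) = ∑ z, tz_cf k z * b z := by
    intro k
    refine tz_lo (A := ∑ z, tz_cf k z * a z) ?_ ?_
    · rw [Finset.sum_mul, ← Finset.sum_add_distrib]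
      refine Finset.sum_congr rfl fun z _ => ?_
      rw [hab z, mul_add, mul_assoc]
    · have h1 : ∑ z, tz_cf k z * b z ≤ ∑ z, tz_cf k z * 2 ^ 41 :=
        Finset.sum_le_sum fun z _ => Nat.mul_le_mul_left _ (hb z)
      rw [← Finset.sum_mul] at h1
      have h2 := Nat.mul_le_mul_right (2 ^ 41) (tz_csum k)
      exact lt_of_le_of_lt (h1.trans h2) (by norm_num)
  rw [hB] at hB0 hB1 hB2 hB3 hB4 hB5
  obtain ⟨τ, ⟨k1, k2, k3, k4, k5, k6, k7, k8⟩, h1, h2, h3⟩ := tz_fin h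
  rw [tz_hi hS' hbs] at h1 h3
  rw [tz_lo hS' hbs] at h2 h3
  refine ⟨a, b, τ, hl, k1, k2, h1, h2, h3, ?_⟩
  have hP : ∀ {v : W}, vt B0 B1 B2 B3 B4 B5 τ v = true →
      1048576 * ∑ z, (b z : ℝ) * qf (wv v) (rv (ZZ z)) ≤ τ * (v.g : ℝ) := fun hv =>
    tz_vt hB0 hB1 hB2 hB3 hB4 hB5 hv
  intro i
  fin_cases i
  · exact hP k3
  · exact hP k4
  · exact hP k5
  · exact hP k6
  · exact hP k7
  · exact hP k8

theorem tz_t7_s0 (e0 e1 e2 e3 e4 e5 e6 : ℕ) : ∑ z, tz_cf 0 z * (![e0, e1, e2, e3, e4, e5, e6, 0, 0, 0, 0, 0, 0, 0, 0, 0, 0, 0, 0, 0, 0, 0, 0, 0, 0] : Fin 25 → ℕ) z =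
    e0 + e3 + e4 + e6 := by
  have h : tz_cf 0 = tz_v0 := rfl
  rw [h, tz_v0]
  simp only [tz_sumw, Fin.sum_univ_zero]
  ring

theorem tz_t7_s1 (e0 e1 e2 e3 e4 e5 e6 : ℕ) : ∑ z, tz_cf 1 z * (![e0, e1, e2, e3, e4, e5, e6, 0, 0, 0, 0, 0, 0, 0, 0, 0, 0, 0, 0, 0, 0, 0, 0, 0, 0] : Fin 25 → ℕ) z =
    e1 + e3 + e5 + e6 := by
  have h : tz_cf 1 = tz_v1 := rfl
  rw [h, tz_v1]
  simp only [tz_sumw, Fin.sum_univ_zero]
  ring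

theorem tz_t7_s2 (e0 e1 e2 e3 e4 e5 e6 : ℕ) : ∑ z, tz_cf 2 z * (![e0, e1, e2, e3, e4, e5, e6, 0, 0, 0, 0, 0, 0, 0, 0, 0, 0, 0, 0, 0, 0, 0, 0, 0, 0] : Fin 25 → ℕ) z =
    e2 + e4 + e5 + e6 := by
  have h : tz_cf 2 = tz_v2 := rfl
  rw [h, tz_v2]
  simp only [tz_sumw, Fin.sum_univ_zero]
  ring

theorem tz_t7_s3 (e0 e1 e2 e3 e4 e5 e6 : ℕ) : ∑ z, tz_cf 3 z * (![e0, e1, e2, e3, e4, e5, e6, 0, 0, 0, 0, 0, 0, 0, 0, 0, 0, 0, 0, 0, 0, 0, 0, 0, 0] : Fin 25 → ℕ) z =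
    e0 + e1 + e4 + e5 := by
  have h : tz_cf 3 = tz_v3 := rfl
  rw [h, tz_v3]
  simp only [tz_sumw, Fin.sum_univ_zero]
  ring

theorem tz_t7_s4 (e0 e1 e2 e3 e4 e5 e6 : ℕ) : ∑ z, tz_cf 4 z * (![e0, e1, e2, e3, e4, e5, e6, 0, 0, 0, 0, 0, 0, 0, 0, 0, 0, 0, 0, 0, 0, 0, 0, 0, 0] : Fin 25 → ℕ) z =
    e0 + e2 + e3 + e5 := by
  have h : tz_cf 4 = tz_v4 := rfl
  rw [h, tz_v4]
  simp only [tz_sumw, Fin.sum_univ_zero]
  ring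

theorem tz_t7_s5 (e0 e1 e2 e3 e4 e5 e6 : ℕ) : ∑ z, tz_cf 5 z * (![e0, e1, e2, e3, e4, e5, e6, 0, 0, 0, 0, 0, 0, 0, 0, 0, 0, 0, 0, 0, 0, 0, 0, 0, 0] : Fin 25 → ℕ) z =
    e1 + e2 + e3 + e4 := by
  have h : tz_cf 5 = tz_v5 := rfl
  rw [h, tz_v5]
  simp only [tz_sumw, Fin.sum_univ_zero]
  ring

theorem tz_t7 {D : Tab} (hT : LinesOK D.T) {j w c : ℕ} {v0 v1 v2 v3 v4 v5 : W}
    (h : t7 D j w c v0 v1 v2 v3 v4 v5 = true) :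
    ∃ (a b : Fin 25 → ℕ) (τ : ℕ), TD D j w c ![v0, v1, v2, v3, v4, v5] a b τ := by
  unfold t7 at h
  obtain ⟨qa, -, h⟩ := tz_ex h
  obtain ⟨qb, -, h⟩ := tz_ex h
  obtain ⟨qc, -, h⟩ := tz_ex h
  obtain ⟨qd, -, h⟩ := tz_ex h
  obtain ⟨qe, -, h⟩ := tz_ex h
  obtain ⟨qf, -, h⟩ := tz_ex h
  obtain ⟨κ, -, h⟩ := tz_ex h
  obtain ⟨e0, h0, h⟩ := tz_ex h
  replace h0 := tz_ent' hT h0
  obtain ⟨e1, h1, h⟩ := tz_ex h
  replace h1 := tz_ent' hT h1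
  obtain ⟨e2, h2, h⟩ := tz_ex h
  replace h2 := tz_ent' hT h2
  obtain ⟨e3, h3, h⟩ := tz_ex h
  replace h3 := tz_ent' hT h3
  obtain ⟨e4, h4, h⟩ := tz_ex h
  replace h4 := tz_ent' hT h4
  obtain ⟨e5, h5, h⟩ := tz_ex h
  replace h5 := tz_ent' hT h5
  obtain ⟨e6, h6, h⟩ := tz_ex h
  replace h6 := tz_ent' hT h6
  obtain ⟨S, hS, h⟩ := tz_ex h
  obtain ⟨B0, hB0, h⟩ := tz_ex h
  obtain ⟨B1, hB1, h⟩ := tz_ex h
  obtain ⟨B2, hB2, h⟩ := tz_ex h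
  obtain ⟨B3, hB3, h⟩ := tz_ex h
  obtain ⟨B4, hB4, h⟩ := tz_ex h
  obtain ⟨B5, hB5, h⟩ := tz_ex h
  refine tz_core ![e0, e1, e2, e3, e4, e5, e6, 0, 0, 0, 0, 0, 0, 0, 0, 0, 0, 0, 0, 0, 0, 0, 0, 0, 0] (tz_cons h0 (tz_cons h1 (tz_cons h2 (tz_cons h3 (tz_cons h4 (tz_cons h5 (tz_cons h6 (tz_cons tz_E0 (tz_cons tz_E0 (tz_cons tz_E0 (tz_cons tz_E0 (tz_cons tz_E0 (tz_cons tz_E0 (tz_cons tz_E0 (tz_cons tz_E0 (tz_cons tz_E0 (tz_cons tz_E0 (tz_cons tz_E0 (tz_cons tz_E0 (tz_cons tz_E0 (tz_cons tz_E0 (tz_cons tz_E0 (tz_cons tz_E0 (tz_cons tz_E0 (tz_cons tz_E0 (fun z => Fin.elim0 z))))))))))))))))))))))))))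
    ?_ ?_ ?_ ?_ ?_ ?_ ?_ h
  · rw [hS]
    simp only [tz_sum, Fin.sum_univ_zero, Nat.add_eq, add_zero]
  · rw [hB0]
    refine congrArg lo ?_
    rw [tz_t7_s0]
    simp only [Nat.add_eq, Nat.mul_eq]
    ring
  · rw [hB1]
    refine congrArg lo ?_
    rw [tz_t7_s1]
    simp only [Nat.add_eq, Nat.mul_eq]
    ring
  · rw [hB2]
    refine congrArg lo ?_
    rw [tz_t7_s2]
    simp only [Nat.add_eq, Nat.mul_eq]
    ring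
  · rw [hB3]
    refine congrArg lo ?_
    rw [tz_t7_s3]
    simp only [Nat.add_eq, Nat.mul_eq]
    ring
  · rw [hB4]
    refine congrArg lo ?_
    rw [tz_t7_s4]
    simp only [Nat.add_eq, Nat.mul_eq]
    ring
  · rw [hB5]
    refine congrArg lo ?_
    rw [tz_t7_s5]
    simp only [Nat.add_eq, Nat.mul_eq]
    ring

theorem tz_t13_s0 (e0 e1 e2 e3 e4 e5 e6 e7 e8 e9 e10 e11 e12 : ℕ) : ∑ z, tz_cf 0 z * (![e0, e1, e2, e3, e4, e5, e6, e7, e8, e9, e10, e11, e12, 0, 0, 0, 0, 0, 0, 0, 0, 0, 0, 0, 0] : Fin 25 → ℕ) z =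
    e0 + e3 + e4 + e6 + 4 * e7 + e8 + e9 + e10 + e11 := by
  have h : tz_cf 0 = tz_v0 := rfl
  rw [h, tz_v0]
  simp only [tz_sumw, Fin.sum_univ_zero]
  ring

theorem tz_t13_s1 (e0 e1 e2 e3 e4 e5 e6 e7 e8 e9 e10 e11 e12 : ℕ) : ∑ z, tz_cf 1 z * (![e0, e1, e2, e3, e4, e5, e6, e7, e8, e9, e10, e11, e12, 0, 0, 0, 0, 0, 0, 0, 0, 0, 0, 0, 0] : Fin 25 → ℕ) z =
    e1 + e3 + e5 + e6 + e7 + 4 * e8 + e9 + e10 + e12 := by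
  have h : tz_cf 1 = tz_v1 := rfl
  rw [h, tz_v1]
  simp only [tz_sumw, Fin.sum_univ_zero]
  ring

theorem tz_t13_s2 (e0 e1 e2 e3 e4 e5 e6 e7 e8 e9 e10 e11 e12 : ℕ) : ∑ z, tz_cf 2 z * (![e0, e1, e2, e3, e4, e5, e6, e7, e8, e9, e10, e11, e12, 0, 0, 0, 0, 0, 0, 0, 0, 0, 0, 0, 0] : Fin 25 → ℕ) z =
    e2 + e4 + e5 + e6 + e7 + e8 + 4 * e9 + e11 + e12 := by
  have h : tz_cf 2 = tz_v2 := rfl
  rw [h, tz_v2]
  simp only [tz_sumw, Fin.sum_univ_zero]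
  ring

theorem tz_t13_s3 (e0 e1 e2 e3 e4 e5 e6 e7 e8 e9 e10 e11 e12 : ℕ) : ∑ z, tz_cf 3 z * (![e0, e1, e2, e3, e4, e5, e6, e7, e8, e9, e10, e11, e12, 0, 0, 0, 0, 0, 0, 0, 0, 0, 0, 0, 0] : Fin 25 → ℕ) z =
    e0 + e1 + e4 + e5 + e7 + e8 + 4 * e10 + e11 + e12 := by
  have h : tz_cf 3 = tz_v3 := rfl
  rw [h, tz_v3]
  simp only [tz_sumw, Fin.sum_univ_zero]
  ring

theorem tz_t13_s4 (e0 e1 e2 e3 e4 e5 e6 e7 e8 e9 e10 e11 e12 : ℕ) : ∑ z, tz_cf 4 z * (![e0, e1, e2, e3, e4, e5, e6, e7, e8, e9, e10, e11, e12, 0, 0, 0, 0, 0, 0, 0, 0, 0, 0, 0, 0] : Fin 25 → ℕ) z =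
    e0 + e2 + e3 + e5 + e7 + e9 + e10 + 4 * e11 + e12 := by
  have h : tz_cf 4 = tz_v4 := rfl
  rw [h, tz_v4]
  simp only [tz_sumw, Fin.sum_univ_zero]
  ring

theorem tz_t13_s5 (e0 e1 e2 e3 e4 e5 e6 e7 e8 e9 e10 e11 e12 : ℕ) : ∑ z, tz_cf 5 z * (![e0, e1, e2, e3, e4, e5, e6, e7, e8, e9, e10, e11, e12, 0, 0, 0, 0, 0, 0, 0, 0, 0, 0, 0, 0] : Fin 25 → ℕ) z =
    e1 + e2 + e3 + e4 + e8 + e9 + e10 + e11 + 4 * e12 := by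
  have h : tz_cf 5 = tz_v5 := rfl
  rw [h, tz_v5]
  simp only [tz_sumw, Fin.sum_univ_zero]
  ring

theorem tz_t13 {D : Tab} (hT : LinesOK D.T) {j w c : ℕ} {v0 v1 v2 v3 v4 v5 : W}
    (h : t13 D j w c v0 v1 v2 v3 v4 v5 = true) :
    ∃ (a b : Fin 25 → ℕ) (τ : ℕ), TD D j w c ![v0, v1, v2, v3, v4, v5] a b τ := by
  unfold t13 at h
  obtain ⟨qa, -, h⟩ := tz_ex h
  obtain ⟨qb, -, h⟩ := tz_ex h
  obtain ⟨qc, -, h⟩ := tz_ex h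
  obtain ⟨qd, -, h⟩ := tz_ex h
  obtain ⟨qe, -, h⟩ := tz_ex h
  obtain ⟨qf, -, h⟩ := tz_ex h
  obtain ⟨κ, -, h⟩ := tz_ex h
  obtain ⟨e0, h0, h⟩ := tz_ex h
  replace h0 := tz_ent' hT h0
  obtain ⟨e1, h1, h⟩ := tz_ex h
  replace h1 := tz_ent' hT h1
  obtain ⟨e2, h2, h⟩ := tz_ex h
  replace h2 := tz_ent' hT h2
  obtain ⟨e3, h3, h⟩ := tz_ex h
  replace h3 := tz_ent' hT h3
  obtain ⟨e4, h4, h⟩ := tz_ex h
  replace h4 := tz_ent' hT h4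
  obtain ⟨e5, h5, h⟩ := tz_ex h
  replace h5 := tz_ent' hT h5
  obtain ⟨e6, h6, h⟩ := tz_ex h
  replace h6 := tz_ent' hT h6
  obtain ⟨e7, h7, h⟩ := tz_ex h
  replace h7 := tz_ent' hT h7
  obtain ⟨e8, h8, h⟩ := tz_ex h
  replace h8 := tz_ent' hT h8
  obtain ⟨e9, h9, h⟩ := tz_ex h
  replace h9 := tz_ent' hT h9
  obtain ⟨e10, h10, h⟩ := tz_ex h
  replace h10 := tz_ent' hT h10
  obtain ⟨e11, h11, h⟩ := tz_ex h
  replace h11 := tz_ent' hT h11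
  obtain ⟨e12, h12, h⟩ := tz_ex h
  replace h12 := tz_ent' hT h12
  obtain ⟨S, hS, h⟩ := tz_ex h
  obtain ⟨B0, hB0, h⟩ := tz_ex h
  obtain ⟨B1, hB1, h⟩ := tz_ex h
  obtain ⟨B2, hB2, h⟩ := tz_ex h
  obtain ⟨B3, hB3, h⟩ := tz_ex h
  obtain ⟨B4, hB4, h⟩ := tz_ex h
  obtain ⟨B5, hB5, h⟩ := tz_ex h
  refine tz_core ![e0, e1, e2, e3, e4, e5, e6, e7, e8, e9, e10, e11, e12, 0, 0, 0, 0, 0, 0, 0, 0, 0, 0, 0, 0] (tz_cons h0 (tz_cons h1 (tz_cons h2 (tz_cons h3 (tz_cons h4 (tz_cons h5 (tz_cons h6 (tz_cons h7 (tz_cons h8 (tz_cons h9 (tz_cons h10 (tz_cons h11 (tz_cons h12 (tz_cons tz_E0 (tz_cons tz_E0 (tz_cons tz_E0 (tz_cons tz_E0 (tz_cons tz_E0 (tz_cons tz_E0 (tz_cons tz_E0 (tz_cons tz_E0 (tz_cons tz_E0 (tz_cons tz_E0 (tz_cons tz_E0 (tz_cons tz_E0 (fun z => Fin.elim0 z))))))))))))))))))))))))))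
    ?_ ?_ ?_ ?_ ?_ ?_ ?_ h
  · rw [hS]
    simp only [tz_sum, Fin.sum_univ_zero, Nat.add_eq, add_zero]
  · rw [hB0]
    refine congrArg lo ?_
    rw [tz_t13_s0]
    simp only [Nat.add_eq, Nat.mul_eq]
    ring
  · rw [hB1]
    refine congrArg lo ?_
    rw [tz_t13_s1]
    simp only [Nat.add_eq, Nat.mul_eq]
    ring
  · rw [hB2]
    refine congrArg lo ?_
    rw [tz_t13_s2]
    simp only [Nat.add_eq, Nat.mul_eq]
    ring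
  · rw [hB3]
    refine congrArg lo ?_
    rw [tz_t13_s3]
    simp only [Nat.add_eq, Nat.mul_eq]
    ring
  · rw [hB4]
    refine congrArg lo ?_
    rw [tz_t13_s4]
    simp only [Nat.add_eq, Nat.mul_eq]
    ring
  · rw [hB5]
    refine congrArg lo ?_
    rw [tz_t13_s5]
    simp only [Nat.add_eq, Nat.mul_eq]
    ring

theorem tz_t25_s0 (e0 e1 e2 e3 e4 e5 e6 e7 e8 e9 e10 e11 e12 e13 e14 e15 e16 e17 e18 e19 e20 e21 e22 e23 e24 : ℕ) : ∑ z, tz_cf 0 z * (![e0, e1, e2, e3, e4, e5, e6, e7, e8, e9, e10, e11, e12, e13, e14, e15, e16, e17, e18, e19, e20, e21, e22, e23, e24] : Fin 25 → ℕ) z =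
    e0 + e3 + e4 + e6 + 4 * e7 + e8 + e9 + e10 + e11 + e13 + 4 * e14 + 4 * e15 + e16 + 4 * e17 + 4 * e18 + e19 + e20 + e22 + e23 := by
  have h : tz_cf 0 = tz_v0 := rfl
  rw [h, tz_v0]
  simp only [tz_sumw, Fin.sum_univ_zero]
  ring

theorem tz_t25_s1 (e0 e1 e2 e3 e4 e5 e6 e7 e8 e9 e10 e11 e12 e13 e14 e15 e16 e17 e18 e19 e20 e21 e22 e23 e24 : ℕ) : ∑ z, tz_cf 1 z * (![e0, e1, e2, e3, e4, e5, e6, e7, e8, e9, e10, e11, e12, e13, e14, e15, e16, e17, e18, e19, e20, e21, e22, e23, e24] : Fin 25 → ℕ) z =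
    e1 + e3 + e5 + e6 + e7 + 4 * e8 + e9 + e10 + e12 + 4 * e13 + e14 + 4 * e15 + e16 + e17 + e19 + 4 * e20 + 4 * e21 + e22 + e24 := by
  have h : tz_cf 1 = tz_v1 := rfl
  rw [h, tz_v1]
  simp only [tz_sumw, Fin.sum_univ_zero]
  ring

theorem tz_t25_s2 (e0 e1 e2 e3 e4 e5 e6 e7 e8 e9 e10 e11 e12 e13 e14 e15 e16 e17 e18 e19 e20 e21 e22 e23 e24 : ℕ) : ∑ z, tz_cf 2 z * (![e0, e1, e2, e3, e4, e5, e6, e7, e8, e9, e10, e11, e12, e13, e14, e15, e16, e17, e18, e19, e20, e21, e22, e23, e24] : Fin 25 → ℕ) z =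
    e2 + e4 + e5 + e6 + e7 + e8 + 4 * e9 + e11 + e12 + 4 * e13 + 4 * e14 + e15 + e16 + e18 + e19 + e21 + e22 + 4 * e23 + 4 * e24 := by
  have h : tz_cf 2 = tz_v2 := rfl
  rw [h, tz_v2]
  simp only [tz_sumw, Fin.sum_univ_zero]
  ring

theorem tz_t25_s3 (e0 e1 e2 e3 e4 e5 e6 e7 e8 e9 e10 e11 e12 e13 e14 e15 e16 e17 e18 e19 e20 e21 e22 e23 e24 : ℕ) : ∑ z, tz_cf 3 z * (![e0, e1, e2, e3, e4, e5, e6, e7, e8, e9, e10, e11, e12, e13, e14, e15, e16, e17, e18, e19, e20, e21, e22, e23, e24] : Fin 25 → ℕ) z =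
    e0 + e1 + e4 + e5 + e7 + e8 + 4 * e10 + e11 + e12 + e13 + e14 + 4 * e16 + e17 + 4 * e18 + 4 * e19 + e20 + 4 * e21 + e23 + e24 := by
  have h : tz_cf 3 = tz_v3 := rfl
  rw [h, tz_v3]
  simp only [tz_sumw, Fin.sum_univ_zero]
  ring

theorem tz_t25_s4 (e0 e1 e2 e3 e4 e5 e6 e7 e8 e9 e10 e11 e12 e13 e14 e15 e16 e17 e18 e19 e20 e21 e22 e23 e24 : ℕ) : ∑ z, tz_cf 4 z * (![e0, e1, e2, e3, e4, e5, e6, e7, e8, e9, e10, e11, e12, e13, e14, e15, e16, e17, e18, e19, e20, e21, e22, e23, e24] : Fin 25 → ℕ) z =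
    e0 + e2 + e3 + e5 + e7 + e9 + e10 + 4 * e11 + e12 + e13 + e15 + 4 * e16 + 4 * e17 + e18 + e20 + e21 + 4 * e22 + e23 + 4 * e24 := by
  have h : tz_cf 4 = tz_v4 := rfl
  rw [h, tz_v4]
  simp only [tz_sumw, Fin.sum_univ_zero]
  ring

theorem tz_t25_s5 (e0 e1 e2 e3 e4 e5 e6 e7 e8 e9 e10 e11 e12 e13 e14 e15 e16 e17 e18 e19 e20 e21 e22 e23 e24 : ℕ) : ∑ z, tz_cf 5 z * (![e0, e1, e2, e3, e4, e5, e6, e7, e8, e9, e10, e11, e12, e13, e14, e15, e16, e17, e18, e19, e20, e21, e22, e23, e24] : Fin 25 → ℕ) z =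
    e1 + e2 + e3 + e4 + e8 + e9 + e10 + e11 + 4 * e12 + e14 + e15 + e17 + e18 + 4 * e19 + 4 * e20 + e21 + 4 * e22 + 4 * e23 + e24 := by
  have h : tz_cf 5 = tz_v5 := rfl
  rw [h, tz_v5]
  simp only [tz_sumw, Fin.sum_univ_zero]
  ring

theorem tz_t25 {D : Tab} (hT : LinesOK D.T) {j w c : ℕ} {v0 v1 v2 v3 v4 v5 : W}
    (h : t25 D j w c v0 v1 v2 v3 v4 v5 = true) :
    ∃ (a b : Fin 25 → ℕ) (τ : ℕ), TD D j w c ![v0, v1, v2, v3, v4, v5] a b τ := by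
  unfold t25 at h
  obtain ⟨qa, -, h⟩ := tz_ex h
  obtain ⟨qb, -, h⟩ := tz_ex h
  obtain ⟨qc, -, h⟩ := tz_ex h
  obtain ⟨qd, -, h⟩ := tz_ex h
  obtain ⟨qe, -, h⟩ := tz_ex h
  obtain ⟨qf, -, h⟩ := tz_ex h
  obtain ⟨κ, -, h⟩ := tz_ex h
  obtain ⟨e0, h0, h⟩ := tz_ex h
  replace h0 := tz_ent' hT h0
  obtain ⟨e1, h1, h⟩ := tz_ex h
  replace h1 := tz_ent' hT h1
  obtain ⟨e2, h2, h⟩ := tz_ex h
  replace h2 := tz_ent' hT h2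
  obtain ⟨e3, h3, h⟩ := tz_ex h
  replace h3 := tz_ent' hT h3
  obtain ⟨e4, h4, h⟩ := tz_ex h
  replace h4 := tz_ent' hT h4
  obtain ⟨e5, h5, h⟩ := tz_ex h
  replace h5 := tz_ent' hT h5
  obtain ⟨e6, h6, h⟩ := tz_ex h
  replace h6 := tz_ent' hT h6
  obtain ⟨e7, h7, h⟩ := tz_ex h
  replace h7 := tz_ent' hT h7
  obtain ⟨e8, h8, h⟩ := tz_ex h
  replace h8 := tz_ent' hT h8
  obtain ⟨e9, h9, h⟩ := tz_ex h
  replace h9 := tz_ent' hT h9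
  obtain ⟨e10, h10, h⟩ := tz_ex h
  replace h10 := tz_ent' hT h10
  obtain ⟨e11, h11, h⟩ := tz_ex h
  replace h11 := tz_ent' hT h11
  obtain ⟨e12, h12, h⟩ := tz_ex h
  replace h12 := tz_ent' hT h12
  obtain ⟨e13, h13, h⟩ := tz_ex h
  replace h13 := tz_ent' hT h13
  obtain ⟨e14, h14, h⟩ := tz_ex h
  replace h14 := tz_ent' hT h14
  obtain ⟨e15, h15, h⟩ := tz_ex h
  replace h15 := tz_ent' hT h15
  obtain ⟨e16, h16, h⟩ := tz_ex h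
  replace h16 := tz_ent' hT h16
  obtain ⟨e17, h17, h⟩ := tz_ex h
  replace h17 := tz_ent' hT h17
  obtain ⟨e18, h18, h⟩ := tz_ex h
  replace h18 := tz_ent' hT h18
  obtain ⟨e19, h19, h⟩ := tz_ex h
  replace h19 := tz_ent' hT h19
  obtain ⟨e20, h20, h⟩ := tz_ex h
  replace h20 := tz_ent' hT h20
  obtain ⟨e21, h21, h⟩ := tz_ex h
  replace h21 := tz_ent' hT h21
  obtain ⟨e22, h22, h⟩ := tz_ex h
  replace h22 := tz_ent' hT h22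
  obtain ⟨e23, h23, h⟩ := tz_ex h
  replace h23 := tz_ent' hT h23
  obtain ⟨e24, h24, h⟩ := tz_ex h
  replace h24 := tz_ent' hT h24
  obtain ⟨S, hS, h⟩ := tz_ex h
  obtain ⟨B0, hB0, h⟩ := tz_ex h
  obtain ⟨B1, hB1, h⟩ := tz_ex h
  obtain ⟨B2, hB2, h⟩ := tz_ex h
  obtain ⟨B3, hB3, h⟩ := tz_ex h
  obtain ⟨B4, hB4, h⟩ := tz_ex h
  obtain ⟨B5, hB5, h⟩ := tz_ex h
  refine tz_core ![e0, e1, e2, e3, e4, e5, e6, e7, e8, e9, e10, e11, e12, e13, e14, e15, e16, e17, e18, e19, e20, e21, e22, e23, e24] (tz_cons h0 (tz_cons h1 (tz_cons h2 (tz_cons h3 (tz_cons h4 (tz_cons h5 (tz_cons h6 (tz_cons h7 (tz_cons h8 (tz_cons h9 (tz_cons h10 (tz_cons h11 (tz_cons h12 (tz_cons h13 (tz_cons h14 (tz_cons h15 (tz_cons h16 (tz_cons h17 (tz_cons h18 (tz_cons h19 (tz_cons h20 (tz_cons h21 (tz_cons h22 (tz_cons h23 (tz_cons h24 (fun z => Fin.elim0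 z))))))))))))))))))))))))))
    ?_ ?_ ?_ ?_ ?_ ?_ ?_ h
  · rw [hS]
    simp only [tz_sum, Fin.sum_univ_zero, Nat.add_eq, add_zero]
  · rw [hB0]
    refine congrArg lo ?_
    rw [tz_t25_s0]
    simp only [Nat.add_eq, Nat.mul_eq]
    ring
  · rw [hB1]
    refine congrArg lo ?_
    rw [tz_t25_s1]
    simp only [Nat.add_eq, Nat.mul_eq]
    ring
  · rw [hB2]
    refine congrArg lo ?_
    rw [tz_t25_s2]
    simp only [Nat.add_eq, Nat.mul_eq]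
    ring
  · rw [hB3]
    refine congrArg lo ?_
    rw [tz_t25_s3]
    simp only [Nat.add_eq, Nat.mul_eq]
    ring
  · rw [hB4]
    refine congrArg lo ?_
    rw [tz_t25_s4]
    simp only [Nat.add_eq, Nat.mul_eq]
    ring
  · rw [hB5]
    refine congrArg lo ?_
    rw [tz_t25_s5]
    simp only [Nat.add_eq, Nat.mul_eq]
    ring

theorem tz_spec {D : Tab} (hT : LinesOK D.T) {z j w c : ℕ} {v0 v1 v2 v3 v4 v5 : W}
    (h : tz D z j w c v0 v1 v2 v3 v4 v5 = true) :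
    ∃ (a b : Fin 25 → ℕ) (τ : ℕ), TD D j w c ![v0, v1, v2, v3, v4, v5] a b τ := by
  unfold tz at h
  split at h
  · exact tz_t7 hT h
  · exact tz_t13 hT h
  · exact tz_t25 hT h

end Pool.Agent.H999.Theta3
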